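import Pool.Agent.Lib.MP_31f1e8_mp.KM.Defs

/-!
Basic facts on `ee` and the linear part of the algebra `Bd`.

Proofs.
* `ee_*`: unfold `ee`; `Complex.norm_exp_ofReal_mul_I` style lemmas (rewrite the exponent as
  `((2 π t : ℝ) : ℂ) * I`), `Complex.exp_add`, `Complex.exp_int_mul_two_pi_mul_I`, `Complex.exp_conj`;
  `ee_lip`: `‖exp(i a) - exp(i b)‖ ≤ |a - b|` (Mathlib: `Complex.norm_exp_mul_I_sub...` or
  `Real.norm_exp_I_mul_ofReal_sub_one_le` after factoring `ee t`).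
* A representation `Rep` is changed coefficientwise: `add`: `c + c'`, `s + s'`, `l + l'`
  (`Summable.add`, `tsum_add`); `neg`: `-c`, same `s l`; `sub` = `add` of `neg`; `smul`: `a c`, `|a| s`,
  `|a| l`; `mono`, `congr`, `sub_set` trivial (`congr`: rewrite the value in `rep`, it is only asked for
  `ω ∈ D`).
* `rad`: the same `c s l`; `r' ^ k ≤ r ^ k` and `(r'/2)^k ≤ (r/2)^k` (`pow_le_pow_left₀`), summable by
  comparison, `tsum_le_tsum`, `τ ≥ 0`.
* `nonneg`: both sums are nonnegative (`tsum_nonneg`).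
* `ofConst`, `ofOm`: `c k ω = if k = 0 then u ω else 0`, `s`, `l` similarly supported at `0`
  (`hasSum_ite_eq`, `tsum_ite_eq`, `natAbs 0 = 0`).
* `ofCos`: `k = 0`: constant `1`. `k > 0`: `c j = 1/2` for `j = k, -k` and `0` otherwise; `l = 0`;
  `s j = 1/2`; sum `(r^k + r^k)/2`. `HasSum` over the finite set `{k, -k}` (`hasSum_sum_of_ne_finset_zero`);
  `(ee (kθ) + ee (-kθ))/2 = cos(2π k θ)`. `ofSin`: `c (±k) = ± 1/(2 i)`; `k = 0`: zero function.
* `abs_le`: `‖f ω θ‖ = ‖∑ c_k ee(kθ)‖ ≤ ∑ s_k ≤ ∑ s_k r^|k| ≤ M` (`tsum_of_norm_bounded` or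
  `norm_tsum_le_tsum_norm`); `lip`: the difference of the two series, termwise `≤ l_k |ω - ω'|`,
  `∑ l_k ≤ ∑ l_k (r/2)^|k| ≤ M / τ` (`r/2 ≥ 1`).
* `per`: termwise `ee (k (θ+1)) = ee (k θ)`, uniqueness of the sum, `Complex.ofReal_injective`.
* `cont`: `continuous_tsum` with bound `s_k` (`s_k ≤ s_k r^|k|`), then take real parts
  (`f ω θ = re (∑' ...)`).
-/

namespace Pool.Agent.MP31f1e8.KM

variable {D : Set ℝ} {τ r r' M N : ℝ} {f g : ℝ → ℝ → ℝ}

private theorem ee_eq (t : ℝ) :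
    ee t = Complex.exp (((2 * Real.pi * t : ℝ) : ℂ) * Complex.I) := by
  unfold ee; push_cast; rfl

theorem ee_norm (t : ℝ) : ‖ee t‖ = 1 := by
  rw [ee_eq, Complex.norm_exp_ofReal_mul_I]

theorem ee_zero : ee 0 = 1 := by simp [ee]

theorem ee_add (s t : ℝ) : ee (s + t) = ee s * ee t := by
  unfold ee
  rw [← Complex.exp_add]
  congr 1
  push_cast
  ring

theorem ee_int (k : ℤ) : ee k = 1 := by
  have h := Complex.exp_int_mul_two_pi_mul_I k
  unfold ee
  rw [← h]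
  congr 1
  push_cast
  ring

theorem ee_conj (t : ℝ) : (starRingEnd ℂ) (ee t) = ee (-t) := by
  rw [ee_eq, ee_eq, ← Complex.exp_conj]
  congr 1
  rw [map_mul, Complex.conj_ofReal, Complex.conj_I]
  push_cast
  ring

theorem ee_re (t : ℝ) : (ee t).re = Real.cos (2 * Real.pi * t) := by
  rw [ee_eq, Complex.exp_ofReal_mul_I_re]

theorem ee_im (t : ℝ) : (ee t).im = Real.sin (2 * Real.pi * t) := by
  rw [ee_eq, Complex.exp_ofReal_mul_I_im]

theorem ee_lip (s t : ℝ) : ‖ee s - ee t‖ ≤ 2 * Real.pi * |s - t| := by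
  have h : ee s - ee t = ee t * (ee (s - t) - 1) := by
    rw [mul_sub, ← ee_add, mul_one]
    congr 2
    ring
  rw [h, norm_mul, ee_norm, one_mul, ee_eq, mul_comm]
  refine (Real.norm_exp_I_mul_ofReal_sub_one_le (x := 2 * Real.pi * (s - t))).trans ?_
  rw [Real.norm_eq_abs, abs_mul, abs_of_pos Real.two_pi_pos]

theorem Bd.nonneg (hτ : 0 ≤ τ) (hr : 0 ≤ r) (h : Bd D τ r f M) : 0 ≤ M := by
  obtain ⟨c, s, l, h⟩ := h
  have h1 : 0 ≤ ∑' k : ℤ, s k * r ^ k.natAbs :=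
    tsum_nonneg fun k => mul_nonneg (h.s_nn k) (pow_nonneg hr _)
  have h2 : 0 ≤ ∑' k : ℤ, l k * (r / 2) ^ k.natAbs :=
    tsum_nonneg fun k => mul_nonneg (h.l_nn k) (pow_nonneg (by positivity) _)
  have h3 := h.le
  have h4 := mul_nonneg hτ h2
  linarith

theorem Bd.mono (h : Bd D τ r f M) (hM : M ≤ N) : Bd D τ r f N := by
  obtain ⟨c, s, l, h⟩ := h
  exact ⟨c, s, l, { h with le := h.le.trans hM }⟩

theorem Bd.rad (hτ : 0 ≤ τ) (h : Bd D τ r f M) (h0 : 0 ≤ r') (h1 : r' ≤ r) : Bd D τ r' f M := by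
  obtain ⟨c, s, l, h⟩ := h
  have e1 : ∀ k : ℤ, s k * r' ^ k.natAbs ≤ s k * r ^ k.natAbs := fun k =>
    mul_le_mul_of_nonneg_left (pow_le_pow_left₀ h0 h1 _) (h.s_nn k)
  have e2 : ∀ k : ℤ, l k * (r' / 2) ^ k.natAbs ≤ l k * (r / 2) ^ k.natAbs := fun k =>
    mul_le_mul_of_nonneg_left (pow_le_pow_left₀ (by positivity) (by linarith) _) (h.l_nn k)
  have s1 : Summable fun k : ℤ => s k * r' ^ k.natAbs :=
    Summable.of_nonneg_of_le (fun k => mul_nonneg (h.s_nn k) (pow_nonneg h0 _)) e1 h.ssum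
  have s2 : Summable fun k : ℤ => l k * (r' / 2) ^ k.natAbs :=
    Summable.of_nonneg_of_le (fun k => mul_nonneg (h.l_nn k) (pow_nonneg (by positivity) _)) e2
      h.lsum
  refine ⟨c, s, l, ⟨h.s_nn, h.l_nn, h.sup, h.lip, s1, s2, ?_, h.rep⟩⟩
  refine le_trans (add_le_add (s1.tsum_le_tsum e1 h.ssum)
    (mul_le_mul_of_nonneg_left (s2.tsum_le_tsum e2 h.lsum) hτ)) h.le

theorem Bd.sub_set {D' : Set ℝ} (h : Bd D τ r f M) (hD : D' ⊆ D) : Bd D' τ r f M := by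
  obtain ⟨c, s, l, h⟩ := h
  exact ⟨c, s, l, ⟨h.s_nn, h.l_nn, fun k ω hω => h.sup k ω (hD hω),
    fun k ω hω ω' hω' => h.lip k ω (hD hω) ω' (hD hω'), h.ssum, h.lsum, h.le,
    fun ω hω => h.rep ω (hD hω)⟩⟩

theorem Bd.congr (h : Bd D τ r f M) (hfg : EqD D f g) : Bd D τ r g M := by
  obtain ⟨c, s, l, h⟩ := h
  exact ⟨c, s, l, ⟨h.s_nn, h.l_nn, h.sup, h.lip, h.ssum, h.lsum, h.le,
    fun ω hω θ => by rw [← hfg ω hω θ]; exact h.rep ω hω θ⟩⟩

theorem Bd.add (hr : 0 ≤ r) (h : Bd D τ r f M) (h' : Bd D τ r g N) :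
    Bd D τ r (f + g) (M + N) := by
  obtain ⟨c, s, l, h⟩ := h
  obtain ⟨c', s', l', h'⟩ := h'
  have e1 : (fun k : ℤ => (s k + s' k) * r ^ k.natAbs) =
      fun k : ℤ => s k * r ^ k.natAbs + s' k * r ^ k.natAbs := by
    funext k; ring
  have e2 : (fun k : ℤ => (l k + l' k) * (r / 2) ^ k.natAbs) =
      fun k : ℤ => l k * (r / 2) ^ k.natAbs + l' k * (r / 2) ^ k.natAbs := by
    funext k; ring
  refine ⟨fun k ω => c k ω + c' k ω, fun k => s k + s' k, fun k => l k + l' k,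
    ⟨fun k => add_nonneg (h.s_nn k) (h'.s_nn k), fun k => add_nonneg (h.l_nn k) (h'.l_nn k),
    fun k ω hω => (norm_add_le _ _).trans (add_le_add (h.sup k ω hω) (h'.sup k ω hω)),
    fun k ω hω ω' hω' => ?_, ?_, ?_, ?_, fun ω hω θ => ?_⟩⟩
  · have e3 : c k ω + c' k ω - (c k ω' + c' k ω') = (c k ω - c k ω') + (c' k ω - c' k ω') := by
      ring
    rw [e3, add_mul]
    exact (norm_add_le _ _).trans (add_le_add (h.lip k ω hω ω' hω') (h'.lip k ω hω ω' hω'))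
  · show Summable fun k : ℤ => (s k + s' k) * r ^ k.natAbs
    rw [e1]; exact h.ssum.add h'.ssum
  · show Summable fun k : ℤ => (l k + l' k) * (r / 2) ^ k.natAbs
    rw [e2]; exact h.lsum.add h'.lsum
  · show (∑' k : ℤ, (s k + s' k) * r ^ k.natAbs) +
      τ * ∑' k : ℤ, (l k + l' k) * (r / 2) ^ k.natAbs ≤ M + N
    rw [e1, e2, h.ssum.tsum_add h'.ssum, h.lsum.tsum_add h'.lsum]
    have := h.le
    have := h'.le
    linarith
  · have e4 := (h.rep ω hω θ).add (h'.rep ω hω θ)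
    have e5 : (fun k : ℤ => (c k ω + c' k ω) * ee (k * θ)) =
        fun k : ℤ => c k ω * ee (k * θ) + c' k ω * ee (k * θ) := by
      funext k; ring
    show HasSum (fun k : ℤ => (c k ω + c' k ω) * ee (k * θ)) (((f + g) ω θ : ℝ) : ℂ)
    rw [e5]
    simpa [Pi.add_apply] using e4

theorem Bd.neg (h : Bd D τ r f M) : Bd D τ r (-f) M := by
  obtain ⟨c, s, l, h⟩ := h
  refine ⟨fun k ω => -c k ω, s, l, ⟨h.s_nn, h.l_nn, fun k ω hω => ?_, fun k ω hω ω' hω' => ?_,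
    h.ssum, h.lsum, h.le, fun ω hω θ => ?_⟩⟩
  · rw [norm_neg]; exact h.sup k ω hω
  · have e3 : -c k ω - -c k ω' = -(c k ω - c k ω') := by ring
    rw [e3, norm_neg]; exact h.lip k ω hω ω' hω'
  · have e4 := (h.rep ω hω θ).neg
    have e5 : (fun k : ℤ => (-c k ω) * ee (k * θ)) =
        fun k : ℤ => -(c k ω * ee (k * θ)) := by
      funext k; ring
    show HasSum (fun k : ℤ => (-c k ω) * ee (k * θ)) (((-f) ω θ : ℝ) : ℂ)
    rw [e5]
    simpa [Pi.neg_apply] using e4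

theorem Bd.sub (hr : 0 ≤ r) (h : Bd D τ r f M) (h' : Bd D τ r g N) :
    Bd D τ r (f - g) (M + N) := by
  rw [sub_eq_add_neg]
  exact Bd.add hr h h'.neg

private theorem Bd.ofOmAux {u : ℝ → ℝ} {s l : ℝ} (hs0 : 0 ≤ s) (hl0 : 0 ≤ l)
    (hs : ∀ ω ∈ D, |u ω| ≤ s)
    (hl : ∀ ω ∈ D, ∀ ω' ∈ D, |u ω - u ω'| ≤ l * |ω - ω'|) :
    Bd D τ r (om u) (s + τ * l) := by
  have key : ∀ a ρ : ℝ, HasSum (fun k : ℤ => (if k = 0 then a else 0) * ρ ^ k.natAbs) a := by
    intro a ρ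
    have e : (fun k : ℤ => (if k = 0 then a else 0) * ρ ^ k.natAbs) =
        fun k : ℤ => if k = 0 then a else 0 := by
      funext k
      by_cases hk : k = 0
      · subst hk; simp
      · simp [hk]
    rw [e]; exact hasSum_ite_eq 0 a
  refine ⟨fun k ω => if k = 0 then (u ω : ℂ) else 0, fun k => if k = 0 then s else 0,
    fun k => if k = 0 then l else 0, ⟨fun k => ?_, fun k => ?_, fun k ω hω => ?_,
    fun k ω hω ω' hω' => ?_, (key s r).summable, (key l (r / 2)).summable, ?_,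
    fun ω hω θ => ?_⟩⟩
  · show 0 ≤ if k = 0 then s else 0
    split_ifs
    · exact hs0
    · exact le_refl 0
  · show 0 ≤ if k = 0 then l else 0
    split_ifs
    · exact hl0
    · exact le_refl 0
  · show ‖(if k = 0 then (u ω : ℂ) else 0)‖ ≤ if k = 0 then s else 0
    split_ifs
    · rw [Complex.norm_real]; exact hs ω hω
    · rw [norm_zero]
  · show ‖(if k = 0 then (u ω : ℂ) else 0) - (if k = 0 then (u ω' : ℂ) else 0)‖ ≤
      (if k = 0 then l else 0) * |ω - ω'|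
    split_ifs
    · rw [← Complex.ofReal_sub, Complex.norm_real]; exact hl ω hω ω' hω'
    · simp
  · show (∑' k : ℤ, (if k = 0 then s else 0) * r ^ k.natAbs) +
      τ * ∑' k : ℤ, (if k = 0 then l else 0) * (r / 2) ^ k.natAbs ≤ s + τ * l
    rw [(key s r).tsum_eq, (key l (r / 2)).tsum_eq]
  · show HasSum (fun k : ℤ => (if k = 0 then (u ω : ℂ) else 0) * ee (k * θ)) ((om u ω θ : ℝ) : ℂ)
    have e : (fun k : ℤ => (if k = 0 then (u ω : ℂ) else 0) * ee (k * θ)) =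
        fun k : ℤ => if k = 0 then (u ω : ℂ) else 0 := by
      funext k
      by_cases hk : k = 0
      · subst hk
        rw [if_pos rfl, Int.cast_zero, zero_mul, ee_zero, mul_one]
      · rw [if_neg hk, zero_mul]
    rw [e]
    exact hasSum_ite_eq 0 (u ω : ℂ)

theorem Bd.ofConst (a : ℝ) : Bd D τ r (kk a) |a| := by
  have h := Bd.ofOmAux (D := D) (τ := τ) (r := r) (u := fun _ => a) (s := |a|) (l := 0)
    (abs_nonneg a) le_rfl (fun _ _ => le_rfl) (fun _ _ _ _ => by simp)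
  rw [mul_zero, add_zero] at h
  exact h

theorem Bd.smul (a : ℝ) (h : Bd D τ r f M) : Bd D τ r (kk a * f) (|a| * M) := by
  obtain ⟨c, s, l, h⟩ := h
  have e1 : (fun k : ℤ => (|a| * s k) * r ^ k.natAbs) =
      fun k : ℤ => |a| * (s k * r ^ k.natAbs) := by
    funext k; ring
  have e2 : (fun k : ℤ => (|a| * l k) * (r / 2) ^ k.natAbs) =
      fun k : ℤ => |a| * (l k * (r / 2) ^ k.natAbs) := by
    funext k; ring
  refine ⟨fun k ω => (a : ℂ) * c k ω, fun k => |a| * s k, fun k => |a| * l k,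
    ⟨fun k => mul_nonneg (abs_nonneg a) (h.s_nn k), fun k => mul_nonneg (abs_nonneg a) (h.l_nn k),
    fun k ω hω => ?_, fun k ω hω ω' hω' => ?_, ?_, ?_, ?_, fun ω hω θ => ?_⟩⟩
  · show ‖(a : ℂ) * c k ω‖ ≤ |a| * s k
    rw [norm_mul, Complex.norm_real, Real.norm_eq_abs]
    exact mul_le_mul_of_nonneg_left (h.sup k ω hω) (abs_nonneg a)
  · show ‖(a : ℂ) * c k ω - (a : ℂ) * c k ω'‖ ≤ |a| * l k * |ω - ω'|
    rw [← mul_sub, norm_mul, Complex.norm_real, Real.norm_eq_abs, mul_assoc]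
    exact mul_le_mul_of_nonneg_left (h.lip k ω hω ω' hω') (abs_nonneg a)
  · show Summable fun k : ℤ => (|a| * s k) * r ^ k.natAbs
    rw [e1]; exact h.ssum.mul_left _
  · show Summable fun k : ℤ => (|a| * l k) * (r / 2) ^ k.natAbs
    rw [e2]; exact h.lsum.mul_left _
  · show (∑' k : ℤ, (|a| * s k) * r ^ k.natAbs) +
      τ * ∑' k : ℤ, (|a| * l k) * (r / 2) ^ k.natAbs ≤ |a| * M
    rw [e1, e2, tsum_mul_left, tsum_mul_left]
    have h1 := mul_le_mul_of_nonneg_left h.le (abs_nonneg a)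
    calc _ = |a| * ((∑' k : ℤ, s k * r ^ k.natAbs) +
          τ * ∑' k : ℤ, l k * (r / 2) ^ k.natAbs) := by ring
      _ ≤ _ := h1
  · show HasSum (fun k : ℤ => ((a : ℂ) * c k ω) * ee (k * θ)) (((kk a * f) ω θ : ℝ) : ℂ)
    have e5 : (fun k : ℤ => ((a : ℂ) * c k ω) * ee (k * θ)) =
        fun k : ℤ => (a : ℂ) * (c k ω * ee (k * θ)) := by
      funext k; ring
    have e6 : (((kk a * f) ω θ : ℝ) : ℂ) = (a : ℂ) * ((f ω θ : ℝ) : ℂ) := by
      rw [← Complex.ofReal_mul]; rfl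
    rw [e5, e6]
    exact (h.rep ω hω θ).mul_left _

theorem Bd.ofOm {u : ℝ → ℝ} {s l : ℝ} (hs0 : 0 ≤ s) (hl0 : 0 ≤ l) (hs : ∀ ω ∈ D, |u ω| ≤ s)
    (hl : ∀ ω ∈ D, ∀ ω' ∈ D, |u ω - u ω'| ≤ l * |ω - ω'|) :
    Bd D τ r (om u) (s + τ * l) := Bd.ofOmAux hs0 hl0 hs hl

private theorem Bd.ofPair (k : ℕ) (hk : k ≠ 0) (F : ℝ → ℝ) (a b : ℂ)
    (ha : ‖a‖ ≤ 1 / 2) (hb : ‖b‖ ≤ 1 / 2)
    (hF : ∀ θ, ((F θ : ℝ) : ℂ) = a * ee ((k : ℝ) * θ) + b * ee (-((k : ℝ) * θ))) :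
    Bd D τ r (fun _ θ => F θ) (r ^ k) := by
  have hne : (k : ℤ) ≠ -(k : ℤ) := by omega
  have hne' : -(k : ℤ) ≠ (k : ℤ) := by omega
  have key : ∀ {α : Type} [AddCommMonoid α] [TopologicalSpace α] (G : ℤ → α),
      (∀ j : ℤ, j ≠ k → j ≠ -(k : ℤ) → G j = 0) → HasSum G (G k + G (-(k : ℤ))) := by
    intro α _ _ G hG
    have h : HasSum G (∑ j ∈ ({(k : ℤ), -(k : ℤ)} : Finset ℤ), G j) :=
      hasSum_sum_of_ne_finset_zero (by
        intro j hj
        rw [Finset.mem_insert, Finset.mem_singleton, not_or] at hj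
        exact hG j hj.1 hj.2)
    rwa [Finset.sum_pair hne] at h
  have hS := key (fun j : ℤ => (if j = k ∨ j = -(k : ℤ) then (1 / 2 : ℝ) else 0) * r ^ j.natAbs)
    (fun j h1 h2 => by
      show (if j = k ∨ j = -(k : ℤ) then (1 / 2 : ℝ) else 0) * r ^ j.natAbs = 0
      rw [if_neg (by tauto), zero_mul])
  refine ⟨fun j _ => if j = k then a else if j = -(k : ℤ) then b else 0,
    fun j => if j = k ∨ j = -(k : ℤ) then (1 / 2 : ℝ) else 0, fun _ => 0,
    ⟨fun j => ?_, fun j => le_rfl, fun j ω hω => ?_, fun j ω hω ω' hω' => ?_, hS.summable, ?_, ?_,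
    fun ω hω θ => ?_⟩⟩
  · show 0 ≤ if j = k ∨ j = -(k : ℤ) then (1 / 2 : ℝ) else 0
    split_ifs <;> norm_num
  · show ‖(if j = k then a else if j = -(k : ℤ) then b else 0)‖ ≤
      if j = k ∨ j = -(k : ℤ) then (1 / 2 : ℝ) else 0
    by_cases h1 : j = k
    · rw [if_pos h1, if_pos (Or.inl h1)]; exact ha
    · by_cases h2 : j = -(k : ℤ)
      · rw [if_neg h1, if_pos h2, if_pos (Or.inr h2)]; exact hb
      · rw [if_neg h1, if_neg h2, if_neg (by tauto), norm_zero]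
  · simp
  · simp
  · show (∑' j : ℤ, (if j = k ∨ j = -(k : ℤ) then (1 / 2 : ℝ) else 0) * r ^ j.natAbs) +
      τ * ∑' j : ℤ, (0 : ℝ) * (r / 2) ^ j.natAbs ≤ r ^ k
    rw [hS.tsum_eq]
    simp only [zero_mul, tsum_zero, mul_zero, add_zero, true_or, or_true, if_true,
      Int.natAbs_neg, Int.natAbs_natCast]
    linarith
  · have h := key (fun j : ℤ => (if j = k then a else if j = -(k : ℤ) then b else 0) * ee (j * θ))
      (fun j h1 h2 => by
        show (if j = k then a else if j = -(k : ℤ) then b else 0) * ee (j * θ) = 0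
        rw [if_neg h1, if_neg h2, zero_mul])
    show HasSum (fun j : ℤ => (if j = k then a else if j = -(k : ℤ) then b else 0) * ee (j * θ))
      ((F θ : ℝ) : ℂ)
    have e : (if (k : ℤ) = k then a else if (k : ℤ) = -(k : ℤ) then b else 0) *
        ee (((k : ℤ) : ℝ) * θ) +
        (if -(k : ℤ) = k then a else if -(k : ℤ) = -(k : ℤ) then b else 0) *
        ee (((-(k : ℤ) : ℤ) : ℝ) * θ) = ((F θ : ℝ) : ℂ) := by
      rw [if_pos rfl, if_neg hne', if_pos rfl, hF θ]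
      push_cast
      rw [neg_mul]
    rw [← e]
    exact h

theorem Bd.ofCos (hr : 0 ≤ r) (k : ℕ) :
    Bd D τ r (fun _ θ => Real.cos (2 * Real.pi * (k * θ))) (r ^ k) := by
  rcases Nat.eq_zero_or_pos k with rfl | hk
  · have h := Bd.ofConst (D := D) (τ := τ) (r := r) 1
    have e : (fun _ θ => Real.cos (2 * Real.pi * (((0 : ℕ) : ℝ) * θ)) : ℝ → ℝ → ℝ) = kk 1 := by
      funext ω θ
      simp [kk]
    rw [e, pow_zero]
    simpa using h
  · refine Bd.ofPair k hk.ne' (fun θ => Real.cos (2 * Real.pi * (k * θ))) (1 / 2) (1 / 2)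
      (by norm_num) (by norm_num) fun θ => ?_
    have e1 : (1 / 2 : ℂ) = ((1 / 2 : ℝ) : ℂ) := by push_cast; rfl
    have e2 : 2 * Real.pi * -((k : ℝ) * θ) = -(2 * Real.pi * ((k : ℝ) * θ)) := by ring
    apply Complex.ext
    · rw [Complex.ofReal_re, ← mul_add, e1, Complex.re_ofReal_mul, Complex.add_re, ee_re, ee_re,
        e2, Real.cos_neg]
      ring
    · rw [Complex.ofReal_im, ← mul_add, e1, Complex.im_ofReal_mul, Complex.add_im, ee_im, ee_im,
        e2, Real.sin_neg]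
      ring

theorem Bd.ofSin (hr : 0 ≤ r) (k : ℕ) :
    Bd D τ r (fun _ θ => Real.sin (2 * Real.pi * (k * θ))) (r ^ k) := by
  rcases Nat.eq_zero_or_pos k with rfl | hk
  · have h := Bd.ofConst (D := D) (τ := τ) (r := r) 0
    have e : (fun _ θ => Real.sin (2 * Real.pi * (((0 : ℕ) : ℝ) * θ)) : ℝ → ℝ → ℝ) = kk 0 := by
      funext ω θ
      simp [kk]
    rw [e, pow_zero]
    exact h.mono (by norm_num)
  · refine Bd.ofPair k hk.ne' (fun θ => Real.sin (2 * Real.pi * (k * θ))) (-(Complex.I / 2))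
      (Complex.I / 2) ?_ ?_ fun θ => ?_
    · rw [norm_neg, norm_div, Complex.norm_I]; norm_num
    · rw [norm_div, Complex.norm_I]; norm_num
    have e1 : ∀ z w : ℂ, -(Complex.I / 2) * z + Complex.I / 2 * w =
        ((1 / 2 : ℝ) : ℂ) * (Complex.I * (w - z)) := by
      intro z w; push_cast; ring
    have e2 : 2 * Real.pi * -((k : ℝ) * θ) = -(2 * Real.pi * ((k : ℝ) * θ)) := by ring
    rw [e1]
    apply Complex.ext
    · rw [Complex.ofReal_re, Complex.re_ofReal_mul, Complex.I_mul_re, Complex.sub_im, ee_im,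
        ee_im, e2, Real.sin_neg]
      ring
    · rw [Complex.ofReal_im, Complex.im_ofReal_mul, Complex.I_mul_im, Complex.sub_re, ee_re,
        ee_re, e2, Real.cos_neg]
      ring

private theorem Rep.ssum1 {c : ℤ → ℝ → ℂ} {s l : ℤ → ℝ} (hr : 1 ≤ r)
    (h : Rep D τ r f M c s l) : Summable s :=
  Summable.of_nonneg_of_le h.s_nn
    (fun k => le_mul_of_one_le_right (h.s_nn k) (one_le_pow₀ hr)) h.ssum

theorem Bd.abs_le (hτ : 0 ≤ τ) (hr : 1 ≤ r) (h : Bd D τ r f M) {ω : ℝ} (hω : ω ∈ D) (θ : ℝ) :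
    |f ω θ| ≤ M := by
  obtain ⟨c, s, l, h⟩ := h
  have h0 := (h.rep ω hω θ).norm_le_of_bounded h.ssum.hasSum (fun k => by
    rw [norm_mul, ee_norm, mul_one]
    exact (h.sup k ω hω).trans (le_mul_of_one_le_right (h.s_nn k) (one_le_pow₀ hr)))
  rw [Complex.norm_real, Real.norm_eq_abs] at h0
  have h2 : 0 ≤ ∑' k : ℤ, l k * (r / 2) ^ k.natAbs :=
    tsum_nonneg fun k => mul_nonneg (h.l_nn k) (pow_nonneg (by linarith) _)
  have h3 := mul_nonneg hτ h2
  have h4 := h.le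
  linarith

theorem Bd.lip (hτ : 0 < τ) (hr : 2 ≤ r) (h : Bd D τ r f M) {ω ω' : ℝ} (hω : ω ∈ D)
    (hω' : ω' ∈ D) (θ : ℝ) : |f ω θ - f ω' θ| ≤ M / τ * |ω - ω'| := by
  obtain ⟨c, s, l, h⟩ := h
  have h0 := ((h.rep ω hω θ).sub (h.rep ω' hω' θ)).norm_le_of_bounded
    (h.lsum.hasSum.mul_right |ω - ω'|) (fun k => by
      rw [← sub_mul, norm_mul, ee_norm, mul_one]
      refine (h.lip k ω hω ω' hω').trans (mul_le_mul_of_nonneg_right ?_ (abs_nonneg _))
      exact le_mul_of_one_le_right (h.l_nn k) (one_le_pow₀ (by linarith)))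
  rw [← Complex.ofReal_sub, Complex.norm_real, Real.norm_eq_abs] at h0
  refine h0.trans (mul_le_mul_of_nonneg_right ?_ (abs_nonneg _))
  rw [le_div_iff₀ hτ, mul_comm]
  have h2 : 0 ≤ ∑' k : ℤ, s k * r ^ k.natAbs :=
    tsum_nonneg fun k => mul_nonneg (h.s_nn k) (pow_nonneg (by linarith) _)
  have h4 := h.le
  linarith

theorem Bd.per (h : Bd D τ r f M) {ω : ℝ} (hω : ω ∈ D) (θ : ℝ) : f ω (θ + 1) = f ω θ := by
  obtain ⟨c, s, l, h⟩ := h
  have h1 := h.rep ω hω (θ + 1)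
  have e : (fun k : ℤ => c k ω * ee (k * (θ + 1))) = fun k : ℤ => c k ω * ee (k * θ) := by
    funext k
    rw [mul_add, mul_one, ee_add, ee_int, mul_one]
  rw [e] at h1
  exact Complex.ofReal_injective (h1.unique (h.rep ω hω θ))

theorem Bd.cont (hr : 1 ≤ r) (h : Bd D τ r f M) {ω : ℝ} (hω : ω ∈ D) : Continuous (f ω) := by
  obtain ⟨c, s, l, h⟩ := h
  have hee : Continuous ee := by
    unfold ee
    fun_prop
  have h1 : Continuous fun θ : ℝ => ∑' k : ℤ, c k ω * ee (k * θ) := by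
    refine continuous_tsum (u := s) (fun k => ?_) (h.ssum1 hr) (fun k θ => ?_)
    · exact continuous_const.mul (hee.comp (continuous_const.mul continuous_id))
    · rw [norm_mul, ee_norm, mul_one]
      exact h.sup k ω hω
  have h2 : f ω = fun θ : ℝ => (∑' k : ℤ, c k ω * ee (k * θ)).re := by
    funext θ
    rw [(h.rep ω hω θ).tsum_eq, Complex.ofReal_re]
  rw [h2]
  exact Complex.continuous_re.comp h1

end Pool.Agent.MP31f1e8.KM
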