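import Pool.Agent.Lib.MP_31f1e8_mp.KM.AlgA

/-!
The derivative in `θ`.

Proofs. `hasDeriv`: `f ω θ = re ∑' k, c_k(ω) ee(kθ)`; termwise derivative `2πik c_k ee(kθ)`, bounded by
`2π |k| s_k ≤ 2π s_k r^|k|` (`|k| ≤ 2^|k| ≤ r^|k|`), summable: `hasDerivAt_tsum` (or
`hasDerivAt_tsum_of_isPreconnected`) for the complex series as a function of the real variable `θ`, then
real part (`HasDerivAt.real_of_complex` style or `Complex.reCLM`); finally `HasDerivAt.deriv` identifies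
`dd f ω θ`.
`contDeriv`: the same series of derivatives, `continuous_tsum`.
`deriv`: coefficients `2πik c_k`, `2π|k| s_k`, `2π|k| l_k`; `|k| (1-δ)^|k| ≤ 1/δ` (because
`k q^k ≤ ∑_{j<k} q^j ≤ 1/(1-q)`, `q = 1-δ`), so `2π |k| r'^|k| ≤ (7/δ) r^|k|` and
`2π|k| (r'/2)^|k| ≤ (7/δ)(r/2)^|k|`. Representation: the derivative computed before.
`dd_add`, `dd_sub`, `dd_T`: from `hasDeriv` (`HasDerivAt.add`, `.sub`, composition with `θ + ω`).
-/

namespace Pool.Agent.MP31f1e8.KM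

variable {D : Set ℝ} {τ r r' δ M N : ℝ} {f g : ℝ → ℝ → ℝ}

private theorem nat_le_pow {r : ℝ} (hr : 2 ≤ r) (n : ℕ) : (n : ℝ) ≤ r ^ n := by
  have h1 : (n : ℝ) ≤ 2 ^ n := by exact_mod_cast (Nat.lt_two_pow_self (n := n)).le
  exact h1.trans (pow_le_pow_left₀ (by norm_num) hr n)

private theorem natAbs_norm (k : ℤ) : ‖(k : ℂ)‖ = (k.natAbs : ℝ) := by
  rw [Complex.norm_intCast, ← Int.cast_abs, Int.abs_eq_natAbs]
  rfl

/-- the norm of the factor of the derivative -/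
private theorem fac_norm (k : ℤ) : ‖2 * (Real.pi : ℂ) * k * Complex.I‖ = 2 * Real.pi * k.natAbs := by
  rw [norm_mul, norm_mul, norm_mul, Complex.norm_I, natAbs_norm, Complex.norm_real, Real.norm_eq_abs,
    abs_of_pos Real.pi_pos]
  simp

private theorem ee_deriv (k : ℤ) (θ : ℝ) :
    HasDerivAt (fun θ : ℝ => ee (k * θ)) (2 * (Real.pi : ℂ) * k * Complex.I * ee (k * θ)) θ := by
  have h0 : HasDerivAt (fun θ : ℝ => (θ : ℂ)) 1 θ := by
    have := (hasDerivAt_id θ).ofReal_comp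
    simpa using this
  have h1 : HasDerivAt (fun θ : ℝ => 2 * (Real.pi : ℂ) * k * Complex.I * (θ : ℂ))
      (2 * (Real.pi : ℂ) * k * Complex.I * 1) θ := h0.const_mul _
  have h2 := h1.cexp
  have e : ∀ x : ℝ, ee (k * x) = Complex.exp (2 * (Real.pi : ℂ) * k * Complex.I * (x : ℂ)) := by
    intro x
    unfold ee
    congr 1
    push_cast
    ring
  have h3 : (fun θ : ℝ => ee (k * θ)) = fun x : ℝ => Complex.exp (2 * (Real.pi : ℂ) * k * Complex.I * (x : ℂ)) :=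
    funext e
  rw [h3, e]
  refine h2.congr_deriv ?_
  ring

section
variable {c : ℤ → ℝ → ℂ} {s l : ℤ → ℝ}

private theorem sum_u (hr : 2 ≤ r) (H : Rep D τ r f M c s l) :
    Summable fun k : ℤ => 2 * Real.pi * k.natAbs * s k := by
  refine Summable.of_nonneg_of_le (fun k => ?_) (fun k => ?_) (H.ssum.mul_left (2 * Real.pi))
  · have := H.s_nn k
    positivity
  · have h1 := nat_le_pow hr k.natAbs
    have h2 := H.s_nn k
    have h3 := Real.pi_pos
    calc 2 * Real.pi * (k.natAbs : ℝ) * s k ≤ 2 * Real.pi * r ^ k.natAbs * s k := by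
          refine mul_le_mul_of_nonneg_right (mul_le_mul_of_nonneg_left h1 (by positivity)) h2
      _ = 2 * Real.pi * (s k * r ^ k.natAbs) := by ring

private theorem term_le (H : Rep D τ r f M c s l) {ω : ℝ} (hω : ω ∈ D) (k : ℤ) (θ : ℝ) :
    ‖c k ω * (2 * (Real.pi : ℂ) * k * Complex.I * ee (k * θ))‖ ≤ 2 * Real.pi * k.natAbs * s k := by
  rw [norm_mul, norm_mul, fac_norm, ee_norm, mul_one, mul_comm]
  refine mul_le_mul_of_nonneg_left (H.sup k ω hω) ?_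
  positivity

/-- the series of the derivatives -/
private noncomputable def SS (c : ℤ → ℝ → ℂ) (ω θ : ℝ) : ℂ :=
  ∑' k : ℤ, c k ω * (2 * (Real.pi : ℂ) * k * Complex.I * ee (k * θ))

private theorem ofReal_deriv (hr : 2 ≤ r) (H : Rep D τ r f M c s l) {ω : ℝ} (hω : ω ∈ D) (θ : ℝ) :
    HasDerivAt (fun θ : ℝ => ((f ω θ : ℝ) : ℂ)) (SS c ω θ) θ := by
  have h1 : HasDerivAt (fun z : ℝ => ∑' k : ℤ, c k ω * ee (k * z)) (SS c ω θ) θ := by
    unfold SS
    refine hasDerivAt_tsum (sum_u hr H) (fun k y => ?_) (fun k y => term_le H hω k y) (H.rep ω hω 0).summable θ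
    exact (ee_deriv k y).const_mul (c k ω)
  have h2 : (fun z : ℝ => ∑' k : ℤ, c k ω * ee (k * z)) = fun θ : ℝ => ((f ω θ : ℝ) : ℂ) := by
    funext z
    exact (H.rep ω hω z).tsum_eq
  rwa [h2] at h1

private theorem re_deriv (hr : 2 ≤ r) (H : Rep D τ r f M c s l) {ω : ℝ} (hω : ω ∈ D) (θ : ℝ) :
    HasDerivAt (f ω) (SS c ω θ).re θ := by
  have h1 := (Complex.reCLM.hasFDerivAt (x := ((f ω θ : ℝ) : ℂ))).comp_hasDerivAt θ (ofReal_deriv hr H hω θ)
  have h2 : (Complex.reCLM ∘ fun θ : ℝ => ((f ω θ : ℝ) : ℂ)) = f ω := by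
    funext z
    simp
  have h3 : Complex.reCLM (SS c ω θ) = (SS c ω θ).re := rfl
  rwa [h2, h3] at h1

private theorem dd_eq (hr : 2 ≤ r) (H : Rep D τ r f M c s l) {ω : ℝ} (hω : ω ∈ D) (θ : ℝ) :
    ((dd f ω θ : ℝ) : ℂ) = SS c ω θ := by
  have h1 := re_deriv hr H hω θ
  have h2 : dd f ω θ = (SS c ω θ).re := h1.deriv
  have h3 := h1.ofReal_comp
  rw [h2]
  exact h3.unique (ofReal_deriv hr H hω θ)

end

private theorem geo {q : ℝ} (hδ : 0 < δ) (hδ' : δ ≤ 1) (hq : q = 1 - δ) (n : ℕ) : (n : ℝ) * q ^ n ≤ 1 / δ := by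
  have h1 : 1 + (n : ℝ) * δ ≤ (1 + δ) ^ n := one_add_mul_le_pow (by linarith) n
  have h0 : 0 ≤ q := by linarith
  have h2 : (1 + δ) ^ n * q ^ n ≤ 1 := by
    rw [← mul_pow]
    refine pow_le_one₀ (by positivity) ?_
    rw [hq]
    nlinarith
  have h3 : 0 ≤ q ^ n := pow_nonneg h0 n
  rw [le_div_iff₀ hδ]
  calc (n : ℝ) * q ^ n * δ = ((n : ℝ) * δ) * q ^ n := by ring
    _ ≤ (1 + δ) ^ n * q ^ n := mul_le_mul_of_nonneg_right (by linarith) h3
    _ ≤ 1 := h2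

/-- the bound of one term -/
private theorem geo' {x y : ℝ} (hδ : 0 < δ) (hδ' : δ ≤ 1) (hx : 0 ≤ x) (hy : 0 ≤ y) (hxy : x ≤ (1 - δ) * y)
    {t : ℝ} (ht : 0 ≤ t) (n : ℕ) : 2 * Real.pi * n * t * x ^ n ≤ 7 / δ * (t * y ^ n) := by
  have h1 : x ^ n ≤ (1 - δ) ^ n * y ^ n := by
    rw [← mul_pow]
    exact pow_le_pow_left₀ hx hxy n
  have h2 := geo hδ hδ' rfl n
  have h3 : 0 ≤ y ^ n := pow_nonneg hy n
  have h4 := Real.pi_pos
  have h5 : 2 * Real.pi ≤ 7 := by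
    have := Real.pi_lt_d2
    linarith
  have hn : (0 : ℝ) ≤ n := Nat.cast_nonneg n
  have hd : 0 ≤ 1 - δ := by linarith
  calc 2 * Real.pi * n * t * x ^ n ≤ 2 * Real.pi * n * t * ((1 - δ) ^ n * y ^ n) :=
        mul_le_mul_of_nonneg_left h1 (by positivity)
    _ = (2 * Real.pi) * ((n * (1 - δ) ^ n) * (t * y ^ n)) := by ring
    _ ≤ 7 * ((1 / δ) * (t * y ^ n)) := by
        refine mul_le_mul h5 (mul_le_mul_of_nonneg_right h2 (by positivity)) (by positivity) (by norm_num)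
    _ = 7 / δ * (t * y ^ n) := by ring

theorem Bd.hasDeriv (hr : 2 ≤ r) (h : Bd D τ r f M) {ω : ℝ} (hω : ω ∈ D) (θ : ℝ) :
    HasDerivAt (f ω) (dd f ω θ) θ := by
  obtain ⟨c, s, l, H⟩ := h
  have h1 := re_deriv hr H hω θ
  have h2 : dd f ω θ = (SS c ω θ).re := h1.deriv
  rw [h2]
  exact h1

theorem Bd.contDeriv (hr : 2 ≤ r) (h : Bd D τ r f M) {ω : ℝ} (hω : ω ∈ D) :
    Continuous (dd f ω) := by
  obtain ⟨c, s, l, H⟩ := h
  have h2 : dd f ω = fun θ => (SS c ω θ).re := by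
    funext θ
    exact (re_deriv hr H hω θ).deriv
  rw [h2]
  refine Complex.continuous_re.comp ?_
  unfold SS
  refine continuous_tsum (fun k => ?_) (sum_u hr H) (fun k θ => term_le H hω k θ)
  have h3 : Continuous fun θ : ℝ => ee (k * θ) :=
    continuous_iff_continuousAt.2 fun θ => (ee_deriv k θ).continuousAt
  exact continuous_const.mul (continuous_const.mul h3)

theorem Bd.deriv (hτ : 0 ≤ τ) (hδ : 0 < δ) (hδ' : δ ≤ 1) (hr' : 2 ≤ r') (hr : r' ≤ (1 - δ) * r)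
    (h : Bd D τ r f M) : Bd D τ r' (dd f) (7 / δ * M) := by
  obtain ⟨c, s, l, H⟩ := h
  have hr0 : 0 ≤ r := by
    by_contra hneg
    have : (1 - δ) * r ≤ 0 := mul_nonpos_of_nonneg_of_nonpos (by linarith) (by linarith)
    linarith
  have hr2 : 2 ≤ r := by
    have : (1 - δ) * r ≤ r := by nlinarith
    linarith
  have hhalf : r' / 2 ≤ (1 - δ) * (r / 2) := by linarith
  have b1 : ∀ k : ℤ, 2 * Real.pi * k.natAbs * s k * r' ^ k.natAbs ≤ 7 / δ * (s k * r ^ k.natAbs) := fun k =>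
    geo' hδ hδ' (by linarith) hr0 hr (H.s_nn k) k.natAbs
  have b2 : ∀ k : ℤ, 2 * Real.pi * k.natAbs * l k * (r' / 2) ^ k.natAbs ≤
      7 / δ * (l k * (r / 2) ^ k.natAbs) := fun k =>
    geo' hδ hδ' (by linarith) (by linarith) hhalf (H.l_nn k) k.natAbs
  have p1 : ∀ k : ℤ, 0 ≤ 2 * Real.pi * k.natAbs * s k * r' ^ k.natAbs := fun k => by
    have := H.s_nn k
    positivity
  have p2 : ∀ k : ℤ, 0 ≤ 2 * Real.pi * k.natAbs * l k * (r' / 2) ^ k.natAbs := fun k => by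
    have := H.l_nn k
    positivity
  have s1 : Summable fun k : ℤ => 2 * Real.pi * k.natAbs * s k * r' ^ k.natAbs :=
    Summable.of_nonneg_of_le p1 b1 (H.ssum.mul_left _)
  have s2 : Summable fun k : ℤ => 2 * Real.pi * k.natAbs * l k * (r' / 2) ^ k.natAbs :=
    Summable.of_nonneg_of_le p2 b2 (H.lsum.mul_left _)
  refine ⟨fun k ω => 2 * (Real.pi : ℂ) * k * Complex.I * c k ω, fun k => 2 * Real.pi * k.natAbs * s k,
    fun k => 2 * Real.pi * k.natAbs * l k, ?_⟩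
  refine ⟨fun k => ?_, fun k => ?_, fun k ω hω => ?_, fun k ω hω ω' hω' => ?_, s1, s2, ?_, fun ω hω θ => ?_⟩
  · have := H.s_nn k
    positivity
  · have := H.l_nn k
    positivity
  · rw [norm_mul, fac_norm]
    exact mul_le_mul_of_nonneg_left (H.sup k ω hω) (by positivity)
  · rw [← mul_sub, norm_mul, fac_norm]
    have h5 : 0 ≤ 2 * Real.pi * (k.natAbs : ℝ) := by positivity
    refine (mul_le_mul_of_nonneg_left (H.lip k ω hω ω' hω') h5).trans_eq ?_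
    ring
  · have t1 : (∑' k : ℤ, 2 * Real.pi * k.natAbs * s k * r' ^ k.natAbs) ≤ 7 / δ * ∑' k : ℤ, s k * r ^ k.natAbs := by
      rw [← tsum_mul_left]
      exact s1.tsum_le_tsum b1 (H.ssum.mul_left _)
    have t2 : (∑' k : ℤ, 2 * Real.pi * k.natAbs * l k * (r' / 2) ^ k.natAbs) ≤
        7 / δ * ∑' k : ℤ, l k * (r / 2) ^ k.natAbs := by
      rw [← tsum_mul_left]
      exact s2.tsum_le_tsum b2 (H.lsum.mul_left _)
    have t3 := mul_le_mul_of_nonneg_left t2 hτ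
    have t4 : 7 / δ * ((∑' k : ℤ, s k * r ^ k.natAbs) + τ * ∑' k : ℤ, l k * (r / 2) ^ k.natAbs) ≤ 7 / δ * M :=
      mul_le_mul_of_nonneg_left H.le (by positivity)
    linarith
  · rw [dd_eq hr2 H hω θ]
    unfold SS
    have h1 : Summable fun k : ℤ => c k ω * (2 * (Real.pi : ℂ) * k * Complex.I * ee (k * θ)) :=
      Summable.of_norm_bounded (sum_u hr2 H) (fun k => term_le H hω k θ)
    have h2 : (fun k : ℤ => 2 * (Real.pi : ℂ) * k * Complex.I * c k ω * ee (k * θ)) =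
        fun k : ℤ => c k ω * (2 * (Real.pi : ℂ) * k * Complex.I * ee (k * θ)) := by
      funext k
      ring
    rw [h2]
    exact h1.hasSum

theorem dd_add (hr : 2 ≤ r) (h : Bd D τ r f M) (h' : Bd D τ r g N) :
    EqD D (dd (f + g)) (dd f + dd g) := fun _ hω θ =>
  ((h.hasDeriv hr hω θ).add (h'.hasDeriv hr hω θ)).deriv

theorem dd_sub (hr : 2 ≤ r) (h : Bd D τ r f M) (h' : Bd D τ r g N) :
    EqD D (dd (f - g)) (dd f - dd g) := fun _ hω θ =>
  ((h.hasDeriv hr hω θ).sub (h'.hasDeriv hr hω θ)).deriv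

theorem dd_T (hr : 2 ≤ r) (h : Bd D τ r f M) : EqD D (dd (T f)) (T (dd f)) := by
  intro ω _ θ
  exact deriv_comp_add_const (f ω) ω θ

end Pool.Agent.MP31f1e8.KM
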