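import Pool.Agent.Lib.MP_31f1e8_mp.KM.LinA
import Pool.Agent.Lib.MP_31f1e8_mp.KM.Der

/-!
The map `(ω, θ) ↦ (X(ω,θ), X(ω,θ+ω))` is inverse Lipschitz.

Let `X = a cos 2πθ + P` (`a = aa ω`), `P` of norm `≤ K ρ²` at radius `4`. For `ω, ω' ∈ D`, `|t - t'| ≤ 1/2`; `c, C'` =
constants independent of `ρ` (they may depend on `C, K`). Put `a = aa ω`, `a' = aa ω'`, `σ = sin 2πω ≥ 1/2`
(from `w0_bounds`, `ω ∈ [w0 - 1/2, w0]` small: `2πω ∈ (2π 0.35, 2π 0.382)`, take `ρ ≤ 1/10`).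
(1) Leading part: `V = (a cos φ, a cos(φ+α))`, `φ = 2πt`, `α = 2πω`, `V' = (a' cos φ', a' cos(φ'+α'))`. Let
`W' = (a' cos φ', a' cos(φ'+α))`: `|V' - W'| ≤ a' 2π|ω - ω'| ≤ C'ρ|ω - ω'|`. `cos(φ+α) = cos φ cos α - sin φ sin α`, so
`σ |a sin φ - a' sin φ'| ≤ |a cos φ - a' cos φ'| + |a cos(φ+α) - a' cos(φ'+α)|`; so
`|a cos φ - a' cos φ'| + |a sin φ - a' sin φ'| ≤ (1 + 2/σ) |V - W'|_1`. In polar coordinates:
`(a cos φ - a' cos φ')² + (a sin φ - a' sin φ')² = (a - a')² + 4 a a' sin²((φ-φ')/2)`, and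
`|sin((φ-φ')/2)| = |sin(π(t-t'))| ≥ 2|t-t'|` (`|t-t'| ≤ 1/2`). So `|a - a'| + ρ |t-t'| ≤ C' |V - W'|_1`
(`a, a' ≥ ρ/C`), and `|ω - ω'| ≤ C ρ |a - a'|` (hypothesis).
(2) `P`: `|P(ω,t) - P(ω',t')| ≤ (Kρ²/ρ²)|ω - ω'| + 7·2·Kρ² |t - t'|` : `Bd.lip` with `τ = ρ²`, and the derivative in `θ`
is bounded by `7/(1/2) K ρ²` (`Bd.deriv` with `δ = 1/2`, radius `2`, `Bd.abs_le`, mean value theorem
`Convex.norm_image_sub_le_of_norm_hasDerivWithin_le` or `lipschitz`); the same for the second component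
`P(ω, t+ω) - P(ω', t'+ω')` with one more term `14Kρ²|ω-ω'|`. So the total perturbation of the `l1` norm is
`≤ C'(|ω - ω'| + ρ²|t - t'|)`.
(3) So `|a-a'| + ρ|t-t'| ≤ C'(Δ + ρ|ω-ω'| + |ω-ω'| + ρ²|t-t'|)`, `Δ = |X - X'| + |X⁺ - X'⁺|`; and
`|ω-ω'| ≤ Cρ|a-a'|`: for small `ρ` the last three terms are `≤ (1/2)(|a-a'| + ρ|t-t'|)`; so
`|a-a'| + ρ|t-t'| ≤ 2C'Δ`, `|ω-ω'| + |t-t'| ≤ (Cρ + 1/ρ) 2C' Δ`.
-/

namespace Pool.Agent.MP31f1e8.KM

private theorem sin_ge {ω : ℝ} (h1 : 1 / 4 ≤ ω) (h2 : ω ≤ 5 / 12) : 1 / 2 ≤ Real.sin (2 * Real.pi * ω) := by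
  have hpi := Real.pi_pos
  have e : Real.sin (2 * Real.pi * ω) = Real.sin (Real.pi - 2 * Real.pi * ω) := (Real.sin_pi_sub _).symm
  rw [e, ← Real.sin_pi_div_six]
  have h3 : Real.pi * (1 / 4) ≤ Real.pi * ω := mul_le_mul_of_nonneg_left h1 hpi.le
  have h4 : Real.pi * ω ≤ Real.pi * (5 / 12) := mul_le_mul_of_nonneg_left h2 hpi.le
  apply Real.sin_le_sin_of_le_of_le_pi_div_two
  · linarith
  · linarith
  · linarith

private theorem sin_sq_h (x : ℝ) : 2 * Real.sin (x / 2) ^ 2 = 1 - Real.cos x := by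
  have h1 := Real.cos_sq (x / 2)
  have h2 := Real.sin_sq_add_cos_sq (x / 2)
  have h3 : 2 * (x / 2) = x := by ring
  rw [h3] at h1
  linarith

private theorem polar (a a' φ φ' : ℝ) :
    (a * Real.cos φ - a' * Real.cos φ') ^ 2 + (a * Real.sin φ - a' * Real.sin φ') ^ 2 =
      (a - a') ^ 2 + 4 * (a * a') * Real.sin ((φ - φ') / 2) ^ 2 := by
  have h1 := sin_sq_h (φ - φ')
  have h2 : 4 * (a * a') * Real.sin ((φ - φ') / 2) ^ 2 = 2 * (a * a') * (1 - Real.cos (φ - φ')) := by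
    rw [← h1]; ring
  rw [h2, Real.cos_sub]
  have h3 := Real.sin_sq_add_cos_sq φ
  have h4 := Real.sin_sq_add_cos_sq φ'
  linear_combination a ^ 2 * h3 + a' ^ 2 * h4

private theorem sin_lower {s : ℝ} (hs : |s| ≤ 1 / 2) : (2 * |s|) ^ 2 ≤ Real.sin (Real.pi * s) ^ 2 := by
  have hpi := Real.pi_pos
  have h1 : 2 / Real.pi * (Real.pi * |s|) ≤ Real.sin (Real.pi * |s|) := by
    apply Real.mul_le_sin
    · positivity
    · have := mul_le_mul_of_nonneg_left hs hpi.le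
      linarith
  have h2 : 2 / Real.pi * (Real.pi * |s|) = 2 * |s| := by field_simp
  rw [h2] at h1
  have h3 : Real.sin (Real.pi * |s|) ^ 2 = Real.sin (Real.pi * s) ^ 2 := by
    rcases abs_cases s with ⟨h, _⟩ | ⟨h, _⟩
    · rw [h]
    · rw [h, mul_neg, Real.sin_neg]; ring
  rw [← h3]
  exact pow_le_pow_left₀ (by positivity) h1 2

/-- the map to polar coordinates -/
private theorem core {C ρ a a' t t' : ℝ} (hC : 1 ≤ C) (hρ : 0 < ρ) (ha : ρ / C ≤ a) (ha' : ρ / C ≤ a')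
    (ht : |t - t'| ≤ 1 / 2) :
    |a - a'| + ρ * |t - t'| ≤
      2 * C * (|a * Real.cos (2 * Real.pi * t) - a' * Real.cos (2 * Real.pi * t')| +
        |a * Real.sin (2 * Real.pi * t) - a' * Real.sin (2 * Real.pi * t')|) := by
  have hC0 : 0 < C := by linarith
  have hρC : 0 < ρ / C := by positivity
  have h1 := polar a a' (2 * Real.pi * t) (2 * Real.pi * t')
  have e1 : (2 * Real.pi * t - 2 * Real.pi * t') / 2 = Real.pi * (t - t') := by ring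
  rw [e1] at h1
  have h2 := sin_lower ht
  set x := a * Real.cos (2 * Real.pi * t) - a' * Real.cos (2 * Real.pi * t')
  set y := a * Real.sin (2 * Real.pi * t) - a' * Real.sin (2 * Real.pi * t')
  set u := |t - t'|
  have hu : 0 ≤ u := abs_nonneg _
  have hS : 0 ≤ |x| + |y| := by positivity
  have h3 : x ^ 2 + y ^ 2 ≤ (|x| + |y|) ^ 2 := by
    have h4 := sq_abs x
    have h5 := sq_abs y
    have h6 : 0 ≤ |x| * |y| := by positivity
    have h7 : (|x| + |y|) ^ 2 = |x| ^ 2 + |y| ^ 2 + 2 * (|x| * |y|) := by ring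
    rw [h7, h4, h5]
    linarith
  have haa : (ρ / C) * (ρ / C) ≤ a * a' := mul_le_mul ha ha' hρC.le (by linarith)
  have hs0 : 0 ≤ Real.sin (Real.pi * (t - t')) ^ 2 := sq_nonneg _
  have h8 : 4 * ((ρ / C) * (ρ / C)) * (2 * u) ^ 2 ≤ 4 * (a * a') * Real.sin (Real.pi * (t - t')) ^ 2 := by
    apply mul_le_mul _ h2 (by positivity)
    · have : 0 ≤ (ρ / C) * (ρ / C) := by positivity
      linarith
    · linarith
  have h9 : 0 ≤ 4 * ((ρ / C) * (ρ / C)) * (2 * u) ^ 2 := by positivity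
  have h10 : |a - a'| ≤ |x| + |y| := by
    apply abs_le_of_sq_le_sq _ hS
    linarith
  have h11 : 4 * (ρ / C) * u ≤ |x| + |y| := by
    have h12 : (4 * (ρ / C) * u) ^ 2 ≤ (|x| + |y|) ^ 2 := by
      have e2 : (4 * (ρ / C) * u) ^ 2 = 4 * ((ρ / C) * (ρ / C)) * (2 * u) ^ 2 := by ring
      rw [e2]
      have := sq_nonneg (a - a')
      linarith
    have h13 := abs_le_of_sq_le_sq h12 hS
    exact (le_abs_self _).trans h13
  have h14 : ρ * u = C / 4 * (4 * (ρ / C) * u) := by field_simp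
  rw [h14]
  have h15 : C / 4 * (4 * (ρ / C) * u) ≤ C / 4 * (|x| + |y|) := mul_le_mul_of_nonneg_left h11 (by positivity)
  have h16 : |x| + |y| ≤ C * (|x| + |y|) := le_mul_of_one_le_left hS hC
  have h17 : 0 ≤ C * (|x| + |y|) := by positivity
  linarith

/-- the leading part -/
private theorem lead {C ρ ω ω' a a' t t' : ℝ} (hC : 1 ≤ C) (hρ : 0 < ρ) (hρ1 : ρ ≤ 1) (ha : ρ / C ≤ a)
    (ha' : ρ / C ≤ a') (ha'' : a' ≤ C * ρ) (h1 : 1 / 4 ≤ ω) (h2 : ω ≤ 5 / 12) (ht : |t - t'| ≤ 1 / 2) :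
    |a - a'| + ρ * |t - t'| ≤
      6 * C * (|a * Real.cos (2 * Real.pi * t) - a' * Real.cos (2 * Real.pi * t')| +
        |a * Real.cos (2 * Real.pi * (t + ω)) - a' * Real.cos (2 * Real.pi * (t' + ω'))| +
        7 * C * |ω - ω'|) := by
  have hC0 : 0 < C := by linarith
  have ha0 : 0 ≤ a' := le_trans (by positivity) ha'
  refine (core hC hρ ha ha' ht).trans ?_
  have hs := sin_ge h1 h2
  set σ := Real.sin (2 * Real.pi * ω)
  set x := a * Real.cos (2 * Real.pi * t) - a' * Real.cos (2 * Real.pi * t')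
  set y := a * Real.sin (2 * Real.pi * t) - a' * Real.sin (2 * Real.pi * t')
  have e1 : a * Real.cos (2 * Real.pi * (t + ω)) - a' * Real.cos (2 * Real.pi * (t' + ω)) =
      x * Real.cos (2 * Real.pi * ω) - y * σ := by
    rw [mul_add, mul_add, Real.cos_add, Real.cos_add]
    ring
  have h3 : |Real.cos (2 * Real.pi * (t' + ω)) - Real.cos (2 * Real.pi * (t' + ω'))| ≤ 7 * |ω - ω'| := by
    have h4 := ee_lip (t' + ω) (t' + ω')
    rw [← ee_re, ← ee_re, ← Complex.sub_re]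
    refine (Complex.abs_re_le_norm _).trans (h4.trans ?_)
    have e2 : t' + ω - (t' + ω') = ω - ω' := by ring
    rw [e2]
    apply mul_le_mul_of_nonneg_right _ (abs_nonneg _)
    have := Real.pi_lt_d2
    linarith
  set z := a * Real.cos (2 * Real.pi * (t + ω)) - a' * Real.cos (2 * Real.pi * (t' + ω'))
  have e3 : y * σ = x * Real.cos (2 * Real.pi * ω) - z + a' * (Real.cos (2 * Real.pi * (t' + ω)) -
      Real.cos (2 * Real.pi * (t' + ω'))) := by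
    linear_combination e1
  have h5 : |y| * (1 / 2) ≤ |x| + |z| + 7 * C * |ω - ω'| := by
    calc |y| * (1 / 2) ≤ |y| * σ := mul_le_mul_of_nonneg_left hs (abs_nonneg _)
      _ = |y * σ| := by rw [abs_mul, abs_of_nonneg (by linarith : 0 ≤ σ)]
      _ ≤ |x * Real.cos (2 * Real.pi * ω) - z| + |a' * (Real.cos (2 * Real.pi * (t' + ω)) -
            Real.cos (2 * Real.pi * (t' + ω')))| := by rw [e3]; exact abs_add_le _ _
      _ ≤ (|x * Real.cos (2 * Real.pi * ω)| + |z|) + |a' * (Real.cos (2 * Real.pi * (t' + ω)) -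
            Real.cos (2 * Real.pi * (t' + ω')))| := by
          gcongr
          exact abs_sub _ _
      _ ≤ (|x| + |z|) + C * (7 * |ω - ω'|) := by
          refine add_le_add (add_le_add ?_ le_rfl) ?_
          · rw [abs_mul]
            exact mul_le_of_le_one_right (abs_nonneg _) (Real.abs_cos_le_one _)
          · rw [abs_mul, abs_of_nonneg ha0]
            apply mul_le_mul _ h3 (abs_nonneg _) hC0.le
            calc a' ≤ C * ρ := ha''
              _ ≤ C * 1 := mul_le_mul_of_nonneg_left hρ1 hC0.le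
              _ = C := mul_one C
      _ = |x| + |z| + 7 * C * |ω - ω'| := by ring
  have h6 : 0 ≤ |z| := abs_nonneg _
  have h7 : 0 ≤ 7 * C * |ω - ω'| := by positivity
  calc 2 * C * (|x| + |y|) ≤ 2 * C * (3 * (|x| + |z| + 7 * C * |ω - ω'|)) := by
        apply mul_le_mul_of_nonneg_left _ (by positivity)
        linarith
    _ = 6 * C * (|x| + |z| + 7 * C * |ω - ω'|) := by ring

/-- the perturbation -/
private theorem pert {D : Set ℝ} {ρ M : ℝ} (hρ : 0 < ρ) {P : ℝ → ℝ → ℝ}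
    (h : Bd D (ρ ^ 2) 4 P (M * ρ ^ 2)) {ω ω' : ℝ} (hω : ω ∈ D) (hω' : ω' ∈ D) (t t' : ℝ) :
    |P ω t - P ω' t'| ≤ M * |ω - ω'| + 14 * M * ρ ^ 2 * |t - t'| := by
  have hρ2 : 0 < ρ ^ 2 := by positivity
  have h1 := h.lip hρ2 (by norm_num) hω hω' t
  have e1 : M * ρ ^ 2 / ρ ^ 2 = M := by field_simp
  rw [e1] at h1
  have h2 : Bd D (ρ ^ 2) 2 (dd P) (7 / (1 / 2) * (M * ρ ^ 2)) :=
    h.deriv hρ2.le (by norm_num) (by norm_num) (by norm_num) (by norm_num)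
  have h3 : |P ω' t - P ω' t'| ≤ 14 * M * ρ ^ 2 * |t - t'| := by
    have h4 := Convex.norm_image_sub_le_of_norm_hasDerivWithin_le (f := P ω') (f' := dd P ω')
      (C := 14 * M * ρ ^ 2) (s := Set.univ) (x := t') (y := t)
      (fun x _ => (h.hasDeriv (by norm_num) hω' x).hasDerivWithinAt)
      (fun x _ => by
        have h5 := h2.abs_le hρ2.le (by norm_num) hω' x
        rw [Real.norm_eq_abs]
        linarith) convex_univ (Set.mem_univ _) (Set.mem_univ _)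
    rwa [Real.norm_eq_abs, Real.norm_eq_abs] at h4
  calc |P ω t - P ω' t'| = |(P ω t - P ω' t) + (P ω' t - P ω' t')| := by ring_nf
    _ ≤ |P ω t - P ω' t| + |P ω' t - P ω' t'| := abs_add_le _ _
    _ ≤ M * |ω - ω'| + 14 * M * ρ ^ 2 * |t - t'| := add_le_add h1 h3

/-- the final absorption -/
private theorem absorb {C K ρ A u v Δ : ℝ} (hC : 1 ≤ C) (hK : 0 ≤ K) (hρ : 0 < ρ)
    (h1 : 12 * C ^ 2 * (16 * K + 7 * C) * ρ ≤ 1) (h2 : 336 * C * K * ρ ≤ 1) (hA : 0 ≤ A) (hv : 0 ≤ v)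
    (h3 : A + ρ * v ≤ 6 * C * (Δ + (16 * K + 7 * C) * u + 28 * K * ρ ^ 2 * v))
    (h4 : u ≤ C * ρ * A) : u + v ≤ 12 * C * (C * ρ + 1 / ρ) * Δ := by
  have hC0 : 0 < C := by linarith
  have h5 : 6 * C * (16 * K + 7 * C) * u ≤ 1 / 2 * A := by
    calc 6 * C * (16 * K + 7 * C) * u ≤ 6 * C * (16 * K + 7 * C) * (C * ρ * A) :=
          mul_le_mul_of_nonneg_left h4 (by positivity)
      _ = 1 / 2 * (12 * C ^ 2 * (16 * K + 7 * C) * ρ) * A := by ring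
      _ ≤ 1 / 2 * 1 * A := by gcongr
      _ = 1 / 2 * A := by ring
  have h6 : 6 * C * (28 * K * ρ ^ 2 * v) ≤ 1 / 2 * (ρ * v) := by
    calc 6 * C * (28 * K * ρ ^ 2 * v) = 1 / 2 * (336 * C * K * ρ) * (ρ * v) := by ring
      _ ≤ 1 / 2 * 1 * (ρ * v) := by gcongr
      _ = 1 / 2 * (ρ * v) := by ring
  have h7 : A + ρ * v ≤ 12 * C * Δ := by
    have e : 6 * C * (Δ + (16 * K + 7 * C) * u + 28 * K * ρ ^ 2 * v) =
        6 * C * Δ + 6 * C * (16 * K + 7 * C) * u + 6 * C * (28 * K * ρ ^ 2 * v) := by ring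
    rw [e] at h3
    linarith
  have hρv : 0 ≤ ρ * v := by positivity
  have h8 : u ≤ C * ρ * (12 * C * Δ) := h4.trans (mul_le_mul_of_nonneg_left (by linarith) (by positivity))
  have h9 : v ≤ 1 / ρ * (12 * C * Δ) := by
    rw [one_div, ← div_eq_inv_mul, le_div_iff₀ hρ]
    linarith
  calc u + v ≤ C * ρ * (12 * C * Δ) + 1 / ρ * (12 * C * Δ) := add_le_add h8 h9
    _ = 12 * C * (C * ρ + 1 / ρ) * Δ := by ring

theorem anti {C K : ℝ} (hC : 1 ≤ C) (hK : 0 ≤ K) : ∃ ρ1 : ℝ, 0 < ρ1 ∧ ρ1 ≤ 1 / 2 ∧ ∀ ρ : ℝ, 0 < ρ →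
    ρ ≤ ρ1 → ∃ Cs : ℝ, ∀ D : Set ℝ, D ⊆ Set.Icc (w0 - 2 * ρ ^ 2) (w0 - ρ ^ 2) →
    (∀ ω ∈ D, ρ / C ≤ aa ω ∧ aa ω ≤ C * ρ ∧ ∀ ω' ∈ D, |ω - ω'| ≤ C * ρ * |aa ω - aa ω'|) →
    ∀ X : ℝ → ℝ → ℝ, Bd D (ρ ^ 2) 4 (X - om aa * cs 1) (K * ρ ^ 2) →
    ∀ ω ∈ D, ∀ ω' ∈ D, ∀ t t', |t - t'| ≤ 1 / 2 →
      |ω - ω'| + |t - t'| ≤ Cs * (|X ω t - X ω' t'| + |X ω (t + ω) - X ω' (t' + ω')|) := by
  have hC0 : 0 < C := by linarith
  set b : ℝ := 10 + 12 * C ^ 2 * (16 * K + 7 * C) + 336 * C * K with hb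
  have hb1 : 0 ≤ 12 * C ^ 2 * (16 * K + 7 * C) := by positivity
  have hb2 : 0 ≤ 336 * C * K := by positivity
  have hb0 : 10 ≤ b := by linarith
  refine ⟨1 / b, by positivity, ?_, fun ρ hρ hρ1 => ⟨12 * C * (C * ρ + 1 / ρ), ?_⟩⟩
  · rw [div_le_div_iff₀ (by linarith) (by norm_num)]
    linarith
  intro D hD hDa X hX ω hω ω' hω' t t' ht
  have hbρ : b * ρ ≤ 1 := by
    rw [le_div_iff₀ (by linarith)] at hρ1
    linarith
  have hρ10 : ρ ≤ 1 / 10 := by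
    have : 10 * ρ ≤ b * ρ := mul_le_mul_of_nonneg_right hb0 hρ.le
    linarith
  have h1 : 12 * C ^ 2 * (16 * K + 7 * C) * ρ ≤ 1 := by
    have : 12 * C ^ 2 * (16 * K + 7 * C) * ρ ≤ b * ρ := mul_le_mul_of_nonneg_right (by linarith) hρ.le
    linarith
  have h2 : 336 * C * K * ρ ≤ 1 := by
    have : 336 * C * K * ρ ≤ b * ρ := mul_le_mul_of_nonneg_right (by linarith) hρ.le
    linarith
  obtain ⟨ha1, -, ha3⟩ := hDa ω hω
  obtain ⟨hb1', hb2', -⟩ := hDa ω' hω'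
  have hrange := hD hω
  have hw := w0_bounds
  have hρsq : ρ ^ 2 ≤ 1 / 100 := by
    calc ρ ^ 2 ≤ (1 / 10) ^ 2 := pow_le_pow_left₀ hρ.le hρ10 2
      _ = 1 / 100 := by norm_num
  have hρsq0 : 0 < ρ ^ 2 := by positivity
  have hω1 : 1 / 4 ≤ ω := by linarith [hrange.1, hw.1]
  have hω2 : ω ≤ 5 / 12 := by linarith [hrange.2, hw.2]
  have h3 := lead (ω' := ω') hC hρ (by linarith) ha1 hb1' hb2' hω1 hω2 ht
  have p1 := pert hρ hX hω hω' t t'
  have p2 := pert hρ hX hω hω' (t + ω) (t' + ω')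
  refine absorb hC hK hρ h1 h2 (abs_nonneg _) (abs_nonneg _) (h3.trans ?_) (ha3 ω' hω')
  apply mul_le_mul_of_nonneg_left _ (by positivity)
  have ev : ∀ w s : ℝ, (X - om aa * cs 1) w s = X w s - aa w * Real.cos (2 * Real.pi * s) := by
    intro w s
    simp [om, cs]
  rw [ev, ev] at p1 p2
  have q1 : |aa ω * Real.cos (2 * Real.pi * t) - aa ω' * Real.cos (2 * Real.pi * t')| ≤
      |X ω t - X ω' t'| + (K * |ω - ω'| + 14 * K * ρ ^ 2 * |t - t'|) := by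
    have e : aa ω * Real.cos (2 * Real.pi * t) - aa ω' * Real.cos (2 * Real.pi * t') =
        (X ω t - X ω' t') - ((X ω t - aa ω * Real.cos (2 * Real.pi * t)) -
          (X ω' t' - aa ω' * Real.cos (2 * Real.pi * t'))) := by ring
    rw [e]
    exact (abs_sub _ _).trans (add_le_add le_rfl p1)
  have q2 : |aa ω * Real.cos (2 * Real.pi * (t + ω)) - aa ω' * Real.cos (2 * Real.pi * (t' + ω'))| ≤
      |X ω (t + ω) - X ω' (t' + ω')| + (K * |ω - ω'| + 14 * K * ρ ^ 2 * |t + ω - (t' + ω')|) := by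
    have e : aa ω * Real.cos (2 * Real.pi * (t + ω)) - aa ω' * Real.cos (2 * Real.pi * (t' + ω')) =
        (X ω (t + ω) - X ω' (t' + ω')) - ((X ω (t + ω) - aa ω * Real.cos (2 * Real.pi * (t + ω))) -
          (X ω' (t' + ω') - aa ω' * Real.cos (2 * Real.pi * (t' + ω')))) := by ring
    rw [e]
    exact (abs_sub _ _).trans (add_le_add le_rfl p2)
  have q3 : |t + ω - (t' + ω')| ≤ |t - t'| + |ω - ω'| := by
    have e : t + ω - (t' + ω') = (t - t') + (ω - ω') := by ring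
    rw [e]
    exact abs_add_le _ _
  have q4 : 14 * K * ρ ^ 2 * |t + ω - (t' + ω')| ≤ 14 * K * ρ ^ 2 * |t - t'| + 14 * K * |ω - ω'| := by
    calc 14 * K * ρ ^ 2 * |t + ω - (t' + ω')| ≤ 14 * K * ρ ^ 2 * (|t - t'| + |ω - ω'|) :=
          mul_le_mul_of_nonneg_left q3 (by positivity)
      _ = 14 * K * ρ ^ 2 * |t - t'| + 14 * K * ρ ^ 2 * |ω - ω'| := by ring
      _ ≤ 14 * K * ρ ^ 2 * |t - t'| + 14 * K * 1 * |ω - ω'| := by
          gcongr
          linarith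
      _ = 14 * K * ρ ^ 2 * |t - t'| + 14 * K * |ω - ω'| := by ring
  have q5 : 0 ≤ K * |ω - ω'| := by positivity
  linarith

end Pool.Agent.MP31f1e8.KM
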