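import Pool.Agent.Lib.MP_31f1e8_mp.KM.Der

/-!
The average over `θ`.

Proofs. `Rep.avg`: `f ω θ = ∑' k, c_k ee(kθ)` with `∑ s_k < ∞`: integrate termwise over `[0,1]`
(`intervalIntegral.hasSum_integral_of_summable_norm` or `hasSum_integral_of_dominated_convergence`);
`∫_0^1 ee(kθ) = 0` for `k ≠ 0` (`integral_exp_mul_complex`, `ee k = 1`), `= 1` for `k = 0`; cast with
`intervalIntegral.integral_ofReal`.
`bdAvg`: coefficient `c_0` at `0`: `s = s_0`, `l = l_0` (`Bd.ofOm` with `|avg f ω| = ‖c 0 ω‖ ≤ s 0`, etc.;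
`s 0 + τ l 0 ≤ M` as single terms of the sums).
`avg_congr`: integrands agree. `avg_add`, `avg_sub`: continuity (`Bd.cont`) gives interval
integrability. `avg_T`: `∫_0^1 f(θ+ω) = ∫_ω^{ω+1} f = ∫_0^1 f` by periodicity (`Bd.per`,
`Function.Periodic.intervalIntegral_add_eq`). `avg_dd`: fundamental theorem
(`intervalIntegral.integral_eq_sub_of_hasDerivAt`, `Bd.hasDeriv`, `Bd.contDeriv`) and periodicity
`f ω 1 = f ω 0`.
-/

namespace Pool.Agent.MP31f1e8.KM

variable {D : Set ℝ} {τ r M N : ℝ} {f g : ℝ → ℝ → ℝ}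

private theorem Avg_ee (k : ℤ) : (∫ θ in (0:ℝ)..1, ee (k * θ)) = if k = 0 then 1 else 0 := by
  by_cases hk : k = 0
  · subst hk
    simp [ee_zero]
  · rw [if_neg hk]
    have hc : (2 * Real.pi * k * Complex.I : ℂ) ≠ 0 := by
      have h1 : ((Real.pi : ℝ) : ℂ) ≠ 0 := by exact_mod_cast Real.pi_ne_zero
      have h2 : (k : ℂ) ≠ 0 := by exact_mod_cast hk
      exact mul_ne_zero (mul_ne_zero (mul_ne_zero two_ne_zero h1) h2) Complex.I_ne_zero
    have h1 : ∀ θ : ℝ, ee (k * θ) = Complex.exp ((2 * Real.pi * k * Complex.I : ℂ) * θ) := by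
      intro θ
      unfold ee
      congr 1
      push_cast
      ring
    simp_rw [h1]
    rw [integral_exp_mul_complex hc]
    have h2 : Complex.exp ((2 * Real.pi * k * Complex.I : ℂ) * (1 : ℝ)) = 1 := by
      rw [← h1, mul_one]
      exact ee_int k
    have h3 : Complex.exp ((2 * Real.pi * k * Complex.I : ℂ) * (0 : ℝ)) = 1 := by
      rw [← h1, mul_zero]
      exact ee_zero
    rw [h2, h3, sub_self, zero_div]

private theorem Avg_ee_cont (k : ℤ) : Continuous fun θ : ℝ => ee (k * θ) := by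
  unfold ee
  fun_prop

theorem Rep.avg {c : ℤ → ℝ → ℂ} {s l : ℤ → ℝ} (hr : 1 ≤ r) (h : Rep D τ r f M c s l) {ω : ℝ}
    (hω : ω ∈ D) : ((avg f ω : ℝ) : ℂ) = c 0 ω := by
  have hs : Summable s := by
    refine Summable.of_nonneg_of_le h.s_nn (fun k => ?_) h.ssum
    have h1 : 1 ≤ r ^ k.natAbs := one_le_pow₀ hr
    nlinarith [h.s_nn k]
  have h1 : ((Pool.Agent.MP31f1e8.KM.avg f ω : ℝ) : ℂ) = ∫ θ in (0:ℝ)..1, ((f ω θ : ℝ) : ℂ) := by
    unfold Pool.Agent.MP31f1e8.KM.avg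
    exact (intervalIntegral.integral_ofReal).symm
  have h2 : HasSum (fun k : ℤ => ∫ θ in (0:ℝ)..1, c k ω * ee (k * θ))
      (∫ θ in (0:ℝ)..1, ((f ω θ : ℝ) : ℂ)) := by
    refine intervalIntegral.hasSum_integral_of_dominated_convergence (fun k _ => s k) ?_ ?_ ?_ ?_ ?_
    · intro k
      exact (continuous_const.mul (Avg_ee_cont k)).aestronglyMeasurable
    · intro k
      refine Filter.Eventually.of_forall fun θ _ => ?_
      rw [norm_mul, ee_norm, mul_one]
      exact h.sup k ω hω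
    · exact Filter.Eventually.of_forall fun θ _ => hs
    · exact intervalIntegrable_const
    · exact Filter.Eventually.of_forall fun θ _ => h.rep ω hω θ
  have h3 : ∀ k : ℤ, (∫ θ in (0:ℝ)..1, c k ω * ee (k * θ)) = if k = 0 then c 0 ω else 0 := by
    intro k
    rw [intervalIntegral.integral_const_mul, Avg_ee]
    by_cases hk : k = 0
    · subst hk
      simp
    · rw [if_neg hk, if_neg hk, mul_zero]
  simp_rw [h3] at h2
  rw [h1]
  exact h2.unique (hasSum_ite_eq 0 (c 0 ω))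

theorem Bd.bdAvg (hτ : 0 ≤ τ) (hr : 1 ≤ r) (h : Bd D τ r f M) : Bd D τ r (om (avg f)) M := by
  obtain ⟨c, s, l, hR⟩ := h
  have hr0 : 0 ≤ r := by linarith
  have h1 : ∀ ω ∈ D, |avg f ω| ≤ s 0 := by
    intro ω hω
    have h2 := hR.sup 0 ω hω
    rw [← hR.avg hr hω, Complex.norm_real] at h2
    exact h2
  have h2 : ∀ ω ∈ D, ∀ ω' ∈ D, |avg f ω - avg f ω'| ≤ l 0 * |ω - ω'| := by
    intro ω hω ω' hω'
    have h3 := hR.lip 0 ω hω ω' hω'
    rw [← hR.avg hr hω, ← hR.avg hr hω', ← Complex.ofReal_sub, Complex.norm_real] at h3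
    exact h3
  refine (Bd.ofOm (hR.s_nn 0) (hR.l_nn 0) h1 h2).mono ?_
  have h3 : s 0 ≤ ∑' k : ℤ, s k * r ^ k.natAbs := by
    have h4 := hR.ssum.le_tsum 0 (fun k _ => mul_nonneg (hR.s_nn k) (pow_nonneg hr0 _))
    simpa using h4
  have h5 : l 0 ≤ ∑' k : ℤ, l k * (r / 2) ^ k.natAbs := by
    have h4 := hR.lsum.le_tsum 0 (fun k _ => mul_nonneg (hR.l_nn k) (pow_nonneg (by linarith) _))
    simpa using h4
  have h6 := mul_le_mul_of_nonneg_left h5 hτ
  linarith [hR.le]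

theorem avg_congr (h : EqD D f g) {ω : ℝ} (hω : ω ∈ D) : avg f ω = avg g ω := by
  unfold avg
  refine intervalIntegral.integral_congr fun θ _ => ?_
  exact h ω hω θ

theorem avg_add (hr : 1 ≤ r) (h : Bd D τ r f M) (h' : Bd D τ r g N) {ω : ℝ} (hω : ω ∈ D) :
    avg (f + g) ω = avg f ω + avg g ω := by
  unfold avg
  exact intervalIntegral.integral_add ((h.cont hr hω).intervalIntegrable 0 1)
    ((h'.cont hr hω).intervalIntegrable 0 1)

theorem avg_sub (hr : 1 ≤ r) (h : Bd D τ r f M) (h' : Bd D τ r g N) {ω : ℝ} (hω : ω ∈ D) :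
    avg (f - g) ω = avg f ω - avg g ω := by
  unfold avg
  exact intervalIntegral.integral_sub ((h.cont hr hω).intervalIntegrable 0 1)
    ((h'.cont hr hω).intervalIntegrable 0 1)

theorem avg_neg (f : ℝ → ℝ → ℝ) (ω : ℝ) : avg (-f) ω = -avg f ω := by
  unfold avg
  exact intervalIntegral.integral_neg

theorem avg_om (u : ℝ → ℝ) (ω : ℝ) : avg (om u) ω = u ω := by
  unfold avg om
  simp

theorem avg_om_mul (u : ℝ → ℝ) (f : ℝ → ℝ → ℝ) (ω : ℝ) : avg (om u * f) ω = u ω * avg f ω := by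
  unfold avg
  exact intervalIntegral.integral_const_mul _ _

theorem avg_T (hr : 1 ≤ r) (h : Bd D τ r f M) {ω : ℝ} (hω : ω ∈ D) :
    avg (T f) ω = avg f ω := by
  have hp : Function.Periodic (f ω) 1 := fun θ => h.per hω θ
  unfold avg T
  rw [intervalIntegral.integral_comp_add_right (fun θ => f ω θ) ω]
  have h1 := hp.intervalIntegral_add_eq (0 + ω) 0
  rw [zero_add, zero_add] at h1
  rw [zero_add, add_comm 1 ω]
  exact h1

theorem avg_Ti (hr : 1 ≤ r) (h : Bd D τ r f M) {ω : ℝ} (hω : ω ∈ D) :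
    avg (Ti f) ω = avg f ω := by
  have hp : Function.Periodic (f ω) 1 := fun θ => h.per hω θ
  unfold avg Ti
  rw [intervalIntegral.integral_comp_sub_right (fun θ => f ω θ) ω]
  have h1 := hp.intervalIntegral_add_eq (0 - ω) 0
  rw [zero_add] at h1
  have h2 : (1 : ℝ) - ω = 0 - ω + 1 := by ring
  rw [h2]
  exact h1

theorem avg_dd (hr : 2 ≤ r) (h : Bd D τ r f M) {ω : ℝ} (hω : ω ∈ D) : avg (dd f) ω = 0 := by
  unfold avg
  rw [intervalIntegral.integral_eq_sub_of_hasDerivAt (f := f ω) (fun θ _ => h.hasDeriv hr hω θ)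
    ((h.contDeriv hr hω).intervalIntegrable 0 1)]
  have h1 := h.per hω 0
  rw [zero_add] at h1
  rw [h1, sub_self]

end Pool.Agent.MP31f1e8.KM
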