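import Pool.Agent.Lib.MP_31f1e8_mp.KM.Avg

/-!
The cohomological equation over Diophantine frequencies.

Proof of `divisor`: `‖ee t - 1‖ = 2 |sin π t|` and `|sin π t| ≥ 2 |t - round t|` (`t = k ω`; `|sin π x| ≥ 2|x|`
for `|x| ≤ 1/2`, `Real.mul_le_sin` : `2/π x ≤ sin x`), `|kω - round(kω)| ≥ γ/k²` from `DC` (for negative `k`
use `-k` and `-l`).
Proof of `coh`. First symmetrise: if `f` has the coefficients `c_k` then also `(c_k + conj c_{-k})/2`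
(with bounds `(s_k + s_{-k})/2`, `(l_k + l_{-k})/2`, same total), because `f` is real. So assume
`c_{-k} = conj c_k`. `c_0 = 0` on `D` by `Rep.avg`. Put `d_k(ω) = c_k(ω) / (ee(kω) - 1)` for `k ≠ 0`, `d_0 = 0`;
`d_{-k} = conj d_k`, so `g ω θ := re ∑' d_k ee(kθ)` equals the complex sum. Then
`g ω (θ+ω) - g ω θ = ∑ d_k (ee(kω) - 1) ee(kθ) = f ω θ`.
Bounds (`K = |k|`, `P = K²/(4γ)`): `|d_k| ≤ P s_k`; Lipschitz constant
`P l_k + 2πK P² s_k` (`1/z - 1/w = (w - z)/(zw)`). Weights: `K² (1-δ)^K ≤ 2/δ²`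
(`∑_{j≤K} (j+1) q^j ≤ 1/(1-q)²`, the left side `≥ q^K K²/2`), so `P r'^K ≤ r^K/(2γδ²)`, the same for
`(r'/2)^K` and `(r/2)^K`; and `2πK P² (r'/2)^K ≤ (2π/16) K^5 2^{-K} r^K / γ² ≤ 52 r^K / γ²` (`K^5 ≤ 132 * 2^K`).
Total: `(1/(2γδ²)) M + τ 52/γ² M ≤ 60/(γ²δ²) M`.
-/

namespace Pool.Agent.MP31f1e8.KM

variable {D : Set ℝ} {τ r r' γ δ M : ℝ} {f : ℝ → ℝ → ℝ}

private lemma coh_ee_sub_one (t : ℝ) : ‖ee t - 1‖ = 2 * |Real.sin (Real.pi * t)| := by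
  have h := Complex.norm_exp_I_mul_ofReal_sub_one (2 * Real.pi * t)
  have e : ee t = Complex.exp (Complex.I * ((2 * Real.pi * t : ℝ) : ℂ)) := by
    unfold ee
    congr 1
    push_cast
    ring
  rw [e, h, Real.norm_eq_abs, abs_mul, abs_of_pos (by norm_num : (0:ℝ) < 2)]
  congr 3
  ring

private lemma coh_sin (x : ℝ) (hx : |x| ≤ 1 / 2) : 2 * |x| ≤ |Real.sin (Real.pi * x)| := by
  have hpi := Real.pi_pos
  have h1 : |Real.pi * x| ≤ Real.pi / 2 := by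
    rw [abs_mul, abs_of_pos hpi]
    nlinarith
  have h2 := Real.mul_abs_le_abs_sin h1
  rw [abs_mul, abs_of_pos hpi] at h2
  calc 2 * |x| = 2 / Real.pi * (Real.pi * |x|) := by field_simp
    _ ≤ _ := h2

private lemma coh_dist {ω : ℝ} (hω : ω ∈ DC γ) {k : ℤ} (hk : k ≠ 0) (n : ℤ) :
    γ / (k.natAbs : ℝ) ^ 2 ≤ |k * ω - n| := by
  have h1 : 1 ≤ k.natAbs := Int.natAbs_pos.2 hk
  rcases Int.natAbs_eq k with h | h
  · have h2 := hω k.natAbs h1 n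
    have e : (k : ℝ) = (k.natAbs : ℝ) := by
      have : ((k.natAbs : ℤ) : ℝ) = (k : ℝ) := by rw [← h]
      rw [← this]; simp
    rw [show (k : ℝ) * ω - n = (k.natAbs : ℝ) * ω - n by rw [← e]]
    exact h2
  · have h2 := hω k.natAbs h1 (-n)
    have e : (k : ℝ) = -(k.natAbs : ℝ) := by
      have : ((-(k.natAbs : ℤ) : ℤ) : ℝ) = (k : ℝ) := by rw [← h]
      rw [← this]; simp
    rw [show (k : ℝ) * ω - n = -((k.natAbs : ℝ) * ω - ((-n : ℤ) : ℝ)) by rw [e]; push_cast; ring, abs_neg]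
    exact h2

/-- small divisors -/
theorem divisor (hγ : 0 < γ) {ω : ℝ} (hω : ω ∈ DC γ) {k : ℤ} (hk : k ≠ 0) :
    4 * γ / (k.natAbs : ℝ) ^ 2 ≤ ‖ee (k * ω) - 1‖ := by
  rw [coh_ee_sub_one]
  set n : ℤ := round ((k : ℝ) * ω) with hn
  have h1 : |(k : ℝ) * ω - n| ≤ 1 / 2 := abs_sub_round _
  have h2 := coh_sin _ h1
  have h3 : |Real.sin (Real.pi * ((k : ℝ) * ω - n))| = |Real.sin (Real.pi * ((k : ℝ) * ω))| := by
    rw [show Real.pi * ((k : ℝ) * ω - n) = Real.pi * ((k : ℝ) * ω) - n * Real.pi by ring]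
    rw [Real.sin_sub_int_mul_pi, abs_mul]
    have : |(-1 : ℝ) ^ n| = 1 := by
      rw [abs_zpow, abs_neg, abs_one, one_zpow]
    rw [this, one_mul]
  rw [← h3]
  have h4 := coh_dist hω hk n
  calc 4 * γ / (k.natAbs : ℝ) ^ 2 = 4 * (γ / (k.natAbs : ℝ) ^ 2) := by ring
    _ ≤ 4 * |(k : ℝ) * ω - n| := by linarith
    _ ≤ 2 * |Real.sin (Real.pi * ((k : ℝ) * ω - n))| := by linarith

/-! ### real parts -/

private lemma coh_neg_summable {u : ℤ → ℝ} (h : Summable u) : Summable fun k : ℤ => u (-k) :=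
  (Equiv.neg ℤ).summable_iff.2 h

private lemma coh_neg_tsum (u : ℤ → ℝ) : ∑' k : ℤ, u (-k) = ∑' k : ℤ, u k :=
  (Equiv.neg ℤ).tsum_eq u

private lemma coh_re {d : ℤ → ℝ → ℂ} {s l : ℤ → ℝ} (s0 : ∀ k, 0 ≤ s k) (l0 : ∀ k, 0 ≤ l k)
    (sup : ∀ k, ∀ ω ∈ D, ‖d k ω‖ ≤ s k)
    (lip : ∀ k, ∀ ω ∈ D, ∀ ω' ∈ D, ‖d k ω - d k ω'‖ ≤ l k * |ω - ω'|)
    (ss : Summable fun k : ℤ => s k * r ^ k.natAbs)
    (ls : Summable fun k : ℤ => l k * (r / 2) ^ k.natAbs)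
    (le : (∑' k : ℤ, s k * r ^ k.natAbs) + τ * ∑' k : ℤ, l k * (r / 2) ^ k.natAbs ≤ M)
    (sm : ∀ ω ∈ D, ∀ θ : ℝ, Summable fun k : ℤ => d k ω * ee (k * θ)) :
    Rep D τ r (fun ω θ => (∑' k : ℤ, d k ω * ee (k * θ)).re) M
      (fun k ω => (1 / 2 : ℂ) * (d k ω + (starRingEnd ℂ) (d (-k) ω)))
      (fun k => (s k + s (-k)) / 2) (fun k => (l k + l (-k)) / 2) := by
  have ss' : Summable fun k : ℤ => s (-k) * r ^ k.natAbs := by
    have := coh_neg_summable ss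
    simpa only [Int.natAbs_neg] using this
  have ls' : Summable fun k : ℤ => l (-k) * (r / 2) ^ k.natAbs := by
    have := coh_neg_summable ls
    simpa only [Int.natAbs_neg] using this
  have st' : ∑' k : ℤ, s (-k) * r ^ k.natAbs = ∑' k : ℤ, s k * r ^ k.natAbs := by
    have := coh_neg_tsum (fun k : ℤ => s k * r ^ k.natAbs)
    simpa only [Int.natAbs_neg] using this
  have lt' : ∑' k : ℤ, l (-k) * (r / 2) ^ k.natAbs = ∑' k : ℤ, l k * (r / 2) ^ k.natAbs := by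
    have := coh_neg_tsum (fun k : ℤ => l k * (r / 2) ^ k.natAbs)
    simpa only [Int.natAbs_neg] using this
  have e1 : (fun k : ℤ => (s k + s (-k)) / 2 * r ^ k.natAbs) =
      fun k : ℤ => (1 / 2) * (s k * r ^ k.natAbs + s (-k) * r ^ k.natAbs) := by
    funext k; ring
  have e2 : (fun k : ℤ => (l k + l (-k)) / 2 * (r / 2) ^ k.natAbs) =
      fun k : ℤ => (1 / 2) * (l k * (r / 2) ^ k.natAbs + l (-k) * (r / 2) ^ k.natAbs) := by
    funext k; ring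
  have hhalf : ‖(1 / 2 : ℂ)‖ = 1 / 2 := by norm_num
  refine ⟨fun k => by have := s0 k; have := s0 (-k); positivity,
    fun k => by have := l0 k; have := l0 (-k); positivity, ?_, ?_, ?_, ?_, ?_, ?_⟩
  · intro k ω hω
    rw [norm_mul, hhalf]
    have h1 := norm_add_le (d k ω) ((starRingEnd ℂ) (d (-k) ω))
    rw [RCLike.norm_conj] at h1
    have h2 := sup k ω hω
    have h3 := sup (-k) ω hω
    linarith
  · intro k ω hω ω' hω'
    have e : (1 / 2 : ℂ) * (d k ω + (starRingEnd ℂ) (d (-k) ω)) -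
        (1 / 2 : ℂ) * (d k ω' + (starRingEnd ℂ) (d (-k) ω')) =
        (1 / 2 : ℂ) * ((d k ω - d k ω') + (starRingEnd ℂ) (d (-k) ω - d (-k) ω')) := by
      rw [map_sub]; ring
    rw [e, norm_mul, hhalf]
    have h1 := norm_add_le (d k ω - d k ω') ((starRingEnd ℂ) (d (-k) ω - d (-k) ω'))
    rw [RCLike.norm_conj] at h1
    have h2 := lip k ω hω ω' hω'
    have h3 := lip (-k) ω hω ω' hω'
    nlinarith
  · rw [e1]
    exact (ss.add ss').mul_left _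
  · rw [e2]
    exact (ls.add ls').mul_left _
  · rw [e1, e2, tsum_mul_left, tsum_mul_left, ss.tsum_add ss', ls.tsum_add ls', st', lt']
    calc _ = (∑' k : ℤ, s k * r ^ k.natAbs) + τ * ∑' k : ℤ, l k * (r / 2) ^ k.natAbs := by ring
      _ ≤ M := le
  · intro ω hω θ
    have h1 := (sm ω hω θ).hasSum
    have h2 : HasSum (fun k : ℤ => (starRingEnd ℂ) (d k ω * ee (k * θ)))
        ((starRingEnd ℂ) (∑' k : ℤ, d k ω * ee (k * θ))) :=
      h1.map (starRingEnd ℂ) Complex.continuous_conj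
    have h3 := (Equiv.neg ℤ).hasSum_iff.2 h2
    have h4 := (h1.add h3).mul_left (1 / 2 : ℂ)
    have e5 : (1 / 2 : ℂ) * ((∑' k : ℤ, d k ω * ee (k * θ)) +
        (starRingEnd ℂ) (∑' k : ℤ, d k ω * ee (k * θ))) =
        (((∑' k : ℤ, d k ω * ee (k * θ)).re : ℝ) : ℂ) := by
      rw [Complex.add_conj]
      push_cast
      ring
    rw [e5] at h4
    have e6 : (fun k : ℤ => (1 / 2 : ℂ) * (d k ω * ee (k * θ) +
        ((fun k : ℤ => (starRingEnd ℂ) (d k ω * ee (k * θ))) ∘ (Equiv.neg ℤ)) k)) =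
        fun k : ℤ => (1 / 2 : ℂ) * (d k ω + (starRingEnd ℂ) (d (-k) ω)) * ee (k * θ) := by
      funext k
      simp only [Function.comp, Equiv.neg_apply, map_mul, ee_conj]
      have : -(((-k : ℤ) : ℝ) * θ) = k * θ := by push_cast; ring
      rw [this]
      ring
    rw [e6] at h4
    exact h4

/-! ### weights -/

private lemma coh_binom (K : ℕ) (hδ : 0 ≤ δ) :
    1 + K * δ + (K : ℝ) * (K - 1) / 2 * δ ^ 2 ≤ (1 + δ) ^ K := by
  induction K with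
  | zero => simp
  | succ n ih =>
    rw [pow_succ]
    have h1 := mul_le_mul_of_nonneg_right ih (by linarith : (0:ℝ) ≤ 1 + δ)
    refine le_trans ?_ h1
    push_cast
    have h2 : (0:ℝ) ≤ (n : ℝ) * (n - 1) := by
      rcases Nat.eq_zero_or_pos n with h | h
      · simp [h]
      · have : (1:ℝ) ≤ n := by exact_mod_cast h
        nlinarith
    have h3 : 0 ≤ (n : ℝ) * (n - 1) * δ ^ 3 := by positivity
    nlinarith

private lemma coh_w1 (K : ℕ) (hδ : 0 < δ) (hδ' : δ ≤ 1) (hr' : 0 ≤ r') (hr0 : 0 ≤ r)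
    (hr : r' ≤ (1 - δ) * r) : (K : ℝ) ^ 2 * r' ^ K ≤ 2 / δ ^ 2 * r ^ K := by
  have h1 : r' ^ K ≤ (1 - δ) ^ K * r ^ K := by
    rw [← mul_pow]
    exact pow_le_pow_left₀ hr' hr K
  have h2 : (K : ℝ) ^ 2 * (1 - δ) ^ K ≤ 2 / δ ^ 2 := by
    have h3 : (1 - δ) ^ K * (1 + δ) ^ K ≤ 1 := by
      rw [← mul_pow]
      apply pow_le_one₀
      · nlinarith
      · nlinarith
    have h4 := coh_binom K hδ.le
    have hK : (0:ℝ) ≤ K := Nat.cast_nonneg K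
    have h5 : (K : ℝ) ^ 2 * δ ^ 2 ≤ 2 * (1 + δ) ^ K := by
      have : 0 ≤ (K : ℝ) * δ * (2 - δ) := by
        apply mul_nonneg (mul_nonneg hK hδ.le); linarith
      nlinarith
    have h6 : 0 ≤ (1 - δ) ^ K := pow_nonneg (by linarith) K
    rw [le_div_iff₀ (by positivity)]
    calc (K : ℝ) ^ 2 * (1 - δ) ^ K * δ ^ 2 = (1 - δ) ^ K * ((K : ℝ) ^ 2 * δ ^ 2) := by ring
      _ ≤ (1 - δ) ^ K * (2 * (1 + δ) ^ K) := mul_le_mul_of_nonneg_left h5 h6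
      _ = 2 * ((1 - δ) ^ K * (1 + δ) ^ K) := by ring
      _ ≤ 2 := by linarith
  calc (K : ℝ) ^ 2 * r' ^ K ≤ (K : ℝ) ^ 2 * ((1 - δ) ^ K * r ^ K) :=
        mul_le_mul_of_nonneg_left h1 (by positivity)
    _ = (K : ℝ) ^ 2 * (1 - δ) ^ K * r ^ K := by ring
    _ ≤ 2 / δ ^ 2 * r ^ K := mul_le_mul_of_nonneg_right h2 (by positivity)

private lemma coh_five (K : ℕ) : (K : ℝ) ^ 5 ≤ 132 * 2 ^ K := by
  have h : ∀ n : ℕ, ((n + 7 : ℕ) : ℝ) ^ 5 ≤ 132 * 2 ^ (n + 7) := by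
    intro n
    induction n with
    | zero => norm_num
    | succ m ih =>
      have hm : (0:ℝ) ≤ m := Nat.cast_nonneg m
      have h1 : ((m + 1 + 7 : ℕ) : ℝ) ^ 5 ≤ 2 * ((m + 7 : ℕ) : ℝ) ^ 5 := by
        push_cast
        have h2 : (m : ℝ) + 1 + 7 ≤ 8 / 7 * ((m : ℝ) + 7) := by linarith
        calc ((m : ℝ) + 1 + 7) ^ 5 ≤ (8 / 7 * ((m : ℝ) + 7)) ^ 5 :=
              pow_le_pow_left₀ (by positivity) h2 5
          _ = (8 / 7) ^ 5 * ((m : ℝ) + 7) ^ 5 := by rw [mul_pow]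
          _ ≤ 2 * ((m : ℝ) + 7) ^ 5 := by
            have : (0:ℝ) ≤ ((m : ℝ) + 7) ^ 5 := by positivity
            nlinarith
      calc ((m + 1 + 7 : ℕ) : ℝ) ^ 5 ≤ 2 * ((m + 7 : ℕ) : ℝ) ^ 5 := h1
        _ ≤ 2 * (132 * 2 ^ (m + 7)) := by linarith
        _ = 132 * 2 ^ (m + 1 + 7) := by ring
  rcases Nat.lt_or_ge K 7 with hK | hK
  · interval_cases K <;> norm_num
  · obtain ⟨n, rfl⟩ := Nat.exists_eq_add_of_le' hK
    exact h n

private lemma coh_w2 (K : ℕ) (hγ : 0 < γ) (hr' : 0 ≤ r') (hr : r' ≤ r) :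
    2 * Real.pi * K * ((K : ℝ) ^ 2 / (4 * γ)) ^ 2 * (r' / 2) ^ K ≤ 52 / γ ^ 2 * r ^ K := by
  have h1 := coh_five K
  have h2 : r' ^ K ≤ r ^ K := pow_le_pow_left₀ hr' hr K
  have h2' : 0 ≤ r' ^ K := pow_nonneg hr' K
  have hpi : Real.pi < 3.15 := Real.pi_lt_d2
  have hpi0 := Real.pi_pos
  have e : 2 * Real.pi * K * ((K : ℝ) ^ 2 / (4 * γ)) ^ 2 * (r' / 2) ^ K =
      (2 * Real.pi / 16) * ((K : ℝ) ^ 5 / 2 ^ K) / γ ^ 2 * r' ^ K := by
    rw [div_pow, div_pow]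
    field_simp
    ring
  have h3 : (K : ℝ) ^ 5 / 2 ^ K ≤ 132 := by
    rw [div_le_iff₀ (by positivity)]
    exact h1
  have h4 : 0 ≤ (K : ℝ) ^ 5 / 2 ^ K := by positivity
  have h5 : (2 * Real.pi / 16) * ((K : ℝ) ^ 5 / 2 ^ K) ≤ 52 := by nlinarith
  rw [e]
  calc (2 * Real.pi / 16) * ((K : ℝ) ^ 5 / 2 ^ K) / γ ^ 2 * r' ^ K ≤ 52 / γ ^ 2 * r' ^ K := by
        gcongr
    _ ≤ 52 / γ ^ 2 * r ^ K := by gcongr

theorem coh (hγ : 0 < γ) (hγ1 : γ ≤ 1) (hτ : 0 ≤ τ) (hτ' : τ ≤ 1 / 4) (hD : D ⊆ DC γ)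
    (hδ : 0 < δ) (hδ' : δ ≤ 1) (hr' : 2 ≤ r') (hr : r' ≤ (1 - δ) * r) (hf : Bd D τ r f M)
    (h0 : ∀ ω ∈ D, avg f ω = 0) :
    ∃ g, Bd D τ r' g (60 / (γ ^ 2 * δ ^ 2) * M) ∧ EqD D (T g - g) f := by
  obtain ⟨c, s, l, hc⟩ := hf
  have hr0 : 0 < r := by
    by_contra hcon
    rw [not_lt] at hcon
    have : (1 - δ) * r ≤ 0 := mul_nonpos_of_nonneg_of_nonpos (by linarith) hcon
    linarith
  have hrr : r' ≤ r := by nlinarith
  have hr'0 : 0 ≤ r' := by linarith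
  have hr2 : 2 ≤ r := by linarith
  -- the coefficients
  set P : ℤ → ℝ := fun k => (k.natAbs : ℝ) ^ 2 / (4 * γ) with hP
  have hP0 : ∀ k, 0 ≤ P k := fun k => by simp only [hP]; positivity
  set d : ℤ → ℝ → ℂ := fun k ω => if k = 0 then 0 else c k ω / (ee (k * ω) - 1) with hd
  set s1 : ℤ → ℝ := fun k => P k * s k with hs1
  set l1 : ℤ → ℝ := fun k => P k * l k + 2 * Real.pi * k.natAbs * P k ^ 2 * s k with hl1
  have hpi0 := Real.pi_pos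
  have s10 : ∀ k, 0 ≤ s1 k := fun k => mul_nonneg (hP0 k) (hc.s_nn k)
  have l10 : ∀ k, 0 ≤ l1 k := fun k => by
    have h1 := hc.s_nn k
    have h2 := hc.l_nn k
    have h3 := hP0 k
    simp only [hl1]
    positivity
  -- small divisors
  have hz : ∀ k : ℤ, k ≠ 0 → ∀ ω ∈ D, ee (k * ω) - 1 ≠ 0 ∧ ‖(ee (k * ω) - 1)⁻¹‖ ≤ P k := by
    intro k hk ω hω
    have h1 := divisor hγ (hD hω) hk
    have hK : (0:ℝ) < k.natAbs := by exact_mod_cast Int.natAbs_pos.2 hk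
    have h2 : 0 < 4 * γ / (k.natAbs : ℝ) ^ 2 := by positivity
    have h3 : 0 < ‖ee (k * ω) - 1‖ := lt_of_lt_of_le h2 h1
    refine ⟨norm_pos_iff.1 h3, ?_⟩
    rw [norm_inv]
    calc ‖ee (k * ω) - 1‖⁻¹ ≤ (4 * γ / (k.natAbs : ℝ) ^ 2)⁻¹ := inv_anti₀ h2 h1
      _ = P k := by simp only [hP]; rw [inv_div]
  have sup : ∀ k, ∀ ω ∈ D, ‖d k ω‖ ≤ s1 k := by
    intro k ω hω
    by_cases hk : k = 0
    · simp only [hd, hk, if_true, norm_zero]
      exact s10 0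
    · simp only [hd, if_neg hk, hs1]
      rw [div_eq_mul_inv, norm_mul, mul_comm]
      exact mul_le_mul (hz k hk ω hω).2 (hc.sup k ω hω) (norm_nonneg _) (hP0 k)
  have lip : ∀ k, ∀ ω ∈ D, ∀ ω' ∈ D, ‖d k ω - d k ω'‖ ≤ l1 k * |ω - ω'| := by
    intro k ω hω ω' hω'
    by_cases hk : k = 0
    · simp only [hd, hk, if_true, sub_self, norm_zero]
      exact mul_nonneg (l10 0) (abs_nonneg _)
    · simp only [hd, if_neg hk, hl1]
      obtain ⟨z0, z1⟩ := hz k hk ω hω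
      obtain ⟨w0, w1⟩ := hz k hk ω' hω'
      have e : c k ω / (ee (k * ω) - 1) - c k ω' / (ee (k * ω') - 1) =
          (c k ω - c k ω') * (ee (k * ω) - 1)⁻¹ +
          c k ω' * ((ee (k * ω) - 1)⁻¹ * (ee (k * ω') - 1)⁻¹ * (ee (k * ω') - ee (k * ω))) := by
        field_simp
        ring
      rw [e]
      refine (norm_add_le _ _).trans ?_
      rw [norm_mul, norm_mul, norm_mul, norm_mul]
      have h1 := hc.lip k ω hω ω' hω'
      have h2 := hc.sup k ω' hω'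
      have h3 : ‖ee (k * ω') - ee (k * ω)‖ ≤ 2 * Real.pi * (k.natAbs * |ω - ω'|) := by
        refine (ee_lip _ _).trans (le_of_eq ?_)
        rw [← mul_sub, abs_mul, abs_sub_comm ω' ω]
        congr 2
        rw [Nat.cast_natAbs, Int.cast_abs]
      have hPk := hP0 k
      have hsk := hc.s_nn k
      have hlk := hc.l_nn k
      have ha := abs_nonneg (ω - ω')
      have t1 : ‖c k ω - c k ω'‖ * ‖(ee (k * ω) - 1)⁻¹‖ ≤ l k * |ω - ω'| * P k :=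
        mul_le_mul h1 z1 (norm_nonneg _) (by positivity)
      have t2 : ‖(ee (k * ω) - 1)⁻¹‖ * ‖(ee (k * ω') - 1)⁻¹‖ ≤ P k * P k :=
        mul_le_mul z1 w1 (norm_nonneg _) hPk
      have t3 : ‖(ee (k * ω) - 1)⁻¹‖ * ‖(ee (k * ω') - 1)⁻¹‖ * ‖ee (k * ω') - ee (k * ω)‖ ≤
          P k * P k * (2 * Real.pi * (k.natAbs * |ω - ω'|)) :=
        mul_le_mul t2 h3 (norm_nonneg _) (by positivity)
      have t4 : ‖c k ω'‖ * (‖(ee (k * ω) - 1)⁻¹‖ * ‖(ee (k * ω') - 1)⁻¹‖ *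
          ‖ee (k * ω') - ee (k * ω)‖) ≤ s k * (P k * P k * (2 * Real.pi * (k.natAbs * |ω - ω'|))) :=
        mul_le_mul h2 t3 (by positivity) hsk
      calc _ ≤ l k * |ω - ω'| * P k + s k * (P k * P k * (2 * Real.pi * (k.natAbs * |ω - ω'|))) :=
            add_le_add t1 t4
        _ = _ := by ring
  -- weights
  have a0 : 0 ≤ 1 / (2 * γ * δ ^ 2) := by positivity
  have wP : ∀ k : ℤ, P k * r' ^ k.natAbs ≤ 1 / (2 * γ * δ ^ 2) * r ^ k.natAbs := by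
    intro k
    have h1 := coh_w1 (r := r) k.natAbs hδ hδ' hr'0 hr0.le hr
    simp only [hP]
    calc (k.natAbs : ℝ) ^ 2 / (4 * γ) * r' ^ k.natAbs
        = ((k.natAbs : ℝ) ^ 2 * r' ^ k.natAbs) / (4 * γ) := by ring
      _ ≤ (2 / δ ^ 2 * r ^ k.natAbs) / (4 * γ) := by gcongr
      _ = _ := by field_simp; ring
  have wP2 : ∀ k : ℤ, P k * (r' / 2) ^ k.natAbs ≤ 1 / (2 * γ * δ ^ 2) * (r / 2) ^ k.natAbs := by
    intro k
    have h1 := wP k
    rw [div_pow, div_pow]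
    calc P k * (r' ^ k.natAbs / 2 ^ k.natAbs) = P k * r' ^ k.natAbs / 2 ^ k.natAbs := by ring
      _ ≤ 1 / (2 * γ * δ ^ 2) * r ^ k.natAbs / 2 ^ k.natAbs := by gcongr
      _ = _ := by ring
  have bs : ∀ k : ℤ, s1 k * r' ^ k.natAbs ≤ 1 / (2 * γ * δ ^ 2) * (s k * r ^ k.natAbs) := by
    intro k
    have h1 := mul_le_mul_of_nonneg_left (wP k) (hc.s_nn k)
    simp only [hs1]
    calc _ = s k * (P k * r' ^ k.natAbs) := by ring
      _ ≤ _ := h1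
      _ = _ := by ring
  have bl : ∀ k : ℤ, l1 k * (r' / 2) ^ k.natAbs ≤
      1 / (2 * γ * δ ^ 2) * (l k * (r / 2) ^ k.natAbs) + 52 / γ ^ 2 * (s k * r ^ k.natAbs) := by
    intro k
    have h1 := mul_le_mul_of_nonneg_left (wP2 k) (hc.l_nn k)
    have h2 := mul_le_mul_of_nonneg_left (coh_w2 (r := r) k.natAbs hγ hr'0 hrr) (hc.s_nn k)
    simp only [hl1]
    calc _ = l k * (P k * (r' / 2) ^ k.natAbs) +
          s k * (2 * Real.pi * k.natAbs * P k ^ 2 * (r' / 2) ^ k.natAbs) := by ring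
      _ ≤ _ := add_le_add h1 h2
      _ = _ := by ring
  have ss1 : Summable fun k : ℤ => s1 k * r' ^ k.natAbs :=
    Summable.of_nonneg_of_le (fun k => mul_nonneg (s10 k) (by positivity)) bs
      (hc.ssum.mul_left _)
  have ls1 : Summable fun k : ℤ => l1 k * (r' / 2) ^ k.natAbs :=
    Summable.of_nonneg_of_le (fun k => mul_nonneg (l10 k) (by positivity)) bl
      ((hc.lsum.mul_left _).add (hc.ssum.mul_left _))
  have S0 : 0 ≤ ∑' k : ℤ, s k * r ^ k.natAbs :=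
    tsum_nonneg fun k => mul_nonneg (hc.s_nn k) (by positivity)
  have L0 : 0 ≤ ∑' k : ℤ, l k * (r / 2) ^ k.natAbs :=
    tsum_nonneg fun k => mul_nonneg (hc.l_nn k) (by positivity)
  have hM := hc.le
  have tS : ∑' k : ℤ, s1 k * r' ^ k.natAbs ≤
      1 / (2 * γ * δ ^ 2) * ∑' k : ℤ, s k * r ^ k.natAbs := by
    rw [← tsum_mul_left]
    exact ss1.tsum_le_tsum bs (hc.ssum.mul_left _)
  have tL : ∑' k : ℤ, l1 k * (r' / 2) ^ k.natAbs ≤
      1 / (2 * γ * δ ^ 2) * (∑' k : ℤ, l k * (r / 2) ^ k.natAbs) +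
        52 / γ ^ 2 * ∑' k : ℤ, s k * r ^ k.natAbs := by
    rw [← tsum_mul_left, ← tsum_mul_left, ← (hc.lsum.mul_left _).tsum_add (hc.ssum.mul_left _)]
    exact ls1.tsum_le_tsum bl ((hc.lsum.mul_left _).add (hc.ssum.mul_left _))
  have hle : (∑' k : ℤ, s1 k * r' ^ k.natAbs) + τ * ∑' k : ℤ, l1 k * (r' / 2) ^ k.natAbs ≤
      60 / (γ ^ 2 * δ ^ 2) * M := by
    set S := ∑' k : ℤ, s k * r ^ k.natAbs
    set L := ∑' k : ℤ, l k * (r / 2) ^ k.natAbs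
    have hM0 : 0 ≤ M := le_trans (by positivity) hM
    have hSM : S ≤ M := by nlinarith [mul_nonneg hτ L0]
    have h1 : 1 / (2 * γ * δ ^ 2) ≤ 1 / (2 * (γ ^ 2 * δ ^ 2)) := by
      apply one_div_le_one_div_of_le (by positivity)
      have : γ ^ 2 ≤ γ := by nlinarith
      have hd2 : 0 ≤ δ ^ 2 := by positivity
      nlinarith
    have h2 : 52 / γ ^ 2 ≤ 52 / (γ ^ 2 * δ ^ 2) := by
      apply div_le_div_of_nonneg_left (by norm_num) (by positivity)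
      have : δ ^ 2 ≤ 1 := by nlinarith
      have hg2 : 0 ≤ γ ^ 2 := by positivity
      nlinarith
    have h3 : τ * (52 / γ ^ 2 * S) ≤ 13 / (γ ^ 2 * δ ^ 2) * M := by
      calc τ * (52 / γ ^ 2 * S) ≤ 1 / 4 * (52 / (γ ^ 2 * δ ^ 2) * M) := by gcongr
        _ = _ := by ring
    calc (∑' k : ℤ, s1 k * r' ^ k.natAbs) + τ * ∑' k : ℤ, l1 k * (r' / 2) ^ k.natAbs
        ≤ 1 / (2 * γ * δ ^ 2) * S + τ * (1 / (2 * γ * δ ^ 2) * L + 52 / γ ^ 2 * S) := by gcongr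
      _ = 1 / (2 * γ * δ ^ 2) * (S + τ * L) + τ * (52 / γ ^ 2 * S) := by ring
      _ ≤ 1 / (2 * (γ ^ 2 * δ ^ 2)) * M + 13 / (γ ^ 2 * δ ^ 2) * M := by gcongr
      _ = (27 / 2) / (γ ^ 2 * δ ^ 2) * M := by field_simp; ring
      _ ≤ 60 / (γ ^ 2 * δ ^ 2) * M := by gcongr; norm_num
  -- summability
  have hsm : ∀ ω ∈ D, ∀ θ : ℝ, Summable fun k : ℤ => d k ω * ee (k * θ) := by
    intro ω hω θ
    apply Summable.of_norm_bounded ss1
    intro k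
    rw [norm_mul, ee_norm, mul_one]
    refine (sup k ω hω).trans ?_
    have h1 : (1:ℝ) ≤ r' ^ k.natAbs := one_le_pow₀ (by linarith)
    have h2 := s10 k
    nlinarith
  refine ⟨fun ω θ => (∑' k : ℤ, d k ω * ee (k * θ)).re,
    ⟨_, _, _, coh_re s10 l10 sup lip ss1 ls1 hle hsm⟩, ?_⟩
  intro ω hω θ
  have hc0 : c 0 ω = 0 := by
    rw [← hc.avg (by linarith) hω, h0 ω hω]
    simp
  show (∑' k : ℤ, d k ω * ee (k * (θ + ω))).re - (∑' k : ℤ, d k ω * ee (k * θ)).re = f ω θ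
  have h1 := (hsm ω hω (θ + ω)).hasSum
  have h2 := (hsm ω hω θ).hasSum
  have h3 := h1.sub h2
  have h4 := hc.rep ω hω θ
  have h5 : (fun k : ℤ => d k ω * ee (k * (θ + ω)) - d k ω * ee (k * θ)) =
      fun k : ℤ => c k ω * ee (k * θ) := by
    funext k
    by_cases hk : k = 0
    · simp only [hd, hk, if_true, hc0, zero_mul, sub_zero]
    · simp only [hd, if_neg hk]
      have hz0 := (hz k hk ω hω).1
      rw [mul_add, ee_add]
      field_simp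
  rw [h5] at h3
  have h6 := h3.unique h4
  have h7 := congrArg Complex.re h6
  rw [Complex.sub_re, Complex.ofReal_re] at h7
  exact h7

end Pool.Agent.MP31f1e8.KM
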