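import Mathlib

/-!
# MP_31f1e8, part K (KAM curves): definitions

Real functions `f ω θ` (`ω` a frequency in `D`, `θ` an angle, period `1`) with Fourier coefficients
that are Lipschitz functions of `ω`, and the norms `∑ sup|c_k| r^|k| + τ ∑ Lip(c_k) (r/2)^|k|`.
-/

namespace Pool.Agent.MP31f1e8.KM

/-- `ee t = exp (2 π i t)` -/
noncomputable def ee (t : ℝ) : ℂ := Complex.exp (2 * Real.pi * t * Complex.I)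

/-- `f(ω, θ) = ∑ c_k(ω) e(kθ)` for `ω ∈ D`; `s k` bounds the modulus and `l k` the Lipschitz constant
of `c_k` on `D`; the weighted sum is at most `M`. -/
structure Rep (D : Set ℝ) (τ r : ℝ) (f : ℝ → ℝ → ℝ) (M : ℝ) (c : ℤ → ℝ → ℂ) (s l : ℤ → ℝ) :
    Prop where
  s_nn : ∀ k, 0 ≤ s k
  l_nn : ∀ k, 0 ≤ l k
  sup : ∀ k, ∀ ω ∈ D, ‖c k ω‖ ≤ s k
  lip : ∀ k, ∀ ω ∈ D, ∀ ω' ∈ D, ‖c k ω - c k ω'‖ ≤ l k * |ω - ω'|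
  ssum : Summable fun k : ℤ => s k * r ^ k.natAbs
  lsum : Summable fun k : ℤ => l k * (r / 2) ^ k.natAbs
  le : (∑' k : ℤ, s k * r ^ k.natAbs) + τ * ∑' k : ℤ, l k * (r / 2) ^ k.natAbs ≤ M
  rep : ∀ ω ∈ D, ∀ θ, HasSum (fun k : ℤ => c k ω * ee (k * θ)) ((f ω θ : ℝ) : ℂ)

/-- `f` is in the algebra of radius `r` with norm at most `M`. -/
def Bd (D : Set ℝ) (τ r : ℝ) (f : ℝ → ℝ → ℝ) (M : ℝ) : Prop := ∃ c s l, Rep D τ r f M c s l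

/-- `f` depends on `ω` only -/
def om (g : ℝ → ℝ) : ℝ → ℝ → ℝ := fun ω _ => g ω

/-- constant function -/
def kk (a : ℝ) : ℝ → ℝ → ℝ := fun _ _ => a

/-- the shift by `ω` -/
def T (f : ℝ → ℝ → ℝ) : ℝ → ℝ → ℝ := fun ω θ => f ω (θ + ω)

/-- the shift by `-ω` -/
def Ti (f : ℝ → ℝ → ℝ) : ℝ → ℝ → ℝ := fun ω θ => f ω (θ - ω)

/-- the average over `θ` -/
noncomputable def avg (f : ℝ → ℝ → ℝ) : ℝ → ℝ := fun ω => ∫ θ in (0:ℝ)..1, f ω θ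

/-- the derivative in `θ` -/
noncomputable def dd (f : ℝ → ℝ → ℝ) : ℝ → ℝ → ℝ := fun ω θ => deriv (f ω) θ

/-- equality at the frequencies in `D` -/
def EqD (D : Set ℝ) (f g : ℝ → ℝ → ℝ) : Prop := ∀ ω ∈ D, ∀ θ, f ω θ = g ω θ

/-- `f` has no zero at the frequencies in `D` -/
def NzD (D : Set ℝ) (f : ℝ → ℝ → ℝ) : Prop := ∀ ω ∈ D, ∀ θ, f ω θ ≠ 0

/-- Diophantine frequencies -/
def DC (γ : ℝ) : Set ℝ := {ω | ∀ k : ℕ, 1 ≤ k → ∀ l : ℤ, γ / (k : ℝ) ^ 2 ≤ |k * ω - l|}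

/-- the invariance equation of the Henon map `x_{k+1} + x_{k-1} = 2 c x_k + x_k ^ 2` -/
noncomputable def hen (cc : ℝ) (S : ℝ → ℝ → ℝ) : ℝ → ℝ → ℝ :=
  T S + Ti S - kk (2 * cc) * S - S * S

/-- The properties of the nonlinear functional `EE` (error of invariance) that the Newton scheme
uses; `al`, `ka` are the coefficients of its linearisation. -/
structure Fnl (D : Set ℝ) (τ cc η : ℝ) (EE al ka : (ℝ → ℝ → ℝ) → ℝ → ℝ → ℝ) : Prop where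
  F1 : ∀ r, 4 ≤ r → ∀ S, Bd D τ r S (1 / 8) → Bd D τ r (EE S - hen cc S) η
  F2 : ∀ r, 4 ≤ r → ∀ S v M, Bd D τ r S (1 / 16) → M ≤ 1 / 16 → Bd D τ r v M →
    Bd D τ r (EE (S + v) - EE S - (al S * T v + Ti (al S * v) - ka S * v)) (2 * M ^ 2)
  F3 : ∀ r, 4 ≤ r → ∀ S, Bd D τ r S (1 / 8) → Bd D τ r (al S - kk 1) η
  F4 : ∀ r, 4 ≤ r → ∀ S, Bd D τ r S (1 / 8) → Bd D τ r (ka S - kk (2 * cc) - kk 2 * S) η
  F5 : ∀ r, 4 ≤ r → ∀ S, Bd D τ r S (1 / 8) →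
    EqD D (dd (EE S)) (al S * T (dd S) + Ti (al S * dd S) - ka S * dd S)
  F6 : ∀ r, 4 ≤ r → ∀ S, Bd D τ r S (1 / 8) → ∀ ω ∈ D, avg (dd S * EE S) ω = 0

/-- Approximate solution `S0` (error `C ρ ^ 5`), approximate second frame vector `(n0, m0)` and the
approximate torsion `sg`. -/
structure App (D : Set ℝ) (ρ cc C : ℝ) (S0 n0 m0 : ℝ → ℝ → ℝ) (sg : ℝ → ℝ) : Prop where
  hS : Bd D (ρ ^ 2) 8 S0 (C * ρ)
  hs : Bd D (ρ ^ 2) 8 (dd S0) (C * ρ)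
  hE : Bd D (ρ ^ 2) 8 (hen cc S0) (C * ρ ^ 5)
  hn : Bd D (ρ ^ 2) 8 n0 C
  hm : Bd D (ρ ^ 2) 8 m0 C
  Bne : NzD D (dd S0 * m0 - T (dd S0) * n0)
  hB : Bd D (ρ ^ 2) 8 ((dd S0 * m0 - T (dd S0) * n0)⁻¹) (C / ρ)
  hB' : Bd D (ρ ^ 2) 8 (dd S0 * m0 - T (dd S0) * n0) (C * ρ)
  sgne : ∀ ω ∈ D, sg ω ≠ 0
  hsg : Bd D (ρ ^ 2) 8 (om sg) C
  hsg' : Bd D (ρ ^ 2) 8 (om fun ω => (sg ω)⁻¹) C
  hZ : Bd D (ρ ^ 2) 8
    ((m0 * T m0 - T n0 * ((kk (2 * cc) + kk 2 * T S0) * m0 - n0)) *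
      ((dd S0 * m0 - T (dd S0) * n0) * T (dd S0 * m0 - T (dd S0) * n0))⁻¹ - om sg) (C * ρ)

end Pool.Agent.MP31f1e8.KM
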