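import Pool.Agent.Lib.MP_31f1e8_mp.KM.Defs

/-!
# MP_31f1e8, part K: the generating function

The reduced equation `x_{k+1} + x_{k-1} = 2 c x_k + x_k ^ 2 + (∂₁ H)(x_k, x_{k+1}) + (∂₂ H)(x_{k-1}, x_k)`
with a double power series `H`.
-/

namespace Pool.Agent.MP31f1e8.KM

/-- `H` as a function -/
noncomputable def h0 (H : ℕ × ℕ → ℝ) (x y : ℝ) : ℝ := ∑' p : ℕ × ℕ, H p * x ^ p.1 * y ^ p.2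

/-- `∂₁ H` -/
noncomputable def h1 (H : ℕ × ℕ → ℝ) (x y : ℝ) : ℝ :=
  ∑' p : ℕ × ℕ, H p * (p.1 * x ^ (p.1 - 1)) * y ^ p.2

/-- `∂₂ H` -/
noncomputable def h2 (H : ℕ × ℕ → ℝ) (x y : ℝ) : ℝ :=
  ∑' p : ℕ × ℕ, H p * x ^ p.1 * (p.2 * y ^ (p.2 - 1))

/-- `∂₁ ∂₁ H` -/
noncomputable def h11 (H : ℕ × ℕ → ℝ) (x y : ℝ) : ℝ :=
  ∑' p : ℕ × ℕ, H p * (p.1 * ((p.1 - 1 : ℕ) * x ^ (p.1 - 1 - 1))) * y ^ p.2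

/-- `∂₁ ∂₂ H` -/
noncomputable def h12 (H : ℕ × ℕ → ℝ) (x y : ℝ) : ℝ :=
  ∑' p : ℕ × ℕ, H p * (p.1 * x ^ (p.1 - 1)) * (p.2 * y ^ (p.2 - 1))

/-- `∂₂ ∂₂ H` -/
noncomputable def h22 (H : ℕ × ℕ → ℝ) (x y : ℝ) : ℝ :=
  ∑' p : ℕ × ℕ, H p * x ^ p.1 * (p.2 * ((p.2 - 1 : ℕ) * y ^ (p.2 - 1 - 1)))

/-- error of invariance -/
noncomputable def EE (cc : ℝ) (H : ℕ × ℕ → ℝ) (S : ℝ → ℝ → ℝ) : ℝ → ℝ → ℝ :=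
  hen cc S - fun ω θ => h1 H (S ω θ) (S ω (θ + ω)) + h2 H (S ω (θ - ω)) (S ω θ)

/-- coefficient of `v(θ + ω)` in the linearisation -/
noncomputable def al (H : ℕ × ℕ → ℝ) (S : ℝ → ℝ → ℝ) : ℝ → ℝ → ℝ :=
  fun ω θ => 1 - h12 H (S ω θ) (S ω (θ + ω))

/-- coefficient of `- v(θ)` in the linearisation -/
noncomputable def ka (cc : ℝ) (H : ℕ × ℕ → ℝ) (S : ℝ → ℝ → ℝ) : ℝ → ℝ → ℝ :=
  fun ω θ => 2 * cc + 2 * S ω θ + h11 H (S ω θ) (S ω (θ + ω)) + h22 H (S ω (θ - ω)) (S ω θ)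

end Pool.Agent.MP31f1e8.KM
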