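import Pool.Agent.Lib.MP_31f1e8_mp.KM.Defs

/-!
# MP_31f1e8, part K: the Lindstedt polynomial of the Henon map

`x_{k+1} + x_{k-1} = 2 c x_k + x_k ^ 2`, `c = cos (2 π ω₀)`, `ω₀ = (3 - √5) / 2`.
-/

namespace Pool.Agent.MP31f1e8.KM

/-- the rotation number of the elliptic fixed point -/
noncomputable def w0 : ℝ := (3 - √5) / 2

/-- `cos (2 π ω₀)` -/
noncomputable def c0 : ℝ := Real.cos (2 * Real.pi * w0)

/-- the factor of the harmonic `k` in the linear part of the Henon equation -/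
noncomputable def dk (k : ℕ) (ω : ℝ) : ℝ := 2 * Real.cos (2 * Real.pi * (k * ω)) - 2 * c0

/-- coefficients of the Lindstedt polynomial -/
noncomputable def a0 (ω : ℝ) : ℝ := 1 / (2 * dk 0 ω)
/-- coefficients of the Lindstedt polynomial -/
noncomputable def a2 (ω : ℝ) : ℝ := 1 / (2 * dk 2 ω)
/-- coefficients of the Lindstedt polynomial -/
noncomputable def a3 (ω : ℝ) : ℝ := a2 ω / dk 3 ω
/-- coefficients of the Lindstedt polynomial -/
noncomputable def b0 (ω : ℝ) : ℝ := (a0 ω ^ 2 + a2 ω ^ 2 / 2) / dk 0 ω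
/-- coefficients of the Lindstedt polynomial -/
noncomputable def b2 (ω : ℝ) : ℝ := (a3 ω + 2 * a0 ω * a2 ω) / dk 2 ω
/-- coefficients of the Lindstedt polynomial -/
noncomputable def b4 (ω : ℝ) : ℝ := (a3 ω + a2 ω ^ 2 / 2) / dk 4 ω
/-- the torsion coefficient -/
noncomputable def g1 (ω : ℝ) : ℝ := 2 * a0 ω + a2 ω
/-- the amplitude of the curve with rotation number `ω` -/
noncomputable def aa (ω : ℝ) : ℝ := √(dk 1 ω / g1 ω)
/-- the limit of the torsion -/
noncomputable def sg0 (ω : ℝ) : ℝ := -g1 ω / (4 * Real.pi ^ 2 * Real.sin (2 * Real.pi * ω) ^ 2)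
/-- `dω/da` to leading order -/
noncomputable def w1 (ω : ℝ) : ℝ := -(g1 ω * aa ω) / (2 * Real.pi * Real.sin (2 * Real.pi * ω))

/-- the harmonic `cos (2 π k θ)` -/
noncomputable def cs (k : ℕ) : ℝ → ℝ → ℝ := fun _ θ => Real.cos (2 * Real.pi * (k * θ))

/-- the harmonic `sin (2 π k θ)` -/
noncomputable def sn (k : ℕ) : ℝ → ℝ → ℝ := fun _ θ => Real.sin (2 * Real.pi * (k * θ))

/-- second order term -/
noncomputable def u2 : ℝ → ℝ → ℝ := om a0 + om a2 * cs 2
/-- third order term -/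
noncomputable def u3 : ℝ → ℝ → ℝ := om a3 * cs 3
/-- fourth order term -/
noncomputable def u4 : ℝ → ℝ → ℝ := om b0 + om b2 * cs 2 + om b4 * cs 4

/-- the approximate solution -/
noncomputable def SL : ℝ → ℝ → ℝ :=
  om aa * cs 1 + om aa ^ 2 * u2 + om aa ^ 3 * u3 + om aa ^ 4 * u4

/-- the second frame vector, first component: formal derivative in the amplitude -/
noncomputable def nL : ℝ → ℝ → ℝ := cs 1 + kk 2 * om aa * u2 + kk 3 * om aa ^ 2 * u3

/-- the second frame vector, second component -/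
noncomputable def mL : ℝ → ℝ → ℝ := T nL + om w1 * T (dd SL)

end Pool.Agent.MP31f1e8.KM
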