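import Pool.Agent.Lib.MP_31f1e8_mp.KM.Defs

/-!
# MP_31f1e8, part K: frames along an approximately invariant curve
-/

namespace Pool.Agent.MP31f1e8.KM

/-- the torsion of the frame `(n, m)` -/
def tor (a k n m : ℝ → ℝ → ℝ) : ℝ → ℝ → ℝ := T a * m * T m - T n * (T k * m - a * n)

/-- Frame data of the curve `S`: `s = dd S`, second frame vector `(n, m)`, torsion. -/
structure Fr (D : Set ℝ) (τ r ρ C : ℝ) (al ka : (ℝ → ℝ → ℝ) → ℝ → ℝ → ℝ)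
    (S n m : ℝ → ℝ → ℝ) : Prop where
  fS : Bd D τ r S (1 / 16)
  fs : Bd D τ r (dd S) (C * ρ)
  fn : Bd D τ r n (C / ρ)
  fm : Bd D τ r m (C / ρ)
  fr : EqD D (al S * (dd S * m - T (dd S) * n)) (kk 1)
  fa : Bd D τ r (al S) 2
  fk : Bd D τ r (ka S) 6
  fT : Bd D τ r (tor (al S) (ka S) n m) C
  fA0 : ∀ ω ∈ D, avg (tor (al S) (ka S) n m) ω ≠ 0
  fA : Bd D τ r (om fun ω => (avg (tor (al S) (ka S) n m) ω)⁻¹) C

end Pool.Agent.MP31f1e8.KM
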