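import Pool.Agent.Lib.MP_31f1e8_mp.KM.DefsL

/-!
Diophantine frequencies near the golden rotation number have positive measure, with a constant `γ`
that does not depend on the length of the interval.

Proof. (1) `gold`: `|k w0 - l| ≥ 1/(3k)` for `k ≥ 1`: if `|k w0 - l| ≥ 1/2` clear (`k ≥ 1`). Otherwise let
`w̄ = (3+√5)/2`: `(k w0 - l)(k w̄ - l) = k² - 3 k l + l²` is a nonzero integer (nonzero since `w0` and `w̄` are
irrational and `k ≥ 1`), so its modulus is `≥ 1`; `|k w̄ - l| ≤ |k w0 - l| + k √5 ≤ 1/2 + 2.24 k ≤ 3 k`.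
(2) Let `I = [w0 - 2ρ², w0 - ρ²]`, `γ = 1/1000`. For `ω ∈ I`: `|kω - l| ≥ 1/(3k) - 2kρ² ≥ 1/(6k) ≥ γ/k²` if
`12 k² ρ² ≤ 1`. Let `12 k² ρ² > 1`, i.e. `k > k0 = 1/(√12 ρ)`. The `ω ∈ I` with `|kω - l| < γ/k²` for some `l` lie in
the intervals of length `2γ/k³` around `l/k`; the integers `l` that matter satisfy `|kω - l| < 1` for an
`ω ∈ I`, so they lie in an interval of length `kρ² + 2` : at most `kρ² + 3` of them. Measure
`≤ (kρ² + 3) 2γ/k³`. Sum over `k ≥ 1` with `12k²ρ² > 1`: use `1/k² ≤ ` ... explicit: on these `k`,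
`(kρ² + 3) 2γ/k³ = 2γρ²/k² + 6γ/k³`; `∑_{k≥1} 1/k² ≤ 2`: first sum `≤ 4γρ²`. Second: `1/k³ ≤ ` and
`∑_{k > k0} 1/k³ ≤ 2/k0²`... if `k0 ≥ 1`: `∑_{k>k0} k^{-3} ≤ k0^{-3} + 1/(2 k0²) ≤ 2/k0² = 24ρ²`. A way without
integrals: `1/k³ ≤ 2 (1/(k-1)... ` telescoping: for `k ≥ 2`, `1/k³ ≤ (1/2)(1/(k-1)² - 1/k²)`, so
`∑_{k ≥ m} 1/k³ ≤ 1/(2 (m-1)²) ≤ 2/m²` for `m ≥ 2` (`m` = least `k` with `12k²ρ² > 1`, so `m² ≥ 1/(12ρ²)`; `m ≥ 2` for
`ρ ≤ 1/4`). Total `≤ 4γρ² + 6γ 24 ρ² ≤ 150 γ ρ² ≤ ρ²/2`.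
(3) `DC γ` is closed (intersection of closed sets `{ω | γ/k² ≤ |kω - l|}`), so `I ∩ DC γ` is compact.
`measure_iUnion_le`, `measure_diff`; the complement `I \ DC γ` is contained in the countable union.
-/

namespace Pool.Agent.MP31f1e8.KM

open MeasureTheory Set Filter Topology

theorem gold {k : ℕ} (hk : 1 ≤ k) (l : ℤ) : 1 / (3 * (k : ℝ)) ≤ |k * w0 - l| := by
  have hk1 : (1 : ℝ) ≤ k := by exact_mod_cast hk
  have hk0 : (0 : ℝ) < k := by linarith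
  have h5 : √5 ^ 2 = (5 : ℝ) := Real.sq_sqrt (by norm_num)
  have h50 : (0 : ℝ) ≤ √5 := Real.sqrt_nonneg 5
  have h51 : √5 ≤ 2.24 := by
    rw [Real.sqrt_le_left (by norm_num)]
    norm_num
  have hirr : Irrational (√5) := by
    have h := Nat.Prime.irrational_sqrt (p := 5) (by norm_num)
    exact_mod_cast h
  obtain ⟨x, hx⟩ : ∃ x : ℝ, x = k * w0 - l := ⟨_, rfl⟩
  rw [← hx]
  have hx' : x = k * ((3 - √5) / 2) - l := by rw [hx]; rfl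
  have hy : x + k * √5 = k * ((3 + √5) / 2) - l := by rw [hx']; ring
  have hN : x * (x + k * √5) = (((k : ℤ) ^ 2 - 3 * k * l + l ^ 2 : ℤ) : ℝ) := by
    rw [hy, hx']
    push_cast
    linear_combination (-(k : ℝ) ^ 2 / 4) * h5
  have hx0 : x ≠ 0 := by
    intro h0
    apply hirr
    refine ⟨(3 * k - 2 * l : ℚ) / k, ?_⟩
    push_cast
    rw [h0] at hx'
    field_simp
    linarith
  have hy0 : x + k * √5 ≠ 0 := by
    intro h0
    apply hirr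
    refine ⟨(2 * l - 3 * k : ℚ) / k, ?_⟩
    push_cast
    rw [h0] at hy
    field_simp
    linarith
  have hNz : ((k : ℤ) ^ 2 - 3 * k * l + l ^ 2 : ℤ) ≠ 0 := by
    intro h0
    rw [h0, Int.cast_zero] at hN
    rcases mul_eq_zero.1 hN with h | h
    · exact hx0 h
    · exact hy0 h
  have hN1 : 1 ≤ |x| * |x + k * √5| := by
    rw [← abs_mul, hN, ← Int.cast_abs]
    exact_mod_cast Int.one_le_abs hNz
  by_contra hcon
  rw [not_le] at hcon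
  have h1 : |x| < 1 / 3 := by
    refine hcon.trans_le ?_
    rw [div_le_div_iff₀ (by positivity) (by norm_num)]
    linarith
  have h2 : |x + k * √5| ≤ 3 * k := by
    have h3 := abs_add_le x (k * √5)
    rw [abs_of_nonneg (mul_nonneg hk0.le h50)] at h3
    have h4 : (k : ℝ) * √5 ≤ k * 2.24 := mul_le_mul_of_nonneg_left h51 hk0.le
    linarith
  have h3 : |x| * |x + k * √5| ≤ |x| * (3 * k) := mul_le_mul_of_nonneg_left h2 (abs_nonneg x)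
  have h4 : |x| * (3 * k) < 1 / (3 * (k : ℝ)) * (3 * k) :=
    mul_lt_mul_of_pos_right hcon (by positivity)
  have h6 : 1 / (3 * (k : ℝ)) * (3 * k) = 1 := by field_simp
  linarith

theorem dc_closed (γ : ℝ) : IsClosed (DC γ) := by
  have h : DC γ = ⋂ (k : ℕ) (_ : 1 ≤ k) (l : ℤ), {ω : ℝ | γ / (k : ℝ) ^ 2 ≤ |k * ω - l|} := by
    ext ω
    simp only [DC, mem_ofPred_eq, mem_iInter]
  rw [h]
  refine isClosed_iInter fun k => isClosed_iInter fun _ => isClosed_iInter fun l => ?_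
  exact isClosed_le continuous_const (by fun_prop)

private theorem Dio_B {ρ γ : ℝ} (hρ : 0 < ρ) (hγ : 0 < γ) (hγ1 : γ ≤ 1) {k : ℕ} (hk : 1 ≤ k) :
    volume {ω ∈ Icc (w0 - 2 * ρ ^ 2) (w0 - ρ ^ 2) | ∃ l : ℤ, |k * ω - l| < γ / (k : ℝ) ^ 2} ≤
      ENNReal.ofReal ((k * ρ ^ 2 + 3) * (2 * γ / (k : ℝ) ^ 3)) := by
  have hk1 : (1 : ℝ) ≤ k := by exact_mod_cast hk
  have hk0 : (0 : ℝ) < k := by linarith
  obtain ⟨S, hS⟩ : ∃ S : Finset ℤ, S = Finset.Icc ⌈(k : ℝ) * (w0 - 2 * ρ ^ 2) - 1⌉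
      ⌊(k : ℝ) * (w0 - ρ ^ 2) + 1⌋ := ⟨_, rfl⟩
  have hsub : {ω ∈ Icc (w0 - 2 * ρ ^ 2) (w0 - ρ ^ 2) | ∃ l : ℤ, |k * ω - l| < γ / (k : ℝ) ^ 2} ⊆
      ⋃ l ∈ S, Icc (((l : ℝ) - γ / (k : ℝ) ^ 2) / k) (((l : ℝ) + γ / (k : ℝ) ^ 2) / k) := by
    rintro ω ⟨⟨h1, h2⟩, l, hl⟩
    have h3 : γ / (k : ℝ) ^ 2 ≤ 1 := by
      rw [div_le_one (by positivity)]
      have : (1 : ℝ) ≤ (k : ℝ) ^ 2 := one_le_pow₀ hk1
      linarith
    obtain ⟨h4, h5⟩ := abs_lt.1 hl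
    have h6 : (k : ℝ) * ω ≤ k * (w0 - ρ ^ 2) := mul_le_mul_of_nonneg_left h2 hk0.le
    have h7 : (k : ℝ) * (w0 - 2 * ρ ^ 2) ≤ k * ω := mul_le_mul_of_nonneg_left h1 hk0.le
    rw [mem_iUnion₂]
    refine ⟨l, ?_, ?_⟩
    · rw [hS, Finset.mem_Icc]
      constructor
      · rw [Int.ceil_le]
        linarith
      · rw [Int.le_floor]
        linarith
    · constructor
      · rw [div_le_iff₀ hk0]
        linarith
      · rw [le_div_iff₀ hk0]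
        linarith
  refine (measure_mono hsub).trans ((measure_biUnion_finset_le _ _).trans ?_)
  have hvol : ∀ l ∈ S, volume (Icc (((l : ℝ) - γ / (k : ℝ) ^ 2) / k) (((l : ℝ) + γ / (k : ℝ) ^ 2) / k)) =
      ENNReal.ofReal (2 * γ / (k : ℝ) ^ 3) := by
    intro l _
    rw [Real.volume_Icc]
    congr 1
    field_simp
    ring
  rw [Finset.sum_congr rfl hvol, Finset.sum_const, nsmul_eq_mul]
  have hcard : (S.card : ℝ) ≤ k * ρ ^ 2 + 3 := by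
    rw [hS, Int.card_Icc]
    have h1 := Int.floor_le ((k : ℝ) * (w0 - ρ ^ 2) + 1)
    have h2 := Int.le_ceil ((k : ℝ) * (w0 - 2 * ρ ^ 2) - 1)
    rcases le_or_gt 0 (⌊(k : ℝ) * (w0 - ρ ^ 2) + 1⌋ + 1 - ⌈(k : ℝ) * (w0 - 2 * ρ ^ 2) - 1⌉) with h | h
    · have h3 := Int.toNat_of_nonneg h
      have h4 : (((⌊(k : ℝ) * (w0 - ρ ^ 2) + 1⌋ + 1 - ⌈(k : ℝ) * (w0 - 2 * ρ ^ 2) - 1⌉).toNat : ℤ) : ℝ) =
          ((⌊(k : ℝ) * (w0 - ρ ^ 2) + 1⌋ + 1 - ⌈(k : ℝ) * (w0 - 2 * ρ ^ 2) - 1⌉ : ℤ) : ℝ) := by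
        exact_mod_cast h3
      rw [Int.cast_natCast] at h4
      rw [h4]
      push_cast
      linarith
    · rw [Int.toNat_of_nonpos h.le, Nat.cast_zero]
      positivity
  rw [ENNReal.ofReal_mul (by positivity)]
  gcongr
  rw [← ENNReal.ofReal_natCast]
  exact ENNReal.ofReal_le_ofReal hcard

private theorem Dio_tel {g : ℕ → ℝ} (hg : ∀ j, g (j + 1) ≤ g j) (hlim : Tendsto g atTop (𝓝 0)) :
    HasSum (fun j => g j - g (j + 1)) (g 0) := by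
  rw [hasSum_iff_tendsto_nat_of_nonneg (fun j => by linarith [hg j])]
  have h1 : ∀ n, ∑ i ∈ Finset.range n, (g i - g (i + 1)) = g 0 - g n := fun n =>
    Finset.sum_range_sub' g n
  simp_rw [h1]
  have h2 : Tendsto (fun n => g 0 - g n) atTop (𝓝 (g 0 - 0)) := hlim.const_sub (g 0)
  rwa [sub_zero] at h2

private theorem Dio_term {ρ γ x : ℝ} (hγ : 0 < γ) (hx : 1 ≤ x) :
    ((x + 1) * ρ ^ 2 + 3) * (2 * γ / (x + 1) ^ 3) ≤
      (2 * γ * ρ ^ 2 / x + 3 * γ / x ^ 2) - (2 * γ * ρ ^ 2 / (x + 1) + 3 * γ / (x + 1) ^ 2) := by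
  have hx0 : 0 < x := by linarith
  have e1 : ((x + 1) * ρ ^ 2 + 3) * (2 * γ / (x + 1) ^ 3) =
      2 * γ * ρ ^ 2 * (1 / (x + 1) ^ 2) + 6 * γ * (1 / (x + 1) ^ 3) := by
    field_simp
    ring
  have e2 : (2 * γ * ρ ^ 2 / x + 3 * γ / x ^ 2) - (2 * γ * ρ ^ 2 / (x + 1) + 3 * γ / (x + 1) ^ 2) =
      2 * γ * ρ ^ 2 * (1 / x - 1 / (x + 1)) + 3 * γ * (1 / x ^ 2 - 1 / (x + 1) ^ 2) := by
    ring
  rw [e1, e2]
  have h1 : 1 / (x + 1) ^ 2 ≤ 1 / x - 1 / (x + 1) := by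
    have : 1 / x - 1 / (x + 1) = 1 / (x * (x + 1)) := by
      field_simp
      ring
    rw [this]
    apply one_div_le_one_div_of_le (by positivity)
    nlinarith
  have h2 : 2 * (1 / (x + 1) ^ 3) ≤ 1 / x ^ 2 - 1 / (x + 1) ^ 2 := by
    have : 1 / x ^ 2 - 1 / (x + 1) ^ 2 = (2 * x + 1) / (x ^ 2 * (x + 1) ^ 2) := by
      field_simp
      ring
    rw [this, mul_one_div, div_le_div_iff₀ (by positivity) (by positivity)]
    have h3 : 0 ≤ (x + 1) ^ 2 * (3 * x + 1) := by positivity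
    nlinarith
  have h3 : 2 * γ * ρ ^ 2 * (1 / (x + 1) ^ 2) ≤ 2 * γ * ρ ^ 2 * (1 / x - 1 / (x + 1)) :=
    mul_le_mul_of_nonneg_left h1 (by positivity)
  have h4 : 3 * γ * (2 * (1 / (x + 1) ^ 3)) ≤ 3 * γ * (1 / x ^ 2 - 1 / (x + 1) ^ 2) :=
    mul_le_mul_of_nonneg_left h2 (by positivity)
  linarith

theorem dio : ∃ γ ρ1 : ℝ, 0 < γ ∧ γ ≤ 1 ∧ 0 < ρ1 ∧ ρ1 ≤ 1 / 2 ∧ ∀ ρ : ℝ, 0 < ρ → ρ ≤ ρ1 →
    ENNReal.ofReal (ρ ^ 2 / 2) ≤
      MeasureTheory.volume (Set.Icc (w0 - 2 * ρ ^ 2) (w0 - ρ ^ 2) ∩ DC γ) := by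
  classical
  refine ⟨1 / 1000, 1 / 4, by norm_num, by norm_num, by norm_num, by norm_num, ?_⟩
  intro ρ hρ hρ1
  obtain ⟨γ, hγ⟩ : ∃ γ : ℝ, γ = 1 / 1000 := ⟨_, rfl⟩
  rw [← hγ]
  have hγ0 : 0 < γ := by rw [hγ]; norm_num
  have hγ1 : γ ≤ 1 := by rw [hγ]; norm_num
  have hρ2 : 0 < ρ ^ 2 := by positivity
  -- the first `k` which matters
  have hex : ∃ k : ℕ, 1 < 12 * (k : ℝ) ^ 2 * ρ ^ 2 := by
    obtain ⟨k, hk⟩ := exists_nat_gt (1 / (12 * ρ ^ 2))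
    refine ⟨k, ?_⟩
    rw [div_lt_iff₀ (by positivity)] at hk
    have h1 : (1 : ℝ) ≤ k := by
      by_contra hcon
      have h2 : k = 0 := by
        by_contra h3
        exact hcon (by exact_mod_cast Nat.one_le_iff_ne_zero.2 h3)
      rw [h2, Nat.cast_zero, zero_mul] at hk
      linarith
    have h2 : (k : ℝ) ≤ (k : ℝ) ^ 2 := by nlinarith
    have h3 : (k : ℝ) * (12 * ρ ^ 2) ≤ (k : ℝ) ^ 2 * (12 * ρ ^ 2) :=
      mul_le_mul_of_nonneg_right h2 (by positivity)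
    linarith
  obtain ⟨m, hm, hmin⟩ : ∃ m : ℕ, 1 < 12 * (m : ℝ) ^ 2 * ρ ^ 2 ∧
      ∀ k < m, 12 * (k : ℝ) ^ 2 * ρ ^ 2 ≤ 1 :=
    ⟨Nat.find hex, Nat.find_spec hex, fun k hk => not_lt.1 (Nat.find_min hex hk)⟩
  have hρ16 : ρ ^ 2 ≤ 1 / 16 := by nlinarith
  obtain ⟨n, rfl⟩ : ∃ n, m = n + 2 := by
    rcases m with _ | _ | n
    · exfalso
      rw [Nat.cast_zero] at hm
      linarith
    · exfalso
      rw [zero_add, Nat.cast_one] at hm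
      linarith
    · exact ⟨n, rfl⟩
  -- the covering
  have hcov : Icc (w0 - 2 * ρ ^ 2) (w0 - ρ ^ 2) \ DC γ ⊆
      ⋃ j : ℕ, {ω ∈ Icc (w0 - 2 * ρ ^ 2) (w0 - ρ ^ 2) |
        ∃ l : ℤ, |((n + 2 + j : ℕ) : ℝ) * ω - l| < γ / ((n + 2 + j : ℕ) : ℝ) ^ 2} := by
    rintro ω ⟨hω, hωD⟩
    simp only [DC, mem_ofPred_eq, not_forall, not_le] at hωD
    obtain ⟨k, hk, l, hl⟩ := hωD
    have hk1 : (1 : ℝ) ≤ k := by exact_mod_cast hk
    have hk0 : (0 : ℝ) < k := by linarith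
    have hkm : n + 2 ≤ k := by
      by_contra hcon
      have h1 := hmin k (not_le.1 hcon)
      have h2 := gold hk l
      have h3 : |(k : ℝ) * w0 - l| ≤ |(k : ℝ) * ω - l| + k * (2 * ρ ^ 2) := by
        have h4 : (k : ℝ) * w0 - l = ((k : ℝ) * ω - l) + k * (w0 - ω) := by ring
        rw [h4]
        refine (abs_add_le _ _).trans ?_
        have h5 : |(k : ℝ) * (w0 - ω)| ≤ k * (2 * ρ ^ 2) := by
          rw [abs_mul, abs_of_pos hk0]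
          refine mul_le_mul_of_nonneg_left ?_ hk0.le
          rw [abs_le]
          constructor
          · linarith [hω.2]
          · linarith [hω.1]
        linarith
      have h6 : (k : ℝ) * (2 * ρ ^ 2) ≤ 1 / (6 * (k : ℝ)) := by
        rw [le_div_iff₀ (by positivity)]
        nlinarith
      have h7 : 1 / (3 * (k : ℝ)) - 1 / (6 * (k : ℝ)) = 1 / (6 * k) := by
        field_simp
        norm_num
      have h8 : γ / (k : ℝ) ^ 2 ≤ 1 / (6 * k) := by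
        rw [div_le_div_iff₀ (by positivity) (by positivity), hγ]
        nlinarith
      linarith
    rw [mem_iUnion]
    refine ⟨k - (n + 2), hω, l, ?_⟩
    have h1 : n + 2 + (k - (n + 2)) = k := by omega
    rw [h1]
    exact hl
  -- the measure of the complement
  obtain ⟨g, hg⟩ : ∃ g : ℕ → ℝ, g = fun j : ℕ =>
      2 * γ * ρ ^ 2 / ((n : ℝ) + 1 + j) + 3 * γ / ((n : ℝ) + 1 + j) ^ 2 :=
    ⟨_, rfl⟩
  have hterm : ∀ j : ℕ, (((n + 2 + j : ℕ) : ℝ) * ρ ^ 2 + 3) * (2 * γ / ((n + 2 + j : ℕ) : ℝ) ^ 3) ≤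
      g j - g (j + 1) := by
    intro j
    have h1 := Dio_term (ρ := ρ) (γ := γ) (x := (n : ℝ) + 1 + j) hγ0 (by
      have : (0 : ℝ) ≤ (n : ℝ) + j := by positivity
      linarith)
    have h2 : ((n + 2 + j : ℕ) : ℝ) = (n : ℝ) + 1 + j + 1 := by
      push_cast
      ring
    rw [h2, hg]
    push_cast
    have h3 : (n : ℝ) + 1 + (j + 1) = (n : ℝ) + 1 + j + 1 := by ring
    rw [h3]
    exact h1
  have hnn : ∀ j : ℕ, 0 ≤ (((n + 2 + j : ℕ) : ℝ) * ρ ^ 2 + 3) * (2 * γ / ((n + 2 + j : ℕ) : ℝ) ^ 3) := by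
    intro j
    positivity
  have hlim : Tendsto g atTop (𝓝 0) := by
    have h1 : Tendsto (fun j : ℕ => (n : ℝ) + 1 + j) atTop atTop :=
      tendsto_atTop_add_const_left _ _ tendsto_natCast_atTop_atTop
    have h2 : Tendsto (fun j : ℕ => 2 * γ * ρ ^ 2 / ((n : ℝ) + 1 + j)) atTop (𝓝 0) :=
      h1.const_div_atTop _
    have h3 : Tendsto (fun j : ℕ => 3 * γ / ((n : ℝ) + 1 + j) ^ 2) atTop (𝓝 0) :=
      ((tendsto_pow_atTop two_ne_zero).comp h1).const_div_atTop _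
    have h4 := h2.add h3
    rw [add_zero] at h4
    rw [hg]
    exact h4
  have hsum := Dio_tel (g := g) (fun j => by linarith [hterm j, hnn j]) hlim
  have hg0 : g 0 ≤ ρ ^ 2 / 2 := by
    rw [hg]
    simp only [Nat.cast_zero, add_zero]
    have hn1 : (1 : ℝ) ≤ (n : ℝ) + 1 := by
      have : (0 : ℝ) ≤ n := Nat.cast_nonneg n
      linarith
    have h1 : 2 * γ * ρ ^ 2 / ((n : ℝ) + 1) ≤ 2 * γ * ρ ^ 2 := div_le_self (by positivity) hn1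
    have h2 : 3 * γ / ((n : ℝ) + 1) ^ 2 ≤ 144 * γ * ρ ^ 2 := by
      rw [div_le_iff₀ (by positivity)]
      have h3 : 1 ≤ 48 * ((n : ℝ) + 1) ^ 2 * ρ ^ 2 := by
        have h4 : ((n + 2 : ℕ) : ℝ) ^ 2 ≤ 4 * ((n : ℝ) + 1) ^ 2 := by
          push_cast
          nlinarith
        have h5 : ((n + 2 : ℕ) : ℝ) ^ 2 * ρ ^ 2 ≤ 4 * ((n : ℝ) + 1) ^ 2 * ρ ^ 2 :=
          mul_le_mul_of_nonneg_right h4 hρ2.le
        nlinarith
      have h6 := mul_le_mul_of_nonneg_left h3 (show (0 : ℝ) ≤ 3 * γ by positivity)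
      nlinarith
    have h3 : γ * ρ ^ 2 = ρ ^ 2 / 1000 := by rw [hγ]; ring
    nlinarith
  have hdiff : volume (Icc (w0 - 2 * ρ ^ 2) (w0 - ρ ^ 2) \ DC γ) ≤ ENNReal.ofReal (ρ ^ 2 / 2) := by
    refine (measure_mono hcov).trans ((measure_iUnion_le _).trans ?_)
    have h1 : ∀ j : ℕ, volume {ω ∈ Icc (w0 - 2 * ρ ^ 2) (w0 - ρ ^ 2) |
        ∃ l : ℤ, |((n + 2 + j : ℕ) : ℝ) * ω - l| < γ / ((n + 2 + j : ℕ) : ℝ) ^ 2} ≤
        ENNReal.ofReal (g j - g (j + 1)) := by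
      intro j
      exact (Dio_B hρ hγ0 hγ1 (by omega)).trans (ENNReal.ofReal_le_ofReal (hterm j))
    refine (ENNReal.tsum_le_tsum h1).trans ?_
    rw [← ENNReal.ofReal_tsum_of_nonneg (fun j => (hnn j).trans (hterm j)) hsum.summable, hsum.tsum_eq]
    exact ENNReal.ofReal_le_ofReal hg0
  have hI := measure_inter_add_diff (μ := (volume : Measure ℝ)) (Icc (w0 - 2 * ρ ^ 2) (w0 - ρ ^ 2))
    (dc_closed γ).measurableSet
  rw [Real.volume_Icc] at hI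
  have h1 : w0 - ρ ^ 2 - (w0 - 2 * ρ ^ 2) = ρ ^ 2 / 2 + ρ ^ 2 / 2 := by ring
  rw [h1, ENNReal.ofReal_add (by positivity) (by positivity)] at hI
  have h2 : ENNReal.ofReal (ρ ^ 2 / 2) + ENNReal.ofReal (ρ ^ 2 / 2) ≤
      volume (Icc (w0 - 2 * ρ ^ 2) (w0 - ρ ^ 2) ∩ DC γ) + ENNReal.ofReal (ρ ^ 2 / 2) := by
    rw [← hI]
    gcongr
  exact (ENNReal.add_le_add_iff_right ENNReal.ofReal_ne_top).1 h2

end Pool.Agent.MP31f1e8.KM
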