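import Pool.Agent.Lib.MP_31f1e8_mp.KM.AlgA

/-!
Infinite sums in the algebra `Bd`.

Proof. Choose `c i, s i, l i` for each `i` (`choose`). `A_i = ∑' k, s i k r^|k|`, `B_i = ∑' k, l i k (r/2)^|k|`,
`A_i + τ B_i ≤ M_i`; `A_i ≤ M_i`. If `τ = 0` the `B_i` are not bounded by `M_i`: so treat `τ > 0`, where
`B_i ≤ M_i / τ`; THE STATEMENT ASSUMES `0 < τ`. The family `(i,k) ↦ s i k r^|k|` is summable on `ι × ℤ`
(`summable_prod_of_nonneg`), also `l i k (r/2)^|k|`, `‖c i k ω‖` (`r ≥ 1`). Put `c k ω = ∑' i, c i k ω`,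
`s k = ∑' i, s i k`, `l k = ∑' i, l i k` (summable in `i`: `s i k ≤ s i k r^|k| ≤ A_i`, `r, r/2 ≥ 1`).
`Summable.tsum_comm` gives the sums and the representation
(`HasSum` of the double family, `HasSum.prod_fiberwise` in both orders: `hasSum_prod..`, swap by
`Equiv.prodComm`).
-/

namespace Pool.Agent.MP31f1e8.KM

variable {D : Set ℝ} {τ r : ℝ}

private theorem dbl {ι : Type} {a : ι → ℤ → ℝ} {M : ι → ℝ} (ha : ∀ i k, 0 ≤ a i k)
    (hs : ∀ i, Summable (a i)) (hle : ∀ i, ∑' k, a i k ≤ M i) (hM : Summable M) :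
    Summable (fun p : ι × ℤ => a p.1 p.2) := by
  refine (summable_prod_of_nonneg (fun p => ha p.1 p.2)).2 ⟨fun i => hs i, ?_⟩
  exact Summable.of_nonneg_of_le (fun i => tsum_nonneg fun k => ha i k) hle hM

private theorem dblSwap {ι : Type} {a : ι → ℤ → ℝ} (h : Summable (fun p : ι × ℤ => a p.1 p.2)) :
    Summable (fun p : ℤ × ι => a p.2 p.1) :=
  ((Equiv.prodComm ℤ ι).summable_iff (f := fun p : ι × ℤ => a p.1 p.2)).2 h

private theorem dblFib {ι : Type} {a : ι → ℤ → ℝ} (h : Summable (fun p : ι × ℤ => a p.1 p.2))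
    (k : ℤ) : Summable fun i => a i k :=
  (dblSwap h).prod_factor k

private theorem dblSum {ι : Type} {a : ι → ℤ → ℝ} {M : ι → ℝ}
    (hle : ∀ i, ∑' k, a i k ≤ M i) (hM : Summable M)
    (h : Summable (fun p : ι × ℤ => a p.1 p.2)) :
    (Summable fun k => ∑' i, a i k) ∧ ∑' k, ∑' i, a i k = ∑' i, ∑' k, a i k ∧
      Summable (fun i => ∑' k, a i k) := by
  refine ⟨(dblSwap h).prod, ?_, h.prod⟩
  exact (Summable.tsum_comm (f := fun i k => a i k) h)

private theorem AB {f : ℝ → ℝ → ℝ} {M : ℝ} {c : ℤ → ℝ → ℂ} {s l : ℤ → ℝ} (hτ : 0 < τ)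
    (hr : 2 ≤ r) (h : Rep D τ r f M c s l) :
    (∑' k : ℤ, s k * r ^ k.natAbs) ≤ M ∧ (∑' k : ℤ, l k * (r / 2) ^ k.natAbs) ≤ M / τ := by
  have h1 : 0 ≤ ∑' k : ℤ, s k * r ^ k.natAbs :=
    tsum_nonneg fun k => mul_nonneg (h.s_nn k) (pow_nonneg (by linarith) _)
  have h2 : 0 ≤ ∑' k : ℤ, l k * (r / 2) ^ k.natAbs :=
    tsum_nonneg fun k => mul_nonneg (h.l_nn k) (pow_nonneg (by linarith) _)
  have h3 := h.le
  have h4 := mul_nonneg hτ.le h2
  refine ⟨by linarith, ?_⟩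
  rw [le_div_iff₀ hτ, mul_comm]
  linarith

theorem Bd.tsum {ι : Type} (hτ : 0 < τ) (hr : 2 ≤ r) {f : ι → ℝ → ℝ → ℝ} {M : ι → ℝ}
    (h : ∀ i, Bd D τ r (f i) (M i)) (hM : Summable M) :
    Bd D τ r (fun ω θ => ∑' i, f i ω θ) (∑' i, M i) := by
  choose c s l h using h
  have w1 : ∀ k : ℤ, 1 ≤ r ^ k.natAbs := fun k => one_le_pow₀ (by linarith)
  have w2 : ∀ k : ℤ, 1 ≤ (r / 2) ^ k.natAbs := fun k => one_le_pow₀ (by linarith)
  have hA : ∀ i, ∑' k : ℤ, s i k * r ^ k.natAbs ≤ M i := fun i => (AB hτ hr (h i)).1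
  have hB : ∀ i, ∑' k : ℤ, l i k * (r / 2) ^ k.natAbs ≤ M i / τ := fun i => (AB hτ hr (h i)).2
  have hM' : Summable fun i => M i / τ := hM.div_const τ
  have dA : Summable (fun p : ι × ℤ => s p.1 p.2 * r ^ p.2.natAbs) :=
    dbl (a := fun i k => s i k * r ^ k.natAbs)
      (fun i k => mul_nonneg ((h i).s_nn k) (zero_le_one.trans (w1 k)))
      (fun i => (h i).ssum) hA hM
  have dB : Summable (fun p : ι × ℤ => l p.1 p.2 * (r / 2) ^ p.2.natAbs) :=
    dbl (a := fun i k => l i k * (r / 2) ^ k.natAbs)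
      (fun i k => mul_nonneg ((h i).l_nn k) (zero_le_one.trans (w2 k)))
      (fun i => (h i).lsum) hB hM'
  have sA := dblSum (a := fun i k => s i k * r ^ k.natAbs) hA hM dA
  have sB := dblSum (a := fun i k => l i k * (r / 2) ^ k.natAbs) hB hM' dB
  have fA : ∀ k, Summable fun i => s i k := fun k =>
    Summable.of_nonneg_of_le (fun i => (h i).s_nn k)
      (fun i => le_mul_of_one_le_right ((h i).s_nn k) (w1 k))
      (dblFib (a := fun i k => s i k * r ^ k.natAbs) dA k)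
  have fB : ∀ k, Summable fun i => l i k := fun k =>
    Summable.of_nonneg_of_le (fun i => (h i).l_nn k)
      (fun i => le_mul_of_one_le_right ((h i).l_nn k) (w2 k))
      (dblFib (a := fun i k => l i k * (r / 2) ^ k.natAbs) dB k)
  have fC : ∀ k, ∀ ω ∈ D, Summable fun i => c i k ω := fun k ω hω =>
    Summable.of_norm_bounded (fA k) (fun i => (h i).sup k ω hω)
  have eA : (fun k : ℤ => (∑' i, s i k) * r ^ k.natAbs) =
      fun k : ℤ => ∑' i, s i k * r ^ k.natAbs := by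
    funext k; rw [tsum_mul_right]
  have eB : (fun k : ℤ => (∑' i, l i k) * (r / 2) ^ k.natAbs) =
      fun k : ℤ => ∑' i, l i k * (r / 2) ^ k.natAbs := by
    funext k; rw [tsum_mul_right]
  refine ⟨fun k ω => ∑' i, c i k ω, fun k => ∑' i, s i k, fun k => ∑' i, l i k,
    ⟨fun k => tsum_nonneg fun i => (h i).s_nn k, fun k => tsum_nonneg fun i => (h i).l_nn k,
    fun k ω hω => ?_, fun k ω hω ω' hω' => ?_, ?_, ?_, ?_, fun ω hω θ => ?_⟩⟩
  · exact tsum_of_norm_bounded (fA k).hasSum (fun i => (h i).sup k ω hω)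
  · show ‖(∑' i, c i k ω) - (∑' i, c i k ω')‖ ≤ (∑' i, l i k) * |ω - ω'|
    rw [← (fC k ω hω).tsum_sub (fC k ω' hω')]
    exact tsum_of_norm_bounded ((fB k).hasSum.mul_right |ω - ω'|)
      (fun i => (h i).lip k ω hω ω' hω')
  · show Summable fun k : ℤ => (∑' i, s i k) * r ^ k.natAbs
    rw [eA]; exact sA.1
  · show Summable fun k : ℤ => (∑' i, l i k) * (r / 2) ^ k.natAbs
    rw [eB]; exact sB.1
  · show (∑' k : ℤ, (∑' i, s i k) * r ^ k.natAbs) +
      τ * ∑' k : ℤ, (∑' i, l i k) * (r / 2) ^ k.natAbs ≤ ∑' i, M i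
    rw [eA, eB, sA.2.1, sB.2.1, ← tsum_mul_left, ← sA.2.2.tsum_add (sB.2.2.mul_left τ)]
    exact (sA.2.2.add (sB.2.2.mul_left τ)).tsum_le_tsum (fun i => (h i).le) hM
  · show HasSum (fun k : ℤ => (∑' i, c i k ω) * ee (k * θ)) (((∑' i, f i ω θ : ℝ)) : ℂ)
    have hF : Summable (fun p : ι × ℤ => c p.1 p.2 ω * ee (p.2 * θ)) := by
      refine Summable.of_norm_bounded dA (fun p => ?_)
      rw [norm_mul, ee_norm, mul_one]
      exact ((h p.1).sup p.2 ω hω).trans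
        (le_mul_of_one_le_right ((h p.1).s_nn p.2) (w1 p.2))
    obtain ⟨a, ha⟩ := hF
    have h1 : HasSum (fun i => ((f i ω θ : ℝ) : ℂ)) a :=
      ha.prod_fiberwise (fun i => (h i).rep ω hω θ)
    have h2 : HasSum (fun p : ℤ × ι => c p.2 p.1 ω * ee (p.1 * θ)) a :=
      ((Equiv.prodComm ℤ ι).hasSum_iff (f := fun p : ι × ℤ => c p.1 p.2 ω * ee (p.2 * θ))).2 ha
    have h3 : HasSum (fun k : ℤ => (∑' i, c i k ω) * ee (k * θ)) a :=
      h2.prod_fiberwise (fun k => (fC k ω hω).hasSum.mul_right _)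
    rw [Complex.ofReal_tsum, h1.tsum_eq]
    exact h3

theorem Bd.summable {ι : Type} (hτ : 0 < τ) (hr : 2 ≤ r) {f : ι → ℝ → ℝ → ℝ} {M : ι → ℝ}
    (h : ∀ i, Bd D τ r (f i) (M i)) (hM : Summable M) {ω : ℝ} (hω : ω ∈ D) (θ : ℝ) :
    Summable fun i => f i ω θ := by
  refine Summable.of_norm_bounded hM (fun i => ?_)
  rw [Real.norm_eq_abs]
  exact Bd.abs_le hτ.le (by linarith) (h i) hω θ

end Pool.Agent.MP31f1e8.KM
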