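import Pool.Agent.Lib.MP_31f1e8_mp.KM.Mul
import Pool.Agent.Lib.MP_31f1e8_mp.KM.Tsum

/-!
Inverses in the algebra `Bd`.

`inv_one`: `|f - 1| ≤ q < 1` on `D` (`Bd.abs_le`), so `f ≠ 0` and `f⁻¹ = ∑' n, (1 - f)^n` pointwise
(`tsum_geometric_of_abs_lt_one`); `(kk 1 - f)^n` has norm `≤ q^n` (`Bd.pow`, `Bd.neg`), sum `1/(1-q)`
(`Bd.tsum`, `tsum_geometric_of_lt_one`; `q ≥ 0` by `Bd.nonneg`), `Bd.congr`.
`inv_near`: `f = g (1 + (f - g) g⁻¹)` on `D`; `u = 1 + (f-g) g⁻¹` satisfies `Bd (u - 1) (μ N)` (`Bd.mul`),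
`μ N ≤ 1/2 < 1`, so `u⁻¹` has norm `≤ 2` and `f⁻¹ = g⁻¹ u⁻¹` has norm `≤ 2 N`.
-/

namespace Pool.Agent.MP31f1e8.KM

variable {D : Set ℝ} {τ r M N q μ : ℝ} {f g : ℝ → ℝ → ℝ}

theorem Bd.inv_one (hτ : 0 < τ) (hr : 2 ≤ r) (hq : q < 1) (h : Bd D τ r (f - kk 1) q) :
    NzD D f ∧ Bd D τ r f⁻¹ (1 / (1 - q)) := by
  have hq0 : 0 ≤ q := h.nonneg hτ.le (by linarith)
  have habs : ∀ ω ∈ D, ∀ θ, |1 - f ω θ| < 1 := by
    intro ω hω θ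
    have h1 := h.abs_le hτ.le (by linarith) hω θ
    have h2 : (f - kk 1) ω θ = f ω θ - 1 := rfl
    rw [h2, abs_sub_comm] at h1
    exact lt_of_le_of_lt h1 hq
  have hne : NzD D f := by
    intro ω hω θ h0
    have h1 := habs ω hω θ
    rw [h0] at h1
    simp at h1
  refine ⟨hne, ?_⟩
  have hp : ∀ n : ℕ, Bd D τ r ((-(f - kk 1)) ^ n) (q ^ n) := fun n => h.neg.pow hτ.le hr n
  have ht := Bd.tsum hτ hr hp (summable_geometric_of_lt_one hq0 hq)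
  rw [tsum_geometric_of_lt_one hq0 hq, ← one_div] at ht
  refine ht.congr ?_
  intro ω hω θ
  have h1 : ∀ n : ℕ, ((-(f - kk 1)) ^ n) ω θ = (1 - f ω θ) ^ n := by
    intro n
    have h2 : ((-(f - kk 1)) ^ n) ω θ = (-(f ω θ - 1)) ^ n := by
      simp only [Pi.pow_apply, Pi.neg_apply, Pi.sub_apply, kk]
    rw [h2, neg_sub]
  simp only [h1]
  rw [tsum_geometric_of_abs_lt_one (habs ω hω θ), sub_sub_cancel]
  rfl

theorem Bd.inv_near (hτ : 0 < τ) (hr : 2 ≤ r) (hg : NzD D g) (h : Bd D τ r g⁻¹ N)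
    (hfg : Bd D τ r (f - g) μ) (hμ : N * μ ≤ 1 / 2) : NzD D f ∧ Bd D τ r f⁻¹ (2 * N) := by
  have hN : 0 ≤ N := h.nonneg hτ.le (by linarith)
  have h1 : Bd D τ r (f * g⁻¹ - kk 1) (μ * N) := by
    refine (hfg.mul hτ.le hr h).congr ?_
    intro ω hω θ
    have hg0 := hg ω hω θ
    show (f ω θ - g ω θ) * (g ω θ)⁻¹ = f ω θ * (g ω θ)⁻¹ - 1
    rw [sub_mul, mul_inv_cancel₀ hg0]
  have hq : μ * N ≤ 1 / 2 := by linarith [mul_comm μ N]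
  obtain ⟨h2, h3⟩ := Bd.inv_one hτ hr (by linarith) h1
  have hf : NzD D f := by
    intro ω hω θ h0
    refine h2 ω hω θ ?_
    show f ω θ * (g ω θ)⁻¹ = 0
    rw [h0, zero_mul]
  refine ⟨hf, ?_⟩
  have h4 := h.mul hτ.le hr h3
  have h5 : N * (1 / (1 - μ * N)) ≤ 2 * N := by
    have h6 : 1 / (1 - μ * N) ≤ 2 := by
      rw [div_le_iff₀ (by linarith)]
      linarith
    nlinarith
  refine (h4.mono h5).congr ?_
  intro ω hω θ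
  have hg0 := hg ω hω θ
  show (g ω θ)⁻¹ * (f ω θ * (g ω θ)⁻¹)⁻¹ = (f ω θ)⁻¹
  rw [mul_inv, inv_inv, mul_comm (f ω θ)⁻¹, ← mul_assoc, inv_mul_cancel₀ hg0, one_mul]

end Pool.Agent.MP31f1e8.KM
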