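import Pool.Agent.Lib.MP_31f1e8_mp.KM.AlgA

/-!
The shifts by `± ω` are bounded by `2` on `Bd` (the radius `r / 2` of the Lipschitz part absorbs the
derivative of `e(kω)` in `ω`).

Proof. `T f` has the coefficients `c_k(ω) ee(kω)` (`ee (k(θ+ω)) = ee(kθ) ee(kω)`), sup bound `s_k`,
Lipschitz bound `l_k + 2 π |k| s_k` (`ee_lip`, `ee_norm`). Since `|k| 2^{-|k|} ≤ 1/2`:
`τ ∑ 2π|k| s_k (r/2)^|k| ≤ τ π ∑ s_k r^|k| ≤ ∑ s_k r^|k|` (`τ ≤ 1/4`, `π ≤ 4`). Total `≤ M + M`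
(in fact `∑ s r^k + τ ∑ l (r/2)^k + ∑ s r^k ≤ 2 M`). `shTi` the same with `ee(-kω)`.
-/

namespace Pool.Agent.MP31f1e8.KM

variable {D : Set ℝ} {τ r M : ℝ} {f g : ℝ → ℝ → ℝ}

private theorem Shift_two (n : ℕ) : (n : ℝ) * 2 ≤ 2 ^ n := by
  have h : n * 2 ≤ 2 ^ n := by
    induction n with
    | zero => simp
    | succ n ih =>
      rcases n with _ | n
      · simp
      · have : 2 ^ (n + 1 + 1) = 2 ^ (n + 1) * 2 := pow_succ _ _
        have h2 : 2 ≤ (n + 1) * 2 := by omega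
        omega
  exact_mod_cast h

private theorem Shift_gen (ε : ℝ) (hε : |ε| = 1) (hτ : 0 ≤ τ) (hτ' : τ ≤ 1 / 4) (hr : 2 ≤ r)
    (h : Bd D τ r f M) : Bd D τ r (fun ω θ => f ω (θ + ε * ω)) (2 * M) := by
  obtain ⟨c, s, l, H⟩ := h
  have hr0 : 0 ≤ r := by linarith
  have hr2 : 0 ≤ r / 2 := by linarith
  have hpi : 0 < Real.pi := Real.pi_pos
  -- termwise bound
  have hterm : ∀ k : ℤ, 2 * Real.pi * (k.natAbs : ℝ) * s k * (r / 2) ^ k.natAbs
      ≤ Real.pi * (s k * r ^ k.natAbs) := by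
    intro k
    have h1 : (r / 2) ^ k.natAbs = r ^ k.natAbs / 2 ^ k.natAbs := by rw [div_pow]
    have h2 : (0 : ℝ) < 2 ^ k.natAbs := by positivity
    have h3 := Shift_two k.natAbs
    have h4 : 0 ≤ s k * r ^ k.natAbs := mul_nonneg (H.s_nn k) (pow_nonneg hr0 _)
    rw [h1]
    have h5 : 2 * Real.pi * (k.natAbs : ℝ) * s k * (r ^ k.natAbs / 2 ^ k.natAbs)
        = Real.pi * (s k * r ^ k.natAbs) * ((k.natAbs : ℝ) * 2 / 2 ^ k.natAbs) := by
      field_simp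
    rw [h5]
    have h6 : (k.natAbs : ℝ) * 2 / 2 ^ k.natAbs ≤ 1 := by
      rw [div_le_one h2]; exact h3
    calc Real.pi * (s k * r ^ k.natAbs) * ((k.natAbs : ℝ) * 2 / 2 ^ k.natAbs)
        ≤ Real.pi * (s k * r ^ k.natAbs) * 1 :=
          mul_le_mul_of_nonneg_left h6 (mul_nonneg hpi.le h4)
      _ = _ := mul_one _
  have hsum2 : Summable fun k : ℤ => 2 * Real.pi * (k.natAbs : ℝ) * s k * (r / 2) ^ k.natAbs := by
    refine Summable.of_nonneg_of_le (fun k => ?_) hterm (H.ssum.mul_left Real.pi)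
    have := H.s_nn k
    positivity
  have hle2 : (∑' k : ℤ, 2 * Real.pi * (k.natAbs : ℝ) * s k * (r / 2) ^ k.natAbs)
      ≤ Real.pi * ∑' k : ℤ, s k * r ^ k.natAbs := by
    rw [← tsum_mul_left]
    exact hsum2.tsum_le_tsum hterm (H.ssum.mul_left Real.pi)
  refine ⟨fun k ω => c k ω * ee (k * (ε * ω)), s, fun k => l k + 2 * Real.pi * (k.natAbs : ℝ) * s k, ?_⟩
  have hS0 : 0 ≤ ∑' k : ℤ, s k * r ^ k.natAbs :=
    tsum_nonneg fun k => mul_nonneg (H.s_nn k) (pow_nonneg hr0 _)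
  have hL0 : 0 ≤ ∑' k : ℤ, l k * (r / 2) ^ k.natAbs :=
    tsum_nonneg fun k => mul_nonneg (H.l_nn k) (pow_nonneg hr2 _)
  refine ⟨H.s_nn, fun k => ?_, fun k ω hω => ?_, fun k ω hω ω' hω' => ?_, H.ssum, ?_, ?_, ?_⟩
  · have h1 := H.l_nn k
    have h2 := H.s_nn k
    positivity
  · rw [norm_mul, ee_norm, mul_one]
    exact H.sup k ω hω
  · have h1 : c k ω * ee (k * (ε * ω)) - c k ω' * ee (k * (ε * ω'))
        = (c k ω - c k ω') * ee (k * (ε * ω)) + c k ω' * (ee (k * (ε * ω)) - ee (k * (ε * ω'))) := by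
      ring
    have h2 : ‖ee (k * (ε * ω)) - ee (k * (ε * ω'))‖ ≤ 2 * Real.pi * ((k.natAbs : ℝ) * |ω - ω'|) := by
      refine (ee_lip _ _).trans (le_of_eq ?_)
      have h3 : (k : ℝ) * (ε * ω) - k * (ε * ω') = k * ε * (ω - ω') := by ring
      have h4 : |(k : ℝ)| = (k.natAbs : ℝ) := by
        rw [← Int.cast_abs, Int.abs_eq_natAbs]; simp
      rw [h3, abs_mul, abs_mul, hε, mul_one, h4]
    rw [h1]
    calc ‖(c k ω - c k ω') * ee (k * (ε * ω)) + c k ω' * (ee (k * (ε * ω)) - ee (k * (ε * ω')))‖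
        ≤ ‖(c k ω - c k ω') * ee (k * (ε * ω))‖ + ‖c k ω' * (ee (k * (ε * ω)) - ee (k * (ε * ω')))‖ :=
          norm_add_le _ _
      _ ≤ l k * |ω - ω'| + s k * (2 * Real.pi * ((k.natAbs : ℝ) * |ω - ω'|)) := by
          refine add_le_add ?_ ?_
          · rw [norm_mul, ee_norm, mul_one]
            exact H.lip k ω hω ω' hω'
          · rw [norm_mul]
            exact mul_le_mul (H.sup k ω' hω') h2 (norm_nonneg _) (H.s_nn k)
      _ = _ := by ring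
  · have : (fun k : ℤ => (l k + 2 * Real.pi * (k.natAbs : ℝ) * s k) * (r / 2) ^ k.natAbs)
        = fun k : ℤ => l k * (r / 2) ^ k.natAbs
          + 2 * Real.pi * (k.natAbs : ℝ) * s k * (r / 2) ^ k.natAbs := by
      funext k; ring
    rw [this]
    exact H.lsum.add hsum2
  · have : (fun k : ℤ => (l k + 2 * Real.pi * (k.natAbs : ℝ) * s k) * (r / 2) ^ k.natAbs)
        = fun k : ℤ => l k * (r / 2) ^ k.natAbs
          + 2 * Real.pi * (k.natAbs : ℝ) * s k * (r / 2) ^ k.natAbs := by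
      funext k; ring
    rw [this, H.lsum.tsum_add hsum2]
    have h1 := H.le
    have h2 : τ * ∑' k : ℤ, 2 * Real.pi * (k.natAbs : ℝ) * s k * (r / 2) ^ k.natAbs
        ≤ ∑' k : ℤ, s k * r ^ k.natAbs := by
      calc τ * ∑' k : ℤ, 2 * Real.pi * (k.natAbs : ℝ) * s k * (r / 2) ^ k.natAbs
          ≤ τ * (Real.pi * ∑' k : ℤ, s k * r ^ k.natAbs) := mul_le_mul_of_nonneg_left hle2 hτ
        _ = (τ * Real.pi) * ∑' k : ℤ, s k * r ^ k.natAbs := by ring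
        _ ≤ 1 * ∑' k : ℤ, s k * r ^ k.natAbs := by
            refine mul_le_mul_of_nonneg_right ?_ hS0
            nlinarith [Real.pi_le_four]
        _ = _ := one_mul _
    have h3 : 0 ≤ τ * ∑' k : ℤ, l k * (r / 2) ^ k.natAbs := mul_nonneg hτ hL0
    rw [mul_add]
    linarith
  · intro ω hω θ
    have h1 := H.rep ω hω (θ + ε * ω)
    have h2 : (fun k : ℤ => c k ω * ee (k * (ε * ω)) * ee (k * θ))
        = fun k : ℤ => c k ω * ee (k * (θ + ε * ω)) := by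
      funext k
      rw [mul_add, ee_add]; ring
    rw [h2]
    exact h1

theorem Bd.shT (hτ : 0 ≤ τ) (hτ' : τ ≤ 1 / 4) (hr : 2 ≤ r) (h : Bd D τ r f M) :
    Bd D τ r (T f) (2 * M) := by
  have h1 := Shift_gen 1 (by simp) hτ hτ' hr h
  have h2 : (fun ω θ => f ω (θ + 1 * ω)) = T f := by
    funext ω θ; simp [T]
  rwa [h2] at h1

theorem Bd.shTi (hτ : 0 ≤ τ) (hτ' : τ ≤ 1 / 4) (hr : 2 ≤ r) (h : Bd D τ r f M) :
    Bd D τ r (Ti f) (2 * M) := by
  have h1 := Shift_gen (-1) (by simp) hτ hτ' hr h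
  have h2 : (fun ω θ => f ω (θ + (-1) * ω)) = Ti f := by
    funext ω θ; simp [Ti, sub_eq_add_neg]
  rwa [h2] at h1

end Pool.Agent.MP31f1e8.KM
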