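import Pool.Agent.Lib.MP_31f1e8_mp.KM.DefsS
import Pool.Agent.Lib.MP_31f1e8_mp.KM.Inv
import Pool.Agent.Lib.MP_31f1e8_mp.KM.Shift
import Pool.Agent.Lib.MP_31f1e8_mp.KM.Avg

/-!
Frames for all curves near the approximate solution `S0`.

Proof. `τ = ρ²`. `c` = constants that depend only on `C`; `c_K` also on `K`. `s0 = dd S0`, `s = dd S`,
`B0 = s0 m0 - T s0 n0`, `Z0 = m0 T m0 - T n0 ((2cc + 2 T S0) m0 - n0)`, `a = al S`, `k = ka S`,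
`B = a (s m0 - T s n0)`, `Z = T a m0 T m0 - T n0 (T k m0 - a n0)`, `n = n0 B⁻¹`, `m = m0 B⁻¹`.
1. `S` has norm `≤ C ρ + K ρ³ ≤ 1/16` for `ρ ≤ ρ1`; so `F3`, `F4` apply: `a - 1` norm `≤ η ≤ ρ³`, `k - 2cc - 2S`
   norm `≤ ρ³`, `a` norm `≤ 2`, `k` norm `≤ 2 + 1/8 + 1 ≤ 6`. `s` has norm `≤ C ρ + K ρ³ ≤ 2 C ρ`.
2. `B - B0 = (a - 1)(s m0 - T s n0) + (s - s0) m0 - T (s - s0) n0` : norm `≤ c_K ρ³`. `inv_near` with
   `g = B0`, `N = C/ρ`, `μ = c_K ρ³` (`N μ = c_K ρ² ≤ 1/2`): `B ≠ 0`, `B⁻¹` norm `≤ 2C/ρ`. So `n, m` have norm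
   `≤ 2C²/ρ`; `fr` : `a (s m - T s n) = B B⁻¹ = 1` (at the point, `field_simp`).
3. `Z - Z0 = T(a - 1) m0 T m0 - T n0 (T (k - 2cc - 2S) m0 + 2 T (S - S0) m0 - (a - 1) n0)`: norm `≤ c_K ρ³`.
   `tor a k n m = Z (B * T B)⁻¹` on `D` (`T (B⁻¹) = (T B)⁻¹`), and with `U0 = (B0 T B0)⁻¹`, `U = (B T B)⁻¹`:
   `tor - om sg = (Z - Z0) U + Z0 (U - U0) + (Z0 U0 - om sg)`. `U` norm `≤ c/ρ²`, `U0` norm `≤ c/ρ²`.
   `Z0 = (Z0 U0) (B0 T B0)` has norm `≤ (C ρ + C)(2 C² ρ²) ≤ c ρ²` (`hZ`, `hsg`, `hB'`);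
   `U - U0 = U U0 (B0 T B0 - B T B)`, `B0 T B0 - B T B = (B0 - B) T B0 + B T (B0 - B)`: norm `≤ c_K ρ⁴`, so
   `U - U0` norm `≤ c_K`. Total: `tor - om sg` has norm `≤ c_K ρ + c_K ρ² + C ρ ≤ c_K ρ` (call it `μ'`).
   `tor` norm `≤ C + 1 ≤ 2C`.
4. `om (avg tor) - om sg` has norm `≤ μ'` (`Bd.bdAvg`, `avg (tor - om sg) = avg tor - sg`), `inv_near` with
   `g = om sg`, `N = C`, `C μ' ≤ 1/2`: `avg tor ≠ 0`, inverse of norm `≤ 2C` (`(om u)⁻¹ = om u⁻¹`).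
So `C1 = max` of the constants, e.g. `C1 = 10 C²`. `ρ1` depends on `C, K`.
-/

namespace Pool.Agent.MP31f1e8.KM

private theorem frame_core {C K ρ r cc : ℝ} {D : Set ℝ} (hC : 1 ≤ C) (hK : 0 ≤ K) (hρ : 0 < ρ)
    (hρ2 : ρ ≤ 1 / 2) (hr : 2 ≤ r)
    (hc1 : C * ((81 + 64 * K) * C ^ 4 + 576 * C ^ 9 * (C + K)) * ρ ≤ 1 / 2)
    (hc2 : 6 * C ^ 2 * (C + K) * ρ ≤ 1 / 2)
    {S S0 s s0 n0 m0 a k : ℝ → ℝ → ℝ} {sg : ℝ → ℝ}
    (hs : Bd D (ρ ^ 2) r s (2 * C * ρ)) (hv : Bd D (ρ ^ 2) r (S - S0) (K * ρ ^ 3))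
    (hw : Bd D (ρ ^ 2) r (s - s0) (K * ρ ^ 3)) (hn : Bd D (ρ ^ 2) r n0 C) (hm : Bd D (ρ ^ 2) r m0 C)
    (he : Bd D (ρ ^ 2) r (a - kk 1) (ρ ^ 3))
    (hd : Bd D (ρ ^ 2) r (k - kk (2 * cc) - kk 2 * S) (ρ ^ 3))
    (Bne : NzD D (s0 * m0 - T s0 * n0)) (hB : Bd D (ρ ^ 2) r ((s0 * m0 - T s0 * n0)⁻¹) (C / ρ))
    (hB' : Bd D (ρ ^ 2) r (s0 * m0 - T s0 * n0) (C * ρ)) (sgne : ∀ ω ∈ D, sg ω ≠ 0)
    (hsg : Bd D (ρ ^ 2) r (om sg) C) (hsg' : Bd D (ρ ^ 2) r (om fun ω => (sg ω)⁻¹) C)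
    (hZ : Bd D (ρ ^ 2) r ((m0 * T m0 - T n0 * ((kk (2 * cc) + kk 2 * T S0) * m0 - n0)) *
      ((s0 * m0 - T s0 * n0) * T (s0 * m0 - T s0 * n0))⁻¹ - om sg) (C * ρ)) :
    ∃ n m, Bd D (ρ ^ 2) r n (2 * C ^ 2 / ρ) ∧ Bd D (ρ ^ 2) r m (2 * C ^ 2 / ρ) ∧
      EqD D (a * (s * m - T s * n)) (kk 1) ∧ Bd D (ρ ^ 2) r (tor a k n m) (2 * C) ∧
      (∀ ω ∈ D, avg (tor a k n m) ω ≠ 0) ∧
      Bd D (ρ ^ 2) r (om fun ω => (avg (tor a k n m) ω)⁻¹) (2 * C) := by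
  have hτ : 0 < ρ ^ 2 := by positivity
  have hτ' : ρ ^ 2 ≤ 1 / 4 := by nlinarith
  have hr0 : 0 ≤ r := by linarith
  have hC0 : 0 < C := by linarith
  have hρ3 : 0 ≤ ρ ^ 3 := by positivity
  have hCK : 0 ≤ C + K := by linarith
  obtain ⟨B0, hB0⟩ : ∃ B0, B0 = s0 * m0 - T s0 * n0 := ⟨_, rfl⟩
  rw [← hB0] at Bne hB hB' hZ
  -- the new determinant
  obtain ⟨P, hP⟩ : ∃ P, P = s * m0 - T s * n0 := ⟨_, rfl⟩
  have bP : Bd D (ρ ^ 2) r P (6 * C ^ 2 * ρ) := by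
    rw [hP]
    refine (Bd.sub hr0 (Bd.mul hτ.le hr hs hm) (Bd.mul hτ.le hr (Bd.shT hτ.le hτ' hr hs) hn)).mono ?_
    apply le_of_eq
    ring
  obtain ⟨B, hBd⟩ : ∃ B, B = a * P := ⟨_, rfl⟩
  have bBB : Bd D (ρ ^ 2) r (B - B0) (3 * C * (C + K) * ρ ^ 3) := by
    have h1 := Bd.add hr0 (Bd.mul hτ.le hr he bP) (Bd.sub hr0 (Bd.mul hτ.le hr hw hm)
      (Bd.mul hτ.le hr (Bd.shT hτ.le hτ' hr hw) hn))
    have h2 : EqD D ((a - kk 1) * P + ((s - s0) * m0 - T (s - s0) * n0)) (B - B0) := by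
      intro ω hω θ
      rw [hBd, hB0, hP]
      simp only [Pi.mul_apply, Pi.sub_apply, Pi.add_apply, T, kk]
      ring
    refine (h1.congr h2).mono ?_
    have h3 : ρ ^ 3 * (6 * C ^ 2 * ρ) ≤ 3 * C ^ 2 * ρ ^ 3 := by
      have h4 : 0 ≤ 6 * C ^ 2 * ρ ^ 3 := by positivity
      nlinarith
    nlinarith
  have h6 : 3 * C ^ 2 * (C + K) * ρ ^ 2 ≤ 1 / 8 := by nlinarith
  obtain ⟨nB, bB⟩ := Bd.inv_near hτ hr Bne hB bBB (by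
    have h7 : C / ρ * (3 * C * (C + K) * ρ ^ 3) = 3 * C ^ 2 * (C + K) * ρ ^ 2 := by
      field_simp
    rw [h7]
    linarith)
  have bB1 : Bd D (ρ ^ 2) r B (2 * C * ρ) := by
    have h1 := Bd.add hr0 bBB hB'
    have h2 : EqD D (B - B0 + B0) B := by
      intro ω hω θ
      simp only [Pi.sub_apply, Pi.add_apply]
      ring
    refine (h1.congr h2).mono ?_
    have h3 : 3 * (C + K) * ρ ^ 2 ≤ 1 := by
      have h4 : (C + K) * ρ ^ 2 ≤ C ^ 2 * ((C + K) * ρ ^ 2) :=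
        le_mul_of_one_le_left (by positivity) (by nlinarith)
      nlinarith
    have h5 : 3 * C * (C + K) * ρ ^ 3 = (C * ρ) * (3 * (C + K) * ρ ^ 2) := by ring
    have h8 : (C * ρ) * (3 * (C + K) * ρ ^ 2) ≤ (C * ρ) * 1 :=
      mul_le_mul_of_nonneg_left h3 (by positivity)
    linarith
  have bn : Bd D (ρ ^ 2) r (n0 * B⁻¹) (2 * C ^ 2 / ρ) := by
    refine (Bd.mul hτ.le hr hn bB).mono (le_of_eq ?_)
    ring
  have bm : Bd D (ρ ^ 2) r (m0 * B⁻¹) (2 * C ^ 2 / ρ) := by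
    refine (Bd.mul hτ.le hr hm bB).mono (le_of_eq ?_)
    ring
  -- the torsion
  obtain ⟨Z, hZd⟩ : ∃ Z, Z = T a * m0 * T m0 - T n0 * (T k * m0 - a * n0) := ⟨_, rfl⟩
  obtain ⟨Z0, hZ0⟩ : ∃ Z0, Z0 = m0 * T m0 - T n0 * ((kk (2 * cc) + kk 2 * T S0) * m0 - n0) := ⟨_, rfl⟩
  rw [← hZ0] at hZ
  obtain ⟨U, hU⟩ : ∃ U, U = (B * T B)⁻¹ := ⟨_, rfl⟩
  obtain ⟨U0, hU0⟩ : ∃ U0, U0 = (B0 * T B0)⁻¹ := ⟨_, rfl⟩
  rw [← hU0] at hZ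
  have bZZ : Bd D (ρ ^ 2) r (Z - Z0) ((10 + 8 * K) * C ^ 2 * ρ ^ 3) := by
    have t1 := Bd.mul hτ.le hr (Bd.mul hτ.le hr (Bd.shT hτ.le hτ' hr he) hm) (Bd.shT hτ.le hτ' hr hm)
    have t2 := Bd.add hr0 (Bd.shT hτ.le hτ' hr hd) (Bd.smul 2 (Bd.shT hτ.le hτ' hr hv))
    have t3 := Bd.sub hr0 (Bd.mul hτ.le hr t2 hm) (Bd.mul hτ.le hr he hn)
    have t4 := Bd.sub hr0 t1 (Bd.mul hτ.le hr (Bd.shT hτ.le hτ' hr hn) t3)
    have t5 : EqD D (T (a - kk 1) * m0 * T m0 - T n0 * ((T (k - kk (2 * cc) - kk 2 * S) +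
        kk 2 * T (S - S0)) * m0 - (a - kk 1) * n0)) (Z - Z0) := by
      intro ω hω θ
      rw [hZd, hZ0]
      simp only [Pi.mul_apply, Pi.sub_apply, Pi.add_apply, T, kk]
      ring
    refine (t4.congr t5).mono (le_of_eq ?_)
    rw [abs_of_pos (by norm_num : (0 : ℝ) < 2)]
    ring
  have bU : Bd D (ρ ^ 2) r U (8 * C ^ 2 / ρ ^ 2) := by
    have h1 := Bd.mul hτ.le hr bB (Bd.shT hτ.le hτ' hr bB)
    have h2 : EqD D (B⁻¹ * T B⁻¹) U := by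
      intro ω hω θ
      rw [hU]
      simp only [Pi.mul_apply, Pi.inv_apply, T]
      rw [mul_inv]
    refine (h1.congr h2).mono (le_of_eq ?_)
    field_simp
    ring
  have bU0 : Bd D (ρ ^ 2) r U0 (2 * C ^ 2 / ρ ^ 2) := by
    have h1 := Bd.mul hτ.le hr hB (Bd.shT hτ.le hτ' hr hB)
    have h2 : EqD D (B0⁻¹ * T B0⁻¹) U0 := by
      intro ω hω θ
      rw [hU0]
      simp only [Pi.mul_apply, Pi.inv_apply, T]
      rw [mul_inv]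
    refine (h1.congr h2).mono (le_of_eq ?_)
    field_simp
  have bBB' : Bd D (ρ ^ 2) r (B0 - B) (3 * C * (C + K) * ρ ^ 3) := by
    have h2 : EqD D (-(B - B0)) (B0 - B) := by
      intro ω hω θ
      simp only [Pi.sub_apply, Pi.neg_apply]
      ring
    exact bBB.neg.congr h2
  have bUU : Bd D (ρ ^ 2) r (U - U0) (288 * C ^ 6 * (C + K)) := by
    have h1 := Bd.mul hτ.le hr (Bd.mul hτ.le hr bU bU0) (Bd.add hr0
      (Bd.mul hτ.le hr bBB' (Bd.shT hτ.le hτ' hr hB')) (Bd.mul hτ.le hr bB1 (Bd.shT hτ.le hτ' hr bBB')))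
    have h2 : EqD D (U * U0 * ((B0 - B) * T B0 + B * T (B0 - B))) (U - U0) := by
      intro ω hω θ
      have e1 := nB ω hω θ
      have e2 := nB ω hω (θ + ω)
      have e3 := Bne ω hω θ
      have e4 := Bne ω hω (θ + ω)
      rw [hU, hU0]
      simp only [Pi.mul_apply, Pi.sub_apply, Pi.add_apply, Pi.inv_apply, T]
      field_simp
      ring
    refine (h1.congr h2).mono (le_of_eq ?_)
    field_simp
    ring
  have bZ0 : Bd D (ρ ^ 2) r Z0 (4 * C ^ 3 * ρ ^ 2) := by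
    have h1 := Bd.mul hτ.le hr (Bd.add hr0 hZ hsg) (Bd.mul hτ.le hr hB' (Bd.shT hτ.le hτ' hr hB'))
    have h2 : EqD D ((Z0 * U0 - om sg + om sg) * (B0 * T B0)) Z0 := by
      intro ω hω θ
      have e3 := Bne ω hω θ
      have e4 := Bne ω hω (θ + ω)
      rw [hU0]
      simp only [Pi.mul_apply, Pi.sub_apply, Pi.add_apply, Pi.inv_apply, T]
      rw [sub_add_cancel, mul_assoc, inv_mul_cancel₀ (mul_ne_zero e3 e4), mul_one]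
    refine (h1.congr h2).mono ?_
    have h3 : (C * ρ + C) * (C * ρ * (2 * (C * ρ))) = (1 + ρ) * (2 * C ^ 3 * ρ ^ 2) := by ring
    rw [h3]
    have h4 : (1 + ρ) * (2 * C ^ 3 * ρ ^ 2) ≤ 2 * (2 * C ^ 3 * ρ ^ 2) :=
      mul_le_mul_of_nonneg_right (by linarith) (by positivity)
    linarith
  have hμ : (10 + 8 * K) * C ^ 2 * ρ ^ 3 * (8 * C ^ 2 / ρ ^ 2) +
      4 * C ^ 3 * ρ ^ 2 * (288 * C ^ 6 * (C + K)) + C * ρ ≤
      ((81 + 64 * K) * C ^ 4 + 576 * C ^ 9 * (C + K)) * ρ := by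
    have h1 : (10 + 8 * K) * C ^ 2 * ρ ^ 3 * (8 * C ^ 2 / ρ ^ 2) = (80 + 64 * K) * C ^ 4 * ρ := by
      field_simp
      ring
    have h2 : 4 * C ^ 3 * ρ ^ 2 * (288 * C ^ 6 * (C + K)) = 1152 * C ^ 9 * (C + K) * ρ * ρ := by ring
    have h3 : 1152 * C ^ 9 * (C + K) * ρ * ρ ≤ 1152 * C ^ 9 * (C + K) * ρ * (1 / 2) :=
      mul_le_mul_of_nonneg_left hρ2 (by positivity)
    have h4 : C * ρ ≤ C ^ 4 * ρ := by
      refine mul_le_mul_of_nonneg_right ?_ hρ.le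
      exact le_self_pow₀ hC (by norm_num)
    rw [h1, h2]
    nlinarith
  have bT : Bd D (ρ ^ 2) r (tor a k (n0 * B⁻¹) (m0 * B⁻¹) - om sg)
      (((81 + 64 * K) * C ^ 4 + 576 * C ^ 9 * (C + K)) * ρ) := by
    have h1 := Bd.add hr0 (Bd.add hr0 (Bd.mul hτ.le hr bZZ bU) (Bd.mul hτ.le hr bZ0 bUU)) hZ
    have h2 : EqD D ((Z - Z0) * U + Z0 * (U - U0) + (Z0 * U0 - om sg))
        (tor a k (n0 * B⁻¹) (m0 * B⁻¹) - om sg) := by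
      intro ω hω θ
      have e5 : tor a k (n0 * B⁻¹) (m0 * B⁻¹) ω θ = Z ω θ * U ω θ := by
        rw [hU, hZd]
        unfold tor
        simp only [Pi.mul_apply, Pi.sub_apply, Pi.inv_apply, T]
        rw [mul_inv]
        ring
      simp only [Pi.mul_apply, Pi.sub_apply, Pi.add_apply]
      rw [e5]
      ring
    exact (h1.congr h2).mono hμ
  obtain ⟨μ, hμd⟩ : ∃ μ, μ = ((81 + 64 * K) * C ^ 4 + 576 * C ^ 9 * (C + K)) * ρ := ⟨_, rfl⟩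
  rw [← hμd] at bT
  have hCμ : C * μ ≤ 1 / 2 := by
    rw [hμd]
    linarith
  have hμ0 : 0 ≤ μ := bT.nonneg hτ.le hr0
  have hμC : μ ≤ C := by nlinarith
  have bT2 : Bd D (ρ ^ 2) r (tor a k (n0 * B⁻¹) (m0 * B⁻¹)) (2 * C) := by
    have h1 := Bd.add hr0 bT hsg
    have h2 : EqD D (tor a k (n0 * B⁻¹) (m0 * B⁻¹) - om sg + om sg)
        (tor a k (n0 * B⁻¹) (m0 * B⁻¹)) := by
      intro ω hω θ
      simp only [Pi.sub_apply, Pi.add_apply]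
      ring
    exact (h1.congr h2).mono (by linarith)
  have bA := Bd.bdAvg hτ.le (by linarith : (1 : ℝ) ≤ r) bT
  have bA2 : Bd D (ρ ^ 2) r (om (avg (tor a k (n0 * B⁻¹) (m0 * B⁻¹))) - om sg) μ := by
    refine bA.congr ?_
    intro ω hω θ
    have h1 := avg_sub (by linarith : (1 : ℝ) ≤ r) bT2 hsg hω
    rw [avg_om] at h1
    exact h1
  obtain ⟨nA, bA3⟩ := Bd.inv_near hτ hr (g := om sg) (fun ω hω _ => sgne ω hω) hsg' bA2 hCμ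
  refine ⟨n0 * B⁻¹, m0 * B⁻¹, bn, bm, ?_, bT2, fun ω hω => nA ω hω 0, bA3⟩
  intro ω hω θ
  have e1 := nB ω hω θ
  have e2 : B ω θ = a ω θ * (s ω θ * m0 ω θ - s ω (θ + ω) * n0 ω θ) := by
    rw [hBd, hP]
    rfl
  have e3 : (a * (s * (m0 * B⁻¹) - T s * (n0 * B⁻¹))) ω θ =
      a ω θ * (s ω θ * m0 ω θ - s ω (θ + ω) * n0 ω θ) * (B ω θ)⁻¹ := by
    simp only [Pi.mul_apply, Pi.sub_apply, Pi.inv_apply, T]
    ring
  rw [e3, ← e2, mul_inv_cancel₀ e1]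
  rfl

theorem frame {C : ℝ} (hC : 1 ≤ C) : ∃ C1 : ℝ, 1 ≤ C1 ∧ ∀ K : ℝ, 0 ≤ K → ∃ ρ1 : ℝ, 0 < ρ1 ∧
    ρ1 ≤ 1 / 2 ∧ ∀ ρ : ℝ, 0 < ρ → ρ ≤ ρ1 → ∀ (D : Set ℝ) (cc : ℝ) (S0 n0 m0 : ℝ → ℝ → ℝ)
    (sg : ℝ → ℝ), |cc| ≤ 1 → App D ρ cc C S0 n0 m0 sg →
    ∀ (EE al ka : (ℝ → ℝ → ℝ) → ℝ → ℝ → ℝ) (η : ℝ), η ≤ ρ ^ 3 → Fnl D (ρ ^ 2) cc η EE al ka →
    ∀ r : ℝ, 4 ≤ r → r ≤ 8 → ∀ S : ℝ → ℝ → ℝ, Bd D (ρ ^ 2) r (S - S0) (K * ρ ^ 3) →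
    Bd D (ρ ^ 2) r (dd S - dd S0) (K * ρ ^ 3) →
    ∃ n m, Fr D (ρ ^ 2) r ρ C1 al ka S n m := by
  refine ⟨2 * C ^ 2, by nlinarith, ?_⟩
  intro K hK
  have hC0 : 0 < C := by linarith
  obtain ⟨Q, hQ⟩ : ∃ Q, Q = C * ((81 + 64 * K) * C ^ 4 + 576 * C ^ 9 * (C + K)) +
    6 * C ^ 2 * (C + K) + 16 * (C + K) + 1 := ⟨_, rfl⟩
  have hq1 : 0 ≤ C * ((81 + 64 * K) * C ^ 4 + 576 * C ^ 9 * (C + K)) := by positivity
  have hq2 : 0 ≤ 6 * C ^ 2 * (C + K) := by positivity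
  have hq3 : 0 ≤ 16 * (C + K) := by positivity
  have hQ1 : 1 ≤ Q := by rw [hQ]; linarith
  refine ⟨1 / (2 * Q), by positivity, ?_, ?_⟩
  · rw [div_le_div_iff₀ (by positivity) (by norm_num)]
    linarith
  intro ρ hρ hρ1 D cc S0 n0 m0 sg hcc hA EE al ka η hη hF r hr4 hr8 S hv hw
  have hQρ : Q * ρ ≤ 1 / 2 := by
    have h1 : Q * ρ ≤ Q * (1 / (2 * Q)) := mul_le_mul_of_nonneg_left hρ1 (by linarith)
    have h2 : Q * (1 / (2 * Q)) = 1 / 2 := by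
      field_simp
    linarith
  have hρ2 : ρ ≤ 1 / 2 := by nlinarith
  have hc1 : C * ((81 + 64 * K) * C ^ 4 + 576 * C ^ 9 * (C + K)) * ρ ≤ 1 / 2 := by
    refine le_trans (mul_le_mul_of_nonneg_right ?_ hρ.le) hQρ
    rw [hQ]; linarith
  have hc2 : 6 * C ^ 2 * (C + K) * ρ ≤ 1 / 2 := by
    refine le_trans (mul_le_mul_of_nonneg_right ?_ hρ.le) hQρ
    rw [hQ]; linarith
  have hc3 : 16 * (C + K) * ρ ≤ 1 / 2 := by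
    refine le_trans (mul_le_mul_of_nonneg_right ?_ hρ.le) hQρ
    rw [hQ]; linarith
  have hτ : 0 < ρ ^ 2 := by positivity
  have hτ' : ρ ^ 2 ≤ 1 / 4 := by nlinarith
  have hr : 2 ≤ r := by linarith
  have hr0 : 0 ≤ r := by linarith
  have rd : ∀ {f : ℝ → ℝ → ℝ} {M : ℝ}, Bd D (ρ ^ 2) 8 f M → Bd D (ρ ^ 2) r f M :=
    fun h => h.rad hτ.le hr0 hr8
  have hρ3 : K * ρ ^ 3 ≤ K * ρ := by
    refine mul_le_mul_of_nonneg_left ?_ hK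
    nlinarith [sq_nonneg ρ]
  have hKC : K * ρ + C * ρ ≤ 1 / 16 := by nlinarith
  have bS : Bd D (ρ ^ 2) r S (1 / 16) := by
    have h1 := Bd.add hr0 hv (rd hA.hS)
    have h2 : EqD D (S - S0 + S0) S := by
      intro ω hω θ
      simp only [Pi.sub_apply, Pi.add_apply]
      ring
    exact (h1.congr h2).mono (by linarith)
  have bs : Bd D (ρ ^ 2) r (dd S) (2 * C * ρ) := by
    have h1 := Bd.add hr0 hw (rd hA.hs)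
    have h2 : EqD D (dd S - dd S0 + dd S0) (dd S) := by
      intro ω hω θ
      simp only [Pi.sub_apply, Pi.add_apply]
      ring
    refine (h1.congr h2).mono ?_
    have h3 : K * ρ ^ 2 ≤ C := by nlinarith
    have h4 : K * ρ ^ 3 = (K * ρ ^ 2) * ρ := by ring
    have h5 : (K * ρ ^ 2) * ρ ≤ C * ρ := mul_le_mul_of_nonneg_right h3 hρ.le
    linarith
  have he : Bd D (ρ ^ 2) r (al S - kk 1) (ρ ^ 3) := (hF.F3 r hr4 S (bS.mono (by norm_num))).mono hη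
  have hd : Bd D (ρ ^ 2) r (ka S - kk (2 * cc) - kk 2 * S) (ρ ^ 3) :=
    (hF.F4 r hr4 S (bS.mono (by norm_num))).mono hη
  have hρ3' : ρ ^ 3 ≤ 1 / 8 := by nlinarith
  have ba : Bd D (ρ ^ 2) r (al S) 2 := by
    have h1 := Bd.add hr0 he (Bd.ofConst (1 : ℝ))
    have h2 : EqD D (al S - kk 1 + kk 1) (al S) := by
      intro ω hω θ
      simp only [Pi.sub_apply, Pi.add_apply]
      ring
    refine (h1.congr h2).mono ?_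
    rw [abs_one]
    linarith
  have bk : Bd D (ρ ^ 2) r (ka S) 6 := by
    have h1 := Bd.add hr0 (Bd.add hr0 hd (Bd.ofConst (2 * cc))) (Bd.smul 2 bS)
    have h2 : EqD D (ka S - kk (2 * cc) - kk 2 * S + kk (2 * cc) + kk 2 * S) (ka S) := by
      intro ω hω θ
      simp only [Pi.sub_apply, Pi.add_apply]
      ring
    refine (h1.congr h2).mono ?_
    rw [abs_mul, abs_of_pos (by norm_num : (0 : ℝ) < 2)]
    linarith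
  obtain ⟨n, m, h1, h2, h3, h4, h5, h6⟩ := frame_core (cc := cc) hC hK hρ hρ2 hr hc1 hc2 bs hv hw
    (rd hA.hn) (rd hA.hm) he hd hA.Bne (rd hA.hB) (rd hA.hB') hA.sgne (rd hA.hsg) (rd hA.hsg') (rd hA.hZ)
  have hCC : 2 * C ≤ 2 * C ^ 2 := by nlinarith
  exact ⟨n, m, ⟨bS, bs.mono (mul_le_mul_of_nonneg_right hCC hρ.le), h1, h2, h3, ba, bk,
    h4.mono hCC, h5, h6.mono hCC⟩⟩

end Pool.Agent.MP31f1e8.KM
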