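import Pool.Agent.Lib.MP_31f1e8_mp.KM.AlgA

/-!
Products: `Bd` is submultiplicative (needs `2 ≤ r`).

Proof of `mul`. `f = ∑ a_k e_k` (`s, l`), `g = ∑ b_k e_k` (`s', l'`). Coefficients of the product
`c_n = ∑' k, a_k b_(n-k)`, bounds `S_n = ∑' k, s_k s'_(n-k)`, `L_n = ∑' k, (s_k l'_(n-k) + l_k s'_(n-k))`.
All families are summable on `ℤ × ℤ`: `Summable.mul_of_nonneg` for `s_k r^|k|` and `s'_j r^|j|`, etc.; then
use the bijection `(k, j) ↦ (k, k + j)` of `ℤ × ℤ` (an `Equiv`) and `HasSum.prod_fiberwise` /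
`tsum_prod'`; weights: `r^|k+j| ≤ r^|k| r^|j|` (`r ≥ 1`, `Int.natAbs_add_le`), `(r/2)^|k+j| ≤ (r/2)^|k| (r/2)^|j|`
(`r/2 ≥ 1`), and `(r/2)^|j| ≤ r^|j|` for the factors `s'`, `s`. So
`∑ S_n r^|n| ≤ A A'`, `∑ L_n (r/2)^|n| ≤ A B' + B A'` with `A = ∑ s r^|k|`, `B = ∑ l (r/2)^|k|`, and
`A A' + τ (A B' + B A') ≤ (A + τ B)(A' + τ B') ≤ M N`.
`lip`: `a_k(ω) b_j(ω) - a_k(ω') b_j(ω')= a_k(ω)(b_j(ω) - b_j(ω')) + (a_k(ω) - a_k(ω')) b_j(ω')`.
`rep`: the product of two absolutely convergent series (`HasSum.mul_of_nonarchimedean` is not it; use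
`tsum_mul_tsum_of_summable_norm` / `HasSum.mul` with `Summable.mul_norm`), reindexed,
`ee (kθ) ee (jθ) = ee ((k+j)θ)`.
A clean way: put everything in a lemma: if `u v : ℤ → E` (E = ℝ or ℂ) are summable in norm then
`HasSum (fun n => ∑' k, u k * v (n - k)) ((∑' u) * (∑' v))`.
`pow`: induction (`f ^ 0 = 1` is `kk 1`, `Bd.ofConst`).
-/

namespace Pool.Agent.MP31f1e8.KM

variable {D : Set ℝ} {τ r M N : ℝ} {f g : ℝ → ℝ → ℝ}

/-- `(n, k) ↦ (k, n - k)` -/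
private def cvE : ℤ × ℤ ≃ ℤ × ℤ where
  toFun p := (p.2, p.1 - p.2)
  invFun q := (q.1 + q.2, q.1)
  left_inv p := by ext <;> simp
  right_inv q := by ext <;> simp

private theorem conv_all {E : Type} [NormedCommRing E] [CompleteSpace E] {u v : ℤ → E}
    (hu : Summable fun k => ‖u k‖) (hv : Summable fun k => ‖v k‖) :
    (∀ n, Summable fun k => u k * v (n - k)) ∧
      HasSum (fun n => ∑' k, u k * v (n - k)) ((∑' k, u k) * ∑' k, v k) := by
  have h1 : Summable fun p : ℤ × ℤ => ‖u p.1 * v p.2‖ := hu.mul_norm hv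
  have h2 : Summable fun p : ℤ × ℤ => u p.1 * v p.2 := h1.of_norm
  have h3 : HasSum (fun p : ℤ × ℤ => u p.1 * v p.2) ((∑' k, u k) * ∑' k, v k) := by
    rw [tsum_mul_tsum_of_summable_norm hu hv]
    exact h2.hasSum
  have h4 : HasSum (fun p : ℤ × ℤ => u p.2 * v (p.1 - p.2)) ((∑' k, u k) * ∑' k, v k) :=
    (cvE.hasSum_iff (f := fun p : ℤ × ℤ => u p.1 * v p.2)).2 h3
  have h5 : ∀ n, Summable fun k => u k * v (n - k) := fun n => h4.summable.prod_factor n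
  exact ⟨h5, h4.prod_fiberwise fun n => (h5 n).hasSum⟩

private theorem cv_w {ρ : ℝ} (hρ : 1 ≤ ρ) (n k : ℤ) :
    ρ ^ n.natAbs ≤ ρ ^ k.natAbs * ρ ^ (n - k).natAbs := by
  rw [← pow_add]
  refine pow_le_pow_right₀ hρ ?_
  have h := Int.natAbs_add_le k (n - k)
  rwa [show k + (n - k) = n by ring] at h

private theorem cv_sum {ρ : ℝ} (hρ : 1 ≤ ρ) {u : ℤ → ℝ} (hu0 : ∀ k, 0 ≤ u k)
    (hu : Summable fun k : ℤ => u k * ρ ^ k.natAbs) : Summable u := by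
  refine Summable.of_nonneg_of_le hu0 (fun k => ?_) hu
  have h1 : (1 : ℝ) ≤ ρ ^ k.natAbs := one_le_pow₀ hρ
  exact le_mul_of_one_le_right (hu0 k) h1

/-- the real convolution -/
private theorem conv_w {ρ : ℝ} (hρ : 1 ≤ ρ) {u v : ℤ → ℝ} (hu0 : ∀ k, 0 ≤ u k) (hv0 : ∀ k, 0 ≤ v k)
    (hu : Summable fun k : ℤ => u k * ρ ^ k.natAbs) (hv : Summable fun k : ℤ => v k * ρ ^ k.natAbs) :
    (∀ n, Summable fun k => u k * v (n - k)) ∧ (Summable fun n : ℤ => (∑' k, u k * v (n - k)) * ρ ^ n.natAbs) ∧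
      (∑' n : ℤ, (∑' k, u k * v (n - k)) * ρ ^ n.natAbs) ≤
        (∑' k : ℤ, u k * ρ ^ k.natAbs) * ∑' k : ℤ, v k * ρ ^ k.natAbs := by
  have hρ0 : 0 ≤ ρ := le_trans zero_le_one hρ
  have nn : ∀ {w : ℤ → ℝ}, (∀ k, 0 ≤ w k) → ∀ k : ℤ, 0 ≤ w k * ρ ^ k.natAbs := fun hw k =>
    mul_nonneg (hw k) (pow_nonneg hρ0 _)
  have hn : ∀ {w : ℤ → ℝ}, (∀ k, 0 ≤ w k) → Summable w → Summable fun k => ‖w k‖ := by
    intro w hw hs
    refine hs.congr fun k => ?_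
    rw [Real.norm_of_nonneg (hw k)]
  obtain ⟨a1, -⟩ := conv_all (hn hu0 (cv_sum hρ hu0 hu)) (hn hv0 (cv_sum hρ hv0 hv))
  obtain ⟨b1, b2⟩ := conv_all (hn (nn hu0) hu) (hn (nn hv0) hv)
  have hle : ∀ n : ℤ, (∑' k, u k * v (n - k)) * ρ ^ n.natAbs ≤
      ∑' k, (u k * ρ ^ k.natAbs) * (v (n - k) * ρ ^ (n - k).natAbs) := by
    intro n
    rw [← tsum_mul_right]
    refine Summable.tsum_le_tsum (fun k => ?_) ((a1 n).mul_right _) (b1 n)
    calc u k * v (n - k) * ρ ^ n.natAbs ≤ u k * v (n - k) * (ρ ^ k.natAbs * ρ ^ (n - k).natAbs) :=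
          mul_le_mul_of_nonneg_left (cv_w hρ n k) (mul_nonneg (hu0 k) (hv0 _))
      _ = (u k * ρ ^ k.natAbs) * (v (n - k) * ρ ^ (n - k).natAbs) := by ring
  have hnn : ∀ n : ℤ, 0 ≤ (∑' k, u k * v (n - k)) * ρ ^ n.natAbs := fun n =>
    mul_nonneg (tsum_nonneg fun k => mul_nonneg (hu0 k) (hv0 _)) (pow_nonneg hρ0 _)
  have hs : Summable fun n : ℤ => (∑' k, u k * v (n - k)) * ρ ^ n.natAbs :=
    Summable.of_nonneg_of_le hnn hle b2.summable
  refine ⟨a1, hs, ?_⟩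
  rw [← b2.tsum_eq]
  exact Summable.tsum_le_tsum hle hs b2.summable

theorem Bd.mul (hτ : 0 ≤ τ) (hr : 2 ≤ r) (h : Bd D τ r f M) (h' : Bd D τ r g N) :
    Bd D τ r (f * g) (M * N) := by
  obtain ⟨c, s, l, h⟩ := h
  obtain ⟨c', s', l', h'⟩ := h'
  have hr1 : 1 ≤ r := by linarith
  have hr0 : 0 ≤ r := by linarith
  have hh : 1 ≤ r / 2 := by linarith
  have half : ∀ {w : ℤ → ℝ}, (∀ k, 0 ≤ w k) → (Summable fun k : ℤ => w k * r ^ k.natAbs) →
      (Summable fun k : ℤ => w k * (r / 2) ^ k.natAbs) ∧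
      (∑' k : ℤ, w k * (r / 2) ^ k.natAbs) ≤ ∑' k : ℤ, w k * r ^ k.natAbs := by
    intro w hw hs
    have hle : ∀ k : ℤ, w k * (r / 2) ^ k.natAbs ≤ w k * r ^ k.natAbs := fun k =>
      mul_le_mul_of_nonneg_left (pow_le_pow_left₀ (by linarith) (by linarith) _) (hw k)
    have hs' : Summable fun k : ℤ => w k * (r / 2) ^ k.natAbs :=
      Summable.of_nonneg_of_le (fun k => mul_nonneg (hw k) (pow_nonneg (by linarith) _)) hle hs
    exact ⟨hs', Summable.tsum_le_tsum hle hs' hs⟩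
  obtain ⟨hs2, hs2'⟩ := half h.s_nn h.ssum
  obtain ⟨ht2, ht2'⟩ := half h'.s_nn h'.ssum
  obtain ⟨a1, a2, a3⟩ := conv_w hr1 h.s_nn h'.s_nn h.ssum h'.ssum
  obtain ⟨b1, b2, b3⟩ := conv_w hh h.s_nn h'.l_nn hs2 h'.lsum
  obtain ⟨d1, d2, d3⟩ := conv_w hh h.l_nn h'.s_nn h.lsum ht2
  have hA : 0 ≤ ∑' k : ℤ, s k * r ^ k.natAbs :=
    tsum_nonneg fun k => mul_nonneg (h.s_nn k) (pow_nonneg hr0 _)
  have hA' : 0 ≤ ∑' k : ℤ, s' k * r ^ k.natAbs :=
    tsum_nonneg fun k => mul_nonneg (h'.s_nn k) (pow_nonneg hr0 _)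
  have hB : 0 ≤ ∑' k : ℤ, l k * (r / 2) ^ k.natAbs :=
    tsum_nonneg fun k => mul_nonneg (h.l_nn k) (pow_nonneg (by linarith) _)
  have hB' : 0 ≤ ∑' k : ℤ, l' k * (r / 2) ^ k.natAbs :=
    tsum_nonneg fun k => mul_nonneg (h'.l_nn k) (pow_nonneg (by linarith) _)
  have hcs : ∀ ω ∈ D, ∀ ω' ∈ D, ∀ n : ℤ, Summable fun k => c k ω * c' (n - k) ω' := by
    intro ω hω ω' hω' n
    refine Summable.of_norm_bounded (a1 n) fun k => ?_
    rw [norm_mul]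
    exact mul_le_mul (h.sup k ω hω) (h'.sup _ ω' hω') (norm_nonneg _) (h.s_nn k)
  refine ⟨fun n ω => ∑' k, c k ω * c' (n - k) ω, fun n => ∑' k, s k * s' (n - k),
    fun n => (∑' k, s k * l' (n - k)) + ∑' k, l k * s' (n - k), ?_⟩
  constructor
  · exact fun n => tsum_nonneg fun k => mul_nonneg (h.s_nn k) (h'.s_nn _)
  · exact fun n => add_nonneg (tsum_nonneg fun k => mul_nonneg (h.s_nn k) (h'.l_nn _))
      (tsum_nonneg fun k => mul_nonneg (h.l_nn k) (h'.s_nn _))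
  · intro n ω hω
    refine tsum_of_norm_bounded (a1 n).hasSum fun k => ?_
    rw [norm_mul]
    exact mul_le_mul (h.sup k ω hω) (h'.sup _ ω hω) (norm_nonneg _) (h.s_nn k)
  · intro n ω hω ω' hω'
    rw [← Summable.tsum_sub (hcs ω hω ω hω n) (hcs ω' hω' ω' hω' n)]
    have hsum : HasSum (fun k => (s k * l' (n - k) + l k * s' (n - k)) * |ω - ω'|)
        (((∑' k, s k * l' (n - k)) + ∑' k, l k * s' (n - k)) * |ω - ω'|) :=
      ((b1 n).hasSum.add (d1 n).hasSum).mul_right _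
    refine tsum_of_norm_bounded hsum fun k => ?_
    have e : c k ω * c' (n - k) ω - c k ω' * c' (n - k) ω' =
        c k ω * (c' (n - k) ω - c' (n - k) ω') + (c k ω - c k ω') * c' (n - k) ω' := by ring
    rw [e]
    refine (norm_add_le _ _).trans ?_
    rw [norm_mul, norm_mul]
    have i1 : ‖c k ω‖ * ‖c' (n - k) ω - c' (n - k) ω'‖ ≤ s k * (l' (n - k) * |ω - ω'|) :=
      mul_le_mul (h.sup k ω hω) (h'.lip _ ω hω ω' hω') (norm_nonneg _) (h.s_nn k)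
    have i2 : ‖c k ω - c k ω'‖ * ‖c' (n - k) ω'‖ ≤ (l k * |ω - ω'|) * s' (n - k) :=
      mul_le_mul (h.lip k ω hω ω' hω') (h'.sup _ ω' hω') (norm_nonneg _)
        (mul_nonneg (h.l_nn k) (abs_nonneg _))
    calc _ ≤ s k * (l' (n - k) * |ω - ω'|) + (l k * |ω - ω'|) * s' (n - k) := add_le_add i1 i2
      _ = _ := by ring
  · exact a2
  · have : (fun n : ℤ => ((∑' k, s k * l' (n - k)) + ∑' k, l k * s' (n - k)) * (r / 2) ^ n.natAbs) =
        fun n : ℤ => (∑' k, s k * l' (n - k)) * (r / 2) ^ n.natAbs +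
          (∑' k, l k * s' (n - k)) * (r / 2) ^ n.natAbs := by
      funext n
      ring
    rw [this]
    exact b2.add d2
  · have e : (∑' n : ℤ, ((∑' k, s k * l' (n - k)) + ∑' k, l k * s' (n - k)) * (r / 2) ^ n.natAbs) =
        (∑' n : ℤ, (∑' k, s k * l' (n - k)) * (r / 2) ^ n.natAbs) +
          ∑' n : ℤ, (∑' k, l k * s' (n - k)) * (r / 2) ^ n.natAbs := by
      rw [← Summable.tsum_add b2 d2]
      refine tsum_congr fun n => ?_
      ring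
    rw [e]
    have hM := h.le
    have hN := h'.le
    set A := ∑' k : ℤ, s k * r ^ k.natAbs
    set A' := ∑' k : ℤ, s' k * r ^ k.natAbs
    set B := ∑' k : ℤ, l k * (r / 2) ^ k.natAbs
    set B' := ∑' k : ℤ, l' k * (r / 2) ^ k.natAbs
    have j1 := b3.trans (mul_le_mul_of_nonneg_right hs2' hB')
    have j2 := d3.trans (mul_le_mul_of_nonneg_left ht2' hB)
    have j3 := mul_le_mul_of_nonneg_left (add_le_add j1 j2) hτ
    have hN0 : 0 ≤ A' + τ * B' := add_nonneg hA' (mul_nonneg hτ hB')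
    have hM0 : 0 ≤ M := (add_nonneg hA (mul_nonneg hτ hB)).trans hM
    have j4 : (A + τ * B) * (A' + τ * B') ≤ M * N := mul_le_mul hM hN hN0 hM0
    have j5 : 0 ≤ τ * B * (τ * B') := mul_nonneg (mul_nonneg hτ hB) (mul_nonneg hτ hB')
    calc _ ≤ A * A' + τ * (A * B' + B * A') := add_le_add a3 j3
      _ ≤ (A + τ * B) * (A' + τ * B') := by linarith
      _ ≤ M * N := j4
  · intro ω hω θ
    have hu : Summable fun k : ℤ => ‖c k ω * ee (k * θ)‖ := by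
      refine Summable.of_nonneg_of_le (fun k => norm_nonneg _) (fun k => ?_) (cv_sum hr1 h.s_nn h.ssum)
      rw [norm_mul, ee_norm, mul_one]
      exact h.sup k ω hω
    have hv : Summable fun k : ℤ => ‖c' k ω * ee (k * θ)‖ := by
      refine Summable.of_nonneg_of_le (fun k => norm_nonneg _) (fun k => ?_) (cv_sum hr1 h'.s_nn h'.ssum)
      rw [norm_mul, ee_norm, mul_one]
      exact h'.sup k ω hω
    obtain ⟨-, q2⟩ := conv_all hu hv
    rw [(h.rep ω hω θ).tsum_eq, (h'.rep ω hω θ).tsum_eq] at q2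
    have e1 : ((((f * g) ω θ : ℝ)) : ℂ) = ((f ω θ : ℝ) : ℂ) * ((g ω θ : ℝ) : ℂ) := by
      rw [← Complex.ofReal_mul]
      rfl
    rw [e1]
    refine q2.congr_fun ?_
    intro n
    rw [← tsum_mul_right]
    refine tsum_congr fun k => ?_
    have e2 : ee ((n : ℝ) * θ) = ee ((k : ℝ) * θ) * ee (((n - k : ℤ) : ℝ) * θ) := by
      rw [← ee_add]
      congr 1
      push_cast
      ring
    rw [e2]
    ring

theorem Bd.pow (hτ : 0 ≤ τ) (hr : 2 ≤ r) (h : Bd D τ r f M) (n : ℕ) :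
    Bd D τ r (f ^ n) (M ^ n) := by
  induction n with
  | zero =>
    have h1 : Bd D τ r (kk 1) |(1 : ℝ)| := Bd.ofConst 1
    rw [abs_one] at h1
    rw [pow_zero, pow_zero]
    exact h1
  | succ n ih =>
    rw [pow_succ, pow_succ]
    exact Bd.mul hτ hr ih h

end Pool.Agent.MP31f1e8.KM
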