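import Pool.Agent.Lib.MP_31f1e8_mp.KM.DefsH
import Pool.Agent.Lib.MP_31f1e8_mp.KM.Mul
import Pool.Agent.Lib.MP_31f1e8_mp.KM.Tsum
import Pool.Agent.Lib.MP_31f1e8_mp.KM.Shift

/-!
The generating function on the algebra `Bd`: bounds of the derivatives (F1, F3, F4).

Numbers used (all `m : ℕ`): `m (1/8)^(m-1) ≤ 1`, `m (1/4)^(m-1) ≤ 1`, `m ((m-1) (1/8)^(m-1-1)) ≤ 2`,
`m ((m-1) (1/4)^(m-1-1)) ≤ 2` (natural subtraction; e.g. from `m ≤ 2^(m-1)`, `m (m-1) ≤ 2 * 4^(m-2)`).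
`ser`: if for all `p` the function `P p` has norm `≤ |a p| * B` then `∑' p, P p` has norm
`≤ (∑' |a p|) * B`: `Bd.tsum` with `Summable.mul_right`.
Each term of `h1 H S (T S)` is `kk (H p) * (kk p.1 * S ^ (p.1-1)) * (T S) ^ p.2` with norm
`≤ |H p| * (p.1 (1/8)^(p.1-1)) * (1/4)^p.2 ≤ |H p|` (`Bd.smul`/`Bd.ofConst`, `Bd.mul`, `Bd.pow`, `Bd.shT`:
`T S` has norm `≤ 1/4`); the same for the other ones; `Ti S` has norm `≤ 1/4`.
-/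

namespace Pool.Agent.MP31f1e8.KM

variable {D : Set ℝ} {τ r : ℝ} {H : ℕ × ℕ → ℝ} {S X Y : ℝ → ℝ → ℝ}

private theorem hfa_le (m : ℕ) : (m : ℝ) ≤ 2 ^ (m - 1) := by
  induction m with
  | zero => norm_num
  | succ n ih =>
    rcases n with _ | n
    · norm_num
    · rw [show n + 1 + 1 - 1 = n + 1 by omega]
      rw [show n + 1 - 1 = n by omega] at ih
      have h1 : (1 : ℝ) ≤ 2 ^ n := one_le_pow₀ (by norm_num)
      have h2 : (2 : ℝ) ^ (n + 1) = 2 ^ n + 2 ^ n := by rw [pow_succ]; ring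
      rw [h2]
      push_cast at ih ⊢
      linarith

private theorem hfa_quarter (n : ℕ) : (2 : ℝ) ^ n * (1 / 4) ^ n ≤ 1 := by
  rw [← mul_pow]
  exact pow_le_one₀ (by norm_num) (by norm_num)

private theorem hfa_eighth (n : ℕ) : (1 / 8 : ℝ) ^ n ≤ (1 / 4) ^ n :=
  pow_le_pow_left₀ (by norm_num) (by norm_num) n

theorem num1' (m : ℕ) : (m : ℝ) * (1 / 4) ^ (m - 1) ≤ 1 :=
  (mul_le_mul_of_nonneg_right (hfa_le m) (by positivity)).trans (hfa_quarter _)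

theorem num1 (m : ℕ) : (m : ℝ) * (1 / 8) ^ (m - 1) ≤ 1 :=
  (mul_le_mul_of_nonneg_left (hfa_eighth _) (Nat.cast_nonneg m)).trans (num1' m)

theorem num2' (m : ℕ) : (m : ℝ) * ((m - 1 : ℕ) * (1 / 4) ^ (m - 1 - 1)) ≤ 2 := by
  rcases m with _ | _ | j
  · norm_num
  · norm_num
  · rw [show j + 1 + 1 - 1 = j + 1 by omega, show j + 1 - 1 = j by omega]
    have h1 := hfa_le (j + 1 + 1)
    have h2 := hfa_le (j + 1)
    rw [show j + 1 + 1 - 1 = j + 1 by omega] at h1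
    rw [show j + 1 - 1 = j by omega] at h2
    have h3 : (0 : ℝ) ≤ (1 / 4) ^ j := by positivity
    have h4 := hfa_quarter j
    have h5 : (2 : ℝ) ^ j * (2 ^ j * (1 / 4) ^ j) = 1 := by
      rw [← mul_assoc, ← mul_pow, ← mul_pow]
      norm_num
    calc ((j + 1 + 1 : ℕ) : ℝ) * (((j + 1 : ℕ) : ℝ) * (1 / 4) ^ j)
        ≤ 2 ^ (j + 1) * (2 ^ j * (1 / 4) ^ j) :=
          mul_le_mul h1 (mul_le_mul_of_nonneg_right h2 h3) (by positivity) (by positivity)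
      _ = 2 * (2 ^ j * (2 ^ j * (1 / 4) ^ j)) := by rw [pow_succ]; ring
      _ = 2 := by rw [h5, mul_one]
      _ ≤ 2 := le_refl _

theorem num2 (m : ℕ) : (m : ℝ) * ((m - 1 : ℕ) * (1 / 8) ^ (m - 1 - 1)) ≤ 2 :=
  (mul_le_mul_of_nonneg_left (mul_le_mul_of_nonneg_left (hfa_eighth _) (Nat.cast_nonneg _))
    (Nat.cast_nonneg m)).trans (num2' m)

private theorem hfa_ser (hτ : 0 < τ) (hr : 2 ≤ r) (hH : Summable fun p => |H p|) (B : ℝ)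
    {P : ℕ × ℕ → ℝ → ℝ → ℝ} (hP : ∀ p, Bd D τ r (P p) (|H p| * B)) :
    Bd D τ r (fun ω θ => ∑' p, P p ω θ) (B * ∑' p, |H p|) := by
  have h1 := Bd.tsum hτ hr hP (hH.mul_right B)
  rwa [tsum_mul_right, mul_comm] at h1

private theorem hfa_p0 (hτ : 0 < τ) (hr : 2 ≤ r) (hX : Bd D τ r X (1 / 4)) (m : ℕ) :
    Bd D τ r (X ^ m) 1 :=
  (Bd.pow hτ.le hr hX m).mono (pow_le_one₀ (by norm_num) (by norm_num))

private theorem hfa_p1 (hτ : 0 < τ) (hr : 2 ≤ r) (hX : Bd D τ r X (1 / 4)) (m : ℕ) :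
    Bd D τ r (kk m * X ^ (m - 1)) 1 := by
  have h1 := Bd.smul (m : ℝ) (Bd.pow hτ.le hr hX (m - 1))
  rw [Nat.abs_cast] at h1
  exact h1.mono (num1' m)

private theorem hfa_p2 (hτ : 0 < τ) (hr : 2 ≤ r) (hX : Bd D τ r X (1 / 4)) (m : ℕ) :
    Bd D τ r (kk m * (kk (m - 1 : ℕ) * X ^ (m - 1 - 1))) 2 := by
  have h1 := Bd.smul (m : ℝ) (Bd.smul ((m - 1 : ℕ) : ℝ) (Bd.pow hτ.le hr hX (m - 1 - 1)))
  rw [Nat.abs_cast, Nat.abs_cast] at h1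
  exact h1.mono (num2' m)

private theorem hfa_term (hτ : 0 < τ) (hr : 2 ≤ r) {f g : ℝ → ℝ → ℝ} {a b : ℝ} (hf : Bd D τ r f a)
    (hg : Bd D τ r g b) (c : ℝ) : Bd D τ r (kk c * f * g) (|c| * (a * b)) := by
  have h1 := Bd.mul hτ.le hr (Bd.smul c hf) hg
  rwa [mul_assoc |c|] at h1

theorem bd_h1 (hτ : 0 < τ) (hr : 2 ≤ r) (hH : Summable fun p => |H p|)
    (hX : Bd D τ r X (1 / 4)) (hY : Bd D τ r Y (1 / 4)) :
    Bd D τ r (fun ω θ => h1 H (X ω θ) (Y ω θ)) (∑' p, |H p|) := by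
  have h := hfa_ser hτ hr hH (1 * 1) (fun p => hfa_term hτ hr (hfa_p1 hτ hr hX p.1)
    (hfa_p0 hτ hr hY p.2) (H p))
  rw [mul_one, one_mul] at h
  exact h

theorem bd_h2 (hτ : 0 < τ) (hr : 2 ≤ r) (hH : Summable fun p => |H p|)
    (hX : Bd D τ r X (1 / 4)) (hY : Bd D τ r Y (1 / 4)) :
    Bd D τ r (fun ω θ => h2 H (X ω θ) (Y ω θ)) (∑' p, |H p|) := by
  have h := hfa_ser hτ hr hH (1 * 1) (fun p => hfa_term hτ hr (hfa_p0 hτ hr hX p.1)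
    (hfa_p1 hτ hr hY p.2) (H p))
  rw [mul_one, one_mul] at h
  exact h

theorem bd_h11 (hτ : 0 < τ) (hr : 2 ≤ r) (hH : Summable fun p => |H p|)
    (hX : Bd D τ r X (1 / 4)) (hY : Bd D τ r Y (1 / 4)) :
    Bd D τ r (fun ω θ => h11 H (X ω θ) (Y ω θ)) (2 * ∑' p, |H p|) := by
  have h := hfa_ser hτ hr hH (2 * 1) (fun p => hfa_term hτ hr (hfa_p2 hτ hr hX p.1)
    (hfa_p0 hτ hr hY p.2) (H p))
  rw [mul_one] at h
  exact h

theorem bd_h12 (hτ : 0 < τ) (hr : 2 ≤ r) (hH : Summable fun p => |H p|)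
    (hX : Bd D τ r X (1 / 4)) (hY : Bd D τ r Y (1 / 4)) :
    Bd D τ r (fun ω θ => h12 H (X ω θ) (Y ω θ)) (∑' p, |H p|) := by
  have h := hfa_ser hτ hr hH (1 * 1) (fun p => hfa_term hτ hr (hfa_p1 hτ hr hX p.1)
    (hfa_p1 hτ hr hY p.2) (H p))
  rw [mul_one, one_mul] at h
  exact h

theorem bd_h22 (hτ : 0 < τ) (hr : 2 ≤ r) (hH : Summable fun p => |H p|)
    (hX : Bd D τ r X (1 / 4)) (hY : Bd D τ r Y (1 / 4)) :
    Bd D τ r (fun ω θ => h22 H (X ω θ) (Y ω θ)) (2 * ∑' p, |H p|) := by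
  have h := hfa_ser hτ hr hH (1 * 2) (fun p => hfa_term hτ hr (hfa_p0 hτ hr hX p.1)
    (hfa_p2 hτ hr hY p.2) (H p))
  rw [one_mul] at h
  exact h

private theorem hfa_quad (hS : Bd D τ r S (1 / 8)) : Bd D τ r S (1 / 4) := hS.mono (by norm_num)

private theorem hfa_T (hτ : 0 < τ) (hτ' : τ ≤ 1 / 4) (hr : 2 ≤ r) (hS : Bd D τ r S (1 / 8)) :
    Bd D τ r (T S) (1 / 4) := (Bd.shT hτ.le hτ' hr hS).mono (by norm_num)

private theorem hfa_Ti (hτ : 0 < τ) (hτ' : τ ≤ 1 / 4) (hr : 2 ≤ r) (hS : Bd D τ r S (1 / 8)) :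
    Bd D τ r (Ti S) (1 / 4) := (Bd.shTi hτ.le hτ' hr hS).mono (by norm_num)

theorem EE_F1 {cc : ℝ} (hτ : 0 < τ) (hτ' : τ ≤ 1 / 4) (hr : 2 ≤ r) (hH : Summable fun p => |H p|)
    (hS : Bd D τ r S (1 / 8)) : Bd D τ r (EE cc H S - hen cc S) (4 * ∑' p, |H p|) := by
  have hs : 0 ≤ ∑' p, |H p| := tsum_nonneg fun p => abs_nonneg _
  have a := bd_h1 hτ hr hH (hfa_quad hS) (hfa_T hτ hτ' hr hS)
  have b := bd_h2 hτ hr hH (hfa_Ti hτ hτ' hr hS) (hfa_quad hS)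
  have c := ((Bd.add (by linarith) a b).neg).mono (N := 4 * ∑' p, |H p|) (by linarith)
  convert c using 1
  funext ω θ
  change EE cc H S ω θ - hen cc S ω θ = -(h1 H (S ω θ) (T S ω θ) + h2 H (Ti S ω θ) (S ω θ))
  change (hen cc S ω θ - (h1 H (S ω θ) (S ω (θ + ω)) + h2 H (S ω (θ - ω)) (S ω θ))) - hen cc S ω θ =
    -(h1 H (S ω θ) (S ω (θ + ω)) + h2 H (S ω (θ - ω)) (S ω θ))
  ring

theorem EE_F3 (hτ : 0 < τ) (hτ' : τ ≤ 1 / 4) (hr : 2 ≤ r) (hH : Summable fun p => |H p|)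
    (hS : Bd D τ r S (1 / 8)) : Bd D τ r (al H S - kk 1) (4 * ∑' p, |H p|) := by
  have hs : 0 ≤ ∑' p, |H p| := tsum_nonneg fun p => abs_nonneg _
  have a := bd_h12 hτ hr hH (hfa_quad hS) (hfa_T hτ hτ' hr hS)
  have c := (a.neg).mono (N := 4 * ∑' p, |H p|) (by linarith)
  convert c using 1
  funext ω θ
  change (1 - h12 H (S ω θ) (S ω (θ + ω))) - 1 = -(h12 H (S ω θ) (S ω (θ + ω)))
  ring

theorem EE_F4 {cc : ℝ} (hτ : 0 < τ) (hτ' : τ ≤ 1 / 4) (hr : 2 ≤ r) (hH : Summable fun p => |H p|)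
    (hS : Bd D τ r S (1 / 8)) :
    Bd D τ r (ka cc H S - kk (2 * cc) - kk 2 * S) (4 * ∑' p, |H p|) := by
  have a := bd_h11 hτ hr hH (hfa_quad hS) (hfa_T hτ hτ' hr hS)
  have b := bd_h22 hτ hr hH (hfa_Ti hτ hτ' hr hS) (hfa_quad hS)
  have c := (Bd.add (by linarith) a b).mono (N := 4 * ∑' p, |H p|) (by linarith)
  convert c using 1
  funext ω θ
  change (2 * cc + 2 * S ω θ + h11 H (S ω θ) (S ω (θ + ω)) + h22 H (S ω (θ - ω)) (S ω θ)) - 2 * cc -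
    2 * S ω θ = h11 H (S ω θ) (S ω (θ + ω)) + h22 H (S ω (θ - ω)) (S ω θ)
  ring

end Pool.Agent.MP31f1e8.KM
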