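import Pool.Agent.Lib.MP_31f1e8_mp.KM.HFa

/-!
The quadratic remainder of the functional `EE` (F2).

`pow_d1`, `pow_d2`: in the algebra, for `‖x‖, ‖x+v‖ ≤ R`, `‖v‖ ≤ M` : induction on `m`:
`(x+v)^(m+1) - x^(m+1) = ((x+v)^m - x^m)(x+v) + x^m v`;
`(x+v)^(m+1) - x^(m+1) - (m+1) x^m v = ((x+v)^m - x^m - m x^(m-1) v)(x+v) + m x^(m-1) v v`
(check: the last term is `m x^(m-1) v (x+v) - m x^m v`), so the constants satisfy
`c_(m+1) = R c_m + m R^(m-1) M^2`, fulfilled by `c_m = m (m-1) R^(m-2) M^2` (slack).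
`EE_F2`. With `x = S`, `y = T S`, `w = T v` (norm `≤ 2M`), for the monomial `a(x) b(y)`,
`a = j x^(j-1)`, `b = y^k`:
`a(x+v) b(y+w) - a b - a' v b - a b' w = [a(x+v) - a - a' v] b(y+w) + a [b(y+w) - b - b' w] + a' v [b(y+w) - b]`
(`a' = j (j-1) x^(j-2)`, `b' = k y^(k-1)`). Norms with `R = 1/4` for all of `x, x+v, y, y+w`:
`j (j-1)(j-2) 4^(3-j) ≤ 6`, `j 4^(1-j) ≤ 1`, `k(k-1) 4^(2-k) ≤ 2`, `j (j-1) 4^(2-j) ≤ 2`, `k 4^(1-k) ≤ 1`:
the total is `≤ |H p| (6 M² + 2 (2M)² + 2 M (2M)) ≤ 20 |H p| M²`. The same for `h2 H (Ti S) S`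
(`Ti v` has norm `≤ 2M`). So `EE (S+v) - EE S - (...) = - v v - ∑' p (remainders)`, norm
`≤ M² + 40 η M² ≤ 2 M²` (`η = ∑' |H p| ≤ 1/100`). The pointwise identity: all `tsum`s converge absolutely
(`Bd.summable`), `Summable.tsum_add`, `tsum_sub`, `tsum_mul_left`; `T (S+v) = T S + T v` by `rfl`.
-/

namespace Pool.Agent.MP31f1e8.KM

variable {D : Set ℝ} {τ r R M : ℝ} {H : ℕ × ℕ → ℝ} {S v x : ℝ → ℝ → ℝ}

private theorem hfb_zero : Bd D τ r (0 : ℝ → ℝ → ℝ) 0 := by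
  have h := Bd.ofConst (D := D) (τ := τ) (r := r) 0
  rw [abs_zero] at h
  exact h

theorem pow_d1 (hτ : 0 ≤ τ) (hr : 2 ≤ r) (hR : 0 ≤ R) (hx : Bd D τ r x R)
    (hxv : Bd D τ r (x + v) R) (hv : Bd D τ r v M) (m : ℕ) :
    Bd D τ r ((x + v) ^ m - x ^ m) (m * R ^ (m - 1) * M) := by
  have hr0 : 0 ≤ r := by linarith
  induction m with
  | zero =>
    have e : (x + v) ^ 0 - x ^ 0 = (0 : ℝ → ℝ → ℝ) := by
      rw [pow_zero, pow_zero, sub_self]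
    rw [e]
    have e2 : ((0 : ℕ) : ℝ) * R ^ (0 - 1) * M = 0 := by simp
    rw [e2]
    exact hfb_zero
  | succ m ih =>
    have e : (x + v) ^ (m + 1) - x ^ (m + 1) =
        ((x + v) ^ m - x ^ m) * (x + v) + x ^ m * v := by ring
    rw [e]
    refine (Bd.add hr0 (Bd.mul hτ hr ih hxv) (Bd.mul hτ hr (Bd.pow hτ hr hx m) hv)).mono ?_
    rcases m with _ | m
    · simp
    · have e2 : m + 1 - 1 = m := by omega
      have e3 : m + 1 + 1 - 1 = m + 1 := by omega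
      rw [e2, e3]
      push_cast
      apply le_of_eq
      ring

theorem pow_d2 (hτ : 0 ≤ τ) (hr : 2 ≤ r) (hR : 0 ≤ R) (hx : Bd D τ r x R)
    (hxv : Bd D τ r (x + v) R) (hv : Bd D τ r v M) (m : ℕ) :
    Bd D τ r ((x + v) ^ m - x ^ m - kk m * x ^ (m - 1) * v)
      (m * ((m - 1 : ℕ) * R ^ (m - 1 - 1)) * M ^ 2) := by
  have hr0 : 0 ≤ r := by linarith
  induction m with
  | zero =>
    have e : (x + v) ^ 0 - x ^ 0 - kk ((0 : ℕ) : ℝ) * x ^ (0 - 1) * v = (0 : ℝ → ℝ → ℝ) := by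
      have e1 : kk ((0 : ℕ) : ℝ) = (0 : ℝ → ℝ → ℝ) := by
        funext ω θ
        simp [kk]
      rw [pow_zero, pow_zero, sub_self, e1, zero_mul, zero_mul, sub_zero]
    rw [e]
    have e2 : ((0 : ℕ) : ℝ) * (((0 - 1 : ℕ) : ℝ) * R ^ (0 - 1 - 1)) * M ^ 2 = 0 := by simp
    rw [e2]
    exact hfb_zero
  | succ m ih =>
    rcases m with _ | m
    · have e : (x + v) ^ (0 + 1) - x ^ (0 + 1) - kk ((0 + 1 : ℕ) : ℝ) * x ^ (0 + 1 - 1) * v =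
          (0 : ℝ → ℝ → ℝ) := by
        have e1 : kk ((0 + 1 : ℕ) : ℝ) = (1 : ℝ → ℝ → ℝ) := by
          funext ω θ
          simp [kk]
        rw [e1]
        simp
      rw [e]
      have e2 : ((0 + 1 : ℕ) : ℝ) * (((0 + 1 - 1 : ℕ) : ℝ) * R ^ (0 + 1 - 1 - 1)) * M ^ 2 = 0 := by
        simp
      rw [e2]
      exact hfb_zero
    · have k1 : m + 1 - 1 = m := by omega
      have k2 : m + 1 + 1 - 1 = m + 1 := by omega
      rw [k1] at ih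
      rw [k2, k1]
      have ek : kk ((m + 1 + 1 : ℕ) : ℝ) = kk ((m + 1 : ℕ) : ℝ) + (1 : ℝ → ℝ → ℝ) := by
        funext ω θ
        simp [kk]
      have e : (x + v) ^ (m + 1 + 1) - x ^ (m + 1 + 1) - kk ((m + 1 + 1 : ℕ) : ℝ) * x ^ (m + 1) * v =
          ((x + v) ^ (m + 1) - x ^ (m + 1) - kk ((m + 1 : ℕ) : ℝ) * x ^ m * v) * (x + v) +
            kk ((m + 1 : ℕ) : ℝ) * (x ^ m * (v * v)) := by
        rw [ek]
        ring
      rw [e]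
      refine (Bd.add hr0 (Bd.mul hτ hr ih hxv)
        (Bd.smul _ (Bd.mul hτ hr (Bd.pow hτ hr hx m) (Bd.mul hτ hr hv hv)))).mono ?_
      have h1 : (0 : ℝ) ≤ m + 1 := by positivity
      rw [abs_of_nonneg (by positivity)]
      push_cast
      have h2 : 0 ≤ R ^ m * M ^ 2 := mul_nonneg (pow_nonneg hR m) (sq_nonneg M)
      rcases m with _ | m
      · simp only [Nat.cast_zero, pow_zero]
        nlinarith [sq_nonneg M]
      · have k3 : m + 1 - 1 = m := by omega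
        rw [k3]
        have e4 : R ^ (m + 1) = R ^ m * R := pow_succ R m
        have h3 : 0 ≤ R ^ (m + 1) * M ^ 2 * (m + 2) := by positivity
        push_cast
        have e5 : (((m : ℝ) + 1 + 1) * (((m : ℝ) + 1) * R ^ m) * M ^ 2) * R =
            ((m : ℝ) + 1 + 1) * ((m : ℝ) + 1) * (R ^ (m + 1) * M ^ 2) := by
          rw [e4]; ring
        rw [e5]
        nlinarith [h3]

private theorem hfb_num3 (m : ℕ) :
    (m : ℝ) * ((m - 1 : ℕ) * ((m - 1 - 1 : ℕ) * (1 / 4 : ℝ) ^ (m - 1 - 1 - 1))) ≤ 6 := by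
  rcases m with _ | _ | _ | n
  · norm_num
  · norm_num
  · norm_num
  · have k1 : n + 1 + 1 + 1 - 1 = n + 2 := by omega
    have k2 : n + 2 - 1 = n + 1 := by omega
    have k3 : n + 1 - 1 = n := by omega
    rw [k1, k2, k3]
    have key : ∀ k : ℕ, ((k : ℝ) + 3) * (((k : ℝ) + 2) * (((k : ℝ) + 1) * (1 / 4 : ℝ) ^ k)) ≤ 6 := by
      intro k
      induction k with
      | zero => norm_num
      | succ k ih =>
        refine le_trans ?_ ih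
        have hk : (0 : ℝ) ≤ k := Nat.cast_nonneg k
        have h4 : (0 : ℝ) < (1 / 4 : ℝ) ^ k := by positivity
        rw [pow_succ]
        push_cast
        have e : ((k : ℝ) + 1 + 3) * (((k : ℝ) + 1 + 2) * (((k : ℝ) + 1 + 1) * ((1 / 4 : ℝ) ^ k * (1 / 4)))) =
          ((k : ℝ) + 3) * ((k : ℝ) + 2) * (1 / 4 : ℝ) ^ k * (((k : ℝ) + 4) / 4) := by ring
        have e' : ((k : ℝ) + 3) * (((k : ℝ) + 2) * (((k : ℝ) + 1) * (1 / 4 : ℝ) ^ k)) =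
          ((k : ℝ) + 3) * ((k : ℝ) + 2) * (1 / 4 : ℝ) ^ k * ((k : ℝ) + 1) := by ring
        rw [e, e']
        refine mul_le_mul_of_nonneg_left (by linarith) (by positivity)
    have h := key n
    push_cast
    have e : ((n : ℝ) + 1 + 1 + 1) * (((n : ℝ) + 2) * (((n : ℝ) + 1) * (1 / 4 : ℝ) ^ n)) =
      ((n : ℝ) + 3) * (((n : ℝ) + 2) * (((n : ℝ) + 1) * (1 / 4 : ℝ) ^ n)) := by ring
    linarith

private theorem hfb_p0 {t : ℝ} (ht : |t| ≤ 1 / 4) (m : ℕ) : |t ^ m| ≤ 1 := by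
  rw [abs_pow]
  exact pow_le_one₀ (abs_nonneg t) (by linarith)

private theorem hfb_p1 {t : ℝ} (ht : |t| ≤ 1 / 4) (m : ℕ) : |(m : ℝ) * t ^ (m - 1)| ≤ 1 := by
  rw [abs_mul, abs_pow, Nat.abs_cast]
  refine le_trans ?_ (num1' m)
  exact mul_le_mul_of_nonneg_left (pow_le_pow_left₀ (abs_nonneg t) ht _) (Nat.cast_nonneg m)

private theorem hfb_p2 {t : ℝ} (ht : |t| ≤ 1 / 4) (m : ℕ) :
    |(m : ℝ) * ((m - 1 : ℕ) * t ^ (m - 1 - 1))| ≤ 2 := by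
  rw [abs_mul, abs_mul, abs_pow, Nat.abs_cast, Nat.abs_cast]
  refine le_trans ?_ (num2' m)
  exact mul_le_mul_of_nonneg_left (mul_le_mul_of_nonneg_left
    (pow_le_pow_left₀ (abs_nonneg t) ht _) (Nat.cast_nonneg _)) (Nat.cast_nonneg m)

private theorem hfb_sum (hH : Summable fun p => |H p|) (u w : ℕ × ℕ → ℝ) (A B : ℝ)
    (hu : ∀ p, |u p| ≤ A) (hw : ∀ p, |w p| ≤ B) : Summable fun p => H p * u p * w p := by
  refine Summable.of_norm_bounded ((hH.mul_right A).mul_right B) fun p => ?_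
  rw [Real.norm_eq_abs, abs_mul, abs_mul]
  have hA : 0 ≤ A := (abs_nonneg _).trans (hu p)
  exact mul_le_mul (mul_le_mul_of_nonneg_left (hu p) (abs_nonneg _)) (hw p) (abs_nonneg _)
    (mul_nonneg (abs_nonneg _) hA)

private theorem hfb_rem1 (hτ : 0 < τ) (hr : 2 ≤ r) (hH : Summable fun p => |H p|)
    {x y v w : ℝ → ℝ → ℝ} {A B : ℝ} (hx : Bd D τ r x (1 / 4)) (hxv : Bd D τ r (x + v) (1 / 4))
    (hy : Bd D τ r y (1 / 4)) (hyw : Bd D τ r (y + w) (1 / 4)) (hv : Bd D τ r v A)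
    (hw : Bd D τ r w B) :
    Bd D τ r (fun ω θ => h1 H ((x + v) ω θ) ((y + w) ω θ) - h1 H (x ω θ) (y ω θ) -
      h11 H (x ω θ) (y ω θ) * v ω θ - h12 H (x ω θ) (y ω θ) * w ω θ)
      ((∑' p, |H p|) * (6 * A ^ 2 + 2 * B ^ 2 + 2 * A * B)) := by
  have hτ0 : 0 ≤ τ := hτ.le
  have hr0 : 0 ≤ r := by linarith
  have hr1 : 1 ≤ r := by linarith
  have hR : (0 : ℝ) ≤ 1 / 4 := by norm_num
  have hA : 0 ≤ A := hv.nonneg hτ0 hr0
  have hB : 0 ≤ B := hw.nonneg hτ0 hr0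
  -- the terms
  have hterm : ∀ p : ℕ × ℕ, Bd D τ r (fun ω θ =>
      H p * (p.1 * (x + v) ω θ ^ (p.1 - 1)) * (y + w) ω θ ^ p.2 -
      H p * (p.1 * x ω θ ^ (p.1 - 1)) * y ω θ ^ p.2 -
      H p * (p.1 * ((p.1 - 1 : ℕ) * x ω θ ^ (p.1 - 1 - 1))) * y ω θ ^ p.2 * v ω θ -
      H p * (p.1 * x ω θ ^ (p.1 - 1)) * (p.2 * y ω θ ^ (p.2 - 1)) * w ω θ)
      (|H p| * (6 * A ^ 2 + 2 * B ^ 2 + 2 * A * B)) := by
    rintro ⟨j, k⟩
    have a1 := pow_d2 hτ0 hr hR hx hxv hv (j - 1)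
    have a2 := Bd.smul (j : ℝ) a1
    have b0 := Bd.pow hτ0 hr hyw k
    have t1 := Bd.mul hτ0 hr a2 b0
    have c0 := Bd.smul (j : ℝ) (Bd.pow hτ0 hr hx (j - 1))
    have c1 := pow_d2 hτ0 hr hR hy hyw hw k
    have t2 := Bd.mul hτ0 hr c0 c1
    have d0 := Bd.smul (j : ℝ) (Bd.smul ((j - 1 : ℕ) : ℝ) (Bd.pow hτ0 hr hx (j - 1 - 1)))
    have d1 := pow_d1 hτ0 hr hR hy hyw hw k
    have t3 := Bd.mul hτ0 hr (Bd.mul hτ0 hr d0 hv) d1
    have t := Bd.smul (H (j, k)) (Bd.add hr0 (Bd.add hr0 t1 t2) t3)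
    refine (t.mono ?_).congr ?_
    · refine mul_le_mul_of_nonneg_left ?_ (abs_nonneg _)
      rw [Nat.abs_cast, Nat.abs_cast]
      have n3 := hfb_num3 j
      have n1 := num1' j
      have n2 := num2' j
      have m2 := num2' k
      have m1 := num1' k
      have m0 : (1 / 4 : ℝ) ^ k ≤ 1 := pow_le_one₀ (by norm_num) (by norm_num)
      have m0' : (0 : ℝ) ≤ (1 / 4 : ℝ) ^ k := by positivity
      have q1 : (j : ℝ) * (((j - 1 : ℕ) : ℝ) * (((j - 1 - 1 : ℕ) : ℝ) * (1 / 4 : ℝ) ^ (j - 1 - 1 - 1)) *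
          A ^ 2) * (1 / 4 : ℝ) ^ k ≤ 6 * A ^ 2 := by
        have e : (j : ℝ) * (((j - 1 : ℕ) : ℝ) * (((j - 1 - 1 : ℕ) : ℝ) * (1 / 4 : ℝ) ^ (j - 1 - 1 - 1)) *
          A ^ 2) = ((j : ℝ) * (((j - 1 : ℕ) : ℝ) * (((j - 1 - 1 : ℕ) : ℝ) *
            (1 / 4 : ℝ) ^ (j - 1 - 1 - 1)))) * A ^ 2 := by ring
        rw [e]
        have i1 := mul_le_mul_of_nonneg_right n3 (sq_nonneg A)
        calc _ ≤ 6 * A ^ 2 * 1 := mul_le_mul i1 m0 m0' (by positivity)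
          _ = _ := mul_one _
      have q2 : (j : ℝ) * (1 / 4 : ℝ) ^ (j - 1) *
          ((k : ℝ) * (((k - 1 : ℕ) : ℝ) * (1 / 4 : ℝ) ^ (k - 1 - 1)) * B ^ 2) ≤ 2 * B ^ 2 := by
        have i1 := mul_le_mul_of_nonneg_right m2 (sq_nonneg B)
        calc _ ≤ 1 * (2 * B ^ 2) := mul_le_mul n1 i1 (by positivity) (by norm_num)
          _ = _ := one_mul _
      have q3 : (j : ℝ) * (((j - 1 : ℕ) : ℝ) * (1 / 4 : ℝ) ^ (j - 1 - 1)) * A *
          ((k : ℝ) * (1 / 4 : ℝ) ^ (k - 1) * B) ≤ 2 * A * B := by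
        have i1 := mul_le_mul_of_nonneg_right n2 hA
        have i2 := mul_le_mul_of_nonneg_right m1 hB
        calc _ ≤ 2 * A * (1 * B) := mul_le_mul i1 i2 (by positivity) (by positivity)
          _ = _ := by ring
      linarith
    · intro ω _ θ
      simp only [Pi.mul_apply, Pi.add_apply, Pi.sub_apply, Pi.pow_apply, kk]
      ring
  have hs := Bd.tsum hτ hr hterm (hH.mul_right _)
  rw [tsum_mul_right] at hs
  refine hs.congr ?_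
  intro ω hω θ
  have bx := hx.abs_le hτ0 hr1 hω θ
  have bxv := hxv.abs_le hτ0 hr1 hω θ
  have by' := hy.abs_le hτ0 hr1 hω θ
  have byw := hyw.abs_le hτ0 hr1 hω θ
  have s1 := hfb_sum hH (fun p => (p.1 : ℝ) * (x + v) ω θ ^ (p.1 - 1)) (fun p => (y + w) ω θ ^ p.2)
    1 1 (fun p => hfb_p1 bxv p.1) (fun p => hfb_p0 byw p.2)
  have s2 := hfb_sum hH (fun p => (p.1 : ℝ) * x ω θ ^ (p.1 - 1)) (fun p => y ω θ ^ p.2)
    1 1 (fun p => hfb_p1 bx p.1) (fun p => hfb_p0 by' p.2)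
  have s3 := hfb_sum hH (fun p => (p.1 : ℝ) * ((p.1 - 1 : ℕ) * x ω θ ^ (p.1 - 1 - 1)))
    (fun p => y ω θ ^ p.2) 2 1 (fun p => hfb_p2 bx p.1) (fun p => hfb_p0 by' p.2)
  have s4 := hfb_sum hH (fun p => (p.1 : ℝ) * x ω θ ^ (p.1 - 1))
    (fun p => (p.2 : ℝ) * y ω θ ^ (p.2 - 1)) 1 1 (fun p => hfb_p1 bx p.1) (fun p => hfb_p1 by' p.2)
  exact (((s1.hasSum.sub s2.hasSum).sub (s3.hasSum.mul_right (v ω θ))).sub
    (s4.hasSum.mul_right (w ω θ))).tsum_eq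

private theorem hfb_sw2 (a b : ℝ) : h2 H a b = h1 (fun p => H p.swap) b a := by
  unfold h2 h1
  rw [← (Equiv.prodComm ℕ ℕ).tsum_eq]
  refine tsum_congr fun p => ?_
  simp only [Equiv.prodComm_apply, Prod.fst_swap, Prod.snd_swap]
  ring

private theorem hfb_sw12 (a b : ℝ) : h12 H a b = h12 (fun p => H p.swap) b a := by
  unfold h12
  rw [← (Equiv.prodComm ℕ ℕ).tsum_eq]
  refine tsum_congr fun p => ?_
  simp only [Equiv.prodComm_apply, Prod.fst_swap, Prod.snd_swap]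
  ring

private theorem hfb_sw22 (a b : ℝ) : h22 H a b = h11 (fun p => H p.swap) b a := by
  unfold h22 h11
  rw [← (Equiv.prodComm ℕ ℕ).tsum_eq]
  refine tsum_congr fun p => ?_
  simp only [Equiv.prodComm_apply, Prod.fst_swap, Prod.snd_swap]
  ring

private theorem hfb_rem2 (hτ : 0 < τ) (hr : 2 ≤ r) (hH : Summable fun p => |H p|)
    {x y v w : ℝ → ℝ → ℝ} {A B : ℝ} (hx : Bd D τ r x (1 / 4)) (hxv : Bd D τ r (x + v) (1 / 4))
    (hy : Bd D τ r y (1 / 4)) (hyw : Bd D τ r (y + w) (1 / 4)) (hv : Bd D τ r v A)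
    (hw : Bd D τ r w B) :
    Bd D τ r (fun ω θ => h2 H ((x + v) ω θ) ((y + w) ω θ) - h2 H (x ω θ) (y ω θ) -
      h22 H (x ω θ) (y ω θ) * w ω θ - h12 H (x ω θ) (y ω θ) * v ω θ)
      ((∑' p, |H p|) * (6 * B ^ 2 + 2 * A ^ 2 + 2 * B * A)) := by
  have hH' : Summable fun p : ℕ × ℕ => |H p.swap| :=
    (Equiv.prodComm ℕ ℕ).summable_iff.2 hH
  have e : (∑' p : ℕ × ℕ, |H p.swap|) = ∑' p, |H p| :=
    (Equiv.prodComm ℕ ℕ).tsum_eq (fun p => |H p|)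
  have h := hfb_rem1 (H := fun p => H p.swap) hτ hr hH' hy hyw hx hxv hw hv
  rw [e] at h
  refine h.congr ?_
  intro ω _ θ
  beta_reduce
  rw [hfb_sw2 (H := H), hfb_sw2 (H := H), hfb_sw22 (H := H),
    hfb_sw12 (H := H) (x ω θ) (y ω θ)]

theorem EE_F2 {cc : ℝ} (hτ : 0 < τ) (hτ' : τ ≤ 1 / 4) (hr : 2 ≤ r) (hH : Summable fun p => |H p|)
    (hH' : ∑' p, |H p| ≤ 1 / 100) (hS : Bd D τ r S (1 / 16)) (hM : M ≤ 1 / 16)
    (hv : Bd D τ r v M) :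
    Bd D τ r (EE cc H (S + v) - EE cc H S -
      (al H S * T v + Ti (al H S * v) - ka cc H S * v)) (2 * M ^ 2) := by
  have hτ0 : 0 ≤ τ := hτ.le
  have hr0 : 0 ≤ r := by linarith
  have hM0 : 0 ≤ M := hv.nonneg hτ0 hr0
  have hSv : Bd D τ r (S + v) (1 / 8) := (Bd.add hr0 hS hv).mono (by linarith)
  have hTS : Bd D τ r (T S) (1 / 4) := (Bd.shT hτ0 hτ' hr hS).mono (by norm_num)
  have hTSv : Bd D τ r (T S + T v) (1 / 4) := by
    have h := (Bd.shT hτ0 hτ' hr hSv).mono (show (2 : ℝ) * (1 / 8) ≤ 1 / 4 by norm_num)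
    exact h
  have hTiS : Bd D τ r (Ti S) (1 / 4) := (Bd.shTi hτ0 hτ' hr hS).mono (by norm_num)
  have hTiSv : Bd D τ r (Ti S + Ti v) (1 / 4) := by
    have h := (Bd.shTi hτ0 hτ' hr hSv).mono (show (2 : ℝ) * (1 / 8) ≤ 1 / 4 by norm_num)
    exact h
  have hTv := Bd.shT hτ0 hτ' hr hv
  have hTiv := Bd.shTi hτ0 hτ' hr hv
  have hS4 : Bd D τ r S (1 / 4) := hS.mono (by norm_num)
  have hSv4 : Bd D τ r (S + v) (1 / 4) := hSv.mono (by norm_num)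
  have R1 := hfb_rem1 hτ hr hH hS4 hSv4 hTS hTSv hv hTv
  have R2 := hfb_rem2 hτ hr hH hTiS hTiSv hS4 hSv4 hTiv hv
  have hvv := Bd.mul hτ0 hr hv hv
  refine ((Bd.sub hr0 (Bd.sub hr0 hvv.neg R1) R2).mono ?_).congr ?_
  · have h0 : 0 ≤ M ^ 2 := sq_nonneg M
    have h1 := mul_le_mul_of_nonneg_right hH' h0
    nlinarith [h1, h0]
  · intro ω _ θ
    have e0 : θ - ω + ω = θ := by ring
    simp only [EE, hen, al, ka, T, Ti, kk, Pi.mul_apply, Pi.add_apply, Pi.sub_apply, Pi.neg_apply,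
      e0]
    ring

end Pool.Agent.MP31f1e8.KM
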