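import Pool.Agent.Lib.MP_31f1e8_mp.KM.HFa
import Pool.Agent.Lib.MP_31f1e8_mp.KM.Avg

/-!
Translation invariance and exactness of the functional `EE` (F5, F6).

For differentiable real functions `x(θ)`, `y(θ)` with `|x|, |y| ≤ 1/4` everywhere:
`(h0 H x y)' = h1 x' + h2 y'`, `(h1 H x y)' = h11 x' + h12 y'`, `(h2 H x y)' = h12 x' + h22 y'` at `θ`. Proof:
`hasDerivAt_tsum` style statement needs a uniform summable bound of the derivatives of the terms; since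
`x'`, `y'` are bounded near `θ`... SIMPLER: prove that `h0 H` etc. have the Frechet derivative at `(x,y)`
by hand: `h1 H` in one variable: `HasDerivAt (fun x => h0 H x y) (h1 H x y) x` by
`hasDerivAt_tsum_of_isPreconnected` on the ball `|x| < 1/2` with bound `|H p|` (`p.1 (1/2)^(p.1-1) ≤ 1`); for the
composition: `h(x(θ),y(θ))`: use `hasDerivAt_tsum_of_isPreconnected` directly with the functions of `θ`
restricted to `univ` and the global bounds `|x'|, |y'| ≤ K` (hypothesis): the terms have the derivative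
`H p (p.1 x^(p.1-1) x' y^p.2 + x^p.1 p.2 y^(p.2-1) y')`, bounded by `2 K |H p|`. In the application
`x = S ω`, `y = S ω (· + ω)` are bounded together with their derivatives (`Bd.abs_le`, `Bd.deriv` with
radius `r/2 ≥ 2`, `δ = 1/2`).
`EE_F5`: `EE` at `θ`: `S(θ+ω) + S(θ-ω) - 2 cc S - S² - h1(S, S⁺) - h2(S⁻, S)`; differentiate; compare with
`al S * S'⁺ + (al S * S')⁻ - ka S * S'` : equal by `ring`.
`EE_F6`: `S' EE S`: average over `[0,1]`. `∫ S'(S⁺ + S⁻) = ∫ (S' S⁺ + (S')⁺ S)` (shift by `ω`, period 1)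
`= ∫ (S S⁺)' = 0`; `∫ S' (2cc S + S²) = ∫ (cc S² + S³/3)' = 0`;
`∫ S' h1(S,S⁺) + S' h2(S⁻,S) = ∫ (S' h1(S,S⁺) + (S')⁺ h2(S,S⁺)) = ∫ (h0(S,S⁺))' = 0`. In one line: let
`G = S S⁺ - h0(S, S⁺) - cc S² - S³/3` (periodic, `C¹`) and `K = S' S⁻ - S' h2(S⁻,S)`; then
`S' EE S = G' + K - K⁺`, `∫ G' = G(1) - G(0) = 0`, `∫ K⁺ = ∫ K`.
-/

namespace Pool.Agent.MP31f1e8.KM

variable {D : Set ℝ} {τ r : ℝ} {H : ℕ × ℕ → ℝ} {S : ℝ → ℝ → ℝ}

private theorem hfc_gen (hH : Summable fun p => |H p|) (A A' B B' : ℕ → ℝ → ℝ)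
    (hA : ∀ n u, HasDerivAt (A n) (A' n u) u) (hB : ∀ n u, HasDerivAt (B n) (B' n u) u)
    (bA : ∀ n u, |u| ≤ 1 / 4 → |A n u| ≤ 1) (bB : ∀ n u, |u| ≤ 1 / 4 → |B n u| ≤ 1)
    (bA' : ∀ n u, |u| ≤ 1 / 4 → |A' n u| ≤ 2) (bB' : ∀ n u, |u| ≤ 1 / 4 → |B' n u| ≤ 2)
    {x y x' y' : ℝ → ℝ} {K : ℝ}
    (hx : ∀ θ, HasDerivAt x (x' θ) θ) (hy : ∀ θ, HasDerivAt y (y' θ) θ)
    (bx : ∀ θ, |x θ| ≤ 1 / 4) (by' : ∀ θ, |y θ| ≤ 1 / 4) (bx' : ∀ θ, |x' θ| ≤ K)
    (by'' : ∀ θ, |y' θ| ≤ K) (θ : ℝ) :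
    HasDerivAt (fun t => ∑' p : ℕ × ℕ, H p * A p.1 (x t) * B p.2 (y t))
      ((∑' p : ℕ × ℕ, H p * A' p.1 (x θ) * B p.2 (y θ)) * x' θ +
        (∑' p : ℕ × ℕ, H p * A p.1 (x θ) * B' p.2 (y θ)) * y' θ) θ := by
  have hK : 0 ≤ K := (abs_nonneg _).trans (bx' 0)
  have t1 : ∀ (p : ℕ × ℕ) (t : ℝ), |H p * A' p.1 (x t) * B p.2 (y t)| ≤ |H p| * 2 := by
    intro p t
    rw [abs_mul, abs_mul]
    have e1 := bA' p.1 (x t) (bx t)
    have e2 := bB p.2 (y t) (by' t)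
    calc |H p| * |A' p.1 (x t)| * |B p.2 (y t)| ≤ |H p| * 2 * 1 := by gcongr
      _ = |H p| * 2 := by ring
  have t2 : ∀ (p : ℕ × ℕ) (t : ℝ), |H p * A p.1 (x t) * B' p.2 (y t)| ≤ |H p| * 2 := by
    intro p t
    rw [abs_mul, abs_mul]
    have e1 := bA p.1 (x t) (bx t)
    have e2 := bB' p.2 (y t) (by' t)
    calc |H p| * |A p.1 (x t)| * |B' p.2 (y t)| ≤ |H p| * 1 * 2 := by gcongr
      _ = |H p| * 2 := by ring
  have t0 : ∀ (p : ℕ × ℕ) (t : ℝ), |H p * A p.1 (x t) * B p.2 (y t)| ≤ |H p| := by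
    intro p t
    rw [abs_mul, abs_mul]
    have e1 := bA p.1 (x t) (bx t)
    have e2 := bB p.2 (y t) (by' t)
    calc |H p| * |A p.1 (x t)| * |B p.2 (y t)| ≤ |H p| * 1 * 1 := by gcongr
      _ = |H p| := by ring
  have s2 : Summable fun p : ℕ × ℕ => |H p| * 2 := hH.mul_right 2
  have u1 : Summable fun p : ℕ × ℕ => H p * A' p.1 (x θ) * B p.2 (y θ) :=
    Summable.of_norm_bounded s2 fun p => by rw [Real.norm_eq_abs]; exact t1 p θ
  have u2 : Summable fun p : ℕ × ℕ => H p * A p.1 (x θ) * B' p.2 (y θ) :=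
    Summable.of_norm_bounded s2 fun p => by rw [Real.norm_eq_abs]; exact t2 p θ
  have key := hasDerivAt_tsum (𝕜 := ℝ) (u := fun p : ℕ × ℕ => |H p| * (4 * K))
    (g := fun (p : ℕ × ℕ) t => H p * A p.1 (x t) * B p.2 (y t))
    (g' := fun (p : ℕ × ℕ) t => H p * A' p.1 (x t) * B p.2 (y t) * x' t +
      H p * A p.1 (x t) * B' p.2 (y t) * y' t) (y₀ := 0) (hH.mul_right _) ?_ ?_ ?_ θ
  · rw [← tsum_mul_right, ← tsum_mul_right, ← (u1.mul_right (x' θ)).tsum_add (u2.mul_right (y' θ))]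
    exact key
  · intro p t
    have d1 := (hA p.1 (x t)).comp t (hx t)
    have d2 := (hB p.2 (y t)).comp t (hy t)
    have d3 := (d1.const_mul (H p)).mul d2
    refine d3.congr_deriv ?_
    simp only [Function.comp]
    ring
  · intro p t
    rw [Real.norm_eq_abs]
    calc |H p * A' p.1 (x t) * B p.2 (y t) * x' t + H p * A p.1 (x t) * B' p.2 (y t) * y' t|
        ≤ |H p * A' p.1 (x t) * B p.2 (y t) * x' t| + |H p * A p.1 (x t) * B' p.2 (y t) * y' t| :=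
          abs_add_le _ _
      _ ≤ |H p| * 2 * K + |H p| * 2 * K := by
          rw [abs_mul _ (x' t), abs_mul _ (y' t)]
          exact add_le_add (mul_le_mul (t1 p t) (bx' t) (abs_nonneg _) (by positivity))
            (mul_le_mul (t2 p t) (by'' t) (abs_nonneg _) (by positivity))
      _ = |H p| * (4 * K) := by ring
  · exact Summable.of_norm_bounded hH fun p => by rw [Real.norm_eq_abs]; exact t0 p 0

private theorem hfc_p0 (n : ℕ) (u : ℝ) : HasDerivAt (fun u : ℝ => u ^ n) (n * u ^ (n - 1)) u :=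
  hasDerivAt_pow n u

private theorem hfc_p1 (n : ℕ) (u : ℝ) :
    HasDerivAt (fun u : ℝ => n * u ^ (n - 1)) (n * ((n - 1 : ℕ) * u ^ (n - 1 - 1))) u :=
  (hasDerivAt_pow (n - 1) u).const_mul (n : ℝ)

private theorem hfc_b0 (n : ℕ) (u : ℝ) (hu : |u| ≤ 1 / 4) : |u ^ n| ≤ 1 := by
  rw [abs_pow]
  exact pow_le_one₀ (abs_nonneg _) (by linarith)

private theorem hfc_b1 (n : ℕ) (u : ℝ) (hu : |u| ≤ 1 / 4) : |n * u ^ (n - 1)| ≤ 1 := by
  rw [abs_mul, abs_pow, Nat.abs_cast]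
  refine le_trans ?_ (num1' n)
  gcongr

private theorem hfc_b2 (n : ℕ) (u : ℝ) (hu : |u| ≤ 1 / 4) :
    |n * ((n - 1 : ℕ) * u ^ (n - 1 - 1))| ≤ 2 := by
  rw [abs_mul, abs_mul, abs_pow, Nat.abs_cast, Nat.abs_cast]
  refine le_trans ?_ (num2' n)
  gcongr

theorem h0_deriv (hH : Summable fun p => |H p|) {x y x' y' : ℝ → ℝ} {K : ℝ}
    (hx : ∀ θ, HasDerivAt x (x' θ) θ) (hy : ∀ θ, HasDerivAt y (y' θ) θ)
    (bx : ∀ θ, |x θ| ≤ 1 / 4) (by' : ∀ θ, |y θ| ≤ 1 / 4) (bx' : ∀ θ, |x' θ| ≤ K)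
    (by'' : ∀ θ, |y' θ| ≤ K) (θ : ℝ) :
    HasDerivAt (fun t => h0 H (x t) (y t))
      (h1 H (x θ) (y θ) * x' θ + h2 H (x θ) (y θ) * y' θ) θ :=
  hfc_gen hH (fun n u => u ^ n) (fun n u => n * u ^ (n - 1)) (fun n u => u ^ n)
    (fun n u => n * u ^ (n - 1)) hfc_p0 hfc_p0 hfc_b0 hfc_b0
    (fun n u hu => (hfc_b1 n u hu).trans one_le_two) (fun n u hu => (hfc_b1 n u hu).trans one_le_two)
    hx hy bx by' bx' by'' θ

theorem h1_deriv (hH : Summable fun p => |H p|) {x y x' y' : ℝ → ℝ} {K : ℝ}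
    (hx : ∀ θ, HasDerivAt x (x' θ) θ) (hy : ∀ θ, HasDerivAt y (y' θ) θ)
    (bx : ∀ θ, |x θ| ≤ 1 / 4) (by' : ∀ θ, |y θ| ≤ 1 / 4) (bx' : ∀ θ, |x' θ| ≤ K)
    (by'' : ∀ θ, |y' θ| ≤ K) (θ : ℝ) :
    HasDerivAt (fun t => h1 H (x t) (y t))
      (h11 H (x θ) (y θ) * x' θ + h12 H (x θ) (y θ) * y' θ) θ :=
  hfc_gen hH (fun n u => n * u ^ (n - 1)) (fun n u => n * ((n - 1 : ℕ) * u ^ (n - 1 - 1)))
    (fun n u => u ^ n) (fun n u => n * u ^ (n - 1)) hfc_p1 hfc_p0 hfc_b1 hfc_b0 hfc_b2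
    (fun n u hu => (hfc_b1 n u hu).trans one_le_two) hx hy bx by' bx' by'' θ

theorem h2_deriv (hH : Summable fun p => |H p|) {x y x' y' : ℝ → ℝ} {K : ℝ}
    (hx : ∀ θ, HasDerivAt x (x' θ) θ) (hy : ∀ θ, HasDerivAt y (y' θ) θ)
    (bx : ∀ θ, |x θ| ≤ 1 / 4) (by' : ∀ θ, |y θ| ≤ 1 / 4) (bx' : ∀ θ, |x' θ| ≤ K)
    (by'' : ∀ θ, |y' θ| ≤ K) (θ : ℝ) :
    HasDerivAt (fun t => h2 H (x t) (y t))
      (h12 H (x θ) (y θ) * x' θ + h22 H (x θ) (y θ) * y' θ) θ :=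
  hfc_gen hH (fun n u => u ^ n) (fun n u => n * u ^ (n - 1)) (fun n u => n * u ^ (n - 1))
    (fun n u => n * ((n - 1 : ℕ) * u ^ (n - 1 - 1))) hfc_p0 hfc_p1 hfc_b0 hfc_b1
    (fun n u hu => (hfc_b1 n u hu).trans one_le_two) hfc_b2 hx hy bx by' bx' by'' θ

private theorem hfc_S (hτ : 0 < τ) (hr : 4 ≤ r) (hS : Bd D τ r S (1 / 8)) {ω : ℝ} (hω : ω ∈ D) :
    (∀ a θ, HasDerivAt (fun t => S ω (t + a)) (dd S ω (θ + a)) θ) ∧
      (∀ a θ, |S ω (θ + a)| ≤ 1 / 4) ∧ (∀ a θ, |dd S ω (θ + a)| ≤ 7 / 4) := by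
  refine ⟨fun a θ => ?_, fun a θ => ?_, fun a θ => ?_⟩
  · have h1 := hS.hasDeriv (by linarith) hω (θ + a)
    exact h1.comp_add_const θ a
  · have h1 := hS.abs_le hτ.le (by linarith) hω (θ + a)
    linarith
  · have h1 := hS.deriv (r' := 2) (δ := 1 / 2) hτ.le (by norm_num) (by norm_num) le_rfl (by linarith)
    have h2 := h1.abs_le hτ.le (by norm_num) hω (θ + a)
    norm_num at h2
    exact h2

private theorem hfc_EE {cc : ℝ} (ω θ : ℝ) : EE cc H S ω θ = S ω (θ + ω) + S ω (θ - ω) -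
    2 * cc * S ω θ - S ω θ * S ω θ -
      (h1 H (S ω θ) (S ω (θ + ω)) + h2 H (S ω (θ - ω)) (S ω θ)) := rfl

theorem EE_F5 {cc : ℝ} (hτ : 0 < τ) (hr : 4 ≤ r) (hH : Summable fun p => |H p|)
    (hS : Bd D τ r S (1 / 8)) :
    EqD D (dd (EE cc H S)) (al H S * T (dd S) + Ti (al H S * dd S) - ka cc H S * dd S) := by
  intro ω hω θ
  obtain ⟨hd, hb, hb'⟩ := hfc_S hτ hr hS hω
  have d0 : ∀ θ, HasDerivAt (fun t => S ω t) (dd S ω θ) θ := fun θ => by simpa using hd 0 θ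
  have b0 : ∀ θ, |S ω θ| ≤ 1 / 4 := fun θ => by simpa using hb 0 θ
  have b0' : ∀ θ, |dd S ω θ| ≤ 7 / 4 := fun θ => by simpa using hb' 0 θ
  have dm : ∀ θ, HasDerivAt (fun t => S ω (t - ω)) (dd S ω (θ - ω)) θ := fun θ => by
    simpa [sub_eq_add_neg] using hd (-ω) θ
  have bm : ∀ θ, |S ω (θ - ω)| ≤ 1 / 4 := fun θ => by simpa [sub_eq_add_neg] using hb (-ω) θ
  have bm' : ∀ θ, |dd S ω (θ - ω)| ≤ 7 / 4 := fun θ => by simpa [sub_eq_add_neg] using hb' (-ω) θ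
  have e1 := h1_deriv hH d0 (hd ω) b0 (hb ω) b0' (hb' ω) θ
  have e2 := h2_deriv hH dm d0 bm b0 bm' b0' θ
  have e3 := ((((hd ω θ).add (dm θ)).sub ((d0 θ).const_mul (2 * cc))).sub ((d0 θ).mul (d0 θ))).sub
    (e1.add e2)
  have e4 : HasDerivAt (EE cc H S ω) _ θ := e3
  have e5 : dd (EE cc H S) ω θ = _ := e4.deriv
  rw [e5]
  show _ = al H S ω θ * dd S ω (θ + ω) + al H S ω (θ - ω) * dd S ω (θ - ω) - ka cc H S ω θ * dd S ω θ
  unfold al ka
  rw [sub_add_cancel]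
  ring

theorem EE_F6 {cc : ℝ} (hτ : 0 < τ) (hr : 4 ≤ r) (hH : Summable fun p => |H p|)
    (hS : Bd D τ r S (1 / 8)) {ω : ℝ} (hω : ω ∈ D) : avg (dd S * EE cc H S) ω = 0 := by
  obtain ⟨hd, hb, hb'⟩ := hfc_S hτ hr hS hω
  have d0 : ∀ θ, HasDerivAt (fun t => S ω t) (dd S ω θ) θ := fun θ => by simpa using hd 0 θ
  have b0 : ∀ θ, |S ω θ| ≤ 1 / 4 := fun θ => by simpa using hb 0 θ
  have b0' : ∀ θ, |dd S ω θ| ≤ 7 / 4 := fun θ => by simpa using hb' 0 θ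
  have dm : ∀ θ, HasDerivAt (fun t => S ω (t - ω)) (dd S ω (θ - ω)) θ := fun θ => by
    simpa [sub_eq_add_neg] using hd (-ω) θ
  have bm : ∀ θ, |S ω (θ - ω)| ≤ 1 / 4 := fun θ => by simpa [sub_eq_add_neg] using hb (-ω) θ
  have bm' : ∀ θ, |dd S ω (θ - ω)| ≤ 7 / 4 := fun θ => by simpa [sub_eq_add_neg] using hb' (-ω) θ
  -- the functions
  set G : ℝ → ℝ := fun t => S ω t * S ω (t + ω) - h0 H (S ω t) (S ω (t + ω)) - cc * (S ω t * S ω t) -
    (S ω t * S ω t * S ω t) / 3 with hG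
  set G' : ℝ → ℝ := fun t => dd S ω t * S ω (t + ω) + S ω t * dd S ω (t + ω) -
    (h1 H (S ω t) (S ω (t + ω)) * dd S ω t + h2 H (S ω t) (S ω (t + ω)) * dd S ω (t + ω)) -
    cc * (dd S ω t * S ω t + S ω t * dd S ω t) -
    ((dd S ω t * S ω t + S ω t * dd S ω t) * S ω t + S ω t * S ω t * dd S ω t) / 3 with hG'
  set K : ℝ → ℝ := fun t => dd S ω t * S ω (t - ω) - dd S ω t * h2 H (S ω (t - ω)) (S ω t) with hK
  have dG : ∀ t, HasDerivAt G (G' t) t := by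
    intro t
    have e0 := h0_deriv hH d0 (hd ω) b0 (hb ω) b0' (hb' ω) t
    exact ((((d0 t).mul (hd ω t)).sub e0).sub (((d0 t).mul (d0 t)).const_mul cc)).sub
      ((((d0 t).mul (d0 t)).mul (d0 t)).div_const 3)
  have cS : Continuous (S ω) := hS.cont (by linarith) hω
  have cd : Continuous (dd S ω) := hS.contDeriv (by linarith) hω
  have cSp : Continuous fun t => S ω (t + ω) := cS.comp (continuous_id.add continuous_const)
  have cdp : Continuous fun t => dd S ω (t + ω) := cd.comp (continuous_id.add continuous_const)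
  have cSm : Continuous fun t => S ω (t - ω) := cS.comp (continuous_id.sub continuous_const)
  have c1 : Continuous fun t => h1 H (S ω t) (S ω (t + ω)) :=
    continuous_iff_continuousAt.2 fun t =>
      (h1_deriv hH d0 (hd ω) b0 (hb ω) b0' (hb' ω) t).continuousAt
  have c2 : Continuous fun t => h2 H (S ω t) (S ω (t + ω)) :=
    continuous_iff_continuousAt.2 fun t =>
      (h2_deriv hH d0 (hd ω) b0 (hb ω) b0' (hb' ω) t).continuousAt
  have c3 : Continuous fun t => h2 H (S ω (t - ω)) (S ω t) :=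
    continuous_iff_continuousAt.2 fun t => (h2_deriv hH dm d0 bm b0 bm' b0' t).continuousAt
  have cG' : Continuous G' := by
    have k1 := (cd.mul cSp).add (cS.mul cdp)
    have k2 := (c1.mul cd).add (c2.mul cdp)
    have k3 := (cd.mul cS).add (cS.mul cd)
    have k4 := (k3.mul cS).add ((cS.mul cS).mul cd)
    exact ((k1.sub k2).sub (continuous_const.mul k3)).sub (k4.div_const 3)
  have cK : Continuous K := (cd.mul cSm).sub (cd.mul c3)
  -- periodicity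
  have pS : ∀ t, S ω (t + 1) = S ω t := fun t => hS.per hω t
  have pd : ∀ t, dd S ω (t + 1) = dd S ω t := by
    intro t
    have h3 : HasDerivAt (fun u => S ω (u + 1)) (dd S ω (t + 1)) t := hd 1 t
    have h4 : (fun u => S ω (u + 1)) = S ω := funext pS
    rw [h4] at h3
    exact h3.unique (d0 t)
  have pK : Function.Periodic K 1 := by
    intro t
    simp only [hK]
    have e1 : t + 1 - ω = t - ω + 1 := by ring
    rw [e1, pS, pS, pd]
  have G10 : G 1 = G 0 := by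
    have e1 : (1 : ℝ) = 0 + 1 := by ring
    have e2 : (0 : ℝ) + 1 + ω = 0 + ω + 1 := by ring
    simp only [hG]
    rw [e1, e2, pS, pS]
  have iG : ∫ t in (0:ℝ)..1, G' t = 0 := by
    rw [intervalIntegral.integral_eq_sub_of_hasDerivAt (fun t _ => dG t)
      (cG'.intervalIntegrable 0 1), G10, sub_self]
  have iK : ∫ t in (0:ℝ)..1, K (t + ω) = ∫ t in (0:ℝ)..1, K t := by
    rw [intervalIntegral.integral_comp_add_right (fun t => K t) ω]
    have h3 := pK.intervalIntegral_add_eq (0 + ω) 0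
    rw [zero_add, zero_add] at h3
    rw [zero_add, add_comm 1 ω]
    exact h3
  have hE : ∀ t, (dd S * EE cc H S) ω t = G' t + K t - K (t + ω) := by
    intro t
    show dd S ω t * EE cc H S ω t = _
    rw [hfc_EE]
    simp only [hG', hK]
    rw [add_sub_cancel_right]
    ring
  have cKp : Continuous fun t => K (t + ω) := cK.comp (continuous_id.add continuous_const)
  unfold avg
  simp_rw [hE]
  have f1 : Continuous fun t => G' t + K t := cG'.add cK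
  have e1 : ∫ t in (0:ℝ)..1, (G' t + K t - K (t + ω)) =
      (∫ t in (0:ℝ)..1, (G' t + K t)) - ∫ t in (0:ℝ)..1, K (t + ω) :=
    intervalIntegral.integral_sub (f1.intervalIntegrable 0 1) (cKp.intervalIntegrable 0 1)
  have e2 : ∫ t in (0:ℝ)..1, (G' t + K t) = (∫ t in (0:ℝ)..1, G' t) + ∫ t in (0:ℝ)..1, K t :=
    intervalIntegral.integral_add (cG'.intervalIntegrable 0 1) (cK.intervalIntegrable 0 1)
  rw [e1, e2, iG, iK, zero_add, sub_self]

end Pool.Agent.MP31f1e8.KM
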