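import Pool.Agent.Lib.MP_31f1e8_mp.KM.HFb
import Pool.Agent.Lib.MP_31f1e8_mp.KM.HFc

/-!
The functional `EE` satisfies the hypotheses of the Newton scheme.
-/

namespace Pool.Agent.MP31f1e8.KM

theorem fnl {D : Set ℝ} {τ cc : ℝ} {H : ℕ × ℕ → ℝ} (hτ : 0 < τ) (hτ' : τ ≤ 1 / 4)
    (hH : Summable fun p => |H p|) (hH' : ∑' p, |H p| ≤ 1 / 100) :
    Fnl D τ cc (4 * ∑' p, |H p|) (EE cc H) (al H) (ka cc H) where
  F1 r hr S hS := EE_F1 hτ hτ' (by linarith) hH hS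
  F2 r hr S v M hS hM hv := EE_F2 hτ hτ' (by linarith) hH hH' hS hM hv
  F3 r hr S hS := EE_F3 hτ hτ' (by linarith) hH hS
  F4 r hr S hS := EE_F4 hτ hτ' (by linarith) hH hS
  F5 r hr S hS := EE_F5 hτ hr hH hS
  F6 r hr S hS ω hω := EE_F6 hτ hr hH hS hω

end Pool.Agent.MP31f1e8.KM
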