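import Pool.Agent.Lib.MP_31f1e8_mp.KM.Step
import Pool.Agent.Lib.MP_31f1e8_mp.KM.Frame

/-!
The Newton iteration.

Proof. `frame` gives `C1`; `step` (with `C1` for its `C`) gives `C2`. `δ_n = 2^{-(n+5)}`, `r_0 = 8`,
`r_{n+1} = (1-δ_n)³ r_n`: `r_n ≥ 8 (1 - 3 ∑ δ_i) ≥ 8 (1 - 3/16) ≥ 4` (prove `8 (1 - 3/16 (1 - 2^{-n})) ≤ r_n` by
induction, `(1-δ)³ ≥ 1 - 3δ`), `r_n ≤ 8`. `ε_0 = (C + 1) ρ⁵`, `κ = 2^{-20}`, `ε_n = ε_0 κ^n`.
`K := C2 (C + 1) 2^{27}`, `ρ1` from `frame` for this `K`, and small: `C2 ε_0 2^{40} ≤ ρ⁴ κ` i.e.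
`C2 (C+1) 2^{60} ρ ≤ 1` .
Invariant at stage `n`: a function `S_n` with
 (i) `Bd (ρ²) r_n (S_n - S0) (K ρ³ (1 - 2^{-n}))`, (ii) the same for `dd S_n - dd S0` (as an element of `Bd`),
 (iii) `Bd (ρ²) r_n (EE S_n) ε_n`, (iv) `S_n` itself is in some `Bd (ρ²) r_n` (from (i) and `App.hS`).
Start `S_0 = S0`: `EE S0 = (EE S0 - hen S0) + hen S0` norm `≤ η + C ρ⁵ ≤ ε_0` (`F1`, `App.hE`; `C ρ ≤ 1/8`).
Step: `frame` gives `n, m`; `C2 ε_n ≤ ρ² δ_n⁴` holds; `step` gives `v_n` with norms at `r_{n+1}`: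
`v_n`: `C2 ε_n /(ρ² δ_n⁴)`, `dd v_n`: `C2 ε_n/(ρ² δ_n⁵) = C2 (C+1) ρ³ 2^{5(n+5)} 2^{-20 n} ≤ K ρ³ 2^{-(n+1)}`, the same
bound for `v_n`; `EE (S_n + v_n)`: `C2 ε_n²/(ρ⁴ δ_n⁸) = ε_n κ * (C2 ε_0 κ^{n-1} 2^{8(n+5)}/ρ⁴) ≤ ε_n κ = ε_{n+1}`
(`κ 2⁸ ≤ 1`). `dd (S_n + v_n) = dd S_n + dd v_n` on `D` (`dd_add`, `Bd.congr`).
Build the sequence with a subtype or with `choose` on `∀ n S, Inv n S → ∃ v, ...` and `Nat.rec`; keep
`v_n` with its norm `≤ K ρ³ 2^{-(n+1)}` at radius `r_{n+1} ≥ 4`, so at radius `4` (`Bd.rad`).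
Limit: `S := fun ω θ => S0 ω θ + ∑' n, v n ω θ`; `S - S0` has norm `≤ K ρ³` at radius `4` (`Bd.tsum`,
`∑ 2^{-(n+1)} = 1`). `EE S = 0` on `D`: for each `n`, `S = S_n + w_n` on `D`, `w_n = ∑' k, v_(n+k)` of norm
`≤ K ρ³ 2^{-n} ≤ 1/16` ; to use `F2` with the function `S` itself put `w_n := S - S_n` (norm by `Bd.congr`), so
`S_n + w_n = S` as functions. `F2` at radius `4`: `|EE S - EE S_n - (...)| ≤ 2 (K ρ³ 2^{-n})²` and
`(...)` is bounded by `(2 * 2 + 2 * 2 + 6) * norm w_n` (`al S_n` norm `≤ 2`, `ka S_n` norm `≤ 6` from `Fr`, or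
from `F3`, `F4`), so `|EE S ω θ| ≤ ε_n + 2 (..)² + 14 K ρ³ 2^{-n} → 0`.
-/

namespace Pool.Agent.MP31f1e8.KM

/-- the radii -/
private noncomputable def rr (n : ℕ) : ℝ := 13 / 2 + 3 / 2 * (1 / 2) ^ n

private theorem xp (n : ℕ) : 0 < ((1 / 2 : ℝ)) ^ n := by positivity

private theorem x1 (n : ℕ) : ((1 / 2 : ℝ)) ^ n ≤ 1 := pow_le_one₀ (by norm_num) (by norm_num)

private theorem rr_ge (n : ℕ) : 4 ≤ rr n := by
  have := xp n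
  unfold rr
  linarith

private theorem rr_le (n : ℕ) : rr n ≤ 8 := by
  have := x1 n
  unfold rr
  linarith

private theorem rr_anti (n : ℕ) : rr (n + 1) ≤ rr n := by
  have := xp n
  unfold rr
  rw [pow_succ]
  linarith

private theorem rr_succ (n : ℕ) : rr (n + 1) ≤ (1 - (1 / 2) ^ n / 32) ^ 3 * rr n := by
  have h0 := xp n
  have h1 := x1 n
  have h8 := rr_le n
  have h4 := rr_ge n
  have hr : rr (n + 1) = rr n - 3 / 4 * (1 / 2) ^ n := by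
    unfold rr
    rw [pow_succ]
    ring
  rw [hr]
  generalize hx : ((1 / 2 : ℝ)) ^ n = x at *
  have h3 : 1 - 3 * (x / 32) ≤ (1 - x / 32) ^ 3 := by
    nlinarith [mul_nonneg h0.le h0.le, mul_nonneg (mul_nonneg h0.le h0.le) (by linarith : (0:ℝ) ≤ 3 - x / 32)]
  have h5 : (1 - 3 * (x / 32)) * rr n ≤ (1 - x / 32) ^ 3 * rr n :=
    mul_le_mul_of_nonneg_right h3 (by linarith)
  nlinarith

private theorem num1 {A ρ x : ℝ} (hρ : 0 < ρ) (hρ1 : ρ ≤ 1 / 2) (hx : 0 < x) (hx1 : x ≤ 1)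
    (hA : A * ρ * 2 ^ 60 ≤ 1) : A * (ρ ^ 5 * x ^ 20) ≤ ρ ^ 2 * (x / 32) ^ 4 := by
  have h1 : A * (ρ ^ 5 * x ^ 20) = (A * ρ * 2 ^ 60) * (ρ ^ 4 * x ^ 20 / 2 ^ 60) := by
    field_simp
  rw [h1]
  have h2 : (A * ρ * 2 ^ 60) * (ρ ^ 4 * x ^ 20 / 2 ^ 60) ≤ 1 * (ρ ^ 4 * x ^ 20 / 2 ^ 60) :=
    mul_le_mul_of_nonneg_right hA (by positivity)
  refine h2.trans ?_
  have h3 : ρ ^ 4 ≤ ρ ^ 2 := pow_le_pow_of_le_one hρ.le (by linarith) (by norm_num)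
  have h4 : x ^ 20 ≤ x ^ 4 := pow_le_pow_of_le_one hx.le hx1 (by norm_num)
  have h5 : ρ ^ 4 * x ^ 20 ≤ ρ ^ 2 * x ^ 4 := mul_le_mul h3 h4 (by positivity) (by positivity)
  have h6 : ρ ^ 2 * (x / 32) ^ 4 = ρ ^ 2 * x ^ 4 / 2 ^ 20 := by
    rw [div_pow]
    norm_num
    ring
  rw [h6, one_mul, div_le_div_iff₀ (by positivity) (by positivity)]
  have h7 : 0 ≤ ρ ^ 2 * x ^ 4 := by positivity
  nlinarith

private theorem num2 {A ρ x : ℝ} (hρ : 0 < ρ) (hx : 0 < x) (hx1 : x ≤ 1) (hA : 0 ≤ A) :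
    A * (ρ ^ 5 * x ^ 20) / (ρ ^ 2 * (x / 32) ^ 5) ≤ A * 2 ^ 27 * ρ ^ 3 * (x / 2) := by
  have h1 : A * (ρ ^ 5 * x ^ 20) / (ρ ^ 2 * (x / 32) ^ 5) = A * 2 ^ 25 * ρ ^ 3 * x ^ 15 := by
    field_simp
    norm_num
  rw [h1]
  have h2 : x ^ 15 ≤ x := by
    calc x ^ 15 ≤ x ^ 1 := pow_le_pow_of_le_one hx.le hx1 (by norm_num)
      _ = x := pow_one x
  have h3 : A * 2 ^ 25 * ρ ^ 3 * x ^ 15 ≤ A * 2 ^ 25 * ρ ^ 3 * x :=
    mul_le_mul_of_nonneg_left h2 (by positivity)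
  refine h3.trans ?_
  have h4 : 0 ≤ A * ρ ^ 3 * x := by positivity
  nlinarith

private theorem num2' {A ρ x : ℝ} (hρ : 0 < ρ) (hx : 0 < x) (hx1 : x ≤ 1) (hA : 0 ≤ A) :
    A * (ρ ^ 5 * x ^ 20) / (ρ ^ 2 * (x / 32) ^ 4) ≤ A * 2 ^ 27 * ρ ^ 3 * (x / 2) := by
  refine le_trans ?_ (num2 hρ hx hx1 hA)
  refine div_le_div_of_nonneg_left (by positivity) (by positivity) ?_
  refine mul_le_mul_of_nonneg_left ?_ (by positivity)
  exact pow_le_pow_of_le_one (by positivity) (by linarith) (by norm_num)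

private theorem num3 {C C2 ρ x : ℝ} (hC : 1 ≤ C) (hρ : 0 < ρ) (hx : 0 < x) (hx1 : x ≤ 1)
    (hC2 : 1 ≤ C2) (hA : C2 * (C + 1) * ρ * 2 ^ 60 ≤ 1) :
    C2 * ((C + 1) * ρ ^ 5 * x ^ 20) ^ 2 / (ρ ^ 4 * (x / 32) ^ 8) ≤ (C + 1) * ρ ^ 5 * (x / 2) ^ 20 := by
  have h1 : C2 * ((C + 1) * ρ ^ 5 * x ^ 20) ^ 2 / (ρ ^ 4 * (x / 32) ^ 8) =
      (C2 * (C + 1) * ρ * 2 ^ 60) * ((C + 1) * ρ ^ 5 * (x / 2) ^ 20) * x ^ 12 := by
    field_simp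
    norm_num
  rw [h1]
  have h2 : x ^ 12 ≤ 1 := pow_le_one₀ hx.le hx1
  have h3 : 0 ≤ (C + 1) * ρ ^ 5 * (x / 2) ^ 20 := by positivity
  have h4 : (C2 * (C + 1) * ρ * 2 ^ 60) * ((C + 1) * ρ ^ 5 * (x / 2) ^ 20) ≤
      1 * ((C + 1) * ρ ^ 5 * (x / 2) ^ 20) := mul_le_mul_of_nonneg_right hA h3
  have h5 : 0 ≤ (C2 * (C + 1) * ρ * 2 ^ 60) * ((C + 1) * ρ ^ 5 * (x / 2) ^ 20) := by positivity
  calc (C2 * (C + 1) * ρ * 2 ^ 60) * ((C + 1) * ρ ^ 5 * (x / 2) ^ 20) * x ^ 12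
      ≤ (C2 * (C + 1) * ρ * 2 ^ 60) * ((C + 1) * ρ ^ 5 * (x / 2) ^ 20) * 1 :=
        mul_le_mul_of_nonneg_left h2 h5
    _ ≤ _ := by rw [mul_one]; linarith

/-- the invariant -/
private structure Inv (D : Set ℝ) (ρ C K : ℝ) (S0 : ℝ → ℝ → ℝ) (EE : (ℝ → ℝ → ℝ) → ℝ → ℝ → ℝ)
    (n : ℕ) (S : ℝ → ℝ → ℝ) : Prop where
  i : Bd D (ρ ^ 2) (rr n) (S - S0) (K * ρ ^ 3 * (1 - (1 / 2) ^ n))
  ii : Bd D (ρ ^ 2) (rr n) (dd S - dd S0) (K * ρ ^ 3 * (1 - (1 / 2) ^ n))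
  iii : Bd D (ρ ^ 2) (rr n) (EE S) ((C + 1) * ρ ^ 5 * ((1 / 2) ^ n) ^ 20)

private theorem sum_half (a : ℝ) (n : ℕ) :
    Summable (fun k : ℕ => a * ((1 / 2 : ℝ) ^ (n + k) / 2)) ∧
      (∑' k : ℕ, a * ((1 / 2 : ℝ) ^ (n + k) / 2)) = a * (1 / 2) ^ n := by
  have h1 : HasSum (fun k : ℕ => ((1 / 2 : ℝ)) ^ k) 2 := hasSum_geometric_two
  have h2 := h1.mul_left (a * (1 / 2) ^ n / 2)
  have h3 : (fun k : ℕ => a * ((1 / 2 : ℝ) ^ (n + k) / 2)) = fun k : ℕ => a * (1 / 2) ^ n / 2 * (1 / 2) ^ k := by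
    funext k
    rw [pow_add]
    ring
  rw [h3]
  refine ⟨h2.summable, ?_⟩
  rw [h2.tsum_eq]
  ring

theorem iter {γ C : ℝ} (hγ : 0 < γ) (hγ1 : γ ≤ 1) (hC : 1 ≤ C) : ∃ K ρ1 : ℝ, 0 ≤ K ∧ 0 < ρ1 ∧
    ρ1 ≤ 1 / 2 ∧ ∀ ρ : ℝ, 0 < ρ → ρ ≤ ρ1 → ∀ D : Set ℝ, D ⊆ DC γ →
    ∀ (cc : ℝ) (S0 n0 m0 : ℝ → ℝ → ℝ) (sg : ℝ → ℝ), |cc| ≤ 1 → App D ρ cc C S0 n0 m0 sg →
    ∀ (EE al ka : (ℝ → ℝ → ℝ) → ℝ → ℝ → ℝ) (η : ℝ), η ≤ ρ ^ 5 → Fnl D (ρ ^ 2) cc η EE al ka →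
    ∃ S : ℝ → ℝ → ℝ, Bd D (ρ ^ 2) 4 (S - S0) (K * ρ ^ 3) ∧ EqD D (EE S) (kk 0) := by
  obtain ⟨C1, hC1, hframe⟩ := frame hC
  obtain ⟨C2, hC2, hstep⟩ := step hγ hγ1 hC1
  have hA1 : 1 ≤ C2 * (C + 1) := by nlinarith
  have hAC : C ≤ C2 * (C + 1) := by nlinarith
  obtain ⟨K, hK⟩ : ∃ K, K = C2 * (C + 1) * 2 ^ 27 := ⟨_, rfl⟩
  have hK0 : 0 ≤ K := by rw [hK]; positivity
  obtain ⟨ρf, hρf, hρf2, hfr⟩ := hframe K hK0
  refine ⟨K, min ρf (1 / (C2 * (C + 1) * 2 ^ 60)), hK0, lt_min hρf (by positivity),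
    (min_le_left _ _).trans hρf2, ?_⟩
  intro ρ hρ hρle D hD cc S0 n0 m0 sg hcc hApp EE al ka η hη hF
  have hρ1 : ρ ≤ ρf := hρle.trans (min_le_left _ _)
  have hρ2 : ρ ≤ 1 / 2 := hρ1.trans hρf2
  have hA : C2 * (C + 1) * ρ * 2 ^ 60 ≤ 1 := by
    have h := hρle.trans (min_le_right _ _)
    rw [le_div_iff₀ (by positivity)] at h
    nlinarith
  have hτ : 0 < ρ ^ 2 := by positivity
  have hτ4 : ρ ^ 2 ≤ 1 / 4 := by nlinarith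
  have hCρ : C * ρ * 2 ^ 60 ≤ 1 := by
    refine le_trans ?_ hA
    have : C * ρ ≤ C2 * (C + 1) * ρ := mul_le_mul_of_nonneg_right hAC hρ.le
    nlinarith
  have hη3 : η ≤ ρ ^ 3 := hη.trans (pow_le_pow_of_le_one hρ.le (by linarith) (by norm_num))
  have hKρ : K * ρ ^ 3 ≤ 1 / 32 := by
    have h1 : K * ρ ^ 3 = (C2 * (C + 1) * ρ * 2 ^ 60) * (ρ ^ 2 / 2 ^ 33) := by
      rw [hK]
      field_simp
    rw [h1]
    have h2 : (C2 * (C + 1) * ρ * 2 ^ 60) * (ρ ^ 2 / 2 ^ 33) ≤ 1 * (ρ ^ 2 / 2 ^ 33) :=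
      mul_le_mul_of_nonneg_right hA (by positivity)
    refine h2.trans ?_
    rw [one_mul, div_le_iff₀ (by positivity)]
    nlinarith
  have hKρ0 : 0 ≤ K * ρ ^ 3 := by positivity
  -- all members of the sequence are bounded
  have hbdS : ∀ n S, Inv D ρ C K S0 EE n S → Bd D (ρ ^ 2) (rr n) S (1 / 16) := by
    intro n S h
    have h1 := (hApp.hS.rad hτ.le (by linarith [rr_ge n]) (rr_le n))
    have h2 := (h.i.add (by linarith [rr_ge n]) h1)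
    rw [sub_add_cancel] at h2
    refine h2.mono ?_
    have h3 := xp n
    have h4 : K * ρ ^ 3 * (1 - (1 / 2) ^ n) ≤ K * ρ ^ 3 := by nlinarith
    nlinarith
  have hframes : ∀ n S, Inv D ρ C K S0 EE n S → ∃ n' m', Fr D (ρ ^ 2) (rr n) ρ C1 al ka S n' m' := by
    intro n S h
    have h3 := xp n
    have h4 : K * ρ ^ 3 * (1 - (1 / 2) ^ n) ≤ K * ρ ^ 3 := by nlinarith
    exact hfr ρ hρ hρ1 D cc S0 n0 m0 sg hcc hApp EE al ka η hη3 hF (rr n) (rr_ge n) (rr_le n) S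
      (h.i.mono h4) (h.ii.mono h4)
  have hnext : ∀ n S, Inv D ρ C K S0 EE n S → ∃ v, Bd D (ρ ^ 2) (rr (n + 1)) v
      (K * ρ ^ 3 * ((1 / 2) ^ n / 2)) ∧ Inv D ρ C K S0 EE (n + 1) (S + v) := by
    intro n S h
    obtain ⟨n', m', hFr⟩ := hframes n S h
    have hx := xp n
    have hx1 := x1 n
    have hcond : C2 * ((C + 1) * ρ ^ 5 * ((1 / 2) ^ n) ^ 20) ≤ ρ ^ 2 * ((1 / 2) ^ n / 32) ^ 4 := by
      have := num1 (A := C2 * (C + 1)) hρ hρ2 hx hx1 hA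
      calc C2 * ((C + 1) * ρ ^ 5 * ((1 / 2) ^ n) ^ 20) = C2 * (C + 1) * (ρ ^ 5 * ((1 / 2) ^ n) ^ 20) := by ring
        _ ≤ _ := this
    obtain ⟨v, hv1, hv2, hv3⟩ := hstep D (ρ ^ 2) hD hτ hτ4 cc η EE al ka hF ρ hρ (by linarith)
      ((1 / 2) ^ n / 32) (by positivity) (by linarith) (rr n) (rr (n + 1)) (rr_succ n) (rr_ge (n + 1))
      S n' m' ((C + 1) * ρ ^ 5 * ((1 / 2) ^ n) ^ 20) hFr h.iii hcond
    have e1 : C2 * ((C + 1) * ρ ^ 5 * ((1 / 2) ^ n) ^ 20) = C2 * (C + 1) * (ρ ^ 5 * ((1 / 2) ^ n) ^ 20) := by ring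
    rw [e1] at hv1 hv2
    have hb1 := num2' (A := C2 * (C + 1)) hρ hx hx1 (by positivity)
    have hb2 := num2 (A := C2 * (C + 1)) hρ hx hx1 (by positivity)
    rw [← hK] at hb1 hb2
    have hv1' := hv1.mono hb1
    have hv2' := hv2.mono hb2
    have hsum : K * ρ ^ 3 * (1 - (1 / 2) ^ n) + K * ρ ^ 3 * ((1 / 2) ^ n / 2) =
        K * ρ ^ 3 * (1 - (1 / 2) ^ (n + 1)) := by
      rw [pow_succ]
      ring
    have hr2 : (0 : ℝ) ≤ rr (n + 1) := by linarith [rr_ge (n + 1)]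
    refine ⟨v, hv1', ?_, ?_, ?_⟩
    · have h1 := (h.i.rad hτ.le hr2 (rr_anti n)).add hr2 hv1'
      rw [hsum] at h1
      have e : S - S0 + v = S + v - S0 := by abel
      rwa [e] at h1
    · have h1 := (h.ii.rad hτ.le hr2 (rr_anti n)).add hr2 hv2'
      rw [hsum] at h1
      have hS := (hbdS n S h).rad hτ.le hr2 (rr_anti n)
      have hd := dd_add (by linarith [rr_ge (n + 1)]) hS hv1'
      refine h1.congr ?_
      intro ω hω θ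
      have h2 := hd ω hω θ
      show (dd S - dd S0 + dd v) ω θ = (dd (S + v) - dd S0) ω θ
      simp only [Pi.add_apply, Pi.sub_apply] at h2 ⊢
      rw [h2]
      ring
    · refine hv3.mono ?_
      have h1 := num3 (C := C) (C2 := C2) hC hρ hx hx1 hC2 hA
      have e2 : ((1 / 2 : ℝ)) ^ (n + 1) = (1 / 2) ^ n / 2 := by ring
      rw [e2]
      exact h1
  choose V hV1 hV2 using hnext
  have h0 : Inv D ρ C K S0 EE 0 S0 := by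
    have hz : Bd D (ρ ^ 2) (rr 0) (kk 0) 0 := by
      have := Bd.ofConst (D := D) (τ := ρ ^ 2) (r := rr 0) 0
      simpa using this
    have hr0 : rr 0 = 8 := by
      unfold rr
      norm_num
    refine ⟨?_, ?_, ?_⟩
    · have e : S0 - S0 = kk 0 := by
        funext ω θ
        simp [kk]
      rw [e]
      simpa using hz
    · have e : dd S0 - dd S0 = kk 0 := by
        funext ω θ
        simp [kk]
      rw [e]
      simpa using hz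
    · rw [hr0]
      have h1 : Bd D (ρ ^ 2) 8 S0 (1 / 8) := hApp.hS.mono (by nlinarith)
      have h2 := (hF.F1 8 (by norm_num) S0 h1).add (by norm_num) hApp.hE
      rw [sub_add_cancel] at h2
      refine h2.mono ?_
      simp only [pow_zero, one_pow, mul_one]
      nlinarith
  let seq : (n : ℕ) → {S : ℝ → ℝ → ℝ // Inv D ρ C K S0 EE n S} := fun n =>
    Nat.rec (motive := fun n => {S : ℝ → ℝ → ℝ // Inv D ρ C K S0 EE n S}) ⟨S0, h0⟩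
      (fun n s => ⟨s.1 + V n s.1 s.2, hV2 n s.1 s.2⟩) n
  let Sn : ℕ → ℝ → ℝ → ℝ := fun n => (seq n).1
  let v : ℕ → ℝ → ℝ → ℝ := fun n => V n (seq n).1 (seq n).2
  have hSn0 : Sn 0 = S0 := rfl
  have hSnS : ∀ n, Sn (n + 1) = Sn n + v n := fun n => rfl
  have hInv : ∀ n, Inv D ρ C K S0 EE n (Sn n) := fun n => (seq n).2
  have hv : ∀ n, Bd D (ρ ^ 2) 4 (v n) (K * ρ ^ 3 * ((1 / 2) ^ n / 2)) := fun n =>
    (hV1 n (seq n).1 (seq n).2).rad hτ.le (by norm_num) (rr_ge (n + 1))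
  clear_value Sn v
  have hpart : ∀ n ω θ, Sn n ω θ = S0 ω θ + ∑ i ∈ Finset.range n, v i ω θ := by
    intro n ω θ
    induction n with
    | zero => rw [hSn0]; simp
    | succ n ih =>
      rw [hSnS, Finset.sum_range_succ]
      show Sn n ω θ + v n ω θ = _
      rw [ih]
      ring
  obtain ⟨hsm, hts⟩ := sum_half (K * ρ ^ 3) 0
  simp only [zero_add, pow_zero, mul_one] at hsm hts
  obtain ⟨W, hW⟩ : ∃ W : ℝ → ℝ → ℝ, W = fun ω θ => ∑' n, v n ω θ := ⟨_, rfl⟩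
  have hWb : Bd D (ρ ^ 2) 4 W (K * ρ ^ 3) := by
    have h1 := Bd.tsum hτ (by norm_num) hv hsm
    rw [hts] at h1
    rw [hW]
    exact h1
  have hsumv : ∀ ω ∈ D, ∀ θ, Summable fun n => v n ω θ := fun ω hω θ =>
    Bd.summable hτ (by norm_num : (2 : ℝ) ≤ 4) hv hsm hω θ
  refine ⟨S0 + W, ?_, ?_⟩
  · rw [add_sub_cancel_left]
    exact hWb
  · intro ω hω θ
    have hkey : ∀ n : ℕ, |EE (S0 + W) ω θ| ≤ (C + 1) * ρ ^ 5 * ((1 / 2) ^ n) ^ 20 +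
        2 * (K * ρ ^ 3 * (1 / 2) ^ n) ^ 2 + 14 * (K * ρ ^ 3 * (1 / 2) ^ n) := by
      intro n
      obtain ⟨hsm', hts'⟩ := sum_half (K * ρ ^ 3) n
      have hw : Bd D (ρ ^ 2) 4 (S0 + W - Sn n) (K * ρ ^ 3 * (1 / 2) ^ n) := by
        have h1 := Bd.tsum hτ (by norm_num) (fun k => hv (n + k)) hsm'
        rw [hts'] at h1
        refine h1.congr ?_
        intro ω hω θ
        show (∑' k, v (n + k) ω θ) = S0 ω θ + W ω θ - Sn n ω θ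
        rw [hpart n ω θ, hW]
        have h2 := (hsumv ω hω θ).sum_add_tsum_nat_add n
        have h3 : (∑' k, v (n + k) ω θ) = ∑' k, v (k + n) ω θ := by
          refine tsum_congr fun k => ?_
          rw [add_comm]
        rw [h3]
        show _ = S0 ω θ + (∑' n, v n ω θ) - (S0 ω θ + ∑ i ∈ Finset.range n, v i ω θ)
        rw [← h2]
        ring
      have hx := xp n
      have hx1 := x1 n
      have hM : K * ρ ^ 3 * (1 / 2) ^ n ≤ 1 / 16 := by nlinarith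
      have hM0 : 0 ≤ K * ρ ^ 3 * (1 / 2) ^ n := by positivity
      have hSb : Bd D (ρ ^ 2) 4 (Sn n) (1 / 16) := (hbdS n (Sn n) (hInv n)).rad hτ.le (by norm_num) (rr_ge n)
      obtain ⟨n', m', hFr⟩ := hframes n (Sn n) (hInv n)
      have ha := hFr.fa.rad hτ.le (by norm_num) (rr_ge n)
      have hk := hFr.fk.rad hτ.le (by norm_num) (rr_ge n)
      have hE := (hInv n).iii.rad hτ.le (by norm_num) (rr_ge n)
      have h2 := hF.F2 4 le_rfl (Sn n) (S0 + W - Sn n) _ hSb hM hw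
      rw [add_sub_cancel] at h2
      have h24 : (2 : ℝ) ≤ 4 := by norm_num
      have h3 := ha.mul hτ.le h24 (hw.shT hτ.le hτ4 h24)
      have h4 := (ha.mul hτ.le h24 hw).shTi hτ.le hτ4 h24
      have h5 := hk.mul hτ.le h24 hw
      have b1 := hE.abs_le hτ.le (by norm_num) hω θ
      have b2 := h2.abs_le hτ.le (by norm_num) hω θ
      have b3 := h3.abs_le hτ.le (by norm_num) hω θ
      have b4 := h4.abs_le hτ.le (by norm_num) hω θ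
      have b5 := h5.abs_le hτ.le (by norm_num) hω θ
      generalize K * ρ ^ 3 * (1 / 2) ^ n = M at *
      generalize EE (S0 + W) = E1 at *
      generalize EE (Sn n) = E2 at *
      generalize al (Sn n) * T (S0 + W - Sn n) = F1 at *
      generalize Ti (al (Sn n) * (S0 + W - Sn n)) = F2 at *
      generalize ka (Sn n) * (S0 + W - Sn n) = F3 at *
      simp only [Pi.sub_apply, Pi.add_apply] at b2
      have e : E1 ω θ = E2 ω θ + (E1 ω θ - E2 ω θ - (F1 ω θ + F2 ω θ - F3 ω θ)) + F1 ω θ + F2 ω θ - F3 ω θ := by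
        ring
      rw [e]
      rw [abs_le] at b1 b2 b3 b4 b5 ⊢
      constructor <;> linarith [b1.1, b1.2, b2.1, b2.2, b3.1, b3.2, b4.1, b4.2, b5.1, b5.2]
    have hlim : Filter.Tendsto (fun n : ℕ => (C + 1) * ρ ^ 5 * ((1 / 2 : ℝ) ^ n) ^ 20 +
        2 * (K * ρ ^ 3 * (1 / 2) ^ n) ^ 2 + 14 * (K * ρ ^ 3 * (1 / 2) ^ n)) Filter.atTop (nhds 0) := by
      have h1 : Filter.Tendsto (fun n : ℕ => ((1 / 2 : ℝ)) ^ n) Filter.atTop (nhds 0) :=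
        tendsto_pow_atTop_nhds_zero_of_lt_one (by norm_num) (by norm_num)
      have h2 := (((h1.pow 20).const_mul ((C + 1) * ρ ^ 5)).add
        (((h1.const_mul (K * ρ ^ 3)).pow 2).const_mul 2)).add ((h1.const_mul (K * ρ ^ 3)).const_mul 14)
      simpa using h2
    have h0' : |EE (S0 + W) ω θ| ≤ 0 := ge_of_tendsto' hlim hkey
    show EE (S0 + W) ω θ = 0
    exact abs_nonpos_iff.1 h0'

end Pool.Agent.MP31f1e8.KM
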