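import Pool.Agent.Lib.MP_31f1e8_mp.KM.DefsL
import Pool.Agent.Lib.MP_31f1e8_mp.KM.AlgA

/-!
The coefficient functions of the Lindstedt polynomial near `ω₀`.

Proofs. `√5 ∈ (2.236, 2.2361)`, so `w0 ∈ (0.3819, 0.382)`, `1/3 < w0 < 1/2`, `2π w0 ∈ (2π/3, π)`, `c0 < -1/2`
(`cos` is decreasing on `[0, π]`), `sin (2π w0) > 0`. `w0` is irrational. `dk_ne`: `cos (2π k w0) = cos (2π w0)`
forces (`Real.cos_eq_cos_iff`) `k w0 = 2... : 2π k w0 = 2 n π ± 2π w0`, i.e. `(k ∓ 1) w0 = n`, impossible for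
`k ≠ 1` since `w0` is irrational (`√5` is: `Nat.Prime.irrational_sqrt`); this gives `dk k w0 ≠ 0` for
`k = 0, 2, 3, 4`. `g1 w0 > 0`: `dk 0 w0 = 2(1 - c)`, `dk 2 w0 = 2(2c² - 1 - c) = 2(2c+1)(c-1)`,
`g1 = 1/(2(1-c)) - 1/(4(1-c)(2c+1)) = (4c+1)/(4(1-c)(2c+1)) > 0` as `c < -1/2`.
All the functions `dk k`, `a0, ..., g1`, `sg0` are continuous (even smooth) near `w0` and `g1 w0 ≠ 0`,
`sin (2π w0) ≠ 0`: so there are `d, L, ρ1 > 0` with `|dk k ω| ≥ d` (k = 0,2,3,4), `g1 ω ≥ d`, `sin (2πω) ≥ d` for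
`|ω - w0| ≤ 2 ρ1²`, and all of them are bounded and Lipschitz there. Convenient: the predicate
`LS E s l u : (∀ ω ∈ E, |u ω| ≤ s) ∧ (∀ ω ω' ∈ E, |u ω - u ω'| ≤ l |ω - ω'|)` with sum, product and inverse rules
(`|1/u - 1/u'| = |u' - u|/|u u'|`), applied with `E = [w0 - 2ρ1², w0]`; `Bd.ofOm` gives `s + ρ² l ≤ s + l`.
`cos` and `sin` are `1`-Lipschitz.
Amplitude: `y ω = dk 1 ω / g1 ω`. `dk 1 ω = 2 cos 2πω - 2 cos 2πw0`; by the mean value theorem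
`dk 1 ω = 4π sin(2πξ) (w0 - ω)`, so for `ω ∈ [w0 - 2ρ², w0 - ρ²]`: `c ρ² ≤ dk 1 ω ≤ C ρ²` and for two points
`|dk 1 ω - dk 1 ω'| ≤ 4π |ω - ω'|`, so `c ρ² ≤ y ≤ C ρ²`, `y` is `C`-Lipschitz, `aa = √y ∈ [cρ, Cρ]`,
`|aa ω - aa ω'| = |y - y'|/(aa + aa') ≤ C |ω - ω'|/ρ`: norm of `om aa` `≤ Cρ + ρ² (C/ρ) ≤ C' ρ`.
Lower bound: `y ω - y ω' = (dk 1 ω - dk 1 ω')/g1 ω + dk 1 ω' (1/g1 ω - 1/g1 ω')`, the first term is
`≥ c |ω - ω'|` in modulus, the second `≤ C ρ² |ω - ω'|`; so `|y - y'| ≥ (c/2)|ω - ω'|` for small `ρ` and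
`|aa - aa'| ≥ |ω - ω'|/(C ρ)`. The constant `A`: `y ω = Y(ω) (w0 - ω)` with `Y` between `0.9 Y0` and
`1.1 Y0` near `w0` (`Y0 = 4π sin(2πw0)/g1 w0`), so `0.9 Y0 ρ² ≤ aa² ≤ 2.2 Y0 ρ²`; `A = √(2.2 Y0)`: `A²/4 = 0.55 Y0`.
`w1 = -(g1 aa)/(2π sin 2πω)`: norm `≤ C ρ`.
-/

namespace Pool.Agent.MP31f1e8.KM

open Filter Topology

theorem w0_bounds : 0.3819 < w0 ∧ w0 < 0.382 := by
  have h1 : (2.236 : ℝ) < √5 := by
    rw [Real.lt_sqrt (by norm_num)]; norm_num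
  have h2 : √5 < (2.2361 : ℝ) := by
    rw [Real.sqrt_lt' (by norm_num)]; norm_num
  unfold w0
  constructor <;> linarith

theorem c0_lt : c0 < -1 / 2 := by
  have hw := w0_bounds
  have hp := Real.pi_pos
  have h1 : Real.cos (Real.pi - Real.pi / 3) = -1 / 2 := by
    rw [Real.cos_pi_sub, Real.cos_pi_div_three]; norm_num
  rw [← h1]
  unfold c0
  refine Real.cos_lt_cos_of_nonneg_of_le_pi (by linarith) ?_ ?_
  · nlinarith
  · nlinarith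

theorem c0_gt : -1 < c0 := by
  have hw := w0_bounds
  have hp := Real.pi_pos
  rw [← Real.cos_pi]
  unfold c0
  refine Real.cos_lt_cos_of_nonneg_of_le_pi ?_ le_rfl ?_
  · have : 0 < w0 := by linarith
    positivity
  · nlinarith

private theorem w0_irr (a b : ℤ) (ha : a ≠ 0) : (a : ℝ) * w0 ≠ b := by
  intro h
  have h5 : Irrational (√5) := by
    have := Nat.Prime.irrational_sqrt (p := 5) (by norm_num)
    simpa using this
  apply h5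
  have ha' : (a : ℝ) ≠ 0 := by exact_mod_cast ha
  refine ⟨3 - 2 * (b : ℚ) / a, ?_⟩
  push_cast
  unfold w0 at h
  field_simp
  linarith

theorem dk_ne {k : ℕ} (hk : k ≠ 1) : dk k w0 ≠ 0 := by
  intro h
  unfold dk c0 at h
  have h1 : Real.cos (2 * Real.pi * (k * w0)) = Real.cos (2 * Real.pi * w0) := by linarith
  have hp : Real.pi ≠ 0 := Real.pi_ne_zero
  rcases Real.cos_eq_cos_iff.1 h1 with ⟨n, hn | hn⟩
  · have e : ((1 - (k : ℤ) : ℤ) : ℝ) * w0 = (n : ℤ) := by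
      push_cast
      have : 2 * Real.pi * ((1 - (k : ℝ)) * w0) = 2 * Real.pi * n := by
        linear_combination hn
      exact mul_left_cancel₀ (by positivity) this
    exact w0_irr _ _ (by omega) e
  · have e : ((1 + (k : ℤ) : ℤ) : ℝ) * w0 = (n : ℤ) := by
      push_cast
      have : 2 * Real.pi * ((1 + (k : ℝ)) * w0) = 2 * Real.pi * n := by
        linear_combination hn
      exact mul_left_cancel₀ (by positivity) this
    exact w0_irr _ _ (by omega) e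

private theorem sin_pos : 0 < Real.sin (2 * Real.pi * w0) := by
  have hw := w0_bounds
  have hp := Real.pi_pos
  apply Real.sin_pos_of_pos_of_lt_pi
  · have : 0 < w0 := by linarith
    positivity
  · nlinarith

private theorem g1_pos : 0 < g1 w0 := by
  have h1 := c0_lt
  have e0 : dk 0 w0 = 2 * (1 - c0) := by
    unfold dk; simp; ring
  have e2 : dk 2 w0 = 2 * ((2 * c0 + 1) * (c0 - 1)) := by
    unfold dk
    have : (2 * Real.pi * (((2 : ℕ) : ℝ) * w0)) = 2 * (2 * Real.pi * w0) := by push_cast; ring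
    rw [this, Real.cos_two_mul]
    change 2 * (2 * c0 ^ 2 - 1) - 2 * c0 = _
    ring
  have p0 : 0 < dk 0 w0 := by rw [e0]; linarith
  have p2 : 0 < dk 2 w0 := by rw [e2]; nlinarith
  unfold g1 a0 a2
  positivity

private theorem cd_dk (k : ℕ) : ContDiffAt ℝ 1 (dk k) w0 := by
  unfold dk; fun_prop

private theorem cd_sin : ContDiffAt ℝ 1 (fun ω => Real.sin (2 * Real.pi * ω)) w0 := by
  fun_prop

private theorem cd_a0 : ContDiffAt ℝ 1 a0 w0 := by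
  have h := dk_ne (k := 0) (by norm_num)
  exact contDiffAt_const.div (contDiffAt_const.mul (cd_dk 0)) (by simpa using h)

private theorem cd_a2 : ContDiffAt ℝ 1 a2 w0 := by
  have h := dk_ne (k := 2) (by norm_num)
  exact contDiffAt_const.div (contDiffAt_const.mul (cd_dk 2)) (by simpa using h)

private theorem cd_a3 : ContDiffAt ℝ 1 a3 w0 :=
  cd_a2.div (cd_dk 3) (dk_ne (k := 3) (by norm_num))

private theorem cd_b0 : ContDiffAt ℝ 1 b0 w0 :=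
  ((cd_a0.pow 2).add ((cd_a2.pow 2).div_const 2)).div (cd_dk 0) (dk_ne (k := 0) (by norm_num))

private theorem cd_b2 : ContDiffAt ℝ 1 b2 w0 :=
  (cd_a3.add ((contDiffAt_const.mul cd_a0).mul cd_a2)).div (cd_dk 2)
    (dk_ne (k := 2) (by norm_num))

private theorem cd_b4 : ContDiffAt ℝ 1 b4 w0 :=
  (cd_a3.add ((cd_a2.pow 2).div_const 2)).div (cd_dk 4) (dk_ne (k := 4) (by norm_num))

private theorem cd_g1 : ContDiffAt ℝ 1 g1 w0 :=
  (contDiffAt_const.mul cd_a0).add cd_a2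

private theorem cd_sg0 : ContDiffAt ℝ 1 sg0 w0 := by
  refine cd_g1.neg.div (contDiffAt_const.mul (cd_sin.pow 2)) ?_
  have := sin_pos
  have := Real.pi_pos
  positivity

private theorem sg0_ne : sg0 w0 ≠ 0 := by
  unfold sg0
  have := sin_pos
  have := Real.pi_pos
  have := g1_pos
  exact div_ne_zero (neg_ne_zero.2 this.ne') (by positivity)

private theorem cd_h : ContDiffAt ℝ 1 (fun ω => -g1 ω / (2 * Real.pi * Real.sin (2 * Real.pi * ω)))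
    w0 := by
  refine cd_g1.neg.div (contDiffAt_const.mul cd_sin) ?_
  have := sin_pos
  have := Real.pi_pos
  positivity

/-- bound and Lipschitz constant near `w0` -/
private def Gd (f : ℝ → ℝ) (C δ : ℝ) : Prop :=
  ∀ ω, |ω - w0| ≤ δ → ∀ ω', |ω' - w0| ≤ δ → |f ω| ≤ C ∧ |f ω - f ω'| ≤ C * |ω - ω'|

private theorem ev_of_nhds {P : ℝ → Prop} (h : ∀ᶠ ω in 𝓝 w0, P ω) :
    ∀ᶠ δ in 𝓝[>] (0 : ℝ), ∀ ω, |ω - w0| ≤ δ → P ω := by
  obtain ⟨e, he, h⟩ := Metric.eventually_nhds_iff.1 h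
  filter_upwards [Ioo_mem_nhdsGT he] with δ hδ ω hω
  exact h (by rw [Real.dist_eq]; exact lt_of_le_of_lt hω hδ.2)

private theorem gd_of {f : ℝ → ℝ} (hf : ContDiffAt ℝ 1 f w0) :
    ∀ᶠ C in atTop, ∀ᶠ δ in 𝓝[>] (0 : ℝ), Gd f C δ := by
  obtain ⟨K, t, ht, hK⟩ := hf.exists_lipschitzOnWith
  filter_upwards [eventually_ge_atTop ((K : ℝ) + |f w0|), eventually_ge_atTop (K : ℝ)]
    with C hC hC'
  have h1 := ev_of_nhds (P := fun ω => ω ∈ t) ht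
  filter_upwards [h1, Ioo_mem_nhdsGT (zero_lt_one' ℝ)] with δ h1 hδ ω hω ω' hω'
  have hL : ∀ x, |x - w0| ≤ δ → ∀ y, |y - w0| ≤ δ → |f x - f y| ≤ K * |x - y| := by
    intro x hx y hy
    have := hK.dist_le_mul x (h1 x hx) y (h1 y hy)
    simpa [Real.dist_eq] using this
  have hK0 : (0 : ℝ) ≤ K := K.2
  constructor
  · have h2 := hL ω hω w0 (by simpa using hδ.1.le)
    have h3 : |f ω| ≤ |f ω - f w0| + |f w0| := by
      have := abs_add_le (f ω - f w0) (f w0)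
      simpa using this
    have h4 : (K : ℝ) * |ω - w0| ≤ K * 1 :=
      mul_le_mul_of_nonneg_left (hω.trans hδ.2.le) hK0
    linarith
  · exact (hL ω hω ω' hω').trans (mul_le_mul_of_nonneg_right hC' (abs_nonneg _))

private theorem comb {P Q : ℝ → ℝ → Prop} (h1 : ∀ᶠ C in atTop, ∀ᶠ δ in 𝓝[>] (0 : ℝ), P C δ)
    (h2 : ∀ᶠ C in atTop, ∀ᶠ δ in 𝓝[>] (0 : ℝ), Q C δ) :
    ∀ᶠ C in atTop, ∀ᶠ δ in 𝓝[>] (0 : ℝ), P C δ ∧ Q C δ := by
  filter_upwards [h1, h2] with C a b using a.and b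

private theorem bd_of_gd {f : ℝ → ℝ} {C δ ρ r : ℝ} {D : Set ℝ} (hC : 0 ≤ C) (hρ : 0 < ρ)
    (hρ1 : ρ ≤ 1) (hD : ∀ ω ∈ D, |ω - w0| ≤ δ) (h : Gd f C δ) : Bd D (ρ ^ 2) r (om f) (2 * C) := by
  refine (Bd.ofOm (s := C) (l := C) hC hC (fun ω hω => (h ω (hD ω hω) ω (hD ω hω)).1)
    (fun ω hω ω' hω' => (h ω (hD ω hω) ω' (hD ω' hω')).2)).mono ?_
  have : ρ ^ 2 * C ≤ 1 * C := mul_le_mul_of_nonneg_right (by nlinarith) hC
  linarith

/-- the strict derivative of `y = dk 1 / g1` at `w0` -/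
private theorem strict_y : ∃ Y : ℝ, 0 < Y ∧ ∀ᶠ δ in 𝓝[>] (0 : ℝ), ∀ ω, |ω - w0| ≤ δ →
    ∀ ω', |ω' - w0| ≤ δ →
      |dk 1 ω / g1 ω - dk 1 ω' / g1 ω' + Y * (ω - ω')| ≤ Y / 10 * |ω - ω'| := by
  have hg := g1_pos
  have hs := sin_pos
  have hp := Real.pi_pos
  have hcd : ContDiffAt ℝ 1 (fun ω => dk 1 ω / g1 ω) w0 := (cd_dk 1).div cd_g1 hg.ne'
  have hd1 : HasDerivAt (dk 1) (-(4 * Real.pi * Real.sin (2 * Real.pi * w0))) w0 := by
    have h0 : HasDerivAt (fun ω : ℝ => 2 * Real.pi * (((1 : ℕ) : ℝ) * ω)) (2 * Real.pi) w0 := by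
      have := ((hasDerivAt_id w0).const_mul (((1 : ℕ) : ℝ))).const_mul (2 * Real.pi)
      simpa using this
    have h1 := ((h0.cos).const_mul 2).sub_const (2 * c0)
    have e : 2 * (-Real.sin (2 * Real.pi * (((1 : ℕ) : ℝ) * w0)) * (2 * Real.pi)) =
        -(4 * Real.pi * Real.sin (2 * Real.pi * w0)) := by
      push_cast; rw [one_mul]; ring
    rw [e] at h1
    exact h1
  have hdk1 : dk 1 w0 = 0 := by
    unfold dk c0; push_cast; rw [one_mul]; ring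
  have hgd : DifferentiableAt ℝ g1 w0 := cd_g1.differentiableAt (by norm_num)
  have hdq : HasDerivAt (fun ω => dk 1 ω / g1 ω)
      (-(4 * Real.pi * Real.sin (2 * Real.pi * w0) / g1 w0)) w0 := by
    have h := hd1.fun_div hgd.hasDerivAt hg.ne'
    have e : (-(4 * Real.pi * Real.sin (2 * Real.pi * w0)) * g1 w0 - dk 1 w0 * deriv g1 w0) /
        g1 w0 ^ 2 = -(4 * Real.pi * Real.sin (2 * Real.pi * w0) / g1 w0) := by
      rw [hdk1]; field_simp; ring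
    rw [e] at h
    exact h
  set Y : ℝ := 4 * Real.pi * Real.sin (2 * Real.pi * w0) / g1 w0 with hY
  have hYpos : 0 < Y := by positivity
  refine ⟨Y, hYpos, ?_⟩
  have hst : HasStrictDerivAt (fun ω => dk 1 ω / g1 ω) (-Y) w0 :=
    hcd.hasStrictDerivAt' hdq (by norm_num)
  have hlo := hst.hasStrictFDerivAt.isLittleO.def (c := Y / 10) (by positivity)
  obtain ⟨e, he, h⟩ := Metric.eventually_nhds_iff.1 hlo
  filter_upwards [Ioo_mem_nhdsGT he] with δ hδ ω hω ω' hω'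
  have h2 := h (y := (ω, ω')) (by
    rw [Prod.dist_eq, Real.dist_eq, Real.dist_eq]
    exact max_lt (lt_of_le_of_lt hω hδ.2) (lt_of_le_of_lt hω' hδ.2))
  simp only [Real.norm_eq_abs] at h2
  convert h2 using 2
  simp
  ring

/-- all the bounds for the coefficient functions -/
theorem linA : ∃ C A ρ1 : ℝ, 1 ≤ C ∧ 0 < A ∧ 0 < ρ1 ∧ ρ1 ≤ 1 / 2 ∧ ∀ ρ : ℝ, 0 < ρ → ρ ≤ ρ1 →
    ∀ D : Set ℝ, D ⊆ Set.Icc (w0 - 2 * ρ ^ 2) (w0 - ρ ^ 2) →
    (∀ r, Bd D (ρ ^ 2) r (om a0) C ∧ Bd D (ρ ^ 2) r (om a2) C ∧ Bd D (ρ ^ 2) r (om a3) C ∧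
      Bd D (ρ ^ 2) r (om b0) C ∧ Bd D (ρ ^ 2) r (om b2) C ∧ Bd D (ρ ^ 2) r (om b4) C ∧
      Bd D (ρ ^ 2) r (om g1) C ∧ Bd D (ρ ^ 2) r (om sg0) C ∧
      Bd D (ρ ^ 2) r (om fun ω => (sg0 ω)⁻¹) C ∧ Bd D (ρ ^ 2) r (om aa) (C * ρ) ∧
      Bd D (ρ ^ 2) r (om fun ω => (aa ω)⁻¹) (C / ρ) ∧ Bd D (ρ ^ 2) r (om w1) (C * ρ) ∧
      Bd D (ρ ^ 2) r (om fun ω => Real.sin (2 * Real.pi * ω)) C ∧
      Bd D (ρ ^ 2) r (om fun ω => (Real.sin (2 * Real.pi * ω))⁻¹) C) ∧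
    ∀ ω ∈ D, dk 0 ω ≠ 0 ∧ dk 2 ω ≠ 0 ∧ dk 3 ω ≠ 0 ∧ dk 4 ω ≠ 0 ∧ 0 < g1 ω ∧
      0 < Real.sin (2 * Real.pi * ω) ∧ sg0 ω ≠ 0 ∧ dk 1 ω = g1 ω * aa ω ^ 2 ∧ ρ / C ≤ aa ω ∧
      aa ω ≤ C * ρ ∧ A * ρ / 2 ≤ aa ω ∧ aa ω ≤ A * ρ ∧ ∀ ω' ∈ D, |ω - ω'| ≤ C * ρ * |aa ω - aa ω'| := by
  have hg := g1_pos
  have hs := sin_pos
  obtain ⟨Y, hY, hyev⟩ := strict_y
  -- the bounds near `w0`
  have E : ∀ᶠ C in atTop, ∀ᶠ δ in 𝓝[>] (0 : ℝ), (((((Gd a0 C δ ∧ Gd a2 C δ) ∧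
      (Gd a3 C δ ∧ Gd b0 C δ)) ∧ ((Gd b2 C δ ∧ Gd b4 C δ) ∧ (Gd g1 C δ ∧ Gd sg0 C δ))) ∧
      ((Gd (fun ω => (sg0 ω)⁻¹) C δ ∧ Gd (fun ω => Real.sin (2 * Real.pi * ω)) C δ) ∧
      (Gd (fun ω => (Real.sin (2 * Real.pi * ω))⁻¹) C δ ∧
        Gd (fun ω => -g1 ω / (2 * Real.pi * Real.sin (2 * Real.pi * ω))) C δ)))) :=
    comb (comb (comb (comb (gd_of cd_a0) (gd_of cd_a2)) (comb (gd_of cd_a3) (gd_of cd_b0)))
      (comb (comb (gd_of cd_b2) (gd_of cd_b4)) (comb (gd_of cd_g1) (gd_of cd_sg0))))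
      (comb (comb (gd_of (cd_sg0.inv sg0_ne)) (gd_of cd_sin))
        (comb (gd_of (cd_sin.inv hs.ne')) (gd_of cd_h)))
  obtain ⟨C1, hE, hC1⟩ := (E.and (eventually_ge_atTop (1 : ℝ))).exists
  have F0 : ∀ k : ℕ, k ≠ 1 → ∀ᶠ δ in 𝓝[>] (0 : ℝ), ∀ ω, |ω - w0| ≤ δ → dk k ω ≠ 0 :=
    fun k hk => ev_of_nhds ((cd_dk k).continuousAt.eventually_ne (dk_ne hk))
  have Fg : ∀ᶠ δ in 𝓝[>] (0 : ℝ), ∀ ω, |ω - w0| ≤ δ → 0 < g1 ω :=
    ev_of_nhds (cd_g1.continuousAt.eventually_const_lt hg)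
  have Fs : ∀ᶠ δ in 𝓝[>] (0 : ℝ), ∀ ω, |ω - w0| ≤ δ → 0 < Real.sin (2 * Real.pi * ω) :=
    ev_of_nhds (cd_sin.continuousAt.eventually_const_lt hs)
  obtain ⟨δ, ⟨⟨⟨⟨⟨⟨hE, hy⟩, h0⟩, h2⟩, h3⟩, h4⟩, hgp⟩, hsp, hδ⟩ :=
    ((((((hE.and hyev).and (F0 0 (by norm_num))).and (F0 2 (by norm_num))).and
      (F0 3 (by norm_num))).and (F0 4 (by norm_num))).and Fg).and
      (Fs.and self_mem_nhdsWithin) |>.exists
  have hδ0 : 0 < δ := hδ
  obtain ⟨⟨⟨⟨k1, k2⟩, k3, k4⟩, ⟨k5, k6⟩, k7, k8⟩, ⟨k9, k10⟩, k11, k12⟩ := hE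
  -- constants
  set A : ℝ := √(2.2 * Y) with hA
  have hApos : 0 < A := Real.sqrt_pos.2 (by positivity)
  have hA2 : A ^ 2 = 2.2 * Y := Real.sq_sqrt (by positivity)
  set L : ℝ := 1.1 * Y / A with hL
  have hLpos : 0 < L := by positivity
  set Q : ℝ := 2 * A / (0.9 * Y) with hQ
  have hQpos : 0 < Q := by positivity
  set C : ℝ := 2 * C1 + (A + L) + (2 / A + 4 * L / A ^ 2) + C1 * (2 * A + L) + Q with hCdef
  have hC1' : 0 < C1 := by linarith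
  have t1 : 0 < A + L := by positivity
  have t2 : 0 < 2 / A + 4 * L / A ^ 2 := by positivity
  have t3 : 0 < C1 * (2 * A + L) := by positivity
  refine ⟨C, A, min (1 / 2) δ, by rw [hCdef]; linarith, hApos, lt_min (by norm_num) hδ0,
    min_le_left _ _, ?_⟩
  intro ρ hρ hρ1 D hD
  have hρh : ρ ≤ 1 / 2 := hρ1.trans (min_le_left _ _)
  have hρδ : ρ ≤ δ := hρ1.trans (min_le_right _ _)
  have hρ2 : 2 * ρ ^ 2 ≤ δ := by nlinarith
  have hDδ : ∀ ω ∈ D, |ω - w0| ≤ δ := by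
    intro ω hω
    have := hD hω
    rw [abs_le]
    constructor
    · linarith [this.1]
    · nlinarith [this.2]
  have hw0 : |w0 - w0| ≤ δ := by simpa using hδ0.le
  have hy0 : dk 1 w0 / g1 w0 = 0 := by
    have : dk 1 w0 = 0 := by unfold dk c0; push_cast; rw [one_mul]; ring
    rw [this, zero_div]
  -- values of `y`
  have hyv : ∀ ω ∈ D, 0.9 * Y * ρ ^ 2 ≤ dk 1 ω / g1 ω ∧ dk 1 ω / g1 ω ≤ 2.2 * Y * ρ ^ 2 := by
    intro ω hω
    have h := hy ω (hDδ ω hω) w0 hw0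
    rw [hy0, sub_zero, abs_le] at h
    have hω' := hD hω
    have hneg : ω - w0 ≤ -ρ ^ 2 := by linarith [hω'.2]
    have hneg2 : -(2 * ρ ^ 2) ≤ ω - w0 := by linarith [hω'.1]
    have habs : |ω - w0| = -(ω - w0) := abs_of_nonpos (by nlinarith)
    rw [habs] at h
    have m1 : Y * (ω - w0) ≤ Y * (-ρ ^ 2) := mul_le_mul_of_nonneg_left hneg hY.le
    have m2 : Y * (-(2 * ρ ^ 2)) ≤ Y * (ω - w0) := mul_le_mul_of_nonneg_left hneg2 hY.le
    constructor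
    · linarith [h.1]
    · linarith [h.2]
  have haasq : ∀ ω ∈ D, aa ω ^ 2 = dk 1 ω / g1 ω := by
    intro ω hω
    unfold aa
    exact Real.sq_sqrt (le_trans (by positivity) (hyv ω hω).1)
  have haann : ∀ ω, 0 ≤ aa ω := fun ω => Real.sqrt_nonneg _
  have hup : ∀ ω ∈ D, aa ω ≤ A * ρ := by
    intro ω hω
    refine abs_le_of_sq_le_sq' ?_ (by positivity) |>.2
    rw [haasq ω hω, mul_pow, hA2]
    exact (hyv ω hω).2
  have hlow : ∀ ω ∈ D, A * ρ / 2 ≤ aa ω := by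
    intro ω hω
    refine abs_le_of_sq_le_sq' ?_ (haann ω) |>.2
    rw [haasq ω hω]
    have : (A * ρ / 2) ^ 2 = A ^ 2 * ρ ^ 2 / 4 := by ring
    rw [this, hA2]
    have h := (hyv ω hω).1
    have : 0 ≤ Y * ρ ^ 2 := by positivity
    linarith
  have hAρ : 0 < A * ρ := by positivity
  have hdiff : ∀ ω ∈ D, ∀ ω' ∈ D, 0.9 * Y * |ω - ω'| ≤ |dk 1 ω / g1 ω - dk 1 ω' / g1 ω'| ∧
      |dk 1 ω / g1 ω - dk 1 ω' / g1 ω'| ≤ 1.1 * Y * |ω - ω'| := by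
    intro ω hω ω' hω'
    have h := hy ω (hDδ ω hω) ω' (hDδ ω' hω')
    set u := dk 1 ω / g1 ω - dk 1 ω' / g1 ω'
    have e1 : |Y * (ω - ω')| = Y * |ω - ω'| := by rw [abs_mul, abs_of_pos hY]
    have h1 : |Y * (ω - ω')| ≤ |u + Y * (ω - ω')| + |u| := by
      have := abs_sub (u + Y * (ω - ω')) u
      simpa using this
    have h2 : |u| ≤ |u + Y * (ω - ω')| + |Y * (ω - ω')| := by
      have := abs_sub (u + Y * (ω - ω')) (Y * (ω - ω'))
      simpa using this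
    rw [e1] at h1 h2
    constructor <;> linarith
  have hfac : ∀ ω ∈ D, ∀ ω' ∈ D, |dk 1 ω / g1 ω - dk 1 ω' / g1 ω'| =
      |aa ω - aa ω'| * (aa ω + aa ω') := by
    intro ω hω ω' hω'
    rw [← haasq ω hω, ← haasq ω' hω', sq_sub_sq, abs_mul,
      abs_of_nonneg (add_nonneg (haann ω) (haann ω')), mul_comm]
  have hlip : ∀ ω ∈ D, ∀ ω' ∈ D, |aa ω - aa ω'| ≤ L / ρ * |ω - ω'| := by
    intro ω hω ω' hω'
    have h1 := (hdiff ω hω ω' hω').2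
    rw [hfac ω hω ω' hω'] at h1
    have h2 : A * ρ ≤ aa ω + aa ω' := by linarith [hlow ω hω, hlow ω' hω']
    have h3 : |aa ω - aa ω'| * (A * ρ) ≤ 1.1 * Y * |ω - ω'| :=
      (mul_le_mul_of_nonneg_left h2 (abs_nonneg _)).trans h1
    have e : L / ρ * |ω - ω'| = 1.1 * Y * |ω - ω'| / (A * ρ) := by
      rw [hL]; field_simp
    rw [e, le_div_iff₀ hAρ]
    exact h3
  have hrev : ∀ ω ∈ D, ∀ ω' ∈ D, |ω - ω'| ≤ Q * ρ * |aa ω - aa ω'| := by
    intro ω hω ω' hω'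
    have h1 := (hdiff ω hω ω' hω').1
    rw [hfac ω hω ω' hω'] at h1
    have h2 : aa ω + aa ω' ≤ 2 * (A * ρ) := by linarith [hup ω hω, hup ω' hω']
    have h3 : 0.9 * Y * |ω - ω'| ≤ |aa ω - aa ω'| * (2 * (A * ρ)) :=
      h1.trans (mul_le_mul_of_nonneg_left h2 (abs_nonneg _))
    have e : Q * ρ * |aa ω - aa ω'| = |aa ω - aa ω'| * (2 * (A * ρ)) / (0.9 * Y) := by
      rw [hQ]; field_simp
    rw [e, le_div_iff₀ (by positivity)]
    linarith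
  have hpos : ∀ ω ∈ D, 0 < aa ω := fun ω hω => lt_of_lt_of_le (by positivity) (hlow ω hω)
  have hCb : 2 * C1 ≤ C := by rw [hCdef]; linarith
  have bd : ∀ r, ∀ f : ℝ → ℝ, Gd f C1 δ → Bd D (ρ ^ 2) r (om f) C := fun r f hf =>
    (bd_of_gd hC1'.le hρ (by linarith) hDδ hf).mono hCb
  refine ⟨fun r => ⟨bd r _ k1, bd r _ k2, bd r _ k3, bd r _ k4, bd r _ k5, bd r _ k6, bd r _ k7,
    bd r _ k8, bd r _ k9, ?_, ?_, ?_, bd r _ k10, bd r _ k11⟩, ?_⟩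
  · refine (Bd.ofOm (s := A * ρ) (l := L / ρ) hAρ.le (by positivity) (fun ω hω => ?_)
      hlip).mono ?_
    · rw [abs_of_nonneg (haann ω)]; exact hup ω hω
    · have e : A * ρ + ρ ^ 2 * (L / ρ) = (A + L) * ρ := by field_simp
      rw [e]
      exact mul_le_mul_of_nonneg_right (by rw [hCdef]; linarith) hρ.le
  · refine (Bd.ofOm (s := 2 / A / ρ) (l := 4 * L / A ^ 2 / ρ ^ 3) (by positivity) (by positivity)
      (fun ω hω => ?_) (fun ω hω ω' hω' => ?_)).mono ?_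
    · rw [abs_of_nonneg (inv_nonneg.2 (haann ω))]
      have e : 2 / A / ρ = (A * ρ / 2)⁻¹ := by field_simp
      rw [e]
      exact inv_anti₀ (by positivity) (hlow ω hω)
    · have p1 := hpos ω hω
      have p2 := hpos ω' hω'
      have e1 : (aa ω)⁻¹ - (aa ω')⁻¹ = (aa ω' - aa ω) * ((aa ω)⁻¹ * (aa ω')⁻¹) := by
        field_simp
      rw [e1, abs_mul, abs_sub_comm, abs_of_nonneg (a := (aa ω)⁻¹ * (aa ω')⁻¹) (by positivity)]
      have i1 : (aa ω)⁻¹ ≤ 2 / A / ρ := by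
        have e : 2 / A / ρ = (A * ρ / 2)⁻¹ := by field_simp
        rw [e]
        exact inv_anti₀ (by positivity) (hlow ω hω)
      have i2 : (aa ω')⁻¹ ≤ 2 / A / ρ := by
        have e : 2 / A / ρ = (A * ρ / 2)⁻¹ := by field_simp
        rw [e]
        exact inv_anti₀ (by positivity) (hlow ω' hω')
      calc |aa ω - aa ω'| * ((aa ω)⁻¹ * (aa ω')⁻¹)
          ≤ (L / ρ * |ω - ω'|) * ((2 / A / ρ) * (2 / A / ρ)) :=
            mul_le_mul (hlip ω hω ω' hω') (mul_le_mul i1 i2 (by positivity) (by positivity))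
              (by positivity) (by positivity)
        _ = 4 * L / A ^ 2 / ρ ^ 3 * |ω - ω'| := by field_simp; ring
    · have e : 2 / A / ρ + ρ ^ 2 * (4 * L / A ^ 2 / ρ ^ 3) = (2 / A + 4 * L / A ^ 2) / ρ := by
        field_simp
      rw [e]
      exact div_le_div_of_nonneg_right (by rw [hCdef]; linarith) hρ.le
  · have ew : ∀ ω, w1 ω = -g1 ω / (2 * Real.pi * Real.sin (2 * Real.pi * ω)) * aa ω := by
      intro ω; unfold w1; ring
    set h : ℝ → ℝ := fun ω => -g1 ω / (2 * Real.pi * Real.sin (2 * Real.pi * ω)) with hh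
    have e1 : om w1 = om (fun ω => h ω * aa ω) := by
      funext ω θ
      exact ew ω
    rw [e1]
    refine (Bd.ofOm (s := C1 * (A * ρ)) (l := C1 * (L / ρ) + C1 * (A * ρ)) (by positivity)
      (by positivity) (fun ω hω => ?_) (fun ω hω ω' hω' => ?_)).mono ?_
    · rw [abs_mul, abs_of_nonneg (haann ω)]
      exact mul_le_mul (k12 ω (hDδ ω hω) ω (hDδ ω hω)).1 (hup ω hω) (haann ω) hC1'.le
    · have e2 : h ω * aa ω - h ω' * aa ω' = h ω * (aa ω - aa ω') + (h ω - h ω') * aa ω' := by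
        ring
      rw [e2]
      refine (abs_add_le _ _).trans ?_
      rw [abs_mul, abs_mul, add_mul, abs_of_nonneg (haann ω')]
      have q1 := (k12 ω (hDδ ω hω) ω' (hDδ ω' hω')).1
      have q2 := (k12 ω (hDδ ω hω) ω' (hDδ ω' hω')).2
      refine add_le_add ?_ ?_
      · rw [mul_assoc]
        exact mul_le_mul q1 (hlip ω hω ω' hω') (abs_nonneg _) hC1'.le
      · calc |h ω - h ω'| * aa ω' ≤ (C1 * |ω - ω'|) * (A * ρ) :=
              mul_le_mul q2 (hup ω' hω') (haann ω') (by positivity)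
          _ = C1 * (A * ρ) * |ω - ω'| := by ring
    · have e3 : C1 * (A * ρ) + ρ ^ 2 * (C1 * (L / ρ) + C1 * (A * ρ)) =
          (C1 * (A + L) + C1 * A * ρ ^ 2) * ρ := by field_simp; ring
      rw [e3]
      refine mul_le_mul_of_nonneg_right ?_ hρ.le
      have hq : ρ ^ 2 ≤ 1 := pow_le_one₀ hρ.le (by linarith)
      have : C1 * A * ρ ^ 2 ≤ C1 * A * 1 :=
        mul_le_mul_of_nonneg_left hq (mul_nonneg hC1'.le hApos.le)
      have e4 : C1 * (2 * A + L) = C1 * (A + L) + C1 * A * 1 := by ring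
      rw [hCdef, e4]
      linarith
  · intro ω hω
    have hωδ := hDδ ω hω
    have p1 := hgp ω hωδ
    have p2 := hsp ω hωδ
    refine ⟨h0 ω hωδ, h2 ω hωδ, h3 ω hωδ, h4 ω hωδ, p1, p2, ?_, ?_, ?_, ?_, hlow ω hω,
      hup ω hω, ?_⟩
    · unfold sg0
      have := Real.pi_pos
      exact div_ne_zero (neg_ne_zero.2 p1.ne') (by positivity)
    · rw [haasq ω hω]; field_simp
    · have hCA : 2 / A ≤ C := by
        have : 0 < 4 * L / A ^ 2 := by positivity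
        rw [hCdef]; linarith
      have hCp : 0 < C := lt_of_lt_of_le (by positivity) hCA
      rw [div_le_iff₀ hCp]
      calc ρ = (A * ρ / 2) * (2 / A) := by field_simp
        _ ≤ aa ω * C := mul_le_mul (hlow ω hω) hCA (by positivity) (haann ω)
    · exact (hup ω hω).trans (mul_le_mul_of_nonneg_right (by rw [hCdef]; linarith) hρ.le)
    · intro ω' hω'
      refine (hrev ω hω ω' hω').trans ?_
      refine mul_le_mul_of_nonneg_right ?_ (abs_nonneg _)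
      exact mul_le_mul_of_nonneg_right (by rw [hCdef]; linarith) hρ.le

end Pool.Agent.MP31f1e8.KM
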