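import Pool.Agent.Lib.MP_31f1e8_mp.KM.LinA
import Pool.Agent.Lib.MP_31f1e8_mp.KM.Mul
import Pool.Agent.Lib.MP_31f1e8_mp.KM.Der
import Pool.Agent.Lib.MP_31f1e8_mp.KM.Shift

/-!
The Lindstedt polynomial is an approximate solution with error `C ρ ^ 5`.

Write `a = aa ω`, `x = cs 1` etc. `T (cs k) + Ti (cs k) = 2 cos(2πkω) cs k` (`cs_shift`), so
`hen c0 SL = dk1 a cs1 + a² (dk0 a0 + dk2 a2 cs2) + a³ dk3 a3 cs3 + a⁴ (dk0 b0 + dk2 b2 cs2 + dk4 b4 cs4) - SL²`.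
With `dk0 a0 = 1/2`, `dk2 a2 = 1/2`, `dk3 a3 = a2`, `dk1 = g1 a²`, `dk0 b0 = a0² + a2²/2`, `dk2 b2 = a3 + 2 a0 a2`,
`dk4 b4 = a3 + a2²/2` and the product formulas (`cs_mul`) `cs1² = (1 + cs2)/2`, `cs1 cs2 = (cs1 + cs3)/2`,
`cs1 cs3 = (cs2 + cs4)/2`, `cs2² = (1 + cs4)/2`:
order `a²`: `u1² = 1/2 + cs2/2`; order `a³`: `g1 cs1 + a2 cs3 = 2 u1 u2`; order `a⁴`: `2 u1 u3 + u2²` :
`a3 (cs2 + cs4) + a0² + 2 a0 a2 cs2 + a2² (1 + cs4)/2`. So (with `u1 = cs1`)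
`hen c0 SL = - a⁵ (2 u1 u4 + 2 u2 u3) - a⁶ (2 u2 u4 + u3²) - a⁷ 2 u3 u4 - a⁸ u4²` on `D` (`hen_SL`; at a point: all
harmonics are polynomials in `x = cos 2πθ`: `cs2 = 2x²-1`, `cs3 = 4x³-3x`, `cs4 = 8x⁴-8x²+1`; then
`linear_combination` with the relations for `dk`).
Bounds: `om aa` has norm `≤ C ρ`, the `u_j` have norm `≤ C (1 + 8^2 + 8^4)` (`Bd.ofCos`: `cs k` has norm `8^k`), so
`linB` follows with `Bd.mul`, `Bd.pow`, `Bd.add`, `Bd.congr` (`ρ ≤ 1`). `dd SL`: `dd_SL` by differentiating: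
`dd SL = -2π (a sn1 + a² 2 a2 sn2 + a³ 3 a3 sn3 + a⁴ (2 b2 sn2 + 4 b4 sn4))`, norm `≤ C ρ`.
-/

namespace Pool.Agent.MP31f1e8.KM

theorem cs_shift (k : ℕ) :
    T (cs k) + Ti (cs k) = om (fun ω => 2 * Real.cos (2 * Real.pi * (k * ω))) * cs k := by
  funext ω θ
  show Real.cos (2 * Real.pi * (k * (θ + ω))) + Real.cos (2 * Real.pi * (k * (θ - ω))) =
    2 * Real.cos (2 * Real.pi * (k * ω)) * Real.cos (2 * Real.pi * (k * θ))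
  have h1 : 2 * Real.pi * (k * (θ + ω)) = 2 * Real.pi * (k * θ) + 2 * Real.pi * (k * ω) := by ring
  have h2 : 2 * Real.pi * (k * (θ - ω)) = 2 * Real.pi * (k * θ) - 2 * Real.pi * (k * ω) := by ring
  rw [h1, h2, Real.cos_add, Real.cos_sub]
  ring

private theorem lb_cs (k : ℕ) (ω θ : ℝ) :
    HasDerivAt (cs k ω) (-2 * Real.pi * (k * sn k ω θ)) θ := by
  have h1 : HasDerivAt (fun θ : ℝ => 2 * Real.pi * ((k : ℝ) * θ)) (2 * Real.pi * ((k : ℝ) * 1)) θ :=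
    ((hasDerivAt_id θ).const_mul (k : ℝ)).const_mul (2 * Real.pi)
  have h2 := h1.cos
  have h3 : -Real.sin (2 * Real.pi * ((k : ℝ) * θ)) * (2 * Real.pi * ((k : ℝ) * 1)) =
      -2 * Real.pi * (k * sn k ω θ) := by
    show _ = -2 * Real.pi * (k * Real.sin (2 * Real.pi * (k * θ)))
    ring
  rw [← h3]
  exact h2

theorem dd_SL : dd SL = kk (-2 * Real.pi) * (om aa * sn 1 + kk 2 * om aa ^ 2 * om a2 * sn 2 +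
    kk 3 * om aa ^ 3 * om a3 * sn 3 + om aa ^ 4 * (kk 2 * om b2 * sn 2 + kk 4 * om b4 * sn 4)) := by
  funext ω θ
  have h1 := (lb_cs 1 ω θ).const_mul (aa ω)
  have h2 := (((lb_cs 2 ω θ).const_mul (a2 ω)).const_add (a0 ω)).const_mul (aa ω ^ 2)
  have h3 := ((lb_cs 3 ω θ).const_mul (a3 ω)).const_mul (aa ω ^ 3)
  have h4 := ((((lb_cs 2 ω θ).const_mul (b2 ω)).const_add (b0 ω)).add
    ((lb_cs 4 ω θ).const_mul (b4 ω))).const_mul (aa ω ^ 4)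
  have h5 : HasDerivAt (SL ω) _ θ := ((h1.add h2).add h3).add h4
  show deriv (SL ω) θ = -2 * Real.pi * (aa ω * sn 1 ω θ + 2 * aa ω ^ 2 * a2 ω * sn 2 ω θ +
    3 * aa ω ^ 3 * a3 ω * sn 3 ω θ + aa ω ^ 4 * (2 * b2 ω * sn 2 ω θ + 4 * b4 ω * sn 4 ω θ))
  rw [h5.deriv]
  push_cast
  ring

private theorem lb_alg (a d0 d1 d2 d3 d4 a0 a2 a3 b0 b2 b4 x c2 c3 c4 : ℝ) (e0 : 2 * (d0 * a0) = 1)
    (e2 : 2 * (d2 * a2) = 1) (e3 : d3 * a3 = a2) (f0 : d0 * b0 = a0 ^ 2 + a2 ^ 2 / 2)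
    (f2 : d2 * b2 = a3 + 2 * a0 * a2) (f4 : d4 * b4 = a3 + a2 ^ 2 / 2)
    (e1 : d1 = (2 * a0 + a2) * a ^ 2) (h2 : c2 = 2 * x ^ 2 - 1) (h3 : c3 = 4 * x ^ 3 - 3 * x)
    (h4 : c4 = 8 * x ^ 4 - 8 * x ^ 2 + 1) :
    a * (d1 * x) + a ^ 2 * (d0 * a0 + a2 * (d2 * c2)) + a ^ 3 * (a3 * (d3 * c3)) +
      a ^ 4 * (d0 * b0 + b2 * (d2 * c2) + b4 * (d4 * c4)) -
      (a * x + a ^ 2 * (a0 + a2 * c2) + a ^ 3 * (a3 * c3) + a ^ 4 * (b0 + b2 * c2 + b4 * c4)) ^ 2 =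
    -(a ^ 5 * (2 * x * (b0 + b2 * c2 + b4 * c4) + 2 * (a0 + a2 * c2) * (a3 * c3)) +
      a ^ 6 * (2 * (a0 + a2 * c2) * (b0 + b2 * c2 + b4 * c4) + (a3 * c3) ^ 2) +
      a ^ 7 * (2 * (a3 * c3) * (b0 + b2 * c2 + b4 * c4)) + a ^ 8 * (b0 + b2 * c2 + b4 * c4) ^ 2) := by
  subst h2 h3 h4
  linear_combination a * x * e1 + a ^ 2 / 2 * e0 + a ^ 2 / 2 * (2 * x ^ 2 - 1) * e2 +
    a ^ 3 * (4 * x ^ 3 - 3 * x) * e3 + a ^ 4 * f0 + a ^ 4 * (2 * x ^ 2 - 1) * f2 +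
    a ^ 4 * (8 * x ^ 4 - 8 * x ^ 2 + 1) * f4

private theorem lb_sh (k : ℕ) (ω θ : ℝ) :
    cs k ω (θ + ω) + cs k ω (θ - ω) = (dk k ω + 2 * c0) * cs k ω θ := by
  have h1 := congrFun (congrFun (cs_shift k) ω) θ
  have h2 : cs k ω (θ + ω) + cs k ω (θ - ω) = 2 * Real.cos (2 * Real.pi * (k * ω)) * cs k ω θ := h1
  rw [h2]
  unfold dk
  ring

theorem hen_SL {ω : ℝ} (h0 : dk 0 ω ≠ 0) (h2 : dk 2 ω ≠ 0) (h3 : dk 3 ω ≠ 0) (h4 : dk 4 ω ≠ 0)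
    (h1 : dk 1 ω = g1 ω * aa ω ^ 2) (θ : ℝ) :
    hen c0 SL ω θ = -(aa ω ^ 5 * (2 * cs 1 ω θ * u4 ω θ + 2 * u2 ω θ * u3 ω θ) +
      aa ω ^ 6 * (2 * u2 ω θ * u4 ω θ + u3 ω θ ^ 2) + aa ω ^ 7 * (2 * u3 ω θ * u4 ω θ) +
      aa ω ^ 8 * u4 ω θ ^ 2) := by
  have hd0 : dk 0 ω = 2 - 2 * c0 := by
    unfold dk
    simp
  have e0 : 2 * (dk 0 ω * a0 ω) = 1 := by
    unfold a0
    field_simp
  have e2 : 2 * (dk 2 ω * a2 ω) = 1 := by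
    unfold a2
    field_simp
  have e3 : dk 3 ω * a3 ω = a2 ω := by
    unfold a3
    field_simp
  have f0 : dk 0 ω * b0 ω = a0 ω ^ 2 + a2 ω ^ 2 / 2 := by
    unfold b0
    field_simp
  have f2 : dk 2 ω * b2 ω = a3 ω + 2 * a0 ω * a2 ω := by
    unfold b2
    field_simp
  have f4 : dk 4 ω * b4 ω = a3 ω + a2 ω ^ 2 / 2 := by
    unfold b4
    field_simp
  have g2 : cs 2 ω θ = 2 * cs 1 ω θ ^ 2 - 1 := by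
    show Real.cos (2 * Real.pi * ((2 : ℕ) * θ)) = 2 * Real.cos (2 * Real.pi * ((1 : ℕ) * θ)) ^ 2 - 1
    rw [← Real.cos_two_mul]
    congr 1
    push_cast
    ring
  have g3 : cs 3 ω θ = 4 * cs 1 ω θ ^ 3 - 3 * cs 1 ω θ := by
    show Real.cos (2 * Real.pi * ((3 : ℕ) * θ)) = 4 * Real.cos (2 * Real.pi * ((1 : ℕ) * θ)) ^ 3 -
      3 * Real.cos (2 * Real.pi * ((1 : ℕ) * θ))
    rw [← Real.cos_three_mul]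
    congr 1
    push_cast
    ring
  have g4 : cs 4 ω θ = 8 * cs 1 ω θ ^ 4 - 8 * cs 1 ω θ ^ 2 + 1 := by
    have h5 : cs 4 ω θ = 2 * cs 2 ω θ ^ 2 - 1 := by
      show Real.cos (2 * Real.pi * ((4 : ℕ) * θ)) = 2 * Real.cos (2 * Real.pi * ((2 : ℕ) * θ)) ^ 2 - 1
      rw [← Real.cos_two_mul]
      congr 1
      push_cast
      ring
    rw [h5, g2]
    ring
  have key := lb_alg (aa ω) (dk 0 ω) (dk 1 ω) (dk 2 ω) (dk 3 ω) (dk 4 ω) (a0 ω) (a2 ω) (a3 ω) (b0 ω)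
    (b2 ω) (b4 ω) (cs 1 ω θ) (cs 2 ω θ) (cs 3 ω θ) (cs 4 ω θ) e0 e2 e3 f0 f2 f4 h1 g2 g3 g4
  have s1 := lb_sh 1 ω θ
  have s2 := lb_sh 2 ω θ
  have s3 := lb_sh 3 ω θ
  have s4 := lb_sh 4 ω θ
  show (aa ω * cs 1 ω (θ + ω) + aa ω ^ 2 * (a0 ω + a2 ω * cs 2 ω (θ + ω)) +
      aa ω ^ 3 * (a3 ω * cs 3 ω (θ + ω)) +
      aa ω ^ 4 * (b0 ω + b2 ω * cs 2 ω (θ + ω) + b4 ω * cs 4 ω (θ + ω))) +
    (aa ω * cs 1 ω (θ - ω) + aa ω ^ 2 * (a0 ω + a2 ω * cs 2 ω (θ - ω)) +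
      aa ω ^ 3 * (a3 ω * cs 3 ω (θ - ω)) +
      aa ω ^ 4 * (b0 ω + b2 ω * cs 2 ω (θ - ω) + b4 ω * cs 4 ω (θ - ω))) -
    2 * c0 * (aa ω * cs 1 ω θ + aa ω ^ 2 * (a0 ω + a2 ω * cs 2 ω θ) + aa ω ^ 3 * (a3 ω * cs 3 ω θ) +
      aa ω ^ 4 * (b0 ω + b2 ω * cs 2 ω θ + b4 ω * cs 4 ω θ)) -
    (aa ω * cs 1 ω θ + aa ω ^ 2 * (a0 ω + a2 ω * cs 2 ω θ) + aa ω ^ 3 * (a3 ω * cs 3 ω θ) +
      aa ω ^ 4 * (b0 ω + b2 ω * cs 2 ω θ + b4 ω * cs 4 ω θ)) *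
    (aa ω * cs 1 ω θ + aa ω ^ 2 * (a0 ω + a2 ω * cs 2 ω θ) + aa ω ^ 3 * (a3 ω * cs 3 ω θ) +
      aa ω ^ 4 * (b0 ω + b2 ω * cs 2 ω θ + b4 ω * cs 4 ω θ)) =
    -(aa ω ^ 5 * (2 * cs 1 ω θ * (b0 ω + b2 ω * cs 2 ω θ + b4 ω * cs 4 ω θ) +
        2 * (a0 ω + a2 ω * cs 2 ω θ) * (a3 ω * cs 3 ω θ)) +
      aa ω ^ 6 * (2 * (a0 ω + a2 ω * cs 2 ω θ) * (b0 ω + b2 ω * cs 2 ω θ + b4 ω * cs 4 ω θ) +
        (a3 ω * cs 3 ω θ) ^ 2) +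
      aa ω ^ 7 * (2 * (a3 ω * cs 3 ω θ) * (b0 ω + b2 ω * cs 2 ω θ + b4 ω * cs 4 ω θ)) +
      aa ω ^ 8 * (b0 ω + b2 ω * cs 2 ω θ + b4 ω * cs 4 ω θ) ^ 2)
  rw [← key]
  linear_combination aa ω * s1 + aa ω ^ 2 * a2 ω * s2 + aa ω ^ 3 * a3 ω * s3 +
    aa ω ^ 4 * b2 ω * s2 + aa ω ^ 4 * b4 ω * s4 - (aa ω ^ 2 * a0 ω + aa ω ^ 4 * b0 ω) * hd0

/-- the bounds for the powers of the amplitude -/
private theorem lb_aa {D : Set ℝ} {K ρ : ℝ} (hK : 1 ≤ K) (hρ : 0 < ρ) (hρ1 : ρ ≤ 1)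
    (h : Bd D (ρ ^ 2) 8 (om aa) (K * ρ)) {m n : ℕ} (hmn : m ≤ n) :
    Bd D (ρ ^ 2) 8 (om aa ^ n) (K ^ n * ρ ^ m) := by
  refine (Bd.pow (by positivity) (by norm_num) h n).mono ?_
  rw [mul_pow]
  exact mul_le_mul_of_nonneg_left (pow_le_pow_of_le_one hρ.le hρ1 hmn) (by positivity)

theorem linB : ∃ C ρ1 : ℝ, 1 ≤ C ∧ 0 < ρ1 ∧ ρ1 ≤ 1 / 2 ∧ ∀ ρ : ℝ, 0 < ρ → ρ ≤ ρ1 →
    ∀ D : Set ℝ, D ⊆ Set.Icc (w0 - 2 * ρ ^ 2) (w0 - ρ ^ 2) →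
    Bd D (ρ ^ 2) 8 SL (C * ρ) ∧ Bd D (ρ ^ 2) 8 (dd SL) (C * ρ) ∧
    Bd D (ρ ^ 2) 8 (hen c0 SL) (C * ρ ^ 5) ∧ Bd D (ρ ^ 2) 8 (SL - om aa * cs 1) (C * ρ ^ 2) ∧
    Bd D (ρ ^ 2) 8 nL C ∧ Bd D (ρ ^ 2) 8 mL C := by
  obtain ⟨K, A, ρ1, hK, hA, hρ1, hρ1', H⟩ := linA
  have hK0 : 0 ≤ K := by linarith
  -- the constants
  obtain ⟨U2, hU2⟩ : ∃ U : ℝ, U = K + K * 8 ^ 2 := ⟨_, rfl⟩
  obtain ⟨U3, hU3⟩ : ∃ U : ℝ, U = K * 8 ^ 3 := ⟨_, rfl⟩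
  obtain ⟨U4, hU4⟩ : ∃ U : ℝ, U = K + K * 8 ^ 2 + K * 8 ^ 4 := ⟨_, rfl⟩
  have p2 : 0 ≤ U2 := by rw [hU2]; positivity
  have p3 : 0 ≤ U3 := by rw [hU3]; positivity
  have p4 : 0 ≤ U4 := by rw [hU4]; positivity
  obtain ⟨C1, hC1⟩ : ∃ U : ℝ, U = K ^ 1 * 8 ^ 1 + K ^ 2 * U2 + K ^ 3 * U3 + K ^ 4 * U4 := ⟨_, rfl⟩
  obtain ⟨C2, hC2⟩ : ∃ U : ℝ, U = |(-2 * Real.pi)| * (K ^ 1 * 8 ^ 1 + |(2 : ℝ)| * K ^ 2 * K * 8 ^ 2 +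
    |(3 : ℝ)| * K ^ 3 * K * 8 ^ 3 + K ^ 4 * (|(2 : ℝ)| * K * 8 ^ 2 + |(4 : ℝ)| * K * 8 ^ 4)) := ⟨_, rfl⟩
  obtain ⟨C3, hC3⟩ : ∃ U : ℝ, U = K ^ 5 * (|(2 : ℝ)| * 8 ^ 1 * U4 + |(2 : ℝ)| * U2 * U3) +
    K ^ 6 * (|(2 : ℝ)| * U2 * U4 + U3 ^ 2) + K ^ 7 * (|(2 : ℝ)| * U3 * U4) + K ^ 8 * U4 ^ 2 := ⟨_, rfl⟩
  obtain ⟨C4, hC4⟩ : ∃ U : ℝ, U = K ^ 2 * U2 + K ^ 3 * U3 + K ^ 4 * U4 := ⟨_, rfl⟩
  obtain ⟨C5, hC5⟩ : ∃ U : ℝ, U = 8 ^ 1 + |(2 : ℝ)| * K ^ 1 * U2 + |(3 : ℝ)| * K ^ 2 * U3 := ⟨_, rfl⟩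
  obtain ⟨C6, hC6⟩ : ∃ U : ℝ, U = 2 * C5 + K * (2 * C2) := ⟨_, rfl⟩
  have q1 : 0 ≤ C1 := by rw [hC1]; positivity
  have q2 : 0 ≤ C2 := by rw [hC2]; positivity
  have q3 : 0 ≤ C3 := by rw [hC3]; positivity
  have q4 : 0 ≤ C4 := by rw [hC4]; positivity
  have q5 : 0 ≤ C5 := by rw [hC5]; positivity
  have q6 : 0 ≤ C6 := by rw [hC6]; positivity
  refine ⟨1 + C1 + C2 + C3 + C4 + C5 + C6, ρ1, by linarith, hρ1, hρ1', ?_⟩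
  intro ρ hρ hρ' D hD
  obtain ⟨Hr, Hp⟩ := H ρ hρ hρ' D hD
  obtain ⟨ba0, ba2, ba3, bb0, bb2, bb4, bg1, -, -, baa, -, bw1, -, -⟩ := Hr 8
  have hρ2 : ρ ≤ 1 := by linarith
  have hτ : 0 ≤ ρ ^ 2 := by positivity
  have hτ' : ρ ^ 2 ≤ 1 / 4 := by nlinarith
  have h8 : (2 : ℝ) ≤ 8 := by norm_num
  have h80 : (0 : ℝ) ≤ 8 := by norm_num
  have hc : ∀ k : ℕ, Bd D (ρ ^ 2) 8 (cs k) (8 ^ k) := fun k => Bd.ofCos h80 k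
  have hs : ∀ k : ℕ, Bd D (ρ ^ 2) 8 (sn k) (8 ^ k) := fun k => Bd.ofSin h80 k
  have hk : ∀ a : ℝ, Bd D (ρ ^ 2) 8 (kk a) |a| := fun a => Bd.ofConst a
  have ha : ∀ {m n : ℕ}, m ≤ n → Bd D (ρ ^ 2) 8 (om aa ^ n) (K ^ n * ρ ^ m) := fun hmn =>
    lb_aa hK hρ hρ2 baa hmn
  have bu2 : Bd D (ρ ^ 2) 8 u2 U2 := by
    rw [hU2]
    exact Bd.add h80 ba0 (Bd.mul hτ h8 ba2 (hc 2))
  have bu3 : Bd D (ρ ^ 2) 8 u3 U3 := by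
    rw [hU3]
    exact Bd.mul hτ h8 ba3 (hc 3)
  have bu4 : Bd D (ρ ^ 2) 8 u4 U4 := by
    rw [hU4]
    exact Bd.add h80 (Bd.add h80 bb0 (Bd.mul hτ h8 bb2 (hc 2))) (Bd.mul hτ h8 bb4 (hc 4))
  have ha1 : ∀ {m : ℕ}, m ≤ 1 → Bd D (ρ ^ 2) 8 (om aa) (K ^ 1 * ρ ^ m) := fun hm => by
    have h5 := ha hm
    rwa [pow_one (om aa)] at h5
  have bS : Bd D (ρ ^ 2) 8 SL (C1 * ρ) := by
    refine (Bd.add h80 (Bd.add h80 (Bd.add h80 (Bd.mul hτ h8 (ha1 (m := 1) le_rfl) (hc 1))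
      (Bd.mul hτ h8 (ha (m := 1) (n := 2) (by norm_num)) bu2))
      (Bd.mul hτ h8 (ha (m := 1) (n := 3) (by norm_num)) bu3))
      (Bd.mul hτ h8 (ha (m := 1) (n := 4) (by norm_num)) bu4)).mono (le_of_eq ?_)
    rw [hC1]
    ring
  have bdS : Bd D (ρ ^ 2) 8 (dd SL) (C2 * ρ) := by
    rw [dd_SL]
    refine (Bd.mul hτ h8 (hk _) (Bd.add h80 (Bd.add h80 (Bd.add h80
      (Bd.mul hτ h8 (ha1 (m := 1) le_rfl) (hs 1))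
      (Bd.mul hτ h8 (Bd.mul hτ h8 (Bd.mul hτ h8 (hk 2) (ha (m := 1) (n := 2) (by norm_num))) ba2)
        (hs 2)))
      (Bd.mul hτ h8 (Bd.mul hτ h8 (Bd.mul hτ h8 (hk 3) (ha (m := 1) (n := 3) (by norm_num))) ba3)
        (hs 3)))
      (Bd.mul hτ h8 (ha (m := 1) (n := 4) (by norm_num))
        (Bd.add h80 (Bd.mul hτ h8 (Bd.mul hτ h8 (hk 2) bb2) (hs 2))
          (Bd.mul hτ h8 (Bd.mul hτ h8 (hk 4) bb4) (hs 4)))))).mono (le_of_eq ?_)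
    rw [hC2]
    ring
  have bH : Bd D (ρ ^ 2) 8 (hen c0 SL) (C3 * ρ ^ 5) := by
    have h5 := (Bd.add h80 (Bd.add h80 (Bd.add h80
      (Bd.mul hτ h8 (ha (m := 5) (n := 5) le_rfl)
        (Bd.add h80 (Bd.mul hτ h8 (Bd.mul hτ h8 (hk 2) (hc 1)) bu4)
          (Bd.mul hτ h8 (Bd.mul hτ h8 (hk 2) bu2) bu3)))
      (Bd.mul hτ h8 (ha (m := 5) (n := 6) (by norm_num))
        (Bd.add h80 (Bd.mul hτ h8 (Bd.mul hτ h8 (hk 2) bu2) bu4) (Bd.pow hτ h8 bu3 2))))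
      (Bd.mul hτ h8 (ha (m := 5) (n := 7) (by norm_num))
        (Bd.mul hτ h8 (Bd.mul hτ h8 (hk 2) bu3) bu4)))
      (Bd.mul hτ h8 (ha (m := 5) (n := 8) (by norm_num)) (Bd.pow hτ h8 bu4 2))).neg
    refine (h5.congr ?_).mono (le_of_eq ?_)
    · intro ω hω θ
      obtain ⟨d0, d2, d3, d4, -, -, -, d1, -⟩ := Hp ω hω
      exact (hen_SL d0 d2 d3 d4 d1 θ).symm
    · rw [hC3]
      ring
  have bR : Bd D (ρ ^ 2) 8 (SL - om aa * cs 1) (C4 * ρ ^ 2) := by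
    have h5 := Bd.add h80 (Bd.add h80 (Bd.mul hτ h8 (ha (m := 2) (n := 2) le_rfl) bu2)
      (Bd.mul hτ h8 (ha (m := 2) (n := 3) (by norm_num)) bu3))
      (Bd.mul hτ h8 (ha (m := 2) (n := 4) (by norm_num)) bu4)
    refine (h5.congr ?_).mono (le_of_eq ?_)
    · intro ω hω θ
      show aa ω ^ 2 * u2 ω θ + aa ω ^ 3 * u3 ω θ + aa ω ^ 4 * u4 ω θ =
        aa ω * cs 1 ω θ + aa ω ^ 2 * u2 ω θ + aa ω ^ 3 * u3 ω θ + aa ω ^ 4 * u4 ω θ -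
          aa ω * cs 1 ω θ
      ring
    · rw [hC4]
      ring
  have bn : Bd D (ρ ^ 2) 8 nL C5 := by
    refine (Bd.add h80 (Bd.add h80 (hc 1) (Bd.mul hτ h8 (Bd.mul hτ h8 (hk 2)
      (ha1 (m := 0) (by norm_num))) bu2))
      (Bd.mul hτ h8 (Bd.mul hτ h8 (hk 3) (ha (m := 0) (n := 2) (by norm_num))) bu3)).mono
      (le_of_eq ?_)
    rw [hC5]
    ring
  have bm : Bd D (ρ ^ 2) 8 mL C6 := by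
    have w1' : Bd D (ρ ^ 2) 8 (om w1) K := bw1.mono (by nlinarith)
    have dS' : Bd D (ρ ^ 2) 8 (dd SL) C2 := bdS.mono (by nlinarith)
    rw [hC6]
    exact Bd.add h80 (Bd.shT hτ hτ' h8 bn) (Bd.mul hτ h8 w1' (Bd.shT hτ hτ' h8 dS'))
  refine ⟨bS.mono ?_, bdS.mono ?_, bH.mono ?_, bR.mono ?_, bn.mono ?_, bm.mono ?_⟩
  · exact mul_le_mul_of_nonneg_right (by linarith) hρ.le
  · exact mul_le_mul_of_nonneg_right (by linarith) hρ.le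
  · exact mul_le_mul_of_nonneg_right (by linarith) (by positivity)
  · exact mul_le_mul_of_nonneg_right (by linarith) (by positivity)
  · linarith
  · linarith

end Pool.Agent.MP31f1e8.KM
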