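import Pool.Agent.Lib.MP_31f1e8_mp.KM.LinB
import Pool.Agent.Lib.MP_31f1e8_mp.KM.Inv

/-!
The approximate frame of the Lindstedt polynomial and its torsion.

`S = SL`, `s = dd S`, `n = nL`, `m = mL = T n + w1 T s`, `B = s m - T s n`, `σ = sin 2πω`, `a = aa ω`; `O(ρ^j)` = norm
`≤ C ρ^j` in `Bd D ρ² 8`; note `Bd D ρ² 8 (f) (C ρ^j)` is stable under products.
(1) `B = 2π a σ + O(ρ²)`: `s = -2π a sn1 + O(ρ²)`, `n = cs1 + O(ρ)`, `m = T cs1 + O(ρ)` (as `w1 T s = O(ρ²)`), so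
`B = -2π a (sn1 T cs1 - T sn1 cs1) + O(ρ²)` and `sn1 T cs1 - T sn1 cs1 = sin(2πθ - 2π(θ+ω)) = -σ`. `om (2π a σ)` has
the inverse `om (1/(2π a σ))` of norm `≤ C/ρ`; `inv_near` gives `B ≠ 0` and `B⁻¹ = O(1/ρ)` for small `ρ`.
(2) `M(n) + w1 (T s - Ti s) = O(ρ³)` where `M(n) = T n + Ti n - (2 c0 + 2 S) n`. Proof: with `u1 = cs1`
(all `u_j` and `dk` relations as in `LinB`), `L f = T f + Ti f - 2 c0 f`: `L u1 = g1 a² u1`, `L u2 = u1²`,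
`L u3 = 2 u1 u2 - g1 u1` (`dk3 a3 cs3 = a2 cs3`, `2 u1 u2 = g1 cs1 + a2 cs3`). `n = u1 + 2a u2 + 3a² u3`:
`L n = g1 a² u1 + 2a u1² + 3a² (2 u1 u2 - g1 u1)`,
`2 S n = 2 (a u1 + a² u2 + O(ρ³))(u1 + 2a u2 + O(ρ²)) = 2a u1² + 6 a² u1 u2 + O(ρ³)`, so
`M(n) = -2 g1 a² u1 + O(ρ³)`. `T s - Ti s = -2π a (T sn1 - Ti sn1) + O(ρ²) = -4π a σ cs1 + O(ρ²)` and
`w1 = -g1 a/(2πσ)`: `w1 (T s - Ti s) = 2 g1 a² cs1 + O(ρ³)`. Sum: `O(ρ³)`.
(3) Let `E = hen c0 S` (`O(ρ⁵)`), so (differentiate) `dd E = T s + Ti s - (2c0 + 2S) s` (`O(ρ⁵)` at radius `4`; TO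
STAY AT RADIUS `8` use the explicit formula for `hen_SL` and its derivative, or prove `LinB` facts at radius
`16`; here: `linC` states everything at radius `8` and uses `dE : Bd D ρ² 8 (T s + Ti s - (2c0+2S) s) (C ρ⁵)`, which
follows from the pointwise formula of `L s`: `s` is a combination of `sn k` with the same relations:
`L s - 2 S s = d/dθ (hen c0 S)`, an explicit polynomial, every term has a factor `a⁵`; only `O(ρ³)` is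
needed below, which is easier: `L s = -2π (g1 a³ sn1 + a² sn2 (dk2 2 a2) + a³ 3 a3 dk3 sn3) + O(ρ⁴)` and
`2 S s = ... `; in fact `O(ρ³)` of `w1 * (...)` suffices and `w1 = O(ρ)`, so `L s - 2 S s = O(ρ²)` is enough, which
is trivial from `dk1 = g1 a²` and `s = O(ρ)`: `L s = -2π dk1 a sn1 + O(ρ²)`.)
(4) Torsion. `Z = m T m - T n ((2c0 + 2 T S) m - n)`. Put `g = (2c0 + 2 T S) m - n - T m - w1 T T s`. With
`m = T n + w1 T s`: `g = -T [M(n) + w1 (T s - Ti s)] - w1 T [T s + Ti s - (2c0+2S) s]` (expand: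
`(2c0+2TS)(T n + w1 T s) - n - T T n - w1 T T s - w1 T T s`; `T (Ti s) = s`) `= O(ρ³) + O(ρ) O(ρ²) = O(ρ³)`.
`Z = m T m - T n (T m + w1 T T s + g) = w1 (T s T m - T T s T n) - T n g = w1 T B - T n g`.
So `Z (B T B)⁻¹ = w1 B⁻¹ - T n g (B T B)⁻¹ = w1 B⁻¹ + O(ρ)`, and
`w1 B⁻¹ - w1 (2π a σ)⁻¹ = w1 (2π a σ - B)/(B 2π a σ) = O(ρ ρ² ρ⁻²) = O(ρ)`, `w1/(2π a σ) = -g1/(4π² σ²) = sg0`.
-/

namespace Pool.Agent.MP31f1e8.KM

/-- `f = O(ρ ^ j)` uniformly -/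
private def BO (j : ℤ) (f : ℝ → ℝ → ℝ) : Prop :=
  ∃ C ρ1 : ℝ, 1 ≤ C ∧ 0 < ρ1 ∧ ρ1 ≤ 1 / 2 ∧ ∀ ρ : ℝ, 0 < ρ → ρ ≤ ρ1 →
    ∀ D : Set ℝ, D ⊆ Set.Icc (w0 - 2 * ρ ^ 2) (w0 - ρ ^ 2) → Bd D (ρ ^ 2) 8 f (C * ρ ^ j)

private def EV (P : ℝ → Prop) : Prop :=
  ∃ ρ1 : ℝ, 0 < ρ1 ∧ ρ1 ≤ 1 / 2 ∧ ∀ ρ : ℝ, 0 < ρ → ρ ≤ ρ1 →
    ∀ ω ∈ Set.Icc (w0 - 2 * ρ ^ 2) (w0 - ρ ^ 2), P ω

private theorem EV.and {P Q : ℝ → Prop} (h : EV P) (h' : EV Q) : EV fun ω => P ω ∧ Q ω := by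
  obtain ⟨ρ1, a1, a2, H⟩ := h
  obtain ⟨ρ2, b1, b2, H'⟩ := h'
  exact ⟨min ρ1 ρ2, lt_min a1 b1, (min_le_left _ _).trans a2, fun ρ hρ hρ' ω hω =>
    ⟨H ρ hρ (hρ'.trans (min_le_left _ _)) ω hω, H' ρ hρ (hρ'.trans (min_le_right _ _)) ω hω⟩⟩

private theorem EV.mono {P Q : ℝ → Prop} (h : EV P) (h' : ∀ ω, P ω → Q ω) : EV Q := by
  obtain ⟨ρ1, a1, a2, H⟩ := h
  exact ⟨ρ1, a1, a2, fun ρ hρ hρ' ω hω => h' ω (H ρ hρ hρ' ω hω)⟩

private theorem h8 : (2 : ℝ) ≤ 8 := by norm_num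

private theorem sq_small {ρ : ℝ} (hρ : 0 < ρ) (h : ρ ≤ 1 / 2) : ρ ^ 2 ≤ 1 / 4 := by nlinarith

private theorem BO.congr {j : ℤ} {f g : ℝ → ℝ → ℝ} (h : BO j f)
    (hfg : EV fun ω => ∀ θ, f ω θ = g ω θ) : BO j g := by
  obtain ⟨C, ρ1, hC, a1, a2, H⟩ := h
  obtain ⟨ρ2, b1, b2, H'⟩ := hfg
  refine ⟨C, min ρ1 ρ2, hC, lt_min a1 b1, (min_le_left _ _).trans a2, fun ρ hρ hρ' D hD => ?_⟩
  exact (H ρ hρ (hρ'.trans (min_le_left _ _)) D hD).congr fun ω hω θ =>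
    H' ρ hρ (hρ'.trans (min_le_right _ _)) ω (hD hω) θ

private theorem BO.mul {i j : ℤ} {f g : ℝ → ℝ → ℝ} (h : BO i f) (h' : BO j g) :
    BO (i + j) (f * g) := by
  obtain ⟨C, ρ1, hC, a1, a2, H⟩ := h
  obtain ⟨C', ρ2, hC', b1, b2, H'⟩ := h'
  refine ⟨C * C', min ρ1 ρ2, one_le_mul_of_one_le_of_one_le hC hC', lt_min a1 b1,
    (min_le_left _ _).trans a2, fun ρ hρ hρ' D hD => ?_⟩
  have e := Bd.mul (by positivity) h8 (H ρ hρ (hρ'.trans (min_le_left _ _)) D hD)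
    (H' ρ hρ (hρ'.trans (min_le_right _ _)) D hD)
  refine e.mono (le_of_eq ?_)
  rw [zpow_add₀ hρ.ne']
  ring

private theorem BO.add {j : ℤ} {f g : ℝ → ℝ → ℝ} (h : BO j f) (h' : BO j g) :
    BO j (f + g) := by
  obtain ⟨C, ρ1, hC, a1, a2, H⟩ := h
  obtain ⟨C', ρ2, hC', b1, b2, H'⟩ := h'
  refine ⟨C + C', min ρ1 ρ2, by linarith, lt_min a1 b1,
    (min_le_left _ _).trans a2, fun ρ hρ hρ' D hD => ?_⟩
  have e := Bd.add (by norm_num) (H ρ hρ (hρ'.trans (min_le_left _ _)) D hD)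
    (H' ρ hρ (hρ'.trans (min_le_right _ _)) D hD)
  refine e.mono (le_of_eq ?_)
  ring

private theorem BO.neg {j : ℤ} {f : ℝ → ℝ → ℝ} (h : BO j f) : BO j (-f) := by
  obtain ⟨C, ρ1, hC, a1, a2, H⟩ := h
  exact ⟨C, ρ1, hC, a1, a2, fun ρ hρ hρ' D hD => (H ρ hρ hρ' D hD).neg⟩

private theorem BO.sub {j : ℤ} {f g : ℝ → ℝ → ℝ} (h : BO j f) (h' : BO j g) :
    BO j (f - g) := by
  rw [sub_eq_add_neg]
  exact h.add h'.neg

private theorem BO.mono {i j : ℤ} {f : ℝ → ℝ → ℝ} (h : BO i f) (hij : j ≤ i) : BO j f := by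
  obtain ⟨C, ρ1, hC, a1, a2, H⟩ := h
  refine ⟨C, ρ1, hC, a1, a2, fun ρ hρ hρ' D hD => (H ρ hρ hρ' D hD).mono ?_⟩
  have : ρ ^ i ≤ ρ ^ j := zpow_le_zpow_right_of_le_one₀ hρ (by linarith) hij
  gcongr

private theorem BO.shT {j : ℤ} {f : ℝ → ℝ → ℝ} (h : BO j f) : BO j (T f) := by
  obtain ⟨C, ρ1, hC, a1, a2, H⟩ := h
  refine ⟨2 * C, ρ1, by linarith, a1, a2, fun ρ hρ hρ' D hD => ?_⟩
  have e := Bd.shT (by positivity) (sq_small hρ (hρ'.trans a2)) h8 (H ρ hρ hρ' D hD)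
  refine e.mono (le_of_eq ?_)
  ring

private theorem BO.shTi {j : ℤ} {f : ℝ → ℝ → ℝ} (h : BO j f) : BO j (Ti f) := by
  obtain ⟨C, ρ1, hC, a1, a2, H⟩ := h
  refine ⟨2 * C, ρ1, by linarith, a1, a2, fun ρ hρ hρ' D hD => ?_⟩
  have e := Bd.shTi (by positivity) (sq_small hρ (hρ'.trans a2)) h8 (H ρ hρ hρ' D hD)
  refine e.mono (le_of_eq ?_)
  ring

private theorem BO.kk (a : ℝ) : BO 0 (kk a) := by
  refine ⟨|a| + 1, 1 / 2, by linarith [abs_nonneg a], by norm_num, le_rfl, fun ρ hρ hρ' D hD => ?_⟩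
  refine (Bd.ofConst a).mono ?_
  simp

private theorem BO.cs (k : ℕ) : BO 0 (cs k) := by
  refine ⟨8 ^ k, 1 / 2, one_le_pow₀ (by norm_num), by norm_num, le_rfl, fun ρ hρ hρ' D hD => ?_⟩
  refine (Bd.ofCos (by norm_num) k).mono ?_
  simp

private theorem BO.sn (k : ℕ) : BO 0 (sn k) := by
  refine ⟨8 ^ k, 1 / 2, one_le_pow₀ (by norm_num), by norm_num, le_rfl, fun ρ hρ hρ' D hD => ?_⟩
  refine (Bd.ofSin (by norm_num) k).mono ?_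
  simp

/-- inverse near a function with known inverse -/
private theorem BO.inv_near {i j : ℤ} {f g : ℝ → ℝ → ℝ} (hg : EV fun ω => ∀ θ, g ω θ ≠ 0)
    (hg' : BO i g⁻¹) (hfg : BO j (f - g)) (hij : 1 ≤ i + j) :
    (EV fun ω => ∀ θ, f ω θ ≠ 0) ∧ BO i f⁻¹ := by
  obtain ⟨C, ρ1, hC, a1, a2, H⟩ := hg'
  obtain ⟨C', ρ2, hC', b1, b2, H'⟩ := hfg
  obtain ⟨ρ3, c1, c2, H3⟩ := hg
  have key : ∀ ρ : ℝ, 0 < ρ → ρ ≤ min (min ρ1 ρ2) (min ρ3 (1 / (2 * C * C'))) → ∀ D : Set ℝ,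
      D ⊆ Set.Icc (w0 - 2 * ρ ^ 2) (w0 - ρ ^ 2) →
      NzD D f ∧ Bd D (ρ ^ 2) 8 f⁻¹ (2 * (C * ρ ^ i)) := by
    intro ρ hρ hle D hD
    have l1 := hle.trans ((min_le_left _ _).trans (min_le_left _ _))
    have l2 := hle.trans ((min_le_left _ _).trans (min_le_right _ _))
    have l3 := hle.trans ((min_le_right _ _).trans (min_le_left _ _))
    have l4 := hle.trans ((min_le_right _ _).trans (min_le_right _ _))
    refine Bd.inv_near (by positivity) h8 (fun ω hω => H3 ρ hρ l3 ω (hD hω)) (H ρ hρ l1 D hD)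
      (H' ρ hρ l2 D hD) ?_
    have e1 : C * ρ ^ i * (C' * ρ ^ j) = C * C' * ρ ^ (i + j) := by
      rw [zpow_add₀ hρ.ne']
      ring
    have e2 : ρ ^ (i + j) ≤ ρ ^ (1 : ℤ) := zpow_le_zpow_right_of_le_one₀ hρ (by linarith) hij
    rw [e1]
    rw [zpow_one] at e2
    calc C * C' * ρ ^ (i + j) ≤ C * C' * (1 / (2 * C * C')) := by
          gcongr
          exact e2.trans l4
      _ = 1 / 2 := by field_simp
  have hmin : 0 < min (min ρ1 ρ2) (min ρ3 (1 / (2 * C * C'))) := by positivity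
  have hmin' : min (min ρ1 ρ2) (min ρ3 (1 / (2 * C * C'))) ≤ 1 / 2 :=
    ((min_le_left _ _).trans (min_le_left _ _)).trans a2
  refine ⟨⟨_, hmin, hmin', fun ρ hρ hρ' ω hω => ?_⟩, ⟨2 * C, _, by linarith, hmin, hmin',
    fun ρ hρ hρ' D hD => ?_⟩⟩
  · exact (key ρ hρ hρ' _ le_rfl).1 ω hω
  · refine (key ρ hρ hρ' D hD).2.mono (le_of_eq ?_)
    ring

private theorem BO.of {j : ℤ} {f : ℝ → ℝ → ℝ} {C ρ1 : ℝ} (hC : 1 ≤ C) (h0 : 0 < ρ1)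
    (h1 : ρ1 ≤ 1 / 2) (h : ∀ ρ : ℝ, 0 < ρ → ρ ≤ ρ1 →
    ∀ D : Set ℝ, D ⊆ Set.Icc (w0 - 2 * ρ ^ 2) (w0 - ρ ^ 2) → Bd D (ρ ^ 2) 8 f (C * ρ ^ j)) :
    BO j f := ⟨C, ρ1, hC, h0, h1, h⟩

private structure Fa : Prop where
  ha0 : BO 0 (om a0)
  ha2 : BO 0 (om a2)
  ha3 : BO 0 (om a3)
  hb0 : BO 0 (om b0)
  hb2 : BO 0 (om b2)
  hb4 : BO 0 (om b4)
  hg1 : BO 0 (om g1)
  hsg : BO 0 (om sg0)
  hsi : BO 0 (om fun ω => (sg0 ω)⁻¹)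
  haa : BO 1 (om aa)
  hai : BO (-1) (om fun ω => (aa ω)⁻¹)
  hw1 : BO 1 (om w1)
  hsin : BO 0 (om fun ω => Real.sin (2 * Real.pi * ω))
  hsni : BO 0 (om fun ω => (Real.sin (2 * Real.pi * ω))⁻¹)

private theorem fa : Fa := by
  obtain ⟨C, A, ρ1, hC, -, h0, h1, H⟩ := linA
  have e0 : ∀ ρ : ℝ, C ≤ C * ρ ^ (0 : ℤ) := fun ρ => by simp
  have e1 : ∀ ρ : ℝ, C * ρ ≤ C * ρ ^ (1 : ℤ) := fun ρ => by simp
  have e2 : ∀ ρ : ℝ, C / ρ ≤ C * ρ ^ (-1 : ℤ) := fun ρ => by simp [div_eq_mul_inv]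
  constructor
  · exact BO.of hC h0 h1 fun ρ a b D hD => ((H ρ a b D hD).1 8).1.mono (e0 ρ)
  · exact BO.of hC h0 h1 fun ρ a b D hD => ((H ρ a b D hD).1 8).2.1.mono (e0 ρ)
  · exact BO.of hC h0 h1 fun ρ a b D hD => ((H ρ a b D hD).1 8).2.2.1.mono (e0 ρ)
  · exact BO.of hC h0 h1 fun ρ a b D hD => ((H ρ a b D hD).1 8).2.2.2.1.mono (e0 ρ)
  · exact BO.of hC h0 h1 fun ρ a b D hD => ((H ρ a b D hD).1 8).2.2.2.2.1.mono (e0 ρ)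
  · exact BO.of hC h0 h1 fun ρ a b D hD => ((H ρ a b D hD).1 8).2.2.2.2.2.1.mono (e0 ρ)
  · exact BO.of hC h0 h1 fun ρ a b D hD => ((H ρ a b D hD).1 8).2.2.2.2.2.2.1.mono (e0 ρ)
  · exact BO.of hC h0 h1 fun ρ a b D hD => ((H ρ a b D hD).1 8).2.2.2.2.2.2.2.1.mono (e0 ρ)
  · exact BO.of hC h0 h1 fun ρ a b D hD => ((H ρ a b D hD).1 8).2.2.2.2.2.2.2.2.1.mono (e0 ρ)
  · exact BO.of hC h0 h1 fun ρ a b D hD =>
      ((H ρ a b D hD).1 8).2.2.2.2.2.2.2.2.2.1.mono (e1 ρ)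
  · exact BO.of hC h0 h1 fun ρ a b D hD =>
      ((H ρ a b D hD).1 8).2.2.2.2.2.2.2.2.2.2.1.mono (e2 ρ)
  · exact BO.of hC h0 h1 fun ρ a b D hD =>
      ((H ρ a b D hD).1 8).2.2.2.2.2.2.2.2.2.2.2.1.mono (e1 ρ)
  · exact BO.of hC h0 h1 fun ρ a b D hD =>
      ((H ρ a b D hD).1 8).2.2.2.2.2.2.2.2.2.2.2.2.1.mono (e0 ρ)
  · exact BO.of hC h0 h1 fun ρ a b D hD =>
      ((H ρ a b D hD).1 8).2.2.2.2.2.2.2.2.2.2.2.2.2.mono (e0 ρ)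

private structure Pw (ω : ℝ) : Prop where
  d0 : dk 0 ω ≠ 0
  d2 : dk 2 ω ≠ 0
  d3 : dk 3 ω ≠ 0
  hsin : 0 < Real.sin (2 * Real.pi * ω)
  hsg : sg0 ω ≠ 0
  hd1 : dk 1 ω = g1 ω * aa ω ^ 2
  haa : 0 < aa ω

private theorem pw : EV Pw := by
  obtain ⟨C, A, ρ1, hC, hA, h0, h1, H⟩ := linA
  refine ⟨ρ1, h0, h1, fun ρ a b ω hω => ?_⟩
  obtain ⟨x0, x2, x3, x4, x5, x6, x7, x8, x9, x10, -⟩ := (H ρ a b _ le_rfl).2 ω hω
  have hC0 : 0 < C := by linarith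
  exact ⟨x0, x2, x3, x6, x7, x8, lt_of_lt_of_le (by positivity) x9⟩

private theorem bSL : BO 1 SL ∧ BO 1 (dd SL) ∧ BO 5 (hen c0 SL) ∧ BO 0 nL ∧ BO 0 mL := by
  obtain ⟨C, ρ1, hC, h0, h1, H⟩ := linB
  have e0 : ∀ ρ : ℝ, C ≤ C * ρ ^ (0 : ℤ) := fun ρ => by simp
  have e1 : ∀ ρ : ℝ, C * ρ ≤ C * ρ ^ (1 : ℤ) := fun ρ => by simp
  have e5 : ∀ ρ : ℝ, C * ρ ^ 5 ≤ C * ρ ^ (5 : ℤ) := fun ρ => by norm_cast
  refine ⟨?_, ?_, ?_, ?_, ?_⟩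
  · exact BO.of hC h0 h1 fun ρ a b D hD => (H ρ a b D hD).1.mono (e1 ρ)
  · exact BO.of hC h0 h1 fun ρ a b D hD => (H ρ a b D hD).2.1.mono (e1 ρ)
  · exact BO.of hC h0 h1 fun ρ a b D hD => (H ρ a b D hD).2.2.1.mono (e5 ρ)
  · exact BO.of hC h0 h1 fun ρ a b D hD => (H ρ a b D hD).2.2.2.2.1.mono (e0 ρ)
  · exact BO.of hC h0 h1 fun ρ a b D hD => (H ρ a b D hD).2.2.2.2.2.mono (e0 ρ)

private theorem aa2 : BO 2 (om aa ^ 2) := by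
  rw [pow_two]
  exact fa.haa.mul fa.haa

private theorem aa3 : BO 3 (om aa ^ 3) := by
  rw [pow_succ]
  exact aa2.mul fa.haa

private theorem aa4 : BO 4 (om aa ^ 4) := by
  rw [pow_succ]
  exact aa3.mul fa.haa

/-- leading part of the derivative -/
private noncomputable def s1 : ℝ → ℝ → ℝ := kk (-2 * Real.pi) * (om aa * sn 1)

/-- the rest of the derivative -/
private noncomputable def s2 : ℝ → ℝ → ℝ := kk (-2 * Real.pi) * (kk 2 * om aa ^ 2 * om a2 * sn 2 +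
    kk 3 * om aa ^ 3 * om a3 * sn 3 + om aa ^ 4 * (kk 2 * om b2 * sn 2 + kk 4 * om b4 * sn 4))

private theorem s_eq : dd SL = s1 + s2 := by
  rw [dd_SL, s1, s2]
  ring

private theorem bs1 : BO 1 s1 := (BO.kk _).mul (fa.haa.mul (BO.sn 1))

private theorem bs2 : BO 2 s2 := by
  have h1 : BO 2 (kk 2 * om aa ^ 2 * om a2 * sn 2) :=
    ((((BO.kk 2).mul aa2).mul fa.ha2).mul (BO.sn 2))
  have h2 : BO 3 (kk 3 * om aa ^ 3 * om a3 * sn 3) :=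
    ((((BO.kk 3).mul aa3).mul fa.ha3).mul (BO.sn 3))
  have h3 : BO 4 (om aa ^ 4 * (kk 2 * om b2 * sn 2 + kk 4 * om b4 * sn 4)) := by
    have e1 : BO 0 (kk 2 * om b2 * sn 2) := ((BO.kk 2).mul fa.hb2).mul (BO.sn 2)
    have e2 : BO 0 (kk 4 * om b4 * sn 4) := ((BO.kk 4).mul fa.hb4).mul (BO.sn 4)
    exact aa4.mul (e1.add e2)
  exact (BO.kk _).mul ((h1.add (h2.mono (by norm_num))).add (h3.mono (by norm_num)))

private theorem bu2 : BO 0 u2 := fa.ha0.add (fa.ha2.mul (BO.cs 2))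

private theorem bu3 : BO 0 u3 := fa.ha3.mul (BO.cs 3)

private theorem bu4 : BO 0 u4 := (fa.hb0.add (fa.hb2.mul (BO.cs 2))).add (fa.hb4.mul (BO.cs 4))

private theorem bn2 : BO 1 (nL - cs 1) := by
  have h1 : BO 1 (kk 2 * om aa * u2) := ((BO.kk 2).mul fa.haa).mul bu2
  have h2 : BO 2 (kk 3 * om aa ^ 2 * u3) := ((BO.kk 3).mul aa2).mul bu3
  have h3 : nL - cs 1 = kk 2 * om aa * u2 + kk 3 * om aa ^ 2 * u3 := by
    rw [nL]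
    ring
  rw [h3]
  exact h1.add (h2.mono (by norm_num))

private theorem bm2 : BO 1 (mL - T (cs 1)) := by
  have h3 : mL - T (cs 1) = T (nL - cs 1) + om w1 * T (dd SL) := by
    funext ω θ
    simp only [mL, T, Pi.sub_apply, Pi.add_apply, Pi.mul_apply]
    ring
  rw [h3]
  have h4 : BO 2 (om w1 * T (dd SL)) := fa.hw1.mul bSL.2.1.shT
  exact bn2.shT.add (h4.mono (by norm_num))

/-- the Wronskian -/
private noncomputable def BB : ℝ → ℝ → ℝ := dd SL * mL - T (dd SL) * nL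

/-- its leading part -/
private noncomputable def bb : ℝ → ℝ := fun ω => 2 * Real.pi * aa ω * Real.sin (2 * Real.pi * ω)

private theorem BB_near : BO 2 (BB - om bb) := by
  have h3 : BB - om bb = s1 * (mL - T (cs 1)) + s2 * mL - T s1 * (nL - cs 1) - T s2 * nL := by
    funext ω θ
    have e1 : sn 1 ω θ * cs 1 ω (θ + ω) - sn 1 ω (θ + ω) * cs 1 ω θ =
        -Real.sin (2 * Real.pi * ω) := by
      simp only [sn, cs, Nat.cast_one, one_mul]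
      rw [← Real.sin_neg, mul_comm (Real.sin (2 * Real.pi * (θ + ω))), ← Real.sin_sub]
      congr 1
      ring
    simp only [BB, bb, s_eq, s1, T, om, kk, Pi.sub_apply, Pi.add_apply, Pi.mul_apply]
    linear_combination (-(2 * Real.pi * aa ω)) * e1
  rw [h3]
  have t1 : BO 2 (s1 * (mL - T (cs 1))) := bs1.mul bm2
  have t2 : BO 2 (s2 * mL) := bs2.mul bSL.2.2.2.2
  have t3 : BO 2 (T s1 * (nL - cs 1)) := bs1.shT.mul bn2
  have t4 : BO 2 (T s2 * nL) := bs2.shT.mul bSL.2.2.2.1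
  exact ((t1.add t2).sub t3).sub t4

private theorem bb_inv : BO (-1) (om bb)⁻¹ := by
  have h : (om bb)⁻¹ = kk (1 / (2 * Real.pi)) * (om (fun ω => (aa ω)⁻¹) *
      om fun ω => (Real.sin (2 * Real.pi * ω))⁻¹) := by
    funext ω θ
    simp only [om, kk, bb, Pi.inv_apply, Pi.mul_apply, mul_inv, one_div]
    ring
  rw [h]
  exact (BO.kk _).mul (fa.hai.mul fa.hsni)

private theorem bbo : BO 1 (om bb) := by
  have h : om bb = kk (2 * Real.pi) * (om aa * om fun ω => Real.sin (2 * Real.pi * ω)) := by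
    funext ω θ
    simp only [om, kk, bb, Pi.mul_apply]
    ring
  rw [h]
  exact (BO.kk _).mul (fa.haa.mul fa.hsin)

private theorem bb_ne : EV fun ω => bb ω ≠ 0 := pw.mono fun ω h => by
  have h1 := h.haa
  have h2 := h.hsin
  unfold bb
  positivity

private theorem BB_inv : (EV fun ω => ∀ θ, BB ω θ ≠ 0) ∧ BO (-1) BB⁻¹ :=
  BO.inv_near (bb_ne.mono fun ω h θ => h) bb_inv BB_near (by norm_num)

private theorem BBo : BO 1 BB := by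
  have h : BB = (BB - om bb) + om bb := by ring
  rw [h]
  exact (BB_near.mono (by norm_num)).add bbo

/-- `M n` -/
private noncomputable def Mn : ℝ → ℝ → ℝ := T nL + Ti nL - (kk (2 * c0) + kk 2 * SL) * nL

/-- `M s` -/
private noncomputable def Ms : ℝ → ℝ → ℝ :=
  T (dd SL) + Ti (dd SL) - (kk (2 * c0) + kk 2 * SL) * dd SL

private theorem cs_sh (k : ℕ) (ω θ : ℝ) :
    cs k ω (θ + ω) + cs k ω (θ - ω) = (dk k ω + 2 * c0) * cs k ω θ := by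
  have h2 : cs k ω (θ + ω) + cs k ω (θ - ω) = 2 * Real.cos (2 * Real.pi * (k * ω)) * cs k ω θ :=
    congrFun (congrFun (cs_shift k) ω) θ
  rw [h2]
  unfold dk
  ring

private theorem sn_sh (ω θ : ℝ) :
    sn 1 ω (θ + ω) + sn 1 ω (θ - ω) = (dk 1 ω + 2 * c0) * sn 1 ω θ := by
  simp only [sn, dk, Nat.cast_one, one_mul]
  have h1 : 2 * Real.pi * (θ + ω) = 2 * Real.pi * θ + 2 * Real.pi * ω := by ring
  have h2 : 2 * Real.pi * (θ - ω) = 2 * Real.pi * θ - 2 * Real.pi * ω := by ring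
  rw [h1, h2, Real.sin_add, Real.sin_sub]
  ring

private theorem sn_sh' (ω θ : ℝ) :
    sn 1 ω (θ + ω) - sn 1 ω (θ - ω) = 2 * Real.sin (2 * Real.pi * ω) * cs 1 ω θ := by
  simp only [sn, cs, Nat.cast_one, one_mul]
  have h1 : 2 * Real.pi * (θ + ω) = 2 * Real.pi * θ + 2 * Real.pi * ω := by ring
  have h2 : 2 * Real.pi * (θ - ω) = 2 * Real.pi * θ - 2 * Real.pi * ω := by ring
  rw [h1, h2, Real.sin_add, Real.sin_sub]
  ring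

/-- third order remainder -/
private noncomputable def X3 : ℝ → ℝ → ℝ := kk 6 * om aa ^ 3 * cs 1 * u3 + kk 4 * om aa ^ 3 * u2 ^ 2 +
  kk 6 * om aa ^ 4 * u2 * u3 + kk 2 * (om aa ^ 3 * u3 + om aa ^ 4 * u4) * nL

private theorem bX3 : BO 3 X3 := by
  have t1 : BO 3 (kk 6 * om aa ^ 3 * cs 1 * u3) := (((BO.kk 6).mul aa3).mul (BO.cs 1)).mul bu3
  have t2 : BO 3 (kk 4 * om aa ^ 3 * u2 ^ 2) := by
    rw [pow_two]
    exact ((BO.kk 4).mul aa3).mul (bu2.mul bu2)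
  have t3 : BO 4 (kk 6 * om aa ^ 4 * u2 * u3) := (((BO.kk 6).mul aa4).mul bu2).mul bu3
  have t4 : BO 3 (om aa ^ 3 * u3 + om aa ^ 4 * u4) :=
    (aa3.mul bu3).add ((aa4.mul bu4).mono (by norm_num))
  have t5 : BO 3 (kk 2 * (om aa ^ 3 * u3 + om aa ^ 4 * u4) * nL) :=
    ((BO.kk 2).mul t4).mul bSL.2.2.2.1
  exact ((t1.add t2).add (t3.mono (by norm_num))).add t5

private theorem Mn_eq {ω : ℝ} (h : Pw ω) (θ : ℝ) :
    Mn ω θ = -2 * g1 ω * aa ω ^ 2 * cs 1 ω θ - X3 ω θ := by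
  have e0 : 2 * (dk 0 ω * a0 ω) = 1 := by
    have := h.d0
    unfold a0
    field_simp
  have e2 : 2 * (dk 2 ω * a2 ω) = 1 := by
    have := h.d2
    unfold a2
    field_simp
  have e3 : dk 3 ω * a3 ω = a2 ω := by
    have := h.d3
    unfold a3
    field_simp
  have hd0 : dk 0 ω = 2 - 2 * c0 := by
    unfold dk
    simp
  have g2 : cs 2 ω θ = 2 * cs 1 ω θ ^ 2 - 1 := by
    show Real.cos (2 * Real.pi * ((2 : ℕ) * θ)) = 2 * Real.cos (2 * Real.pi * ((1 : ℕ) * θ)) ^ 2 - 1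
    rw [← Real.cos_two_mul]
    congr 1
    push_cast
    ring
  have g3 : cs 3 ω θ = 4 * cs 1 ω θ ^ 3 - 3 * cs 1 ω θ := by
    show Real.cos (2 * Real.pi * ((3 : ℕ) * θ)) = 4 * Real.cos (2 * Real.pi * ((1 : ℕ) * θ)) ^ 3 -
      3 * Real.cos (2 * Real.pi * ((1 : ℕ) * θ))
    rw [← Real.cos_three_mul]
    congr 1
    push_cast
    ring
  have r1 := cs_sh 1 ω θ
  have r2 := cs_sh 2 ω θ
  have r3 := cs_sh 3 ω θ
  have hd1 := h.hd1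
  have hg : g1 ω = 2 * a0 ω + a2 ω := rfl
  simp only [Mn, X3, nL, SL, u2, u3, T, Ti, om, kk, Pi.sub_apply, Pi.add_apply, Pi.mul_apply,
    Pi.pow_apply]
  generalize cs 1 ω (θ + ω) = p1 at *
  generalize cs 1 ω (θ - ω) = q1 at *
  generalize cs 2 ω (θ + ω) = p2 at *
  generalize cs 2 ω (θ - ω) = q2 at *
  generalize cs 3 ω (θ + ω) = p3 at *
  generalize cs 3 ω (θ - ω) = q3 at *
  generalize cs 1 ω θ = x at *
  generalize cs 2 ω θ = x2 at *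
  generalize cs 3 ω θ = x3 at *
  generalize u4 ω θ = y at *
  generalize aa ω = a at *
  generalize a0 ω = A0 at *
  generalize a2 ω = A2 at *
  generalize a3 ω = A3 at *
  generalize dk 0 ω = D0 at *
  generalize dk 1 ω = D1 at *
  generalize dk 2 ω = D2 at *
  generalize dk 3 ω = D3 at *
  generalize g1 ω = G at *
  generalize c0 = c at *
  linear_combination r1 + 2 * a * A2 * r2 + 3 * a ^ 2 * A3 * r3 - 2 * a * A0 * hd0 + x * hd1 +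
    a * e0 + a * x2 * e2 + 3 * a ^ 2 * x3 * e3 + (a - 6 * a ^ 2 * A2 * x) * g2 +
    3 * a ^ 2 * A2 * g3 + 3 * a ^ 2 * x * hg

/-- the shift difference of the derivative -/
private noncomputable def Q : ℝ → ℝ → ℝ := Mn + om w1 * (T (dd SL) - Ti (dd SL))

private theorem bQ : BO 3 Q := by
  have h1 : BO 3 (-X3 + om w1 * (T s2 - Ti s2)) :=
    bX3.neg.add (fa.hw1.mul (bs2.shT.sub bs2.shTi))
  refine h1.congr (pw.mono fun ω h θ => ?_)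
  have e1 := Mn_eq h θ
  have e2 := sn_sh' ω θ
  have e3 : w1 ω * (2 * Real.pi * Real.sin (2 * Real.pi * ω)) = -(g1 ω * aa ω) := by
    have h1 := h.hsin.ne'
    unfold w1
    field_simp
  simp only [Q, s_eq, s1, T, Ti, om, kk, Pi.sub_apply, Pi.add_apply, Pi.mul_apply, Pi.neg_apply]
  rw [e1]
  linear_combination (2 * Real.pi * aa ω * w1 ω) * e2 + (2 * aa ω * cs 1 ω θ) * e3

private theorem bMs : BO 2 Ms := by
  have t1 : BO 3 (kk (-2 * Real.pi) * (om g1 * (om aa ^ 3 * sn 1))) :=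
    (BO.kk _).mul (fa.hg1.mul (aa3.mul (BO.sn 1)))
  have t2 : BO 2 (T s2 + Ti s2 - kk (2 * c0) * s2) :=
    (bs2.shT.add bs2.shTi).sub ((BO.kk _).mul bs2)
  have t3 : BO 2 (kk 2 * SL * dd SL) := ((BO.kk 2).mul bSL.1).mul bSL.2.1
  refine (((t1.mono (by norm_num)).add t2).sub t3).congr (pw.mono fun ω h θ => ?_)
  have e1 := sn_sh ω θ
  have e2 := h.hd1
  simp only [Ms, s_eq, s1, T, Ti, om, kk, Pi.sub_apply, Pi.add_apply, Pi.mul_apply, Pi.pow_apply]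
  linear_combination (2 * Real.pi * aa ω) * e1 + (2 * Real.pi * aa ω * sn 1 ω θ) * e2

/-- the defect of the second frame vector -/
private noncomputable def gg : ℝ → ℝ → ℝ :=
  (kk (2 * c0) + kk 2 * T SL) * mL - nL - T mL - om w1 * T (T (dd SL))

private theorem bgg : BO 3 gg := by
  have h : gg = -T Q - om w1 * T Ms := by
    funext ω θ
    have e1 : θ + ω - ω = θ := by ring
    simp only [gg, Q, Mn, Ms, mL, T, Ti, om, kk, Pi.sub_apply, Pi.add_apply, Pi.mul_apply,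
      Pi.neg_apply, e1]
    ring
  rw [h]
  exact bQ.shT.neg.sub (fa.hw1.mul bMs.shT)

private theorem bZ : BO 1 ((mL * T mL - T nL * ((kk (2 * c0) + kk 2 * T SL) * mL - nL)) *
    (BB * T BB)⁻¹ - om sg0) := by
  have h1 : BO 0 (BB⁻¹ - (om bb)⁻¹) := by
    have t1 : BO 0 ((om bb - BB) * (BB⁻¹ * (om bb)⁻¹)) := by
      have t2 : BO 2 (om bb - BB) := by
        have := BB_near.neg
        rwa [neg_sub] at this
      exact t2.mul (BB_inv.2.mul bb_inv)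
    refine t1.congr ((BB_inv.1.and bb_ne).mono fun ω h θ => ?_)
    have h1 := h.1 θ
    have h2 := h.2
    simp only [om, Pi.sub_apply, Pi.mul_apply, Pi.inv_apply]
    field_simp
  have h2 : BO 1 (om w1 * (BB⁻¹ - (om bb)⁻¹)) := fa.hw1.mul h1
  have h3 : BO 1 (T nL * gg * (BB⁻¹ * T BB⁻¹)) :=
    (bSL.2.2.2.1.shT.mul bgg).mul (BB_inv.2.mul BB_inv.2.shT)
  refine (h2.sub h3).congr ((BB_inv.1.and pw).mono fun ω h θ => ?_)
  have n1 := h.1 θ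
  have n2 := h.1 (θ + ω)
  have e1 : w1 ω * (bb ω)⁻¹ = sg0 ω := by
    have h3 := h.2.hsin.ne'
    have h4 := h.2.haa.ne'
    have h5 := Real.pi_ne_zero
    unfold w1 bb sg0
    field_simp
    ring
  have e2 : (mL * T mL - T nL * ((kk (2 * c0) + kk 2 * T SL) * mL - nL)) ω θ =
      w1 ω * BB ω (θ + ω) - nL ω (θ + ω) * gg ω θ := by
    simp only [BB, gg, mL, T, om, kk, Pi.sub_apply, Pi.add_apply, Pi.mul_apply]
    ring
  have e3 : ((mL * T mL - T nL * ((kk (2 * c0) + kk 2 * T SL) * mL - nL)) *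
    (BB * T BB)⁻¹ - om sg0) ω θ = (mL * T mL - T nL * ((kk (2 * c0) + kk 2 * T SL) * mL - nL)) ω θ *
    (BB ω θ * BB ω (θ + ω))⁻¹ - sg0 ω := rfl
  rw [e3, e2, ← e1]
  simp only [om, T, Pi.sub_apply, Pi.mul_apply, Pi.inv_apply]
  field_simp
  ring

private def EC (P : ℝ → ℝ → Set ℝ → Prop) : Prop :=
  ∃ C0 ρ1 : ℝ, 1 ≤ C0 ∧ 0 < ρ1 ∧ ρ1 ≤ 1 / 2 ∧ ∀ C : ℝ, C0 ≤ C → ∀ ρ : ℝ, 0 < ρ → ρ ≤ ρ1 →
    ∀ D : Set ℝ, D ⊆ Set.Icc (w0 - 2 * ρ ^ 2) (w0 - ρ ^ 2) → P C ρ D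

private theorem EC.and {P Q : ℝ → ℝ → Set ℝ → Prop} (h : EC P) (h' : EC Q) :
    EC fun C ρ D => P C ρ D ∧ Q C ρ D := by
  obtain ⟨C1, ρ1, hC, a1, a2, H⟩ := h
  obtain ⟨C2, ρ2, hC', b1, b2, H'⟩ := h'
  exact ⟨max C1 C2, min ρ1 ρ2, le_max_of_le_left hC, lt_min a1 b1, (min_le_left _ _).trans a2,
    fun C h ρ hρ hρ' D hD => ⟨H C ((le_max_left _ _).trans h) ρ hρ (hρ'.trans (min_le_left _ _)) D hD,
      H' C ((le_max_right _ _).trans h) ρ hρ (hρ'.trans (min_le_right _ _)) D hD⟩⟩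

private theorem BO.ec {j : ℤ} {f : ℝ → ℝ → ℝ} (h : BO j f) :
    EC fun C ρ D => Bd D (ρ ^ 2) 8 f (C * ρ ^ j) := by
  obtain ⟨C1, ρ1, hC, a1, a2, H⟩ := h
  exact ⟨C1, ρ1, hC, a1, a2, fun C h ρ hρ hρ' D hD => (H ρ hρ hρ' D hD).mono
    (mul_le_mul_of_nonneg_right h (by positivity))⟩

private theorem EV.ec {P : ℝ → Prop} (h : EV P) : EC fun _ _ D => ∀ ω ∈ D, P ω := by
  obtain ⟨ρ1, a1, a2, H⟩ := h
  exact ⟨1, ρ1, le_rfl, a1, a2, fun C h ρ hρ hρ' D hD ω hω => H ρ hρ hρ' ω (hD hω)⟩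

theorem linC : ∃ C ρ1 : ℝ, 1 ≤ C ∧ 0 < ρ1 ∧ ρ1 ≤ 1 / 2 ∧ ∀ ρ : ℝ, 0 < ρ → ρ ≤ ρ1 →
    ∀ D : Set ℝ, D ⊆ Set.Icc (w0 - 2 * ρ ^ 2) (w0 - ρ ^ 2) → App D ρ c0 C SL nL mL sg0 := by
  obtain ⟨C, ρ1, hC, h0, h1, H⟩ := bSL.1.ec.and (bSL.2.1.ec.and (bSL.2.2.1.ec.and
    (bSL.2.2.2.1.ec.and (bSL.2.2.2.2.ec.and (BB_inv.1.ec.and (BB_inv.2.ec.and (BBo.ec.and
    (pw.ec.and (fa.hsg.ec.and (fa.hsi.ec.and bZ.ec))))))))))
  refine ⟨C, ρ1, hC, h0, h1, fun ρ hρ hρ' D hD => ?_⟩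
  obtain ⟨H1, H2, H3, H4, H5, H6, H7, H8, H9, H10, H11, H12⟩ := H C le_rfl ρ hρ hρ' D hD
  have v0 : C * ρ ^ (0 : ℤ) = C := by simp
  have v1 : C * ρ ^ (1 : ℤ) = C * ρ := by simp
  have v5 : C * ρ ^ (5 : ℤ) = C * ρ ^ (5 : ℕ) := by norm_cast
  have vm : C * ρ ^ (-1 : ℤ) = C / ρ := by simp [div_eq_mul_inv]
  exact ⟨H1.mono v1.le, H2.mono v1.le, H3.mono v5.le, H4.mono v0.le, H5.mono v0.le, H6,
    H7.mono vm.le, H8.mono v1.le, fun ω hω => (H9 ω hω).hsg, H10.mono v0.le, H11.mono v0.le,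
    H12.mono v1.le⟩

end Pool.Agent.MP31f1e8.KM
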