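import Pool.Agent.Lib.MP_31f1e8_mp.KLF.Intf
import Pool.Agent.Lib.MP_31f1e8_mp.KM.HFm
import Pool.Agent.Lib.MP_31f1e8_mp.KM.Iter
import Pool.Agent.Lib.MP_31f1e8_mp.KM.LinC
import Pool.Agent.Lib.MP_31f1e8_mp.KM.Dio
import Pool.Agent.Lib.MP_31f1e8_mp.KM.Anti

/-!
Main theorem of part K.
-/

namespace Pool.Agent.MP31f1e8.KM

open Set

theorem cc_eq : KLF.cc = c0 := by
  unfold KLF.cc c0 w0
  congr 1
  ring

theorem d1_eq (H : ℕ → ℕ → ℝ) (x y : ℝ) : KLF.d1 H x y = h1 (fun p => H p.1 p.2) x y := by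
  unfold KLF.d1 h1
  refine tsum_congr fun p => ?_
  ring

theorem d2_eq (H : ℕ → ℕ → ℝ) (x y : ℝ) : KLF.d2 H x y = h2 (fun p => H p.1 p.2) x y := by
  unfold KLF.d2 h2
  refine tsum_congr fun p => ?_
  ring

theorem dio_of_dc {γ ω : ℝ} (h : ω ∈ DC γ) : KLD.Dio γ ω := by
  intro k hk l
  rcases Int.natAbs_eq k with hk' | hk'
  · have h1 : 1 ≤ k.natAbs := Int.natAbs_pos.mpr hk
    have h2 := h k.natAbs h1 l
    have h3 : (k : ℝ) = (k.natAbs : ℝ) := by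
      rw [hk']
      simp
    rw [h3]
    exact h2
  · have h1 : 1 ≤ k.natAbs := Int.natAbs_pos.mpr hk
    have h2 := h k.natAbs h1 (-l)
    have h3 : (k : ℝ) = -(k.natAbs : ℝ) := by
      rw [hk']
      simp
    rw [h3, neg_sq]
    refine h2.trans (le_of_eq ?_)
    rw [← abs_neg]
    congr 1
    push_cast
    ring

theorem mainK : KLF.KamMain := by
  intro kap hkap
  obtain ⟨C1, ρ1, hC1, hρ1, hρ1', H1⟩ := linC
  obtain ⟨C2, ρ2, hC2, hρ2, hρ2', H2⟩ := linB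
  obtain ⟨C3, A, ρ3, hC3, hA, hρ3, hρ3', H3⟩ := linA
  obtain ⟨γ, ρ4, hγ, hγ1, hρ4, hρ4', H4⟩ := dio
  obtain ⟨K, ρ5, hK, hρ5, hρ5', H5⟩ := iter hγ hγ1 hC1
  obtain ⟨ρ6, hρ6, hρ6', H6⟩ := anti (C := C3) (K := K + C2) hC3 (by linarith)
  obtain ⟨ρ7, hρ7, H7⟩ : ∃ ρ7 : ℝ, 0 < ρ7 ∧ ∀ ρ, 0 < ρ → ρ ≤ ρ7 →
      14 * (K + C2) * ρ ≤ kap * A / 2 ∧ A * ρ ≤ 1 / 8 ∧ ρ ≤ 1 / 10 := by
    refine ⟨min (kap * A / 2 / (14 * (K + C2))) (min (1 / 8 / A) (1 / 10)), by positivity, ?_⟩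
    intro ρ hρ hle
    have e1 := hle.trans (min_le_left _ _)
    have e2 := (hle.trans (min_le_right _ _)).trans (min_le_left _ _)
    have e3 := (hle.trans (min_le_right _ _)).trans (min_le_right _ _)
    refine ⟨?_, ?_, e3⟩
    · rw [le_div_iff₀ (by positivity)] at e1
      linarith
    · rw [le_div_iff₀ hA] at e2
      linarith
  obtain ⟨ρ, hρ, l1, l2, l3, l4, l5, l6, l7⟩ : ∃ ρ : ℝ, 0 < ρ ∧ ρ ≤ ρ1 ∧ ρ ≤ ρ2 ∧ ρ ≤ ρ3 ∧
      ρ ≤ ρ4 ∧ ρ ≤ ρ5 ∧ ρ ≤ ρ6 ∧ ρ ≤ ρ7 := by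
    refine ⟨min ρ1 (min ρ2 (min ρ3 (min ρ4 (min ρ5 (min ρ6 ρ7))))), by positivity, ?_⟩
    simp only [min_le_iff, le_refl, true_or, or_true, and_self]
  obtain ⟨k1, k2, k3⟩ := H7 ρ hρ l7
  have hρ2' : 0 < ρ ^ 2 := by positivity
  have hτ4 : ρ ^ 2 ≤ 1 / 4 := by nlinarith
  obtain ⟨D, hD⟩ : ∃ D : Set ℝ, D = Icc (w0 - 2 * ρ ^ 2) (w0 - ρ ^ 2) ∩ DC γ := ⟨_, rfl⟩
  have hDI : D ⊆ Icc (w0 - 2 * ρ ^ 2) (w0 - ρ ^ 2) := hD ▸ inter_subset_left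
  have hDC : D ⊆ DC γ := hD ▸ inter_subset_right
  have hlb := w0_bounds
  obtain ⟨Cs, H6⟩ := H6 ρ hρ l6
  have H6 := H6 D hDI
  have H3 := H3 ρ hρ l3 D hDI
  have H2 := H2 ρ hρ l2 D hDI
  have H1 := H1 ρ hρ l1 D hDI
  refine ⟨A * ρ, γ, min (1 / 100) (ρ ^ 5 / 4), by positivity, k2, hγ, by positivity, D, ?_, ?_, ?_,
    fun om hom => dio_of_dc (hDC hom), ?_⟩
  · rw [hD]
    exact isCompact_Icc.inter_right (dc_closed γ)
  · have hr : ρ ^ 2 ≤ 1 / 100 := by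
      have := mul_le_mul k3 k3 hρ.le (by norm_num : (0:ℝ) ≤ 1 / 10)
      calc ρ ^ 2 = ρ * ρ := by ring
        _ ≤ _ := this
        _ = 1 / 100 := by norm_num
    refine hDI.trans (Icc_subset_Icc ?_ ?_)
    · linarith [hlb.1]
    · linarith [hlb.2, sq_nonneg ρ]
  · rw [hD]
    refine lt_of_lt_of_le ?_ (H4 ρ hρ l4)
    rw [ENNReal.ofReal_pos]
    positivity
  intro H hH
  obtain ⟨hH1, hH2⟩ := hH
  have hf := fnl (D := D) (cc := c0) (H := fun p => H p.1 p.2) hρ2' hτ4 hH1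
    (hH2.trans (min_le_left _ _))
  have hη : 4 * ∑' p : ℕ × ℕ, |(fun p : ℕ × ℕ => H p.1 p.2) p| ≤ ρ ^ 5 := by
    have := hH2.trans (min_le_right _ _)
    simp only at this ⊢
    linarith
  obtain ⟨S, hS, hE⟩ := H5 ρ hρ l5 D hDC c0 SL nL mL sg0 (Real.abs_cos_le_one _) H1 _ _ _ _ hη hf
  have hSL4 : Bd D (ρ ^ 2) 4 SL (C2 * ρ) := H2.1.rad hρ2'.le (by norm_num) (by norm_num)
  have hP : Bd D (ρ ^ 2) 4 (S - om aa * cs 1) ((K + C2) * ρ ^ 2) := by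
    have e1 := hS.add (by norm_num) (H2.2.2.2.1.rad hρ2'.le (by norm_num) (r' := 4) (by norm_num))
    refine (e1.congr ?_).mono ?_
    · intro ω _ θ
      simp only [Pi.add_apply, Pi.sub_apply]
      ring
    · nlinarith [mul_nonneg (mul_nonneg hK hρ2'.le) (by linarith : (0:ℝ) ≤ 1 - ρ)]
  have hS4 : Bd D (ρ ^ 2) 4 S (K * ρ ^ 3 + C2 * ρ) := by
    refine (hS.add (by norm_num) hSL4).congr ?_
    intro ω _ θ
    simp only [Pi.add_apply, Pi.sub_apply]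
    ring
  have haa : ∀ ω ∈ D, A * ρ / 2 ≤ aa ω ∧ aa ω ≤ A * ρ := fun ω hω =>
    ⟨(H3.2 ω hω).2.2.2.2.2.2.2.2.2.2.1, (H3.2 ω hω).2.2.2.2.2.2.2.2.2.2.2.1⟩
  have hK2 : 14 * ((K + C2) * ρ ^ 2) ≤ kap * (A * ρ / 2) := by nlinarith
  have hP0 : ∀ ω t, (S - om aa * cs 1) ω t = S ω t - aa ω * Real.cos (2 * Real.pi * t) := by
    intro ω t
    simp [om, cs]
  refine ⟨S, aa, max Cs ((K * ρ ^ 3 + C2 * ρ) / ρ ^ 2), ?_⟩
  refine ⟨fun om hom t => hS4.per hom t, ?_, fun om hom => (haa om hom).1,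
    fun om hom => (haa om hom).2, ?_, ?_, ?_, ?_⟩
  · intro om hom t
    have e1 := hE om hom t
    unfold KLF.Red
    rw [cc_eq, d1_eq, d2_eq]
    simp only [EE, hen, T, Ti, kk, Pi.sub_apply, Pi.add_apply, Pi.mul_apply] at e1
    linarith
  · intro om hom t
    rw [← hP0]
    refine (hP.abs_le hρ2'.le (by norm_num) hom t).trans ?_
    have := (haa om hom).1
    have h0 : 0 ≤ (K + C2) * ρ ^ 2 := by positivity
    nlinarith
  · intro om hom t t'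
    rw [← hP0, ← hP0]
    have hder := hP.deriv hρ2'.le (δ := 1 / 2) (r' := 2) (by norm_num) (by norm_num) le_rfl
      (by norm_num)
    have h1 : ∀ x ∈ (univ : Set ℝ), ‖deriv ((S - KM.om aa * cs 1) om) x‖ ≤ kap * aa om := by
      intro x _
      have e1 := hder.abs_le hρ2'.le (by norm_num) hom x
      have e2 := (haa om hom).1
      rw [Real.norm_eq_abs]
      refine e1.trans ?_
      have e3 : (7 : ℝ) / (1 / 2) * ((K + C2) * ρ ^ 2) = 14 * ((K + C2) * ρ ^ 2) := by ring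
      rw [e3]
      refine hK2.trans ?_
      gcongr
    have h2 := convex_univ.norm_image_sub_le_of_norm_deriv_le
      (f := (S - KM.om aa * cs 1) om) (fun x _ => (hP.hasDeriv (by norm_num) hom x).differentiableAt)
      h1 (mem_univ t') (mem_univ t)
    simpa [Real.norm_eq_abs] using h2
  · intro om hom om' hom' t
    refine (hS4.lip hρ2' (by norm_num) hom hom' t).trans ?_
    gcongr
    exact le_max_right _ _
  · intro om hom om' hom' t t' ht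
    refine (H6 (fun ω hω => ⟨(H3.2 ω hω).2.2.2.2.2.2.2.2.1, (H3.2 ω hω).2.2.2.2.2.2.2.2.2.1,
      (H3.2 ω hω).2.2.2.2.2.2.2.2.2.2.2.2⟩) S hP om hom om' hom' t t' ht).trans ?_
    gcongr
    exact le_max_left _ _

end Pool.Agent.MP31f1e8.KM
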