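import Mathlib

/-!
The algebraic identity behind the Newton step (suffix `p` = shifted by `ω`, `q` = shifted by `-ω`).
-/

namespace Pool.Agent.MP31f1e8.KM

theorem step_id {a ap aq k kp s sp spp sq n np nq m mp mq E Ep E1 E1p x1 x1p x1q x2 x2p x2q : ℝ}
    (h1 : a * sp + aq * sq - k * s = E1) (h1p : ap * spp + a * s - kp * sp = E1p)
    (hb : a * (s * m - sp * n) = 1) (hbp : ap * (sp * mp - spp * np) = 1)
    (hbq : aq * (sq * mq - s * nq) = 1) (hc : x2p = x2 - sp * Ep) (hcq : x2 = x2q - s * E)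
    (hd : x1p = x1 + (ap * m * mp - np * (kp * m - a * n)) * x2 + Ep * np)
    (hdq : x1 = x1q + (a * mq * m - n * (k * mq - aq * nq)) * x2q + E * n) :
    a * (x1p * sp + x2p * np) + aq * (x1q * sq + x2q * nq) - k * (x1 * s + x2 * n) + E =
      E1 * (x1 - n * E - aq * n * nq * x2q) + a * m * np * E1p * x2 := by
  have hx1q : x1q = x1 - (a * mq * m - n * (k * mq - aq * nq)) * x2q - E * n := by linarith
  subst hx1q hd hc hcq
  linear_combination (x1 - E * n - x2q * aq * nq * n) * h1 + (x2q - s * E) * a * m * np * h1p +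
    (-(x2q - s * E) * a * np - x2q * aq * nq - E) * hb + (x2q - s * E) * a * m * hbp -
    x2q * (a * m - k * n) * hbq

end Pool.Agent.MP31f1e8.KM
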