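import Pool.Agent.Lib.MP_31f1e8_mp.KM.DefsS
import Pool.Agent.Lib.MP_31f1e8_mp.KM.Coh
import Pool.Agent.Lib.MP_31f1e8_mp.KM.Mul
import Pool.Agent.Lib.MP_31f1e8_mp.KM.Shift
import Pool.Agent.Lib.MP_31f1e8_mp.KM.StepId

/-!
One Newton step.

Proof. `s = dd S`, `E = EE S` (norm `≤ ε` at radius `r`), `a = al S`, `k = ka S`, `t = tor a k n m`. Radii
`r ≥ r1 = (1-δ) r ≥ r2 = (1-δ)² r ≥ (1-δ)³ r ≥ r' ≥ 4`. All norms below: `c` is a constant depending only on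
`C, γ`; `ρ ≤ 1`, `δ ≤ 1/2`.
1. `avg (s * E) = 0` (`F6`), so `avg (T (s * E)) = 0` (`avg_T`). `coh` gives `R1` at radius `r1`, norm
   `≤ c ρ ε / δ²`, `T R1 - R1 = T (s * E)` on `D`.
2. `c0 ω := (avg (t * R1) ω - avg (E * n) ω) * (avg t ω)⁻¹`: norm (as `om c0`) `≤ c ε/(ρ δ²)` (`Bd.bdAvg`, `Bd.mul`).
   `x2 := om c0 - R1`: norm `≤ c ε/(ρ δ²)`, `T x2 - x2 = - T (s * E)` (`T (om c0) = om c0`).
3. `G := t * x2 + T (E * n)` has zero average: `avg (t * om c0) = c0 avg t` (`avg_om_mul`), `avg (T (E n)) =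
   avg (E n)`; norm `≤ c ε/(ρ δ²)`. `coh` gives `x1` at radius `r2`, norm `≤ c ε/(ρ δ⁴)`, `T x1 - x1 = G`.
4. `v := x1 * s + x2 * n`: norm at `r2` `≤ c ε/(ρ δ⁴) * C ρ + c ε/(ρ δ²) * C/ρ ≤ c ε/(ρ² δ⁴)`; `dd v` at `r'`:
   `Bd.deriv` from `r2` : `≤ c ε/(ρ² δ⁵)`. `C2` is chosen with `c ε/(ρ² δ⁴) ≤ (C2 ε/(ρ² δ⁴))/16 ≤ 1/16`.
5. `EE (S+v) = [EE (S+v) - EE S - (a T v + Ti (a v) - k v)] + [EE S + a T v + Ti (a v) - k v]`. First bracket: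
   `F2` (radius `r'`, `M` = norm of `v`) `≤ 2 (c ε/(ρ² δ⁴))²`. Second bracket: by `step_id` at the point `(ω, θ)`
   (`a = a(θ)`, `ap = a(θ+ω)`, `aq = a(θ-ω)`, `spp = s(θ+2ω)`, `E1 = dd E (θ)`, ...) it equals
   `dd E * (x1 - n * E - Ti a * n * Ti n * Ti x2) + a * m * T n * T (dd E) * x2`. The hypotheses of `step_id`: `h1`,
   `h1p`: `F5` at `θ` and `θ+ω`; `hb hbp hbq`: `fr` at `θ, θ+ω, θ-ω`; `hc`: `T x2 - x2 = -T(sE)` at `θ`, `hcq` the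
   same at `θ-ω`; `hd`, `hdq`: `T x1 - x1 = G` at `θ` and `θ-ω`. `dd E` has norm `≤ 7 ε/δ` at `r1`. So the
   second bracket has norm `≤ (7ε/δ)(c ε/(ρδ⁴) + c ε/ρ + c ε/(ρ³ δ²)) + c (ε/δ) ρ⁻² ε/(ρ δ²) ≤ c ε²/(ρ⁴ δ⁸)`.
`ε ≥ 0` by `Bd.nonneg`. Tip: first prove a version of the step with explicit norms `N1, N2, ...` as products
(`Bd.mul`, `Bd.add`, ...), then compare the real numbers with `C2` at the end; e.g. set
`P = 60/γ²`, and bound every intermediate number by `c * (ε * ρ^(-i) * δ^(-j))` with natural numbers `i ≤ 4, j ≤ 8`,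
using `1 ≤ ρ⁻¹`, `1 ≤ δ⁻¹`.
-/

namespace Pool.Agent.MP31f1e8.KM

private theorem mon {P C u w ε c : ℝ} (hP : 1 ≤ P) (hC : 1 ≤ C) (hu : 1 ≤ u) (hw : 1 ≤ w)
    (hε : 0 ≤ ε) (hc : 0 ≤ c) (i j k l i' j' k' l' e : ℕ) (hi : i ≤ i')
    (hj : j ≤ j') (hk : k ≤ k') (hl : l ≤ l') :
    c * P ^ i * C ^ j * u ^ k * w ^ l * ε ^ e ≤ c * P ^ i' * C ^ j' * u ^ k' * w ^ l' * ε ^ e := by
  have hP0 : 0 ≤ P := by linarith
  have hC0 : 0 ≤ C := by linarith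
  have hu0 : 0 ≤ u := by linarith
  have hw0 : 0 ≤ w := by linarith
  have h1 := pow_le_pow_right₀ hP hi
  have h2 := pow_le_pow_right₀ hC hj
  have h3 := pow_le_pow_right₀ hu hk
  have h4 := pow_le_pow_right₀ hw hl
  gcongr

theorem step {γ C : ℝ} (hγ : 0 < γ) (hγ1 : γ ≤ 1) (hC : 1 ≤ C) :
    ∃ C2 : ℝ, 1 ≤ C2 ∧ ∀ (D : Set ℝ) (τ : ℝ), D ⊆ DC γ → 0 < τ → τ ≤ 1 / 4 →
      ∀ (cc η : ℝ) (EE al ka : (ℝ → ℝ → ℝ) → ℝ → ℝ → ℝ), Fnl D τ cc η EE al ka →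
      ∀ ρ : ℝ, 0 < ρ → ρ ≤ 1 → ∀ δ : ℝ, 0 < δ → δ ≤ 1 / 2 →
      ∀ r r' : ℝ, r' ≤ (1 - δ) ^ 3 * r → 4 ≤ r' →
      ∀ (S n m : ℝ → ℝ → ℝ) (ε : ℝ), Fr D τ r ρ C al ka S n m → Bd D τ r (EE S) ε →
      C2 * ε ≤ ρ ^ 2 * δ ^ 4 →
      ∃ v, Bd D τ r' v (C2 * ε / (ρ ^ 2 * δ ^ 4)) ∧ Bd D τ r' (dd v) (C2 * ε / (ρ ^ 2 * δ ^ 5)) ∧
        Bd D τ r' (EE (S + v)) (C2 * ε ^ 2 / (ρ ^ 4 * δ ^ 8)) := by
  obtain ⟨P, hPdef⟩ : ∃ P : ℝ, P = 60 / γ ^ 2 := ⟨_, rfl⟩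
  have hP : 1 ≤ P := by
    rw [hPdef, le_div_iff₀ (by positivity)]
    nlinarith
  have hP0 : 0 ≤ P := by linarith
  have hC0 : 0 ≤ C := by linarith
  refine ⟨1184 * P ^ 4 * C ^ 10, ?_, ?_⟩
  · have h1 := one_le_pow₀ hP (n := 4)
    have h2 := one_le_pow₀ hC (n := 10)
    nlinarith
  intro D τ hD hτ hτ' cc η EE al ka hF ρ hρ hρ1 δ hδ hδ1 r r' hr' hr'4 S n m ε hFr hE hsm
  -- radii
  obtain ⟨r1, hr1⟩ : ∃ r1 : ℝ, r1 = (1 - δ) * r := ⟨_, rfl⟩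
  obtain ⟨r2, hr2⟩ : ∃ r2 : ℝ, r2 = (1 - δ) * r1 := ⟨_, rfl⟩
  obtain ⟨r3, hr3⟩ : ∃ r3 : ℝ, r3 = (1 - δ) * r2 := ⟨_, rfl⟩
  have hr3' : r' ≤ r3 := by
    rw [hr3, hr2, hr1]
    linarith
  have hd0 : 0 < 1 - δ := by linarith
  have g3 : 4 ≤ r3 := hr'4.trans hr3'
  have g2 : 4 ≤ r2 := by
    by_contra hcon
    rw [not_le] at hcon
    nlinarith
  have g1 : 4 ≤ r1 := by
    by_contra hcon
    rw [not_le] at hcon
    nlinarith
  have g0 : 4 ≤ r := by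
    by_contra hcon
    rw [not_le] at hcon
    nlinarith
  have l32 : r3 ≤ r2 := by nlinarith
  have l21 : r2 ≤ r1 := by nlinarith
  have l10 : r1 ≤ r := by nlinarith
  have l20 : r2 ≤ r := l21.trans l10
  have l'2 : r' ≤ r2 := hr3'.trans l32
  have l'1 : r' ≤ r1 := l'2.trans l21
  have l'0 : r' ≤ r := l'1.trans l10
  have hτ0 := hτ.le
  have hε : 0 ≤ ε := hE.nonneg hτ0 (by linarith)
  obtain ⟨u, hu⟩ : ∃ u : ℝ, u = ρ⁻¹ := ⟨_, rfl⟩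
  obtain ⟨w, hw⟩ : ∃ w : ℝ, w = δ⁻¹ := ⟨_, rfl⟩
  have hu1 : 1 ≤ u := by
    rw [hu]
    exact (one_le_inv₀ hρ).mpr hρ1
  have hw1 : 1 ≤ w := by
    rw [hw]
    exact (one_le_inv₀ hδ).mpr (by linarith)
  have hu0 : 0 ≤ u := by linarith
  have hw0 : 0 ≤ w := by linarith
  have mo : ∀ {c : ℝ} (_ : 0 ≤ c) (i j k l i' j' k' l' e : ℕ) (_ : i ≤ i') (_ : j ≤ j')
      (_ : k ≤ k') (_ : l ≤ l'), c * P ^ i * C ^ j * u ^ k * w ^ l * ε ^ e ≤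
        c * P ^ i' * C ^ j' * u ^ k' * w ^ l' * ε ^ e :=
    fun hc i j k l i' j' k' l' e hi hj hk hl => mon hP hC hu1 hw1 hε hc i j k l i' j' k' l' e hi hj hk hl
  have hcoh : 60 / (γ ^ 2 * δ ^ 2) = P * w ^ 2 := by
    rw [hPdef, hw]
    field_simp
  -- the frame
  have bs : Bd D τ r (dd S) C := hFr.fs.mono (by nlinarith)
  have bn : Bd D τ r n (C * u) := hFr.fn.mono (by rw [hu, div_eq_mul_inv])
  have bm : Bd D τ r m (C * u) := hFr.fm.mono (by rw [hu, div_eq_mul_inv])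
  have bS : Bd D τ r S (1 / 8) := hFr.fS.mono (by norm_num)
  have bt := hFr.fT
  have ba := hFr.fa
  obtain ⟨t, ht⟩ : ∃ t : ℝ → ℝ → ℝ, t = tor (al S) (ka S) n m := ⟨_, rfl⟩
  rw [← ht] at bt
  -- step 1
  have bsE : Bd D τ r (dd S * EE S) (C * ε) := bs.mul hτ0 (by linarith) hE
  have hav : ∀ ω ∈ D, avg (T (dd S * EE S)) ω = 0 := by
    intro ω hω
    rw [avg_T (by linarith) bsE hω]
    exact hF.F6 r g0 S bS ω hω
  obtain ⟨R1, bR, eR⟩ := coh hγ hγ1 hτ0 hτ' hD hδ (by linarith) (by linarith : 2 ≤ r1) hr1.le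
    (bsE.shT hτ0 hτ' (by linarith)) hav
  have bR1 : Bd D τ r1 R1 (2 * P * C * w ^ 2 * ε) := bR.mono (by rw [hcoh]; exact le_of_eq (by ring))
  -- step 2
  have bt1 : Bd D τ r1 t C := bt.rad hτ0 (by linarith) l10
  have bn1 : Bd D τ r1 n (C * u) := bn.rad hτ0 (by linarith) l10
  have bE1 : Bd D τ r1 (EE S) ε := hE.rad hτ0 (by linarith) l10
  have btR : Bd D τ r1 (t * R1) (C * (2 * P * C * w ^ 2 * ε)) := bt1.mul hτ0 (by linarith) bR1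
  have bEn : Bd D τ r1 (EE S * n) (ε * (C * u)) := bE1.mul hτ0 (by linarith) bn1
  have bA1 : Bd D τ r1 (om fun ω => (avg t ω)⁻¹) C := by
    rw [ht]
    exact hFr.fA.rad hτ0 (by linarith) l10
  have bc0' := ((btR.bdAvg hτ0 (by linarith)).sub (by linarith)
    (bEn.bdAvg hτ0 (by linarith))).mul hτ0 (by linarith) bA1
  obtain ⟨c0, hc0⟩ : ∃ c0 : ℝ → ℝ, c0 = fun ω => (avg (t * R1) ω - avg (EE S * n) ω) * (avg t ω)⁻¹ :=
    ⟨_, rfl⟩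
  have bc0 : Bd D τ r1 (om c0) (3 * P * C ^ 3 * u * w ^ 2 * ε) := by
    have e1 : (om (avg (t * R1)) - om (avg (EE S * n))) * (om fun ω => (avg t ω)⁻¹) = om c0 := by
      rw [hc0]
      rfl
    rw [e1] at bc0'
    refine bc0'.mono ?_
    have h1 := mo (by norm_num : (0:ℝ) ≤ 2) 1 3 0 2 1 3 1 2 1 (by omega) (by omega) (by omega) (by omega)
    have h2 := mo (by norm_num : (0:ℝ) ≤ 1) 0 2 1 0 1 3 1 2 1 (by omega) (by omega) (by omega) (by omega)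
    linarith
  obtain ⟨x2, hx2⟩ : ∃ x2 : ℝ → ℝ → ℝ, x2 = om c0 - R1 := ⟨_, rfl⟩
  have bx2 : Bd D τ r1 x2 (5 * P * C ^ 3 * u * w ^ 2 * ε) := by
    rw [hx2]
    refine (bc0.sub (by linarith) bR1).mono ?_
    have h1 := mo (by norm_num : (0:ℝ) ≤ 2) 1 1 0 2 1 3 1 2 1 (by omega) (by omega) (by omega) (by omega)
    linarith
  have ex2 : ∀ ω ∈ D, ∀ θ, x2 ω (θ + ω) = x2 ω θ - dd S ω (θ + ω) * EE S ω (θ + ω) := by
    intro ω hω θ
    have h1 := eR ω hω θ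
    have h2 : R1 ω (θ + ω) - R1 ω θ = dd S ω (θ + ω) * EE S ω (θ + ω) := h1
    rw [hx2]
    change c0 ω - R1 ω (θ + ω) = c0 ω - R1 ω θ - dd S ω (θ + ω) * EE S ω (θ + ω)
    linarith
  -- step 3
  have btx : Bd D τ r1 (t * x2) (C * (5 * P * C ^ 3 * u * w ^ 2 * ε)) := bt1.mul hτ0 (by linarith) bx2
  have bTEn := bEn.shT hτ0 hτ' (by linarith)
  have bG : Bd D τ r1 (t * x2 + T (EE S * n)) (7 * P * C ^ 4 * u * w ^ 2 * ε) := by
    refine (btx.add (by linarith) bTEn).mono ?_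
    have h1 := mo (by norm_num : (0:ℝ) ≤ 2) 0 1 1 0 1 4 1 2 1 (by omega) (by omega) (by omega) (by omega)
    linarith
  have hG0 : ∀ ω ∈ D, avg (t * x2 + T (EE S * n)) ω = 0 := by
    intro ω hω
    rw [avg_add (by linarith) btx bTEn hω, avg_T (by linarith) bEn hω]
    have e1 : t * x2 = om c0 * t - t * R1 := by
      rw [hx2]
      ring
    have b1 := bc0.mul hτ0 (by linarith) bt1
    rw [e1, avg_sub (by linarith) b1 btR hω, avg_om_mul, hc0]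
    have h1 : avg t ω ≠ 0 := by
      rw [ht]
      exact hFr.fA0 ω hω
    field_simp
    ring
  obtain ⟨x1, bx1', ex1⟩ := coh hγ hγ1 hτ0 hτ' hD hδ (by linarith) (by linarith : 2 ≤ r2) hr2.le bG hG0
  have bx1 : Bd D τ r2 x1 (7 * P ^ 2 * C ^ 4 * u * w ^ 4 * ε) :=
    bx1'.mono (by rw [hcoh]; exact le_of_eq (by ring))
  -- step 4
  have bs2 : Bd D τ r2 (dd S) C := bs.rad hτ0 (by linarith) l20
  have bn2 : Bd D τ r2 n (C * u) := bn.rad hτ0 (by linarith) l20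
  have bm2 : Bd D τ r2 m (C * u) := bm.rad hτ0 (by linarith) l20
  have ba2 : Bd D τ r2 (al S) 2 := ba.rad hτ0 (by linarith) l20
  have bx22 : Bd D τ r2 x2 (5 * P * C ^ 3 * u * w ^ 2 * ε) := bx2.rad hτ0 (by linarith) l21
  have bE2 : Bd D τ r2 (EE S) ε := hE.rad hτ0 (by linarith) l20
  obtain ⟨v, hv⟩ : ∃ v : ℝ → ℝ → ℝ, v = x1 * dd S + x2 * n := ⟨_, rfl⟩
  obtain ⟨M, hM⟩ : ∃ M : ℝ, M = 12 * P ^ 2 * C ^ 5 * u ^ 2 * w ^ 4 * ε := ⟨_, rfl⟩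
  have bv2 : Bd D τ r2 v M := by
    rw [hv, hM]
    refine ((bx1.mul hτ0 (by linarith) bs2).add (by linarith)
      (bx22.mul hτ0 (by linarith) bn2)).mono ?_
    have h1 := mo (by norm_num : (0:ℝ) ≤ 7) 2 5 1 4 2 5 2 4 1 (by omega) (by omega) (by omega) (by omega)
    have h2 := mo (by norm_num : (0:ℝ) ≤ 5) 1 4 2 2 2 5 2 4 1 (by omega) (by omega) (by omega) (by omega)
    linarith
  have bv : Bd D τ r' v M := bv2.rad hτ0 (by linarith) l'2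
  have bdv : Bd D τ r' (dd v) (7 / δ * M) :=
    bv2.deriv hτ0 hδ (by linarith) (by linarith) (by rw [← hr3]; exact hr3')
  have q1 : 1184 * P ^ 4 * C ^ 10 * ε / (ρ ^ 2 * δ ^ 4) =
      1184 * P ^ 4 * C ^ 10 * u ^ 2 * w ^ 4 * ε ^ 1 := by
    rw [hu, hw]
    field_simp
  have q2 : 1184 * P ^ 4 * C ^ 10 * ε / (ρ ^ 2 * δ ^ 5) =
      1184 * P ^ 4 * C ^ 10 * u ^ 2 * w ^ 5 * ε ^ 1 := by
    rw [hu, hw]
    field_simp
  have q3 : 1184 * P ^ 4 * C ^ 10 * ε ^ 2 / (ρ ^ 4 * δ ^ 8) =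
      1184 * P ^ 4 * C ^ 10 * u ^ 4 * w ^ 8 * ε ^ 2 := by
    rw [hu, hw]
    field_simp
  have hM16 : M ≤ 1 / 16 := by
    have h1 : 1184 * P ^ 4 * C ^ 10 * ε / (ρ ^ 2 * δ ^ 4) ≤ 1 := by
      rw [div_le_one (by positivity)]
      exact hsm
    rw [q1] at h1
    have h2 := mo (by norm_num : (0:ℝ) ≤ 12) 2 5 2 4 4 10 2 4 1 (by omega) (by omega) (by omega) (by omega)
    have h3 := mo (by norm_num : (0:ℝ) ≤ 1) 4 10 2 4 4 10 2 4 1 (by omega) (by omega) (by omega) (by omega)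
    have h4 : 0 ≤ P ^ 4 * C ^ 10 * u ^ 2 * w ^ 4 * ε ^ 1 := by positivity
    rw [hM]
    linarith
  refine ⟨v, ?_, ?_, ?_⟩
  · refine bv.mono ?_
    rw [q1, hM]
    have h2 := mo (by norm_num : (0:ℝ) ≤ 12) 2 5 2 4 4 10 2 4 1 (by omega) (by omega) (by omega) (by omega)
    have h4 : 0 ≤ P ^ 4 * C ^ 10 * u ^ 2 * w ^ 4 * ε ^ 1 := by positivity
    linarith
  · refine bdv.mono ?_
    rw [q2, hM, div_eq_mul_inv, ← hw]
    have h2 := mo (by norm_num : (0:ℝ) ≤ 84) 2 5 2 5 4 10 2 5 1 (by omega) (by omega) (by omega) (by omega)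
    have h4 : 0 ≤ P ^ 4 * C ^ 10 * u ^ 2 * w ^ 5 * ε ^ 1 := by positivity
    linarith
  -- step 5
  · have bF2 := hF.F2 r' hr'4 S v M (hFr.fS.rad hτ0 (by linarith) l'0) hM16 bv
    have bdE1 : Bd D τ r1 (dd (EE S)) (7 * w * ε) := by
      have h1 := hE.deriv hτ0 hδ (by linarith) (by linarith : 2 ≤ r1) hr1.le
      rw [div_eq_mul_inv, ← hw] at h1
      exact h1
    have bdE2 : Bd D τ r2 (dd (EE S)) (7 * w * ε) := bdE1.rad hτ0 (by linarith) l21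
    have hid : EqD D (dd (EE S) * (x1 - n * EE S - Ti (al S) * n * Ti n * Ti x2) +
        al S * m * T n * T (dd (EE S)) * x2)
        (EE S + (al S * T v + Ti (al S * v) - ka S * v)) := by
      intro ω hω θ
      have f5 := hF.F5 r g0 S bS ω hω
      have a1 : ∀ θ : ℝ, θ + ω - ω = θ := fun θ => by ring
      have a2 : ∀ θ : ℝ, θ - ω + ω = θ := fun θ => by ring
      have h1 : al S ω θ * dd S ω (θ + ω) + al S ω (θ - ω) * dd S ω (θ - ω) - ka S ω θ * dd S ω θ =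
        dd (EE S) ω θ := (f5 θ).symm
      have h1p : al S ω (θ + ω) * dd S ω (θ + ω + ω) + al S ω θ * dd S ω θ -
          ka S ω (θ + ω) * dd S ω (θ + ω) = dd (EE S) ω (θ + ω) := by
        have h2 : al S ω (θ + ω) * dd S ω (θ + ω + ω) + al S ω (θ + ω - ω) * dd S ω (θ + ω - ω) -
          ka S ω (θ + ω) * dd S ω (θ + ω) = dd (EE S) ω (θ + ω) := (f5 (θ + ω)).symm
        rw [a1] at h2
        exact h2
      have hb : al S ω θ * (dd S ω θ * m ω θ - dd S ω (θ + ω) * n ω θ) = 1 := hFr.fr ω hω θ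
      have hbp : al S ω (θ + ω) * (dd S ω (θ + ω) * m ω (θ + ω) - dd S ω (θ + ω + ω) * n ω (θ + ω)) = 1 :=
        hFr.fr ω hω (θ + ω)
      have hbq : al S ω (θ - ω) * (dd S ω (θ - ω) * m ω (θ - ω) - dd S ω θ * n ω (θ - ω)) = 1 := by
        have h2 : al S ω (θ - ω) * (dd S ω (θ - ω) * m ω (θ - ω) -
          dd S ω (θ - ω + ω) * n ω (θ - ω)) = 1 := hFr.fr ω hω (θ - ω)
        rw [a2] at h2
        exact h2
      have hc := ex2 ω hω θ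
      have hcq := ex2 ω hω (θ - ω)
      rw [a2] at hcq
      have hG : ∀ θ, x1 ω (θ + ω) - x1 ω θ = (al S ω (θ + ω) * m ω θ * m ω (θ + ω) -
          n ω (θ + ω) * (ka S ω (θ + ω) * m ω θ - al S ω θ * n ω θ)) * x2 ω θ +
          EE S ω (θ + ω) * n ω (θ + ω) := by
        intro θ
        have h2 := ex1 ω hω θ
        rw [ht] at h2
        exact h2
      have hd := hG θ
      have hdq := hG (θ - ω)
      rw [a2] at hdq
      have key := step_id h1 h1p hb hbp hbq hc hcq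
        (show x1 ω (θ + ω) = x1 ω θ + (al S ω (θ + ω) * m ω θ * m ω (θ + ω) -
          n ω (θ + ω) * (ka S ω (θ + ω) * m ω θ - al S ω θ * n ω θ)) * x2 ω θ +
          EE S ω (θ + ω) * n ω (θ + ω) by linarith)
        (show x1 ω θ = x1 ω (θ - ω) + (al S ω θ * m ω (θ - ω) * m ω θ -
          n ω θ * (ka S ω θ * m ω (θ - ω) - al S ω (θ - ω) * n ω (θ - ω))) * x2 ω (θ - ω) +
          EE S ω θ * n ω θ by linarith)
      rw [hv]
      change dd (EE S) ω θ * (x1 ω θ - n ω θ * EE S ω θ - al S ω (θ - ω) * n ω θ * n ω (θ - ω) *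
        x2 ω (θ - ω)) + al S ω θ * m ω θ * n ω (θ + ω) * dd (EE S) ω (θ + ω) * x2 ω θ =
        EE S ω θ + (al S ω θ * (x1 ω (θ + ω) * dd S ω (θ + ω) + x2 ω (θ + ω) * n ω (θ + ω)) +
          al S ω (θ - ω) * (x1 ω (θ - ω) * dd S ω (θ - ω) + x2 ω (θ - ω) * n ω (θ - ω)) -
          ka S ω θ * (x1 ω θ * dd S ω θ + x2 ω θ * n ω θ))
      linarith
    have bTa : Bd D τ r2 (Ti (al S)) (2 * 2) := ba2.shTi hτ0 hτ' (by linarith)
    have bTin : Bd D τ r2 (Ti n) (2 * (C * u)) := bn2.shTi hτ0 hτ' (by linarith)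
    have bTn : Bd D τ r2 (T n) (2 * (C * u)) := bn2.shT hτ0 hτ' (by linarith)
    have bTix := bx22.shTi hτ0 hτ' (by linarith)
    have bTdE := bdE2.shT hτ0 hτ' (by linarith)
    have g22 : 2 ≤ r2 := by linarith
    have g20 : 0 ≤ r2 := by linarith
    have b1 := (bx1.sub g20 (bn2.mul hτ0 g22 bE2)).sub g20
      (((bTa.mul hτ0 g22 bn2).mul hτ0 g22 bTin).mul hτ0 g22 bTix)
    have b2 := bdE2.mul hτ0 g22 b1
    have b3 := (((ba2.mul hτ0 g22 bm2).mul hτ0 g22 bTn).mul hτ0 g22 bTdE).mul hτ0 g22 bx22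
    have b4 := ((b2.add g20 b3).congr hid).rad hτ0 (by linarith) l'2
    have e5 : EE (S + v) = (EE (S + v) - EE S - (al S * T v + Ti (al S * v) - ka S * v)) +
        (EE S + (al S * T v + Ti (al S * v) - ka S * v)) := by ring
    rw [e5]
    refine (bF2.add (by linarith) b4).mono ?_
    rw [q3, hM]
    have h1 := mo (by norm_num : (0:ℝ) ≤ 288) 4 10 4 8 4 10 4 8 2 (by omega) (by omega) (by omega) (by omega)
    have h2 := mo (by norm_num : (0:ℝ) ≤ 49) 2 4 1 5 4 10 4 8 2 (by omega) (by omega) (by omega) (by omega)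
    have h3 := mo (by norm_num : (0:ℝ) ≤ 7) 0 1 1 1 4 10 4 8 2 (by omega) (by omega) (by omega) (by omega)
    have h4 := mo (by norm_num : (0:ℝ) ≤ 840) 1 5 3 3 4 10 4 8 2 (by omega) (by omega) (by omega) (by omega)
    linarith

end Pool.Agent.MP31f1e8.KM
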